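import Pool.Agent.Helper201_K3.Block

set_option autoImplicit false

namespace Pool.Agent.Helper201_K3


/-- next element of a cyclic list (elements outside the list are fixed) -/
def nx (l : List ℕ) (x : ℕ) : ℕ := if l.elem x then l.nextOr x (l.headD 0) else x

/-- no duplicates -/
def nd : List ℕ → Bool
  | [] => true
  | a :: t => !(t.elem a) && nd t

/-- Boolean check of a block given by lists of natural numbers. `rho` has `m+1` entries: entry 0 is the rotation at `none`, entry `i+1` the rotation at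
`some i` (cyclic lists of elements of {0, ..., n-1} = ZMod n); `tau` has `n` entries: entry v is the rotation at v (cyclic list of elements of {0, ..., m}:
0 stands for `none`, i+1 for `some i`). `a0` is `some 0`, so it has number 1. -/
def blkChk (m n : ℕ) (offs : List ℤ) (rho tau : List (List ℕ)) : Bool :=
  let off : List ℕ := offs.map (fun o => (o % (n : ℤ)).toNat)
  ((List.range (m + 1)).all fun a => nd (rho.getD a []) && (rho.getD a []).all fun x => decide (x < n)) &&
  ((List.range n).all fun v => nd (tau.getD v []) && (tau.getD v []).all fun a => decide (a < m + 1)) &&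
  ((List.range (m + 1)).all fun a => (List.range n).all fun v =>
    ((rho.getD a []).elem v == !(a == 1 && off.elem v)) &&
    ((tau.getD v []).elem a == !(a == 1 && off.elem v)) &&
    (let a' := nx (tau.getD v []) a
     let v' := nx (rho.getD a' []) v
     let a'' := nx (tau.getD v' []) a'
     decide (a' < m + 1) && decide (v' < n) && a'' == a && nx (rho.getD a'' []) v' == v)) &&
  ((List.range n).all fun v => (nx (rho.getD 0 []) v == (v + (n - 1)) % n) && !(nx (tau.getD v []) 0 == 0)) &&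
  nx (tau.getD 0 []) 1 == 0 && nx (tau.getD (n - 1) []) 0 == 1 && nx (rho.getD 1 []) (n - 1) == 0

theorem nd_nodup : ∀ l : List ℕ, nd l = true → l.Nodup
  | [], _ => List.nodup_nil
  | a :: t, h => by
    simp only [nd, Bool.and_eq_true, Bool.not_eq_true', List.elem_eq_mem, decide_eq_false_iff_not] at h
    exact List.nodup_cons.mpr ⟨h.1, nd_nodup t h.2⟩

theorem nx_formPerm {α : Type} [DecidableEq α] (f : ℕ → α) (S : Set ℕ) (hf : Set.InjOn f S)
    (l : List ℕ) (hl : l.Nodup) (hlS : ∀ x ∈ l, x ∈ S) (x : ℕ) (hx : x ∈ S) :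
    List.formPerm (l.map f) (f x) = f (nx l x) := by
  by_cases hxl : x ∈ l
  · obtain ⟨i, hi, rfl⟩ := List.getElem_of_mem hxl
    have hnd : (l.map f).Nodup := by
      rw [List.nodup_map_iff_inj_on hl]
      intro a ha b hb hab
      exact hf (hlS a ha) (hlS b hb) hab
    have h1 := List.formPerm_apply_getElem (l.map f) hnd i (by simpa using hi)
    simp only [List.getElem_map, List.length_map] at h1
    rw [h1]
    congr 1
    have h2 := List.next_getElem l hl i hi
    rw [← h2]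
    unfold nx List.next
    rw [if_pos (by simp)]
    congr 1
    cases l with
    | nil => simp at hi
    | cons a t => rfl
  · have h1 : f x ∉ l.map f := by
      intro h
      obtain ⟨y, hy, hyx⟩ := List.mem_map.mp h
      exact hxl (hf (hlS y hy) hx hyx ▸ hy)
    rw [List.formPerm_apply_of_notMem h1]
    unfold nx
    rw [if_neg (by simpa using hxl)]

theorem sameCycle_formPerm {α : Type} [DecidableEq α] (l : List α) (hl : l.Nodup) (x y : α)
    (hx : x ∈ l) (hy : y ∈ l) : (List.formPerm l).SameCycle x y := by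
  obtain ⟨i, hi, rfl⟩ := List.getElem_of_mem hx
  obtain ⟨j, hj, rfl⟩ := List.getElem_of_mem hy
  refine ⟨((l.length - i + j : ℕ) : ℤ), ?_⟩
  rw [zpow_natCast, List.formPerm_pow_apply_getElem l hl]
  congr 1
  have : i + (l.length - i + j) = l.length + j := by omega
  rw [this, Nat.add_mod_left, Nat.mod_eq_of_lt hj]

/-- the vertex with number `k` -/
def gg (m : ℕ) : ℕ → Option (Fin m)
  | 0 => none
  | i + 1 => if h : i < m then some ⟨i, h⟩ else none

/-- the number of a vertex -/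
def gi (m : ℕ) : Option (Fin m) → ℕ
  | none => 0
  | some i => i.1 + 1

theorem gi_lt (m : ℕ) (a : Option (Fin m)) : gi m a < m + 1 := by
  cases a with
  | none => simp [gi]
  | some i => simp [gi]

theorem gg_gi (m : ℕ) (a : Option (Fin m)) : gg m (gi m a) = a := by
  cases a with
  | none => rfl
  | some i => simp [gi, gg]

theorem gi_gg (m : ℕ) (k : ℕ) (hk : k < m + 1) : gi m (gg m k) = k := by
  cases k with
  | zero => rfl
  | succ i =>
    have h : i < m := by omega
    simp [gi, gg, h]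

theorem gg_inj (m : ℕ) : Set.InjOn (gg m) {k | k < m + 1} := by
  intro a ha b hb hab
  rw [← gi_gg m a ha, ← gi_gg m b hb, hab]

theorem cast_inj (n : ℕ) (_ : 3 ≤ n) : Set.InjOn (fun k : ℕ => (k : ZMod n)) {k | k < n} := by
  intro a ha b hb hab
  have h := congrArg ZMod.val hab
  simp only at h
  rwa [ZMod.val_natCast_of_lt ha, ZMod.val_natCast_of_lt hb] at h

theorem Blk_of_chk (m n : ℕ) (hm : 2 ≤ m) (hn : 3 ≤ n) (offs : List ℤ) (rho tau : List (List ℕ)) (h : blkChk m n offs rho tau = true) : Blk m n offs := by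
  have : NeZero n := ⟨by omega⟩
  unfold blkChk at h
  simp only [Bool.and_eq_true, List.all_eq_true, List.mem_range, decide_eq_true_eq, beq_iff_eq,
    Bool.not_eq_true', beq_eq_false_iff_ne] at h
  obtain ⟨⟨⟨⟨⟨⟨h1, h2⟩, h3⟩, h4⟩, h5⟩, h6⟩, h7⟩ := h
  set R : ℕ → List ℕ := fun a => rho.getD a [] with hR
  set Tt : ℕ → List ℕ := fun v => tau.getD v [] with hT
  let f : ℕ → ZMod n := fun k => (k : ZMod n)
  have hfval : ∀ v : ZMod n, f v.val = v := fun v => ZMod.natCast_zmod_val v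
  have hvalf : ∀ v : ℕ, v < n → (f v).val = v := fun v hv => ZMod.val_natCast_of_lt hv
  let R1 : BRot (Option (Fin m)) (ZMod n) :=
    ⟨fun a => List.formPerm ((R (gi m a)).map f), fun v => List.formPerm ((Tt v.val).map (gg m))⟩
  have hRnd : ∀ a, a < m + 1 → (R a).Nodup := fun a ha => nd_nodup _ (h1 a ha).1
  have hTnd : ∀ v, v < n → (Tt v).Nodup := fun v hv => nd_nodup _ (h2 v hv).1
  have hρ : ∀ a v, a < m + 1 → v < n → R1.ρ (gg m a) (f v) = f (nx (R a) v) := by
    intro a v ha hv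
    change List.formPerm ((R (gi m (gg m a))).map f) (f v) = _
    rw [gi_gg m a ha]
    exact nx_formPerm f {k | k < n} (cast_inj n hn) (R a) (hRnd a ha) (fun x hx => (h1 a ha).2 x hx) v hv
  have hτ : ∀ a v, a < m + 1 → v < n → R1.τ (f v) (gg m a) = gg m (nx (Tt v) a) := by
    intro a v ha hv
    change List.formPerm ((Tt (f v).val).map (gg m)) (gg m a) = _
    rw [hvalf v hv]
    exact nx_formPerm (gg m) {k | k < m + 1} (gg_inj m) (Tt v) (hTnd v hv) (fun x hx => (h2 v hv).2 x hx) a ha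
  have hoff : ∀ v : ZMod n, (∃ o ∈ offs, v = (o : ZMod n)) ↔
      (offs.map (fun o => (o % (n : ℤ)).toNat)).elem v.val = true := by
    intro v
    rw [List.elem_eq_mem, decide_eq_true_eq, List.mem_map]
    refine exists_congr fun o => and_congr_right fun _ => ?_
    have e : ((o : ZMod n).val : ℤ) = o % n := ZMod.val_intCast o
    constructor
    · rintro rfl
      rw [← e, Int.toNat_natCast]
    · intro h
      apply ZMod.val_injective n
      rw [← h, ← e, Int.toNat_natCast]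
  have ha1 : ∀ a : Option (Fin m), a = some ⟨0, by omega⟩ ↔ gi m a = 1 := by
    intro a
    constructor
    · rintro rfl
      rfl
    · intro h
      rw [← gg_gi m a, h]
      have : 0 < m := by omega
      simp [gg, this]
  -- the edges
  have hE : ∀ (a : Option (Fin m)) (v : ZMod n),
      ((¬ (a = some ⟨0, by omega⟩ ∧ ∃ o ∈ offs, v = (o : ZMod n))) ↔ v.val ∈ R (gi m a)) ∧
      ((¬ (a = some ⟨0, by omega⟩ ∧ ∃ o ∈ offs, v = (o : ZMod n))) ↔ gi m a ∈ Tt v.val) := by
    intro a v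
    obtain ⟨⟨g1, g2⟩, -⟩ := h3 (gi m a) (gi_lt m a) v.val (ZMod.val_lt v)
    rw [ha1, hoff]
    constructor
    · rw [← List.elem_iff (as := R (gi m a)), g1]
      simp
      tauto
    · rw [← List.elem_iff (as := Tt v.val), g2]
      simp
      tauto
  have hmemR : ∀ (a : Option (Fin m)) (v : ZMod n), v ∈ (R (gi m a)).map f ↔ v.val ∈ R (gi m a) := by
    intro a v
    rw [List.mem_map]
    constructor
    · rintro ⟨x, hx, rfl⟩
      rwa [hvalf x ((h1 _ (gi_lt m a)).2 x hx)]
    · intro hv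
      exact ⟨v.val, hv, hfval v⟩
  have hmemT : ∀ (a : Option (Fin m)) (v : ZMod n), a ∈ (Tt v.val).map (gg m) ↔ gi m a ∈ Tt v.val := by
    intro a v
    rw [List.mem_map]
    constructor
    · rintro ⟨x, hx, rfl⟩
      rwa [gi_gg m x ((h2 _ (ZMod.val_lt v)).2 x hx)]
    · intro hv
      exact ⟨gi m a, hv, gg_gi m a⟩
  have hRmnd : ∀ a : Option (Fin m), ((R (gi m a)).map f).Nodup := by
    intro a
    rw [List.nodup_map_iff_inj_on (hRnd _ (gi_lt m a))]
    intro x hx y hy hxy
    exact cast_inj n hn ((h1 _ (gi_lt m a)).2 x hx) ((h1 _ (gi_lt m a)).2 y hy) hxy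
  have hTmnd : ∀ v : ZMod n, ((Tt v.val).map (gg m)).Nodup := by
    intro v
    rw [List.nodup_map_iff_inj_on (hTnd _ (ZMod.val_lt v))]
    intro x hx y hy hxy
    exact gg_inj m ((h2 _ (ZMod.val_lt v)).2 x hx) ((h2 _ (ZMod.val_lt v)).2 y hy) hxy
  have hm0 : (0 : ℕ) < m := by omega
  have hg1 : gg m 1 = some ⟨0, hm0⟩ := by simp [gg, hm0]
  have hfn1 : f (n - 1) = -1 := by
    change (((n - 1 : ℕ)) : ZMod n) = -1
    rw [Nat.cast_sub (by omega)]
    simp
  refine ⟨R1, ⟨0, hm0⟩, ⟨?_, ?_, ?_⟩, ?_, ?_, ?_, ?_, ?_, ?_⟩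
  · intro a v hav
    refine ⟨List.formPerm_apply_of_notMem ?_, List.formPerm_apply_of_notMem ?_⟩
    · rw [hmemR, ← (hE a v).1]; exact hav
    · rw [hmemT, ← (hE a v).2]; exact hav
  · intro a v w hav haw
    refine sameCycle_formPerm _ (hRmnd a) v w ?_ ?_
    · rw [hmemR, ← (hE a v).1]; exact hav
    · rw [hmemR, ← (hE a w).1]; exact haw
  · intro v a b hav hbv
    refine sameCycle_formPerm _ (hTmnd v) a b ?_ ?_
    · rw [hmemT, ← (hE a v).2]; exact hav
    · rw [hmemT, ← (hE b v).2]; exact hbv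
  · intro v
    have e1 := hρ 0 v.val (by omega) (ZMod.val_lt v)
    rw [hfval] at e1
    have e2 := (h4 v.val (ZMod.val_lt v)).1
    change R1.ρ (gg m 0) v = _
    rw [e1]
    change f (nx (rho.getD 0 []) v.val) = _
    rw [e2]
    change (((v.val + (n - 1)) % n : ℕ) : ZMod n) = v - 1
    rw [ZMod.natCast_mod, Nat.cast_add, ZMod.natCast_zmod_val]
    change v + f (n - 1) = v - 1
    rw [hfn1, sub_eq_add_neg]
  · rintro ⟨a, v⟩
    obtain ⟨-, ⟨⟨⟨g1, g2⟩, g3⟩, g4⟩⟩ := h3 (gi m a) (gi_lt m a) v.val (ZMod.val_lt v)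
    have e1 : (a, v) = (gg m (gi m a), f v.val) := by rw [gg_gi, hfval]
    have face_eq : ∀ (b w : ℕ), b < m + 1 → w < n → nx (Tt w) b < m + 1 →
        R1.face (gg m b, f w) = (gg m (nx (Tt w) b), f (nx (R (nx (Tt w) b)) w)) := by
      intro b w hb hw hb'
      change (R1.τ (f w) (gg m b), R1.ρ (R1.τ (f w) (gg m b)) (f w)) = _
      rw [hτ b w hb hw, hρ _ w hb' hw]
    rw [e1, face_eq _ _ (gi_lt m a) (ZMod.val_lt v) g1]
    have g3' : nx (Tt (nx (R (nx (Tt v.val) (gi m a))) v.val)) (nx (Tt v.val) (gi m a)) = gi m a := g3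
    rw [face_eq _ _ g1 g2 (by rw [g3']; exact gi_lt m a)]
    rw [g3']
    have g4' : nx (R (nx (Tt (nx (R (nx (Tt v.val) (gi m a))) v.val)) (nx (Tt v.val) (gi m a))))
      (nx (R (nx (Tt v.val) (gi m a))) v.val) = v.val := g4
    rw [g3'] at g4'
    rw [g4']
  · intro v
    have e1 := hτ 0 v.val (by omega) (ZMod.val_lt v)
    rw [hfval] at e1
    have e2 := (h4 v.val (ZMod.val_lt v)).2
    intro h0
    have e3 : gg m (nx (Tt v.val) 0) = none := by rw [← e1]; exact h0
    have e4 : nx (Tt v.val) 0 < m + 1 := (h3 0 (by omega) v.val (ZMod.val_lt v)).2.1.1.1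
    have e5 := gi_gg m _ e4
    rw [e3] at e5
    exact e2 e5.symm
  · have e1 := hτ 1 0 (by omega) (by omega)
    rw [hg1] at e1
    have e2 : nx (Tt 0) 1 = 0 := h5
    rw [e2] at e1
    have e3 : f 0 = 0 := Nat.cast_zero
    rw [e3] at e1
    exact e1
  · have e1 := hτ 0 (n - 1) (by omega) (by omega)
    have e2 : nx (Tt (n - 1)) 0 = 1 := h6
    rw [e2, hfn1, hg1] at e1
    exact e1
  · have e1 := hρ 1 (n - 1) (by omega) (by omega)
    have e2 : nx (R 1) (n - 1) = 0 := h7
    rw [e2, hfn1, hg1] at e1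
    rw [e1]
    exact Nat.cast_zero

example : blkChk 2 7 [-2] [[0, 6, 5, 4, 3, 2, 1], [0, 3, 4, 1, 2, 6], [0, 1, 4, 5, 6, 2, 3]]
    [[0, 2, 1], [0, 1, 2], [0, 2, 1], [0, 1, 2], [0, 2, 1], [0, 2], [0, 1, 2]] = true := by
  decide +kernel

example : blkChk 3 11 [4, 9] [[0, 10, 9, 8, 7, 6, 5, 4, 3, 2, 1], [0, 5, 6, 7, 8, 2, 3, 1, 10],
    [0, 1, 3, 2, 8, 4, 5, 6, 7, 9, 10], [0, 10, 1, 2, 3, 4, 8, 9, 7, 6, 5]]
    [[0, 2, 3, 1], [0, 3, 1, 2], [0, 1, 2, 3], [0, 3, 2, 1], [0, 2, 3], [0, 1, 3, 2], [0, 2, 3, 1],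
     [0, 1, 3, 2], [0, 3, 2, 1], [0, 2, 3], [0, 1, 3, 2]] = true := by
  decide +kernel

example : blkChk 4 7 [1, 2, 5] [[0, 6, 5, 4, 3, 2, 1], [0, 4, 3, 6], [0, 6, 3, 4, 1, 2, 5],
    [0, 1, 3, 4, 5, 2, 6], [0, 5, 6, 2, 3, 1, 4]]
    [[0, 3, 2, 4, 1], [0, 2, 4, 3], [0, 4, 3, 2], [0, 2, 1, 3, 4], [0, 3, 1, 4, 2], [0, 4, 2, 3],
     [0, 1, 2, 3, 4]] = true := by
  decide +kernel

end Pool.Agent.Helper201_K3
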