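import Pool.Agent.Helper201_K3.Ringel

set_option autoImplicit false

namespace Pool.Agent.Helper201_K3


/-- Blocks: `K_{m+1,n}`, first part `Option (Fin m)`, second part `ZMod n`, minus the edges from one vertex `some a0` to the vertices `o`,
`o ∈ offs`; all faces quadrangles; the rotation at `none` is `v ↦ v - 1`; `none, 0, a0, -1` is a face. -/
def Blk (m n : ℕ) (offs : List ℤ) : Prop :=
  ∃ (R1 : BRot (Option (Fin m)) (ZMod n)) (a0 : Fin m),
    R1.PTrans (fun a v => ¬ (a = some a0 ∧ ∃ o ∈ offs, v = (o : ZMod n))) ∧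
    (∀ v, R1.ρ none v = v - 1) ∧ (∀ d, R1.face (R1.face d) = d) ∧ (∀ v, R1.τ v none ≠ none) ∧
    R1.τ 0 (some a0) = none ∧ R1.τ (-1) none = some a0 ∧ R1.ρ (some a0) (-1) = 0


section Grow

variable {A N A' N' : Type}

/-- relabelling -/
def BRot.rel (R : BRot A N) (e : A ≃ A') (f : N ≃ N') : BRot A' N' where
  ρ a := f.permCongr (R.ρ (e.symm a))
  τ x := e.permCongr (R.τ (f.symm x))

theorem grow_quad_iff (R : BRot A N) : (∀ d, R.face (R.face d) = d) ↔
    ∀ a x, R.τ (R.ρ (R.τ x a) x) (R.τ x a) = a ∧ R.ρ a (R.ρ (R.τ x a) x) = x := by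
  constructor
  · intro h a x
    have h1 := h (a, x)
    have h2 : R.face (R.face (a, x)) = (R.τ (R.ρ (R.τ x a) x) (R.τ x a),
      R.ρ (R.τ (R.ρ (R.τ x a) x) (R.τ x a)) (R.ρ (R.τ x a) x)) := rfl
    rw [h2, Prod.mk.injEq] at h1
    obtain ⟨h3, h4⟩ := h1
    refine ⟨h3, ?_⟩
    rw [h3] at h4
    exact h4
  · rintro h ⟨a, x⟩
    obtain ⟨h3, h4⟩ := h a x
    have h2 : R.face (R.face (a, x)) = (R.τ (R.ρ (R.τ x a) x) (R.τ x a),
      R.ρ (R.τ (R.ρ (R.τ x a) x) (R.τ x a)) (R.ρ (R.τ x a) x)) := rfl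
    rw [h2, h3, h4]

theorem grow_quad_rel (R : BRot A N) (e : A ≃ A') (f : N ≃ N') (h : ∀ d, R.face (R.face d) = d) :
    ∀ d, (R.rel e f).face ((R.rel e f).face d) = d := by
  rw [grow_quad_iff] at h ⊢
  intro a x
  have h1 := h (e.symm a) (f.symm x)
  constructor
  · simp only [BRot.rel, Equiv.permCongr_apply, Equiv.symm_apply_apply]
    rw [h1.1, Equiv.apply_symm_apply]
  · simp only [BRot.rel, Equiv.permCongr_apply, Equiv.symm_apply_apply]
    rw [h1.2, Equiv.apply_symm_apply]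

theorem grow_quad_flip (R : BRot A N) (h : ∀ d, R.face (R.face d) = d) :
    ∀ d, R.flip.face (R.flip.face d) = d := by
  rw [grow_quad_iff] at h ⊢
  intro x a
  -- the flipped system: `x → a`
  have h1 := h ((R.τ x).symm a) x
  rw [Equiv.apply_symm_apply] at h1
  show R.ρ (R.τ (R.ρ a x) a) (R.ρ a x) = x ∧ R.τ x (R.τ (R.ρ a x) a) = a
  have h2 : R.τ (R.ρ a x) a = (R.τ x).symm a := h1.1
  rw [h2]
  exact ⟨h1.2, Equiv.apply_symm_apply _ _⟩

theorem grow_sameCycle (f : N ≃ N') (p : Equiv.Perm N) (x y : N') :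
    (f.permCongr p).SameCycle x y ↔ p.SameCycle (f.symm x) (f.symm y) := by
  have key : ∀ i : ℤ, (f.permCongr p) ^ i = f.permCongr (p ^ i) := by
    intro i
    exact (map_zpow (Equiv.permCongrHom f) p i).symm
  unfold Equiv.Perm.SameCycle
  constructor
  · rintro ⟨i, hi⟩
    refine ⟨i, ?_⟩
    rw [key, Equiv.permCongr_apply] at hi
    rw [← hi, Equiv.symm_apply_apply]
  · rintro ⟨i, hi⟩
    refine ⟨i, ?_⟩
    rw [key, Equiv.permCongr_apply, hi, Equiv.apply_symm_apply]

theorem grow_ptrans_rel (R : BRot A N) (E : A → N → Prop) (e : A ≃ A') (f : N ≃ N')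
    (h : R.PTrans E) : (R.rel e f).PTrans (fun a x => E (e.symm a) (f.symm x)) := by
  obtain ⟨h1, h2, h3⟩ := h
  refine ⟨?_, ?_, ?_⟩
  · intro a x hax
    obtain ⟨h4, h5⟩ := h1 _ _ hax
    constructor
    · simp only [BRot.rel, Equiv.permCongr_apply]
      rw [h4, Equiv.apply_symm_apply]
    · simp only [BRot.rel, Equiv.permCongr_apply]
      rw [h5, Equiv.apply_symm_apply]
  · intro a x y hx hy
    exact (grow_sameCycle f _ x y).mpr (h2 _ _ _ hx hy)
  · intro x a b ha hb
    exact (grow_sameCycle e _ a b).mpr (h3 _ _ _ ha hb)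

theorem grow_ptrans_flip (R : BRot A N) (E : A → N → Prop) (h : R.PTrans E) :
    R.flip.PTrans (fun x a => E a x) := by
  obtain ⟨h1, h2, h3⟩ := h
  exact ⟨fun x a hxa => ⟨(h1 a x hxa).2, (h1 a x hxa).1⟩, fun x a b ha hb => h3 x a b ha hb,
    fun a x y hx hy => h2 a x y hx hy⟩

/-- numbering of the elements of a single cycle -/
theorem grow_number [Fintype A] (σ : Equiv.Perm A) (h : ∀ x y, σ.SameCycle x y) (x0 : A) (c : ℕ)
    (hc : Fintype.card A = c) : ∃ e : ZMod c ≃ A, ∀ i : ℤ, e (i : ZMod c) = (σ ^ i) x0 := by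
  have horb : ∀ y : A, y ∈ MulAction.orbit (Subgroup.zpowers σ) x0 := by
    intro y
    obtain ⟨i, hi⟩ := h x0 y
    exact ⟨⟨σ ^ i, ⟨i, rfl⟩⟩, hi⟩
  let E : MulAction.orbit (Subgroup.zpowers σ) x0 ≃ A :=
    (Equiv.setCongr (Set.eq_univ_of_forall horb)).trans (Equiv.Set.univ A)
  have hmp : Function.minimalPeriod (σ • ·) x0 = c := by
    have h1 := Nat.card_congr (MulAction.orbitZPowersEquiv σ x0)
    rw [Nat.card_zmod, Nat.card_congr E, Nat.card_eq_fintype_card, hc] at h1
    exact h1.symm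
  rw [← hmp]
  refine ⟨(MulAction.orbitZPowersEquiv σ x0).symm.trans E, ?_⟩
  intro i
  rw [Equiv.trans_apply, MulAction.orbitZPowersEquiv_symm_apply']
  show ((((⟨σ, Subgroup.mem_zpowers σ⟩ : Subgroup.zpowers σ) ^ i) • (⟨x0, MulAction.mem_orbit_self x0⟩ :
    MulAction.orbit (Subgroup.zpowers σ) x0) : MulAction.orbit (Subgroup.zpowers σ) x0) : A) = (σ ^ i) x0
  rw [MulAction.orbit.coe_smul]
  rfl

theorem grow_conj [Fintype A] [Fintype A'] (σ : Equiv.Perm A) (σ' : Equiv.Perm A')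
    (h : ∀ x y, σ.SameCycle x y) (h' : ∀ x y, σ'.SameCycle x y) (x0 : A)
    (hc : Fintype.card A = Fintype.card A') : ∃ g : A ≃ A', g.permCongr σ = σ' := by
  have hne : Nonempty A' := by
    rw [← Fintype.card_pos_iff, ← hc, Fintype.card_pos_iff]
    exact ⟨x0⟩
  obtain ⟨y0⟩ := hne
  obtain ⟨e, he⟩ := grow_number σ h x0 _ hc
  obtain ⟨e', he'⟩ := grow_number σ' h' y0 _ rfl
  refine ⟨e.symm.trans e', ?_⟩
  ext y
  obtain ⟨v, rfl⟩ := e'.surjective y
  obtain ⟨i, rfl⟩ := ZMod.intCast_surjective v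
  rw [Equiv.permCongr_apply]
  simp only [Equiv.symm_trans_apply, Equiv.symm_apply_apply, Equiv.trans_apply]
  have h1 : σ (e (i : ZMod _)) = e ((i + 1 : ℤ) : ZMod _) := by
    rw [he, he, zpow_add, zpow_one, ← Equiv.Perm.mul_apply, (Commute.refl σ).zpow_right i |>.eq]
  have h2 : σ' (e' (i : ZMod _)) = e' ((i + 1 : ℤ) : ZMod _) := by
    rw [he', he', zpow_add, zpow_one, ← Equiv.Perm.mul_apply, (Commute.refl σ').zpow_right i |>.eq]
  rw [Equiv.symm_symm, h1, h2, Equiv.symm_apply_apply]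

theorem grow_nofix [Nontrivial A] (σ : Equiv.Perm A) (h : ∀ x y, σ.SameCycle x y) (x : A) :
    σ x ≠ x := by
  intro hx
  obtain ⟨y, hy⟩ := exists_ne x
  obtain ⟨i, hi⟩ := h x y
  apply hy
  rw [← hi]
  exact Equiv.Perm.zpow_apply_eq_self_of_apply_eq_self hx i

/-- quadrangular sums -/
theorem grow_sum {A1 A2 N : Type} [Fintype A1] [Fintype A2] [Fintype N]
    (R1 : BRot (Option A1) N) (R2 : BRot (Option A2) N)
    (E1 : Option A1 → N → Prop) (E2 : Option A2 → N → Prop)
    (h1 : R1.PTrans E1) (h2 : R2.PTrans E2) (n1 : ∀ x, E1 none x) (n2 : ∀ x, E2 none x)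
    (ne1 : ∀ x, R1.τ x none ≠ none) (ne2 : ∀ x, R2.τ x none ≠ none)
    (hopp : ∀ x, R2.ρ none (R1.ρ none x) = x)
    (hq1 : ∀ d, R1.face (R1.face d) = d) (hq2 : ∀ d, R2.face (R2.face d) = d) :
    ∃ R : BRot (A1 ⊕ A2) N,
      R.PTrans (Sum.elim (fun a => E1 (some a)) (fun a => E2 (some a))) ∧
      (∀ a, R.ρ (Sum.inl a) = R1.ρ (some a)) ∧ (∀ a, R.ρ (Sum.inr a) = R2.ρ (some a)) ∧
      (∀ x a a', R2.τ x (some a) = some a' → R.τ x (Sum.inr a) = Sum.inr a') ∧
      (∀ d, R.face (R.face d) = d) := by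
  obtain ⟨R, hR, r1, r2, t1, t2, t3, t4, -⟩ := sum_exists R1 R2 E1 E2 h1 h2 n1 n2 ne1 ne2 hopp
    (fun x => hq1 (none, x))
  refine ⟨R, hR, r1, r2, t3, ?_⟩
  rw [grow_quad_iff] at hq1 hq2 ⊢
  intro a x
  rcases a with a | a
  · rcases hb : R1.τ x (some a) with _ | b
    · obtain ⟨b, hb2⟩ := Option.ne_none_iff_exists'.mp (ne2 x)
      rw [t2 x a b hb hb2, r2, r1]
      have q1 := hq1 (some a) x
      rw [hb] at q1
      have q2 := hq2 none x
      rw [hb2] at q2
      have hy : R2.ρ (some b) x = R1.ρ none x :=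
        (R2.ρ none).injective (by rw [q2.2, hopp])
      rw [hy]
      rw [hy] at q2
      exact ⟨t4 _ b a q2.1 q1.1, q1.2⟩
    · rw [t1 x a b hb, r1, r1]
      have q1 := hq1 (some a) x
      rw [hb] at q1
      exact ⟨t1 _ b a q1.1, q1.2⟩
  · rcases hb : R2.τ x (some a) with _ | b
    · obtain ⟨b, hb2⟩ := Option.ne_none_iff_exists'.mp (ne1 x)
      rw [t4 x a b hb hb2, r1, r2]
      have q2 := hq2 (some a) x
      rw [hb] at q2
      have q1 := hq1 none x
      rw [hb2] at q1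
      have hy : R1.ρ (some b) x = R2.ρ none x := by
        have := hopp (R1.ρ (some b) x)
        rw [q1.2] at this
        exact this.symm
      rw [hy]
      rw [hy] at q1
      exact ⟨t2 _ b a q1.1 q2.1, q2.2⟩
    · rw [t3 x a b hb, r2, r2]
      have q2 := hq2 (some a) x
      rw [hb] at q2
      exact ⟨t3 _ b a q2.1, q2.2⟩

end Grow

/-
TARGET Blk_grow: replace the vertex z := `pz` (as element of ZMod n), which is not 0, -1 or one of the offsets, by five vertices.
PROOF. z is joined to all m+1 vertices of A = Option (Fin m). Use sum_exists for the flipped systems (the two parts exchanged): its R1 :=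
(quadrangular K_{6,m+1} from quad6, one of the 6 vertices called none, the other part relabelled so that its rotation is the inverse
of the rotation of the block at z; any two (m+1)-cycles are conjugate), its R2 := the flipped block with `none` := z, its N := A.
[BRot.flip exchanges the parts; face of the flip: the flip of a quadrangular system is quadrangular.]
Result: a rotation system with second part (5 vertices) ⊕ (ZMod n minus z). The rules of sum_exists for τ say: the rotation at a vertex a ∈ A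
is that of the block at a, with z replaced by a string of the five new vertices. So the rotation at `none` (∈ A) is a cycle on n + 4 elements in
which z is replaced by a string of five: number the vertices by ZMod (n+4) so that this rotation is v ↦ v - 1 and the old vertex 0 is 0:
the old vertices o with 0 ≤ o < pz (integers) keep their number, and the old vertices -1, -2, ..., -(n-1-pz) keep their number (negative integers).
Missing edges: the same. All faces are quadrangles: count with ncyc (sum_exists only gives an inequality for ncyc: the system has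
(m+1)(n+4) - |offs| edges plus |offs| fixed points, a permutation with no other fixed points and with at least that many cycles is an involution), or
better: show face (face d) = d directly from the rules. The quadrangle none, 0, a0, -1 is kept because 0, -1 ≠ z (rules for τ, ρ unchanged).
-/
theorem Blk_grow (m n : ℕ) (hm : 1 ≤ m) (offs : List ℤ) (pz : ℕ) (h0 : 0 < pz) (h1 : pz + 1 < n)
    (ho : ∀ o ∈ offs, (0 < o ∧ o < pz) ∨ (o < -1 ∧ (pz : ℤ) < n + o)) (h : Blk m n offs) : Blk m (n + 4) offs := by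
  classical
  have hn0 : NeZero n := ⟨by omega⟩
  have hm0 : Nonempty (Fin m) := ⟨⟨0, by omega⟩⟩
  obtain ⟨B, a0, hB, hρ, hq, hne, c1, c2, c3⟩ := h
  obtain ⟨z, hz⟩ : ∃ z : ZMod n, z = ((pz : ℤ) : ZMod n) := ⟨_, rfl⟩
  have hzne : ∀ o : ℤ, (0 ≤ o ∧ o < pz) ∨ (o < 0 ∧ (pz : ℤ) < n + o) → (o : ZMod n) ≠ z := by
    intro o ho he
    rw [hz, ZMod.intCast_eq_intCast_iff_dvd_sub] at he
    obtain ⟨k, hk⟩ := he
    have hk1 : 0 < (n : ℤ) * k := by rw [← hk]; rcases ho with ho | ho <;> omega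
    have hk2 : (n : ℤ) * k < n := by rw [← hk]; rcases ho with ho | ho <;> omega
    have hk3 : 0 < k := by
      by_contra hcon
      have : (n : ℤ) * k ≤ 0 := mul_nonpos_of_nonneg_of_nonpos (by omega) (by omega)
      omega
    nlinarith
  have hone : ∀ o ∈ offs, (0 : ZMod n) ≠ (o : ZMod n) := by
    intro o hoo he
    have he' : ((0 : ℤ) : ZMod n) = (o : ZMod n) := by simpa using he
    rw [ZMod.intCast_eq_intCast_iff_dvd_sub, sub_zero] at he'
    have h3 := ho o hoo
    have h4 : |o| < n := by rw [abs_lt]; rcases h3 with h3 | h3 <;> constructor <;> omega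
    have h5 := Int.eq_zero_of_abs_lt_dvd he' h4
    rcases h3 with h3 | h3 <;> omega
  have hoff : ∀ o ∈ offs, (0 ≤ o ∧ o < pz) ∨ (o < 0 ∧ (pz : ℤ) < n + o) := by
    intro o hoo
    rcases ho o hoo with h3 | h3
    · left; omega
    · right; omega
  have h0z : (0 : ZMod n) ≠ z := by
    have := hzne 0 (Or.inl (by omega))
    simpa using this
  have hm1z : (-1 : ZMod n) ≠ z := by
    have := hzne (-1) (Or.inr (by omega))
    simpa using this
  have hEz : ∀ a : Option (Fin m), ¬ (a = some a0 ∧ ∃ o ∈ offs, z = (o : ZMod n)) := by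
    rintro a ⟨-, o, hoo, he⟩
    exact hzne o (hoff o hoo) he.symm
  have hE0 : ∀ a : Option (Fin m), ¬ (a = some a0 ∧ ∃ o ∈ offs, (0 : ZMod n) = (o : ZMod n)) := by
    rintro a ⟨-, o, hoo, he⟩
    exact hone o hoo he
  obtain ⟨Q, hQ, hQq⟩ := quad6 (m + 1) (by omega)
  have hτz : ∀ a b, (B.τ z).SameCycle a b := fun a b => hB.2.2 z a b (hEz a) (hEz b)
  obtain ⟨g, hg⟩ := grow_conj (Q.ρ 0) (B.τ z)⁻¹ (hQ.1 0)
    (fun a b => Equiv.Perm.sameCycle_inv.mpr (hτz a b)) 0 (by simp)
  let os : Option {x : ZMod n // x ≠ z} ≃ ZMod n := Equiv.optionSubtypeNe z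
  have osn : os none = z := Equiv.optionSubtypeNe_none z
  have oss : ∀ x : {x : ZMod n // x ≠ z}, os (some x) = x := fun x => Equiv.optionSubtypeNe_some z x
  have osy : ∀ (x : ZMod n) (hx : x ≠ z), os.symm x = some ⟨x, hx⟩ := by
    intro x hx
    rw [Equiv.symm_apply_eq, oss]
  let R1 : BRot (Option (Fin 5)) (Option (Fin m)) := Q.rel (finSuccEquiv 5) g
  let R2 : BRot (Option {x : ZMod n // x ≠ z}) (Option (Fin m)) :=
    B.flip.rel os.symm (Equiv.refl _)
  have hR1 : R1.PTrans (fun _ _ => True) :=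
    grow_ptrans_rel Q (fun _ _ => True) (finSuccEquiv 5) g
      ⟨fun _ _ h => absurd trivial h, fun a x y _ _ => hQ.1 a x y, fun x a b _ _ => hQ.2 x a b⟩
  have hR2 : R2.PTrans (fun y a => ¬ (a = some a0 ∧ ∃ o ∈ offs, os y = (o : ZMod n))) :=
    grow_ptrans_rel B.flip _ os.symm (Equiv.refl _) (grow_ptrans_flip B _ hB)
  have hR1ρ : R1.ρ none = (B.τ z)⁻¹ := by
    rw [← hg]
    show g.permCongr (Q.ρ ((finSuccEquiv 5).symm none)) = _
    rw [finSuccEquiv_symm_none]
  have hR2ρ : ∀ y a, R2.ρ y a = B.τ (os y) a := fun y a => rfl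
  have hR2τ : ∀ a y, R2.τ a y = os.symm (B.ρ a (os y)) := fun a y => rfl
  obtain ⟨R, hR, r1, r2, t3, hRq⟩ := grow_sum R1 R2 _ _ hR1 hR2 (fun _ => trivial)
    (by
      intro a
      show ¬ (a = some a0 ∧ ∃ o ∈ offs, os none = (o : ZMod n))
      rw [osn]
      exact hEz a)
    (fun x => grow_nofix _ (fun a b => hR1.2.2 x a b trivial trivial) none)
    (by
      intro a hcon
      rw [hR2τ, osn, Equiv.symm_apply_eq, osn] at hcon
      obtain ⟨i, hi⟩ := hB.2.1 a z 0 (hEz a) (hE0 a)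
      rw [Equiv.Perm.zpow_apply_eq_self_of_apply_eq_self hcon i] at hi
      exact h0z hi.symm)
    (by
      intro x
      rw [hR2ρ, hR1ρ, osn]
      simp)
    (grow_quad_rel Q _ _ hQq) (grow_quad_rel B.flip _ _ (grow_quad_flip B hq))
  -- the numbering
  have hE' : ∀ y : Fin 5 ⊕ {x : ZMod n // x ≠ z},
      Sum.elim (fun (_ : Fin 5) (_ : Option (Fin m)) => True)
        (fun (x : {x : ZMod n // x ≠ z}) (a : Option (Fin m)) =>
          ¬ (a = some a0 ∧ ∃ o ∈ offs, os (some x) = (o : ZMod n))) y none := by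
    rintro (y | y)
    · trivial
    · rintro ⟨h3, -⟩
      exact absurd h3 (by simp)
  have hcard : Fintype.card (Fin 5 ⊕ {x : ZMod n // x ≠ z}) = n + 4 := by
    have h3 := Fintype.card_congr os
    rw [Fintype.card_option, ZMod.card] at h3
    rw [Fintype.card_sum, Fintype.card_fin]
    omega
  obtain ⟨φ, hφ⟩ := grow_number (R.τ none)⁻¹
    (fun y y' => Equiv.Perm.sameCycle_inv.mpr (hR.2.2 none y y' (hE' y) (hE' y')))
    (Sum.inr ⟨0, h0z⟩) (n + 4) hcard
  have hstep : ∀ (v w : ZMod n) (hv : v ≠ z) (hw : w ≠ z), v - 1 = w →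
      R.τ none (Sum.inr ⟨v, hv⟩) = Sum.inr ⟨w, hw⟩ := by
    intro v w hv hw hvw
    apply t3
    rw [hR2τ, oss, hρ, hvw, osy w hw]
  have hpos : ∀ k : ℕ, ∀ hk : k < pz, ((R.τ none)⁻¹ ^ (k : ℤ)) (Sum.inr ⟨0, h0z⟩) =
      Sum.inr ⟨((k : ℤ) : ZMod n), hzne k (Or.inl (by omega))⟩ := by
    intro k
    induction k with
    | zero => intro hk; simp
    | succ k ih =>
      intro hk
      have e1 : ((R.τ none)⁻¹ ^ ((k + 1 : ℕ) : ℤ)) (Sum.inr ⟨0, h0z⟩) =
          (R.τ none)⁻¹ (((R.τ none)⁻¹ ^ (k : ℤ)) (Sum.inr ⟨0, h0z⟩)) := by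
        rw [← Equiv.Perm.mul_apply, ← zpow_one_add]
        congr 2
        push_cast
        ring
      rw [e1, ih (by omega), Equiv.Perm.inv_eq_iff_eq]
      symm
      apply hstep
      push_cast
      ring
  have hneg : ∀ k : ℕ, ∀ hk : (pz : ℤ) < n - k, ((R.τ none)⁻¹ ^ (-(k : ℤ))) (Sum.inr ⟨0, h0z⟩) =
      Sum.inr ⟨((-(k : ℤ) : ℤ) : ZMod n), hzne _ (by
        rcases Nat.eq_zero_or_pos k with h3 | h3
        · left; subst h3; simp; omega
        · right; omega)⟩ := by
    intro k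
    induction k with
    | zero => intro hk; simp
    | succ k ih =>
      intro hk
      have e1 : ((R.τ none)⁻¹ ^ (-((k + 1 : ℕ) : ℤ))) (Sum.inr ⟨0, h0z⟩) =
          (R.τ none) (((R.τ none)⁻¹ ^ (-(k : ℤ))) (Sum.inr ⟨0, h0z⟩)) := by
        rw [← Equiv.Perm.mul_apply]
        congr 1
        rw [inv_zpow', inv_zpow', ← zpow_one_add]
        congr 1
        push_cast
        ring
      rw [e1, ih (by push_cast at hk; omega)]
      apply hstep
      push_cast
      ring
  have hφo : ∀ (o : ℤ) (hoo : (0 ≤ o ∧ o < pz) ∨ (o < 0 ∧ (pz : ℤ) < n + o)),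
      φ (o : ZMod (n + 4)) = Sum.inr ⟨(o : ZMod n), hzne o hoo⟩ := by
    intro o hoo
    rw [hφ]
    rcases hoo with h3 | h3
    · obtain ⟨k, rfl⟩ := Int.eq_ofNat_of_zero_le h3.1
      exact hpos k (by omega)
    · obtain ⟨k, hk⟩ := Int.eq_ofNat_of_zero_le (show 0 ≤ -o by omega)
      have hk' : o = -(k : ℤ) := by omega
      subst hk'
      exact hneg k (by omega)
  have hφ0 : φ 0 = Sum.inr ⟨0, h0z⟩ := by
    have := hφo 0 (Or.inl (by omega))
    simpa using this
  have hφ1 : φ (-1) = Sum.inr ⟨-1, hm1z⟩ := by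
    have := hφo (-1) (Or.inr (by omega))
    simpa using this
  let R' : BRot (Option (Fin m)) (ZMod (n + 4)) := R.flip.rel (Equiv.refl _) φ.symm
  have hR'ρ : ∀ a v, R'.ρ a v = φ.symm (R.τ a (φ v)) := fun a v => rfl
  have hR'τ : ∀ v a, R'.τ v a = R.ρ (φ v) a := fun v a => rfl
  refine ⟨R', a0, ?_, ?_, grow_quad_rel R.flip _ _ (grow_quad_flip R hRq), ?_, ?_, ?_, ?_⟩
  · have h3 := grow_ptrans_rel R.flip _ (Equiv.refl _) φ.symm (grow_ptrans_flip R _ hR)
    convert h3 using 1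
    ext a v
    simp only [Equiv.refl_symm, Equiv.refl_apply, Equiv.symm_symm]
    rcases hv : φ v with w | x
    · simp only [Sum.elim_inl, iff_true]
      rintro ⟨-, o, hoo, rfl⟩
      rw [hφo o (hoff o hoo)] at hv
      exact absurd hv (by simp)
    · simp only [Sum.elim_inr]
      rw [not_iff_not]
      apply and_congr_right
      intro _
      rw [oss]
      constructor
      · rintro ⟨o, hoo, rfl⟩
        rw [hφo o (hoff o hoo)] at hv
        exact ⟨o, hoo, by rw [← Sum.inr.inj hv]⟩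
      · rintro ⟨o, hoo, hxo⟩
        refine ⟨o, hoo, φ.injective ?_⟩
        rw [hφo o (hoff o hoo), hv]
        congr 1
        exact Subtype.ext hxo
  · intro v
    obtain ⟨i, rfl⟩ := ZMod.intCast_surjective v
    rw [hR'ρ, Equiv.symm_apply_eq]
    have h3 : ((i : ZMod (n + 4)) - 1) = ((i - 1 : ℤ) : ZMod (n + 4)) := by push_cast; rfl
    rw [h3, hφ, hφ, ← Equiv.Perm.mul_apply]
    congr 1
    rw [inv_zpow', inv_zpow', ← zpow_one_add]
    congr 1
    ring
  · intro v
    rw [hR'τ]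
    rcases φ v with w | x
    · rw [r1]
      exact grow_nofix _ (fun a b => hR1.2.1 (some w) a b trivial trivial) none
    · rw [r2, hR2ρ]
      exact hne _
  · rw [hR'τ, hφ0, r2, hR2ρ, oss]
    exact c1
  · rw [hR'τ, hφ1, r2, hR2ρ, oss]
    exact c2
  · rw [hR'ρ, hφ1, Equiv.symm_apply_eq, hφ0]
    apply t3
    rw [hR2τ, oss, c3, osy 0 h0z]


end Pool.Agent.Helper201_K3
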