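import Pool.Agent.Helper201_K3.Core

set_option autoImplicit false

namespace Pool.Agent.Helper201_K3


namespace Bridge

/-- chosen steps `Ch x a y` (`x → y` at `a`), exactly one for every unordered opposite pair -/
structure Chosen {A N : Type} (R : BRot A N) (opp : N → N → Prop) (Ch : N → A → N → Prop) : Prop where
  step : ∀ x a y, Ch x a y → R.ρ a x = y
  uniq : ∀ x a a' y, Ch x a y → Ch x a' y → a = a'
  excl : ∀ x a a' y, Ch x a y → ¬ Ch y a' x
  ex : ∀ x y, opp x y → (∃ a, Ch x a y) ∨ (∃ a, Ch y a x)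
  isopp : ∀ x a y, Ch x a y → opp x y
  symm : ∀ x y, opp x y → opp y x

section gen

variable {A N : Type} (R : BRot A N) (Ch : N → A → N → Prop)

open Classical in
noncomputable def out (x : N) (a : A) : A ⊕ N := if Ch x a (R.ρ a x) then Sum.inr (R.ρ a x) else Sum.inl a

open Classical in
noncomputable def nxt : A ⊕ N → A ⊕ N → A ⊕ N
  | Sum.inl a, Sum.inr x => Sum.inr (R.ρ a x)
  | Sum.inl _, Sum.inl a => Sum.inl a
  | Sum.inr x, Sum.inl a =>
      if Ch ((R.ρ a).symm x) a x then Sum.inr ((R.ρ a).symm x) else out R Ch x (R.τ x a)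
  | Sum.inr x, Sum.inr y =>
      if h : ∃ a, Ch x a y then Sum.inl h.choose
      else if h : ∃ a, Ch y a x then out R Ch x (R.τ x h.choose) else Sum.inr y

def adj (opp : N → N → Prop) : A ⊕ N → A ⊕ N → Prop
  | Sum.inl _, Sum.inl _ => False
  | Sum.inl _, Sum.inr _ => True
  | Sum.inr _, Sum.inl _ => True
  | Sum.inr x, Sum.inr y => opp x y

def Reach (v u u' : A ⊕ N) : Prop := ∃ n : ℕ, (nxt R Ch v)^[n] u = u'

variable {R} {Ch} {opp : N → N → Prop} (hC : Chosen R opp Ch)

include hC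

theorem out_ch {x y : N} {a : A} (h : Ch x a y) : out R Ch x a = Sum.inr y := by
  have := hC.step _ _ _ h
  subst this
  rw [out, if_pos h]

theorem out_not {x : N} {a : A} (h : ¬ ∃ y, Ch x a y) : out R Ch x a = Sum.inl a := by
  rw [out, if_neg]
  exact fun h' => h ⟨_, h'⟩

theorem nxt_in {x z : N} {a : A} (h : Ch z a x) : nxt R Ch (Sum.inr x) (Sum.inl a) = Sum.inr z := by
  have := hC.step _ _ _ h
  subst this
  rw [nxt, if_pos (by simpa using h)]
  simp

theorem nxt_notin {x : N} {a : A} (h : ¬ ∃ z, Ch z a x) :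
    nxt R Ch (Sum.inr x) (Sum.inl a) = out R Ch x (R.τ x a) := by
  rw [nxt, if_neg]
  exact fun h' => h ⟨_, h'⟩

theorem nxt_o {x y : N} {a : A} (h : Ch x a y) : nxt R Ch (Sum.inr x) (Sum.inr y) = Sum.inl a := by
  have h' : ∃ a, Ch x a y := ⟨a, h⟩
  rw [nxt, dif_pos h', hC.uniq _ _ _ _ h h'.choose_spec]

theorem nxt_i {x y : N} {a : A} (h : Ch y a x) :
    nxt R Ch (Sum.inr x) (Sum.inr y) = out R Ch x (R.τ x a) := by
  have h' : ∃ a, Ch y a x := ⟨a, h⟩
  have h'' : ¬ ∃ a, Ch x a y := fun ⟨a', ha'⟩ => hC.excl _ _ _ _ h ha'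
  rw [nxt, dif_neg h'', dif_pos h', hC.uniq _ _ _ _ h h'.choose_spec]

omit hC in
theorem reach_refl (v u : A ⊕ N) : Reach R Ch v u u := ⟨0, rfl⟩

omit hC in
theorem reach_trans {v u u' u'' : A ⊕ N} (h : Reach R Ch v u u') (h' : Reach R Ch v u' u'') :
    Reach R Ch v u u'' := by
  obtain ⟨n, rfl⟩ := h
  obtain ⟨m, rfl⟩ := h'
  exact ⟨m + n, by rw [Function.iterate_add_apply]⟩

omit hC in
theorem reach_one {v u u' : A ⊕ N} (h : nxt R Ch v u = u') : Reach R Ch v u u' := ⟨1, h⟩

theorem reach_out (x : N) (a : A) : Reach R Ch (Sum.inr x) (out R Ch x a) (Sum.inl a) := by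
  by_cases h : ∃ y, Ch x a y
  · obtain ⟨y, hy⟩ := h
    rw [out_ch hC hy]
    exact reach_one (nxt_o hC hy)
  · rw [out_not hC h]
    exact reach_refl _ _

theorem reach_tau (x : N) (a : A) : Reach R Ch (Sum.inr x) (Sum.inl a) (Sum.inl (R.τ x a)) := by
  by_cases h : ∃ z, Ch z a x
  · obtain ⟨z, hz⟩ := h
    exact reach_trans (reach_one (nxt_in hC hz)) (reach_trans (reach_one (nxt_i hC hz)) (reach_out hC _ _))
  · exact reach_trans (reach_one (nxt_notin hC h)) (reach_out hC _ _)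

theorem reach_to {x : N} {u : A ⊕ N} (h : adj opp (Sum.inr x) u) :
    ∃ a, Reach R Ch (Sum.inr x) u (Sum.inl a) := by
  rcases u with a | y
  · exact ⟨a, reach_refl _ _⟩
  · rcases hC.ex x y h with ⟨a, ha⟩ | ⟨a, ha⟩
    · exact ⟨a, reach_one (nxt_o hC ha)⟩
    · exact ⟨R.τ x a, reach_trans (reach_one (nxt_i hC ha)) (reach_out hC _ _)⟩

theorem reach_from {x : N} {u : A ⊕ N} (h : adj opp (Sum.inr x) u) :
    ∃ a, Reach R Ch (Sum.inr x) (Sum.inl a) u := by
  rcases u with a | y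
  · exact ⟨a, reach_refl _ _⟩
  · rcases hC.ex x y h with ⟨a, ha⟩ | ⟨a, ha⟩
    · refine ⟨(R.τ x).symm a, ?_⟩
      have e : out R Ch x (R.τ x ((R.τ x).symm a)) = Sum.inr y := by
        rw [Equiv.apply_symm_apply]; exact out_ch hC ha
      by_cases h : ∃ z, Ch z ((R.τ x).symm a) x
      · obtain ⟨z, hz⟩ := h
        refine reach_trans (reach_one (nxt_in hC hz)) (reach_one ?_)
        rw [nxt_i hC hz, e]
      · refine reach_one ?_
        rw [nxt_notin hC h, e]
    · exact ⟨a, reach_one (nxt_in hC ha)⟩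

theorem reach_pow (x : N) (a : A) (n : ℕ) :
    Reach R Ch (Sum.inr x) (Sum.inl a) (Sum.inl ((R.τ x ^ n) a)) := by
  induction n with
  | zero => exact reach_refl _ _
  | succ n ih =>
    refine reach_trans ih ?_
    rw [pow_succ', Equiv.Perm.mul_apply]
    exact reach_tau hC _ _

theorem reach_all [Finite A] [Finite N] (hR : R.Trans) {v u u' : A ⊕ N} (h : adj opp v u) (h' : adj opp v u') :
    Reach R Ch v u u' := by
  rcases v with a | x
  · rcases u with _ | x
    · exact h.elim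
    rcases u' with _ | y
    · exact h'.elim
    obtain ⟨n, hn⟩ := (hR.1 a x y).exists_nat_pow_eq
    refine ⟨n, ?_⟩
    rw [← hn]
    clear hn
    induction n with
    | zero => rfl
    | succ n ih =>
      rw [Function.iterate_succ_apply', ih, pow_succ', Equiv.Perm.mul_apply, nxt]
  · obtain ⟨a, ha⟩ := reach_to hC h
    obtain ⟨b, hb⟩ := reach_from hC h'
    obtain ⟨n, hn⟩ := (hR.2 x a b).exists_nat_pow_eq
    have := reach_pow hC x a n
    rw [hn] at this
    exact reach_trans ha (reach_trans this hb)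

theorem adj_out (x : N) (a : A) : adj opp (Sum.inr x) (out R Ch x a) := by
  by_cases h : ∃ y, Ch x a y
  · obtain ⟨y, hy⟩ := h
    rw [out_ch hC hy]
    exact hC.isopp _ _ _ hy
  · rw [out_not hC h]
    trivial

theorem adj_nxt {v u : A ⊕ N} (h : adj opp v u) : adj opp v (nxt R Ch v u) := by
  rcases v with a | x <;> rcases u with b | y
  · exact h.elim
  · trivial
  · by_cases h : ∃ z, Ch z b x
    · obtain ⟨z, hz⟩ := h
      rw [nxt_in hC hz]
      exact hC.symm _ _ (hC.isopp _ _ _ hz)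
    · rw [nxt_notin hC h]
      exact adj_out hC _ _
  · rcases hC.ex x y h with ⟨a, ha⟩ | ⟨a, ha⟩
    · rw [nxt_o hC ha]; trivial
    · rw [nxt_i hC ha]; exact adj_out hC _ _

omit hC

variable (R) (Ch)

/-- the dart `u → v` belongs to the old face of `t` -/
def T : A ⊕ N → A ⊕ N → A × N → Prop
  | Sum.inl a, Sum.inr x, t => t = (a, x) ∧ ¬ ∃ z, Ch z a x
  | Sum.inr z, Sum.inl a, t => t = (a, R.ρ a z) ∧ ¬ ∃ x, Ch z a x
  | Sum.inr z, Sum.inr x, t => Ch z t.1 x ∧ t.2 = x
  | Sum.inl _, Sum.inl _, _ => False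

/-- the dart `u → v` belongs to the triangle of the chosen step `s` -/
def U : A ⊕ N → A ⊕ N → N × N → Prop
  | Sum.inr z, Sum.inl a, s => s.1 = z ∧ Ch z a s.2
  | Sum.inl a, Sum.inr x, s => Ch s.1 a x ∧ s.2 = x
  | Sum.inr x, Sum.inr z, s => s = (z, x) ∧ ∃ a, Ch z a x
  | Sum.inl _, Sum.inl _, _ => False

variable {R} {Ch}

include hC

theorem T_out (x : N) (a : A) : T R Ch (Sum.inr x) (out R Ch x a) (a, R.ρ a x) := by
  by_cases h : ∃ y, Ch x a y
  · obtain ⟨y, hy⟩ := h
    rw [out_ch hC hy]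
    have := hC.step _ _ _ hy
    subst this
    exact ⟨hy, rfl⟩
  · rw [out_not hC h]
    exact ⟨rfl, h⟩

theorem T_step {u v : A ⊕ N} {t : A × N} (h : T R Ch u v t) :
    T R Ch v (nxt R Ch v u) t ∨ T R Ch v (nxt R Ch v u) (R.face t) := by
  rcases u with a | z <;> rcases v with b | x
  · exact h.elim
  · obtain ⟨rfl, h⟩ := h
    right
    rw [nxt_notin hC h]
    exact T_out hC _ _
  · obtain ⟨rfl, h⟩ := h
    left
    refine ⟨rfl, ?_⟩
    rintro ⟨y, hy⟩
    have := hC.step _ _ _ hy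
    have := (R.ρ b).injective this
    subst this
    exact h ⟨_, hy⟩
  · obtain ⟨h, h2⟩ := h
    right
    obtain ⟨a, y⟩ := t
    simp only at h h2
    subst h2
    rw [nxt_i hC h]
    exact T_out hC _ _

theorem U_step {u v : A ⊕ N} {s : N × N} (h : U Ch u v s) : U Ch v (nxt R Ch v u) s := by
  obtain ⟨z', x'⟩ := s
  rcases u with a | z <;> rcases v with b | x
  · exact h.elim
  · obtain ⟨h1, h2⟩ := h
    simp only at h1 h2
    subst h2
    rw [nxt_in hC h1]
    exact ⟨rfl, _, h1⟩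
  · obtain ⟨h1, h2⟩ := h
    simp only at h1 h2
    subst h1
    have := hC.step _ _ _ h2
    subst this
    exact ⟨h2, rfl⟩
  · obtain ⟨h1, a, h2⟩ := h
    obtain ⟨rfl, rfl⟩ := Prod.mk.inj h1
    rw [nxt_o hC h2]
    exact ⟨rfl, h2⟩

theorem T_uniq {u v : A ⊕ N} {t t' : A × N} (h : T R Ch u v t) (h' : T R Ch u v t') : t = t' := by
  rcases u with a | z <;> rcases v with b | x
  · exact h.elim
  · rw [h.1, h'.1]
  · rw [h.1, h'.1]
  · obtain ⟨h1, h2⟩ := h
    obtain ⟨h3, h4⟩ := h'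
    exact Prod.ext (hC.uniq _ _ _ _ h1 h3) (h2.trans h4.symm)

theorem U_uniq {u v : A ⊕ N} {s s' : N × N} (h : U Ch u v s) (h' : U Ch u v s') : s = s' := by
  obtain ⟨z1, x1⟩ := s
  obtain ⟨z2, x2⟩ := s'
  rcases u with a | z <;> rcases v with b | x
  · exact h.elim
  · obtain ⟨h1, h2⟩ := h
    obtain ⟨h3, h4⟩ := h'
    simp only at h1 h2 h3 h4
    subst h2 h4
    have e1 := hC.step _ _ _ h1
    have e2 := hC.step _ _ _ h3
    rw [(R.ρ a).injective (e1.trans e2.symm)]
  · obtain ⟨h1, h2⟩ := h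
    obtain ⟨h3, h4⟩ := h'
    simp only at h1 h2 h3 h4
    subst h1 h3
    have e1 := hC.step _ _ _ h2
    have e2 := hC.step _ _ _ h4
    rw [← e1, ← e2]
  · rw [h.1, h'.1]

theorem TU {u v : A ⊕ N} {t : A × N} {s : N × N} (h : T R Ch u v t) (h' : U Ch u v s) : False := by
  obtain ⟨z', x'⟩ := s
  rcases u with a | z <;> rcases v with b | x
  · exact h.elim
  · exact h.2 ⟨_, h'.1⟩
  · exact h.2 ⟨_, h'.2⟩
  · obtain ⟨h1, h2⟩ := h
    obtain ⟨h3, a, h4⟩ := h'
    exact hC.excl _ _ _ _ h1 h4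

theorem T_ex (t : A × N) : ∃ u v, adj opp u v ∧ T R Ch u v t := by
  obtain ⟨a, x⟩ := t
  by_cases h : ∃ z, Ch z a x
  · obtain ⟨z, hz⟩ := h
    exact ⟨Sum.inr z, Sum.inr x, hC.isopp _ _ _ hz, hz, rfl⟩
  · exact ⟨Sum.inl a, Sum.inr x, trivial, rfl, h⟩

end gen

section transport

variable {A N V : Type} {R : BRot A N} {Ch : N → A → N → Prop} {opp : N → N → Prop}

/-- rotation map on the darts of a graph identified with the extended bipartite one -/
noncomputable def rot (hC : Chosen R opp Ch) (G : SimpleGraph V) (e : V ≃ A ⊕ N)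
    (hG : ∀ v w, G.Adj v w ↔ adj opp (e v) (e w)) (d : G.Dart) : G.Dart :=
  ⟨(d.fst, e.symm (nxt R Ch (e d.fst) (e d.snd))), by
    rw [hG]
    simpa using adj_nxt hC ((hG _ _).1 d.adj)⟩

theorem rot_fst (hC : Chosen R opp Ch) (G : SimpleGraph V) (e : V ≃ A ⊕ N)
    (hG : ∀ v w, G.Adj v w ↔ adj opp (e v) (e w)) (d : G.Dart) : (rot hC G e hG d).fst = d.fst := rfl

theorem rot_snd (hC : Chosen R opp Ch) (G : SimpleGraph V) (e : V ≃ A ⊕ N)
    (hG : ∀ v w, G.Adj v w ↔ adj opp (e v) (e w)) (d : G.Dart) :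
    (rot hC G e hG d).snd = e.symm (nxt R Ch (e d.fst) (e d.snd)) := rfl

theorem rot_iter (hC : Chosen R opp Ch) (G : SimpleGraph V) (e : V ≃ A ⊕ N)
    (hG : ∀ v w, G.Adj v w ↔ adj opp (e v) (e w)) (d : G.Dart) (n : ℕ) :
    ((rot hC G e hG)^[n] d).fst = d.fst ∧
    e ((rot hC G e hG)^[n] d).snd = (nxt R Ch (e d.fst))^[n] (e d.snd) := by
  induction n with
  | zero => exact ⟨rfl, rfl⟩
  | succ n ih =>
    rw [Function.iterate_succ_apply', Function.iterate_succ_apply', rot_fst, rot_snd, ih.1, ih.2]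
    simp

theorem rot_trans [Finite A] [Finite N] (hC : Chosen R opp Ch) (hR : R.Trans) (G : SimpleGraph V) (e : V ≃ A ⊕ N)
    (hG : ∀ v w, G.Adj v w ↔ adj opp (e v) (e w)) (d d' : G.Dart) (h : d.fst = d'.fst) :
    ∃ n, (rot hC G e hG)^[n] d = d' := by
  obtain ⟨n, hn⟩ := reach_all hC hR ((hG _ _).1 d.adj) (by rw [h]; exact (hG _ _).1 d'.adj)
    (u' := e d'.snd)
  refine ⟨n, ?_⟩
  obtain ⟨h1, h2⟩ := rot_iter hC G e hG d n
  apply SimpleGraph.Dart.ext
  apply Prod.ext
  · rw [h1, h]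
  · apply e.injective
    rw [h2, hn]

theorem rot_bij [Finite A] [Finite N] [Finite V] (hC : Chosen R opp Ch) (hR : R.Trans) (G : SimpleGraph V)
    (e : V ≃ A ⊕ N) (hG : ∀ v w, G.Adj v w ↔ adj opp (e v) (e w)) :
    Function.Bijective (rot hC G e hG) := by
  have : Finite G.Dart := Finite.of_injective (fun d : G.Dart => d.toProd) (fun a b h => SimpleGraph.Dart.ext _ _ h)
  apply Function.Surjective.bijective_of_finite
  intro d
  obtain ⟨n, hn⟩ := rot_trans hC hR G e hG (rot hC G e hG d) d rfl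
  refine ⟨(rot hC G e hG)^[n] d, ?_⟩
  have h2 : rot hC G e hG ((rot hC G e hG)^[n] d) = (rot hC G e hG)^[n] (rot hC G e hG d) := by
    rw [← Function.iterate_succ_apply' (rot hC G e hG), Function.iterate_succ_apply]
  rw [h2, hn]

noncomputable def rotP [Finite A] [Finite N] [Finite V] (hC : Chosen R opp Ch) (hR : R.Trans) (G : SimpleGraph V)
    (e : V ≃ A ⊕ N) (hG : ∀ v w, G.Adj v w ↔ adj opp (e v) (e w)) : Equiv.Perm G.Dart :=
  Equiv.ofBijective _ (rot_bij hC hR G e hG)

theorem rotP_pow [Finite A] [Finite N] [Finite V] (hC : Chosen R opp Ch) (hR : R.Trans) (G : SimpleGraph V)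
    (e : V ≃ A ⊕ N) (hG : ∀ v w, G.Adj v w ↔ adj opp (e v) (e w)) (n : ℕ) (d : G.Dart) :
    (rotP hC hR G e hG ^ n) d = (rot hC G e hG)^[n] d := by
  induction n with
  | zero => rfl
  | succ n ih => rw [pow_succ', Equiv.Perm.mul_apply, ih, Function.iterate_succ_apply']; rfl

/-- the face count -/
theorem faces_ge {P : Type} [Finite P] [Finite A] [Finite N] [Finite V] (hC : Chosen R opp Ch) (hR : R.Trans)
    (G : SimpleGraph V)
    (e : V ≃ A ⊕ N) (hG : ∀ v w, G.Adj v w ↔ adj opp (e v) (e w))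
    (pr : P → N × N) (hpr : Function.Injective pr) (hprC : ∀ c, ∃ a, Ch (pr c).1 a (pr c).2) :
    ncyc R.face + Nat.card P ≤ Nat.card (Quotient (Equiv.Perm.SameCycle.setoid
      (rotP hC hR G e hG * Function.Involutive.toPerm SimpleGraph.Dart.symm
        SimpleGraph.Dart.symm_involutive))) := by
  have hfin : Finite G.Dart :=
    Finite.of_injective (fun d : G.Dart => d.toProd) (fun a b h => SimpleGraph.Dart.ext _ _ h)
  set φ := rotP hC hR G e hG * Function.Involutive.toPerm SimpleGraph.Dart.symm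
        SimpleGraph.Dart.symm_involutive with hφ
  have φ1 : ∀ d : G.Dart, (φ d).fst = d.snd := fun d => rfl
  have φ2 : ∀ d : G.Dart, e (φ d).snd = nxt R Ch (e d.snd) (e d.fst) := by
    intro d
    have : (φ d).snd = e.symm (nxt R Ch (e d.snd) (e d.fst)) := rfl
    rw [this, Equiv.apply_symm_apply]
  let Rel : G.Dart → (Quotient (Equiv.Perm.SameCycle.setoid R.face)) ⊕ P → Prop := fun d c =>
    match c with
    | Sum.inl Q => ∃ t, Quotient.mk _ t = Q ∧ T R Ch (e d.fst) (e d.snd) t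
    | Sum.inr c => U Ch (e d.fst) (e d.snd) (pr c)
  have Rel_step : ∀ d c, Rel d c → Rel (φ d) c := by
    intro d c h
    rcases c with Q | c
    · obtain ⟨t, ht, h⟩ := h
      show ∃ t, Quotient.mk _ t = Q ∧ T R Ch (e (φ d).fst) (e (φ d).snd) t
      rw [φ1, φ2]
      rcases T_step hC h with h' | h'
      · exact ⟨t, ht, h'⟩
      · refine ⟨R.face t, ?_, h'⟩
        rw [← ht]
        apply Quotient.sound
        exact ⟨-1, by simp⟩
    · show U Ch (e (φ d).fst) (e (φ d).snd) (pr c)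
      rw [φ1, φ2]
      exact U_step hC h
  have Rel_uniq : ∀ d c c', Rel d c → Rel d c' → c = c' := by
    intro d c c' h h'
    rcases c with Q | c <;> rcases c' with Q' | c'
    · obtain ⟨t, ht, h⟩ := h
      obtain ⟨t', ht', h'⟩ := h'
      rw [← ht, ← ht', T_uniq hC h h']
    · obtain ⟨t, ht, h⟩ := h
      exact (TU hC h h').elim
    · obtain ⟨t, ht, h'⟩ := h'
      exact (TU hC h' h).elim
    · rw [hpr (U_uniq hC h h')]
  have mkd : ∀ u v : A ⊕ N, adj opp u v → ∃ d : G.Dart, e d.fst = u ∧ e d.snd = v := by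
    intro u v h
    refine ⟨⟨(e.symm u, e.symm v), ?_⟩, ?_, ?_⟩
    · rw [hG]; simpa using h
    · simp
    · simp
  have Rel_ex : ∀ c, ∃ d, Rel d c := by
    intro c
    rcases c with Q | c
    · obtain ⟨t, rfl⟩ := Quotient.exists_rep Q
      obtain ⟨u, v, h1, h2⟩ := T_ex hC t
      obtain ⟨d, rfl, rfl⟩ := mkd u v h1
      exact ⟨d, t, rfl, h2⟩
    · obtain ⟨a, ha⟩ := hprC c
      obtain ⟨d, h1, h2⟩ := mkd (Sum.inr (pr c).1) (Sum.inl a) trivial
      refine ⟨d, ?_⟩
      show U Ch (e d.fst) (e d.snd) (pr c)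
      rw [h1, h2]
      exact ⟨rfl, ha⟩
  choose F hF using Rel_ex
  have Rel_pow : ∀ (n : ℕ) d c, Rel d c → Rel ((φ ^ n) d) c := by
    intro n
    induction n with
    | zero => intro d c h; exact h
    | succ n ih => intro d c h; rw [pow_succ', Equiv.Perm.mul_apply]; exact Rel_step _ _ (ih _ _ h)
  have inj : Function.Injective (fun c => Quotient.mk (Equiv.Perm.SameCycle.setoid φ) (F c)) := by
    intro c c' h
    have h := Quotient.exact h
    have h : φ.SameCycle (F c) (F c') := h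
    obtain ⟨n, hn⟩ := h.exists_nat_pow_eq
    have := Rel_pow n _ _ (hF c)
    rw [hn] at this
    exact Rel_uniq _ _ _ this (hF c')
  have := Nat.card_le_card_of_injective _ inj
  rw [Nat.card_sum] at this
  exact this

end transport

/-- chosen steps from a selection function -/
def ChS {p q r : ℕ} (sel : Fin q → Fin r → Fin p × Bool) : Fin q ⊕ Fin r → Fin p → Fin q ⊕ Fin r → Prop
  | Sum.inl b, a, Sum.inr c => sel b c = (a, true)
  | Sum.inr c, a, Sum.inl b => sel b c = (a, false)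
  | Sum.inl _, _, Sum.inl _ => False
  | Sum.inr _, _, Sum.inr _ => False

def oppS {q r : ℕ} : Fin q ⊕ Fin r → Fin q ⊕ Fin r → Prop
  | Sum.inl _, Sum.inr _ => True
  | Sum.inr _, Sum.inl _ => True
  | Sum.inl _, Sum.inl _ => False
  | Sum.inr _, Sum.inr _ => False

theorem chosenS {p q r : ℕ} (R : BRot (Fin p) (Fin q ⊕ Fin r)) (sel : Fin q → Fin r → Fin p × Bool)
    (h1 : ∀ b c a, sel b c = (a, true) → R.ρ a (Sum.inl b) = Sum.inr c)
    (h2 : ∀ b c a, sel b c = (a, false) → R.ρ a (Sum.inr c) = Sum.inl b) :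
    Chosen R oppS (ChS sel) where
  step x a y h := by
    rcases x with b | c <;> rcases y with b' | c'
    · exact h.elim
    · exact h1 _ _ _ h
    · exact h2 _ _ _ h
    · exact h.elim
  uniq x a a' y h h' := by
    rcases x with b | c <;> rcases y with b' | c'
    · exact h.elim
    · exact congrArg Prod.fst (h.symm.trans h')
    · exact congrArg Prod.fst (h.symm.trans h')
    · exact h.elim
  excl x a a' y h h' := by
    rcases x with b | c <;> rcases y with b' | c'
    · exact h.elim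
    · have := congrArg Prod.snd (h.symm.trans h'); simp at this
    · have := congrArg Prod.snd (h.symm.trans h'); simp at this
    · exact h.elim
  ex x y h := by
    rcases x with b | c <;> rcases y with b' | c'
    · exact h.elim
    · rcases hs : sel b c' with ⟨a, _ | _⟩
      · right; exact ⟨a, hs⟩
      · left; exact ⟨a, hs⟩
    · rcases hs : sel b' c with ⟨a, _ | _⟩
      · left; exact ⟨a, hs⟩
      · right; exact ⟨a, hs⟩
    · exact h.elim
  isopp x a y h := by
    rcases x with b | c <;> rcases y with b' | c'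
    · exact h.elim
    · trivial
    · trivial
    · exact h.elim
  symm x y h := by
    rcases x with b | c <;> rcases y with b' | c'
    · exact h.elim
    · trivial
    · trivial
    · exact h.elim

/-- vertices of the tripartite graph -/
def vert (p q r : ℕ) : Fin p ⊕ (Fin q ⊕ Fin r) → Σ i : Fin 3, Fin (![p, q, r] i)
  | Sum.inl a => ⟨0, a⟩
  | Sum.inr (Sum.inl b) => ⟨1, b⟩
  | Sum.inr (Sum.inr c) => ⟨2, c⟩

theorem vert_bij (p q r : ℕ) : Function.Bijective (vert p q r) := by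
  constructor
  · intro x y h
    rcases x with a | b | c <;> rcases y with a' | b' | c'
    · have h1 := eq_of_heq (Sigma.mk.inj h).2
      have h2 : a = a' := h1
      rw [h2]
    · have h1 : (0 : Fin 3) = 1 := congrArg Sigma.fst h
      exact absurd h1 (by decide)
    · have h1 : (0 : Fin 3) = 2 := congrArg Sigma.fst h
      exact absurd h1 (by decide)
    · have h1 : (1 : Fin 3) = 0 := congrArg Sigma.fst h
      exact absurd h1 (by decide)
    · have h1 := eq_of_heq (Sigma.mk.inj h).2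
      have h2 : b = b' := h1
      rw [h2]
    · have h1 : (1 : Fin 3) = 2 := congrArg Sigma.fst h
      exact absurd h1 (by decide)
    · have h1 : (2 : Fin 3) = 0 := congrArg Sigma.fst h
      exact absurd h1 (by decide)
    · have h1 : (2 : Fin 3) = 1 := congrArg Sigma.fst h
      exact absurd h1 (by decide)
    · have h1 := eq_of_heq (Sigma.mk.inj h).2
      have h2 : c = c' := h1
      rw [h2]
  · rintro ⟨i, x⟩
    fin_cases i
    · exact ⟨Sum.inl x, rfl⟩
    · exact ⟨Sum.inr (Sum.inl x), rfl⟩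
    · exact ⟨Sum.inr (Sum.inr x), rfl⟩

noncomputable def vertE (p q r : ℕ) : Fin p ⊕ (Fin q ⊕ Fin r) ≃ Σ i : Fin 3, Fin (![p, q, r] i) :=
  Equiv.ofBijective _ (vert_bij p q r)

theorem adj_vert (p q r : ℕ) (u v : Fin p ⊕ (Fin q ⊕ Fin r)) :
    (SimpleGraph.completeMultipartiteGraph (fun i : Fin 3 => Fin (![p, q, r] i))).Adj (vert p q r u) (vert p q r v)
      ↔ adj oppS u v := by
  rcases u with a | b | c <;> rcases v with a' | b' | c' <;>
    simp [vert, adj, oppS, SimpleGraph.completeMultipartiteGraph]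

theorem card_edge_le (p q r : ℕ) :
    Nat.card (SimpleGraph.completeMultipartiteGraph (fun i : Fin 3 => Fin (![p, q, r] i))).edgeSet ≤
      p * (q + r) + q * r := by
  set G := SimpleGraph.completeMultipartiteGraph (fun i : Fin 3 => Fin (![p, q, r] i)) with hG
  let f : (Fin p × (Fin q ⊕ Fin r)) ⊕ (Fin q × Fin r) → G.edgeSet := fun z =>
    match z with
    | Sum.inl (a, x) => ⟨s(vert p q r (Sum.inl a), vert p q r (Sum.inr x)), by
        rw [SimpleGraph.mem_edgeSet, hG, adj_vert]; trivial⟩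
    | Sum.inr (b, c) => ⟨s(vert p q r (Sum.inr (Sum.inl b)), vert p q r (Sum.inr (Sum.inr c))), by
        rw [SimpleGraph.mem_edgeSet, hG, adj_vert]; trivial⟩
  have hf : Function.Surjective f := by
    rintro ⟨z, hz⟩
    induction z with
    | h u v =>
      obtain ⟨u, rfl⟩ := (vert_bij p q r).2 u
      obtain ⟨v, rfl⟩ := (vert_bij p q r).2 v
      have hz' := hz
      rw [SimpleGraph.mem_edgeSet, hG, adj_vert] at hz'
      rcases u with a | b | c <;> rcases v with a' | b' | c'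
      · exact hz'.elim
      · exact ⟨Sum.inl (a, Sum.inl b'), rfl⟩
      · exact ⟨Sum.inl (a, Sum.inr c'), rfl⟩
      · exact ⟨Sum.inl (a', Sum.inl b), Subtype.ext Sym2.eq_swap⟩
      · exact hz'.elim
      · exact ⟨Sum.inr (b, c'), rfl⟩
      · exact ⟨Sum.inl (a', Sum.inr c), Subtype.ext Sym2.eq_swap⟩
      · exact ⟨Sum.inr (b', c), Subtype.ext Sym2.eq_swap⟩
      · exact hz'.elim
  have := Nat.card_le_card_of_surjective f hf
  simpa using this

theorem gen_le (p n : ℕ) (hp : 2 ≤ p) (hn : 2 ≤ n) :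
    (gen p n : ℤ) ≤ ⌈((p : ℚ) - 2) * ((n : ℚ) - 2) / 4⌉ := by
  rw [Int.le_ceil_iff]
  obtain ⟨p', rfl⟩ : ∃ p', p = p' + 2 := ⟨p - 2, by omega⟩
  obtain ⟨n', rfl⟩ : ∃ n', n = n' + 2 := ⟨n - 2, by omega⟩
  have h : gen (p' + 2) (n' + 2) * 4 ≤ p' * n' + 3 := by
    unfold gen
    simp only [Nat.add_sub_cancel]
    omega
  have h' : (gen (p' + 2) (n' + 2) : ℚ) * 4 ≤ p' * n' + 3 := by exact_mod_cast h
  push_cast
  have e : ((p' : ℚ) + 2 - 2) * ((n' : ℚ) + 2 - 2) / 4 = (p' * n') / 4 := by ring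
  rw [e]
  linarith

end Bridge

open Classical in
theorem bridge (p q r : ℕ) (hp : 2 ≤ p) (hqr : 2 ≤ q + r) (h : Emb p q r (Ft p (q + r)))
    (G : SimpleGraph (Σ i : Fin 3, Fin (![p, q, r] i)))
    (hG : G = SimpleGraph.completeMultipartiteGraph (fun i : Fin 3 => Fin (![p, q, r] i))) :
    ∃ σ : Equiv.Perm G.Dart, (∀ d : G.Dart, (σ d).fst = d.fst) ∧
      (∀ d d' : G.Dart, d.fst = d'.fst → ∃ n : ℕ, (σ ^ n) d = d') ∧
      2 - 2 * ⌈((p : ℚ) - 2) * ((q : ℚ) + (r : ℚ) - 2) / 4⌉ ≤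
      ((Nat.card (Σ i : Fin 3, Fin (![p, q, r] i)) : ℤ) - (Nat.card G.edgeSet : ℤ)
              + (Nat.card (Quotient (Equiv.Perm.SameCycle.setoid
                  (σ * Function.Involutive.toPerm SimpleGraph.Dart.symm
                    SimpleGraph.Dart.symm_involutive))) : ℤ)) := by
  subst hG
  obtain ⟨R, hR, hcons, hF⟩ := h
  have hsel : ∀ (b : Fin q) (c : Fin r), ∃ s : Fin p × Bool,
      (∀ a, s = (a, true) → R.ρ a (Sum.inl b) = Sum.inr c) ∧
      (∀ a, s = (a, false) → R.ρ a (Sum.inr c) = Sum.inl b) := by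
    intro b c
    obtain ⟨a, h | h⟩ := hcons b c
    · refine ⟨(a, true), ?_, ?_⟩
      · intro a' e
        have e1 : a = a' := congrArg Prod.fst e
        rw [← e1]; exact h
      · intro a' e; have := congrArg Prod.snd e; simp at this
    · refine ⟨(a, false), ?_, ?_⟩
      · intro a' e; have := congrArg Prod.snd e; simp at this
      · intro a' e
        have e1 : a = a' := congrArg Prod.fst e
        rw [← e1]; exact h
  choose sel hsel1 hsel2 using hsel
  have hC := Bridge.chosenS R sel (fun b c a => hsel1 b c a) (fun b c a => hsel2 b c a)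
  set G := SimpleGraph.completeMultipartiteGraph (fun i : Fin 3 => Fin (![p, q, r] i)) with hGdef
  have hadj : ∀ v w, G.Adj v w ↔ Bridge.adj Bridge.oppS ((Bridge.vertE p q r).symm v)
      ((Bridge.vertE p q r).symm w) := by
    intro v w
    obtain ⟨u, rfl⟩ := (Bridge.vertE p q r).surjective v
    obtain ⟨u', rfl⟩ := (Bridge.vertE p q r).surjective w
    rw [Equiv.symm_apply_apply, Equiv.symm_apply_apply]
    exact Bridge.adj_vert p q r u u'
  refine ⟨Bridge.rotP hC hR G (Bridge.vertE p q r).symm hadj, ?_, ?_, ?_⟩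
  · intro d; rfl
  · intro d d' h
    obtain ⟨n, hn⟩ := Bridge.rot_trans hC hR G (Bridge.vertE p q r).symm hadj d d' h
    exact ⟨n, by rw [Bridge.rotP_pow]; exact hn⟩
  · -- pairs
    let pr : Fin q × Fin r → (Fin q ⊕ Fin r) × (Fin q ⊕ Fin r) := fun bc =>
      if (sel bc.1 bc.2).2 = true then (Sum.inl bc.1, Sum.inr bc.2) else (Sum.inr bc.2, Sum.inl bc.1)
    have hpr : Function.Injective pr := by
      rintro ⟨b, c⟩ ⟨b', c'⟩ h
      simp only [pr] at h
      split_ifs at h <;> simp_all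
    have hprC : ∀ bc, ∃ a, Bridge.ChS sel (pr bc).1 a (pr bc).2 := by
      rintro ⟨b, c⟩
      simp only [pr]
      split_ifs with h
      · exact ⟨(sel b c).1, Prod.ext rfl h⟩
      · exact ⟨(sel b c).1, Prod.ext rfl (by simpa using h)⟩
    have key := Bridge.faces_ge hC hR G (Bridge.vertE p q r).symm hadj pr hpr hprC
    set NF := Nat.card (Quotient (Equiv.Perm.SameCycle.setoid
      (Bridge.rotP hC hR G (Bridge.vertE p q r).symm hadj * Function.Involutive.toPerm SimpleGraph.Dart.symm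
        SimpleGraph.Dart.symm_involutive)))
    have hE := Bridge.card_edge_le p q r
    rw [← hGdef] at hE
    set NE := Nat.card G.edgeSet
    have hV : Nat.card (Σ i : Fin 3, Fin (![p, q, r] i)) = p + (q + r) := by
      rw [← Nat.card_congr (Bridge.vertE p q r)]
      simp
    rw [hV]
    have hP : Nat.card (Fin q × Fin r) = q * r := by simp
    rw [hP] at key
    have hgen := Bridge.gen_le p (q + r) hp hqr
    have e : ((q : ℚ) + (r : ℚ) - 2) = (((q + r : ℕ) : ℚ) - 2) := by push_cast; ring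
    rw [e]
    set g := ⌈((p : ℚ) - 2) * (((q + r : ℕ) : ℚ) - 2) / 4⌉
    have hFt : (p * (q + r) + 2 : ℤ) - p - (q + r) - 2 * gen p (q + r) ≤ Ft p (q + r) := by
      unfold Ft
      have : p * (q + r) + 2 ≤ (p * (q + r) + 2 - p - (q + r) - 2 * gen p (q + r)) + p + (q + r) + 2 * gen p (q + r) := by
        omega
      zify at this
      linarith
    have key' : (ncyc R.face : ℤ) + q * r ≤ NF := by exact_mod_cast key
    have hE' : (NE : ℤ) ≤ p * (q + r) + q * r := by exact_mod_cast hE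
    have hF' : (Ft p (q + r) : ℤ) ≤ ncyc R.face := by exact_mod_cast hF
    push_cast
    linarith

end Pool.Agent.Helper201_K3
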