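import Pool.Agent.Helper201_K3.Plain

set_option autoImplicit false

namespace Pool.Agent.Helper201_K3


/-- The four values that are enough. -/
def Want (q r : ℕ) : Prop := ∀ s < 4, Emb (q + s) q r (Ft (q + s) (q + r))

/-
TARGETS.
(1) Emb_tight: if (p-2)(n-2) ≡ 0 mod 4 (n = q + r) then Ft p n = p n / 2 with p n even, so an `Emb p q r (Ft p n)` has all faces of length four
(face has no fixed points: τ_x a ≠ a since p ≥ 2 and R.Trans; a permutation of p n points without fixed points and with ≥ p n / 2 cycles is an involution), hence it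
is an EmbQ; then Emb_sum with `ringel (s+2) n`, and gen p n + gen (s+2) n = gen (p+s) n.
(2) the seven classes: plain arithmetic (gen, Ft, residues mod 4), Emb_plain, Emb_tight. n = q + r in all of them:
 want_tight: (q-2)(n-2) ≡ 0 mod 4: Emb_tight.
 want_one: a tight embedding for p = q+1 ((q-1)(n-2) ≡ 0 mod 4): values s ≥ 1 by Emb_tight from p = q + 1.
 want_d: q ≡ 0, n ≡ 3 mod 4: s = 1, 2 given, s = 3 by Emb_tight from q+2 (q(n-2) ≡ 0).
 want_e: q ≡ 0, n ≡ 1 mod 4: s = 1 by Emb_plain, s = 2 given, s = 3 by Emb_tight.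
 want_g: q ≡ 3, n ≡ 1 mod 4: s = 1, 2 by Emb_plain, s = 3 given.
-/

theorem Ft_eq (P M : ℕ) : Ft (P + 2) (M + 2) = P * M + P + M + 2 - 2 * ((P * M + 3) / 4) := by
  have h : (P + 2) * (M + 2) = P * M + 2 * P + 2 * M + 4 := by ring
  simp only [Ft, gen, Nat.add_sub_cancel]
  rw [h]
  omega

theorem gen_eq (P M : ℕ) : gen (P + 2) (M + 2) = (P * M + 3) / 4 := by
  simp only [gen, Nat.add_sub_cancel]

/-- A fixed point free permutation with at least half as many cycles as points is an involution. -/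
theorem invol_of_ncyc {D : Type} [Fintype D] [DecidableEq D] (f : Equiv.Perm D) (hf : ∀ d, f d ≠ d)
    (h : Fintype.card D ≤ 2 * ncyc f) : ∀ d, f (f d) = d := by
  classical
  intro d0
  by_contra hd
  let Q := Quotient (Equiv.Perm.SameCycle.setoid f)
  let π : D → Q := fun d => Quotient.mk _ d
  have hπ : ∀ d, π (f d) = π d := by
    intro d
    apply Quotient.sound
    change f.SameCycle (f d) d
    exact (Equiv.Perm.sameCycle_apply_left).2 (Equiv.Perm.SameCycle.refl _ _)
  haveI : Fintype Q := Fintype.ofFinite _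
  have hcard : Fintype.card D = ∑ q : Q, (Finset.univ.filter (fun d => π d = q)).card := by
    rw [← Finset.card_univ]
    exact Finset.card_eq_sum_card_fiberwise (fun _ _ => Finset.mem_coe.2 (Finset.mem_univ _))
  have h2 : ∀ q : Q, 2 ≤ (Finset.univ.filter (fun d => π d = q)).card := by
    intro q
    obtain ⟨d, rfl⟩ := Quotient.exists_rep q
    have hsub : ({d, f d} : Finset D) ⊆ Finset.univ.filter (fun e => π e = π d) := by
      intro e he
      simp only [Finset.mem_insert, Finset.mem_singleton] at he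
      simp only [Finset.mem_filter, Finset.mem_univ, true_and]
      rcases he with rfl | rfl
      · rfl
      · exact hπ _
    calc 2 = ({d, f d} : Finset D).card := (Finset.card_pair (hf d).symm).symm
      _ ≤ _ := Finset.card_le_card hsub
  have h3 : 3 ≤ (Finset.univ.filter (fun e => π e = π d0)).card := by
    have hsub : ({d0, f d0, f (f d0)} : Finset D) ⊆ Finset.univ.filter (fun e => π e = π d0) := by
      intro e he
      simp only [Finset.mem_insert, Finset.mem_singleton] at he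
      simp only [Finset.mem_filter, Finset.mem_univ, true_and]
      rcases he with rfl | rfl | rfl
      · rfl
      · exact hπ _
      · rw [hπ, hπ]
    have hc : ({d0, f d0, f (f d0)} : Finset D).card = 3 := by
      apply Finset.card_eq_three.2
      exact ⟨_, _, _, (hf d0).symm, fun h => hd h.symm, (hf (f d0)).symm, rfl⟩
    calc 3 = ({d0, f d0, f (f d0)} : Finset D).card := hc.symm
      _ ≤ _ := Finset.card_le_card hsub
  have hlt : ∑ _q : Q, 2 < ∑ q : Q, (Finset.univ.filter (fun d => π d = q)).card := by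
    apply Finset.sum_lt_sum
    · intro q _; exact h2 q
    · exact ⟨π d0, Finset.mem_univ _, h3⟩
  rw [Finset.sum_const, Finset.card_univ, smul_eq_mul, ← hcard] at hlt
  have hn : ncyc f = Fintype.card Q := by
    unfold ncyc
    exact Nat.card_eq_fintype_card
  omega

theorem Emb_tight (p q r s : ℕ) (hp : 3 ≤ p) (hn : 3 ≤ q + r) (ht : (p - 2) * (q + r - 2) % 4 = 0) (h : Emb p q r (Ft p (q + r))) :
    Emb (p + s) q r (Ft (p + s) (q + r)) := by
  obtain ⟨P, rfl⟩ : ∃ P, p = P + 2 := ⟨p - 2, by omega⟩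
  obtain ⟨M, hM⟩ : ∃ M, q + r = M + 2 := ⟨q + r - 2, by omega⟩
  have ht' : P * M % 4 = 0 := by
    rw [hM] at ht
    simpa using ht
  have hQ : EmbQ (P + 2) q r (Ft (P + 2) (q + r)) := by
    obtain ⟨R, hT, hbc, hF⟩ := h
    refine ⟨R, hT, hbc, hF, ⟨⟨0, by omega⟩, ?_⟩⟩
    intro x
    refine invol_of_ncyc R.face ?_ ?_ _
    · rintro ⟨a, y⟩ he
      have h1 : R.τ y a = a := congrArg Prod.fst he
      have h2 : ∀ b, b = a := by
        intro b
        exact ((hT.2 y a b).eq_of_left h1).symm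
      have h3 := (h2 ⟨0, by omega⟩).trans (h2 ⟨1, by omega⟩).symm
      simp at h3
    · have hc : Fintype.card (Fin (P + 2) × (Fin q ⊕ Fin r)) = (P + 2) * (M + 2) := by
        simp [hM]
      rw [hc]
      rw [hM, Ft_eq] at hF
      have h4 : (P + 2) * (M + 2) = P * M + 2 * P + 2 * M + 4 := by ring
      omega
  have h2 := Emb_sum (P + 2) (s + 2) q r _ _ hp (by omega) (by omega) hQ
    (ringel (s + 2) (q + r) (by omega) (by omega))
  have e1 : P + 2 + (s + 2) - 2 = P + 2 + s := by omega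
  rw [e1] at h2
  have e2 : Ft (P + 2) (q + r) + Ft (s + 2) (q + r) - (q + r) = Ft (P + 2 + s) (q + r) := by
    have e3 : P + 2 + s = (P + s) + 2 := by ring
    rw [e3, hM, Ft_eq, Ft_eq, Ft_eq]
    have e4 : (P + s) * M = P * M + s * M := by ring
    rw [e4]
    have hM1 : 1 ≤ M := by omega
    have e5 : s ≤ s * M := Nat.le_mul_of_pos_right _ hM1
    omega
  rwa [e2] at h2

theorem EmbQ.emb {p q r F : ℕ} (h : EmbQ p q r F) : Emb p q r F := by
  obtain ⟨R, hT, hbc, hF, _⟩ := h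
  exact ⟨R, hT, hbc, hF⟩

theorem want_tight (q r : ℕ) (hq : 3 ≤ q) (ht : (q - 2) * (q + r - 2) % 4 = 0) (h : EmbQ q q r (Ft q (q + r))) : Want q r := by
  intro s _
  exact Emb_tight q q r s hq (by omega) ht h.emb

theorem want_one (q r : ℕ) (hq : 3 ≤ q) (ht : (q - 1) * (q + r - 2) % 4 = 0) (h : EmbQ q q r (Ft q (q + r)))
    (h1 : Emb (q + 1) q r (Ft (q + 1) (q + r))) : Want q r := by
  intro s _
  rcases s with _ | t
  · exact h.emb
  · have h2 := Emb_tight (q + 1) q r t (by omega) (by omega) (by simpa using ht) h1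
    have e : q + 1 + t = q + (t + 1) := by ring
    rwa [e] at h2

theorem want_d (q r : ℕ) (hq : 3 ≤ q) (hq4 : q % 4 = 0) (h : EmbQ q q r (Ft q (q + r)))
    (h1 : Emb (q + 1) q r (Ft (q + 1) (q + r))) (h2 : Emb (q + 2) q r (Ft (q + 2) (q + r))) : Want q r := by
  intro s hs
  have h3 := Emb_tight (q + 2) q r 1 (by omega) (by omega)
    (by rw [Nat.add_sub_cancel, Nat.mul_mod, hq4]; simp) h2
  have e : q + 2 + 1 = q + 3 := by ring
  rw [e] at h3
  interval_cases s
  · exact h.emb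
  · exact h1
  · exact h2
  · exact h3

theorem want_e (q r : ℕ) (hq : 3 ≤ q) (hq4 : q % 4 = 0) (hr4 : r % 4 = 1) (h : EmbQ q q r (Ft q (q + r)))
    (h2 : Emb (q + 2) q r (Ft (q + 2) (q + r))) : Want q r := by
  obtain ⟨P, rfl⟩ : ∃ P, q = P + 2 := ⟨q - 2, by omega⟩
  obtain ⟨M, hM⟩ : ∃ M, P + 2 + r = M + 2 := ⟨P + 2 + r - 2, by omega⟩
  obtain ⟨k, hk⟩ : ∃ k, P = 4 * k + 2 := ⟨P / 4, by omega⟩
  obtain ⟨m, hm⟩ : ∃ m, M = 4 * m + 3 := ⟨M / 4, by omega⟩
  have hPM : P * M = 16 * (k * m) + 12 * k + 8 * m + 6 := by rw [hk, hm]; ring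
  apply want_d (P + 2) r hq hq4 h ?_ h2
  apply Emb_plain (P + 2) r 1 hq h
  rw [hM]
  have e3 : P + 2 + 1 = (P + 1) + 2 := by ring
  rw [e3, gen_eq, gen_eq, gen_eq]
  have e4 : (P + 1) * M = P * M + M := by ring
  rw [e4, hPM]
  omega

theorem want_g (q r : ℕ) (hq : 3 ≤ q) (hq4 : q % 4 = 3) (hr4 : r % 4 = 2) (h : EmbQ q q r (Ft q (q + r)))
    (h3 : Emb (q + 3) q r (Ft (q + 3) (q + r))) : Want q r := by
  obtain ⟨P, rfl⟩ : ∃ P, q = P + 2 := ⟨q - 2, by omega⟩
  obtain ⟨M, hM⟩ : ∃ M, P + 2 + r = M + 2 := ⟨P + 2 + r - 2, by omega⟩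
  obtain ⟨k, hk⟩ : ∃ k, P = 4 * k + 1 := ⟨P / 4, by omega⟩
  obtain ⟨m, hm⟩ : ∃ m, M = 4 * m + 3 := ⟨M / 4, by omega⟩
  have hPM : P * M = 16 * (k * m) + 12 * k + 4 * m + 3 := by rw [hk, hm]; ring
  have h1 : Emb (P + 2 + 1) (P + 2) r (Ft (P + 2 + 1) (P + 2 + r)) := by
    apply Emb_plain (P + 2) r 1 hq h
    rw [hM]
    have e3 : P + 2 + 1 = (P + 1) + 2 := by ring
    rw [e3, gen_eq, gen_eq, gen_eq]
    have e4 : (P + 1) * M = P * M + M := by ring
    rw [e4, hPM]
    omega
  have h2 : Emb (P + 2 + 2) (P + 2) r (Ft (P + 2 + 2) (P + 2 + r)) := by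
    apply Emb_plain (P + 2) r 2 hq h
    rw [hM]
    have e3 : P + 2 + 2 = (P + 2) + 2 := by ring
    rw [gen_eq, gen_eq, gen_eq]
    have e4 : (P + 2) * M = P * M + 2 * M := by ring
    rw [e4, hPM]
    omega
  intro s hs
  interval_cases s
  · exact h.emb
  · exact h1
  · exact h2
  · exact h3

end Pool.Agent.Helper201_K3
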