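import Pool.Agent.Helper201_K3.Core

set_option autoImplicit false

namespace Pool.Agent.Helper201_K3

/-- `K_{p,n}` has a rotation system with at least `F` faces. -/
def REmb (p n F : ℕ) : Prop := ∃ R : BRot (Fin p) (Fin n), R.Trans ∧ F ≤ ncyc R.face

/-- `K_{p,n}` has a quadrangular rotation system. -/
def QEmb (p n : ℕ) : Prop := ∃ R : BRot (Fin p) (Fin n), R.Trans ∧ ∀ d, R.face (R.face d) = d

/-- As `Emb`, and some vertex `α` of the first part has only faces of length four. -/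
def EmbQ (p q r F : ℕ) : Prop :=
  ∃ R : BRot (Fin p) (Fin q ⊕ Fin r), R.Trans ∧
    (∀ (b : Fin q) (c : Fin r), ∃ a, R.ρ a (Sum.inl b) = Sum.inr c ∨ R.ρ a (Sum.inr c) = Sum.inl b) ∧
    F ≤ ncyc R.face ∧ ∃ α, ∀ x, R.face (R.face (α, x)) = (α, x)

end Pool.Agent.Helper201_K3
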