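import Pool.Agent.Helper201_K3.Wrap

set_option autoImplicit false

namespace Pool.Agent.Helper201_K3

theorem E_2_2_1 : EmbQ 2 2 1 3 :=
  EmbQ_of_chk 2 2 1 (by decide) (by decide) [] (by decide)
    [[0, 1, 2], [0, 2, 1]]
    [[0, 1], [0, 1], [0, 1]] 0 (by decide +kernel)

theorem E_3_2_1 : Emb 3 2 1 3 :=
  Emb_of_chk 3 2 1 (by decide) (by decide) [(0, 1), (1, 0), (0, 2), (2, 0), (1, 2)] (by decide)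
    [[0, 2, 1], [0, 2, 1], [0, 1, 2]]
    [[0, 2, 1], [0, 1, 2], [0, 2, 1]] (by decide +kernel)

theorem E_3_3_2 : Emb 3 3 2 7 :=
  Emb_of_chk 3 3 2 (by decide) (by decide) [(0, 4), (1, 3), (2, 0)] (by decide)
    [[0, 4, 1, 3, 2], [0, 2, 4, 3, 1], [0, 1, 4, 2, 3]]
    [[0, 1, 2], [0, 2, 1], [0, 2, 1], [0, 1, 2], [0, 1, 2]] (by decide +kernel)

theorem E_4_2_1 : Emb 4 2 1 5 :=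
  Emb_of_chk 4 2 1 (by decide) (by decide) [(0, 1), (2, 2), (1, 1), (3, 0)] (by decide)
    [[0, 1, 2], [0, 2, 1], [0, 1, 2], [0, 2, 1]]
    [[0, 1, 2, 3], [0, 2, 1, 3], [0, 3, 2, 1]] (by decide +kernel)

theorem E_4_3_2 : Emb 4 3 2 9 :=
  Emb_of_chk 4 3 2 (by decide) (by decide) [(0, 2), (2, 4), (3, 1), (1, 0)] (by decide)
    [[0, 2, 1, 3, 4], [0, 4, 3, 2, 1], [0, 3, 1, 2, 4], [0, 4, 1, 2, 3]]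
    [[0, 3, 2, 1], [0, 3, 1, 2], [0, 2, 1, 3], [0, 2, 3, 1], [0, 1, 2, 3]] (by decide +kernel)

theorem E_4_4_3 : Emb 4 4 3 13 :=
  Emb_of_chk 4 4 3 (by decide) (by decide) [(0, 4), (2, 1), (1, 5), (3, 0)] (by decide)
    [[0, 4, 3, 5, 2, 6, 1], [0, 1, 5, 2, 4, 3, 6], [0, 6, 2, 5, 3, 4, 1], [0, 1, 6, 3, 4, 2, 5]]
    [[0, 1, 2, 3], [0, 3, 2, 1], [0, 3, 1, 2], [0, 3, 1, 2], [0, 2, 1, 3], [0, 2, 1, 3], [0, 2, 1, 3]] (by decide +kernel)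

theorem E_5_2_1 : Emb 5 2 1 7 :=
  Emb_of_chk 5 2 1 (by decide) (by decide) [(0, 1), (1, 2), (2, 0)] (by decide)
    [[0, 1, 2], [0, 1, 2], [0, 1, 2], [0, 2, 1], [0, 2, 1]]
    [[0, 4, 1, 3, 2], [0, 1, 4, 2, 3], [0, 3, 1, 2, 4]] (by decide +kernel)

theorem E_5_4_1 : Emb 5 4 1 11 :=
  Emb_of_chk 5 4 1 (by decide) (by decide) [(0, 1), (2, 0), (1, 4), (0, 2), (1, 0)] (by decide)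
    [[0, 1, 4, 2, 3], [0, 4, 3, 1, 2], [0, 2, 3, 4, 1], [0, 4, 1, 3, 2], [0, 3, 2, 1, 4]]
    [[0, 4, 3, 2, 1], [0, 2, 4, 1, 3], [0, 1, 4, 2, 3], [0, 3, 1, 2, 4], [0, 3, 4, 2, 1]] (by decide +kernel)

theorem E_5_5_2 : Emb 5 5 2 17 :=
  Emb_of_chk 5 5 2 (by decide) (by decide) [(1, 6), (4, 1), (3, 0)] (by decide)
    [[0, 1, 5, 2, 4, 6, 3], [0, 6, 3, 5, 1, 4, 2], [0, 5, 3, 2, 6, 4, 1], [0, 3, 6, 2, 5, 4, 1], [0, 2, 3, 6, 1, 4, 5]]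
    [[0, 3, 1, 4, 2], [0, 2, 4, 3, 1], [0, 3, 2, 4, 1], [0, 4, 2, 1, 3], [0, 1, 3, 4, 2], [0, 1, 2, 4, 3], [0, 2, 3, 1, 4]] (by decide +kernel)

theorem E_6_3_0 : EmbQ 6 3 0 9 :=
  EmbQ_of_chk 6 3 0 (by decide) (by decide) [] (by decide)
    [[0, 2, 1], [0, 1, 2], [0, 2, 1], [0, 1, 2], [0, 2, 1], [0, 1, 2]]
    [[0, 3, 2, 5, 4, 1], [0, 5, 2, 1, 4, 3], [0, 1, 2, 3, 4, 5]] 0 (by decide +kernel)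

theorem E_6_5_0 : EmbQ 6 5 0 15 :=
  EmbQ_of_chk 6 5 0 (by decide) (by decide) [] (by decide)
    [[0, 4, 1, 3, 2], [0, 2, 3, 1, 4], [0, 4, 1, 3, 2], [0, 2, 3, 1, 4], [0, 4, 1, 3, 2], [0, 2, 3, 1, 4]]
    [[0, 3, 2, 5, 4, 1], [0, 5, 4, 3, 2, 1], [0, 5, 2, 1, 4, 3], [0, 1, 2, 3, 4, 5], [0, 1, 2, 3, 4, 5]] 0 (by decide +kernel)

theorem E_6_6_0 : EmbQ 6 6 0 18 :=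
  EmbQ_of_chk 6 6 0 (by decide) (by decide) [] (by decide)
    [[0, 4, 1, 3, 2, 5], [0, 5, 2, 3, 1, 4], [0, 3, 2, 4, 1, 5], [0, 5, 1, 4, 2, 3], [0, 4, 1, 3, 2, 5], [0, 5, 2, 3, 1, 4]]
    [[0, 5, 4, 3, 2, 1], [0, 5, 4, 3, 2, 1], [0, 5, 4, 3, 2, 1], [0, 1, 2, 3, 4, 5], [0, 1, 2, 3, 4, 5], [0, 1, 2, 3, 4, 5]] 0 (by decide +kernel)

theorem E_6_6_4 : EmbQ 6 6 4 30 :=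
  EmbQ_of_chk 6 6 4 (by decide) (by decide) [] (by decide)
    [[0, 4, 6, 5, 8, 2, 1, 9, 3, 7], [0, 9, 1, 6, 2, 8, 4, 7, 5, 3], [0, 8, 5, 7, 3, 6, 4, 1, 2, 9], [0, 6, 1, 8, 3, 5, 9, 2, 7, 4], [0, 3, 9, 4, 8, 1, 7, 2, 5, 6], [0, 7, 1, 4, 9, 5, 2, 6, 3, 8]]
    [[0, 5, 2, 1, 4, 3], [0, 2, 5, 4, 3, 1], [0, 1, 5, 4, 3, 2], [0, 4, 1, 3, 5, 2], [0, 3, 1, 4, 5, 2], [0, 4, 5, 3, 1, 2], [0, 2, 5, 1, 3, 4], [0, 2, 1, 3, 4, 5], [0, 2, 5, 3, 4, 1], [0, 1, 2, 3, 5, 4]] 0 (by decide +kernel)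

theorem E_7_7_1 : Emb 7 7 1 27 :=
  Emb_of_chk 7 7 1 (by decide) (by decide) [(2, 3), (3, 0), (6, 6), (5, 1)] (by decide)
    [[0, 5, 3, 4, 2, 7, 1, 6], [0, 6, 4, 7, 5, 3, 2, 1], [0, 7, 4, 2, 6, 1, 3, 5], [0, 4, 6, 5, 7, 2, 1, 3], [0, 1, 7, 6, 2, 3, 5, 4], [0, 5, 6, 1, 2, 4, 3, 7], [0, 6, 7, 3, 1, 2, 4, 5]]
    [[0, 1, 4, 3, 6, 5, 2], [0, 4, 1, 6, 3, 5, 2], [0, 6, 1, 4, 2, 5, 3], [0, 4, 1, 2, 3, 6, 5], [0, 5, 2, 1, 3, 4, 6], [0, 2, 1, 3, 5, 6, 4], [0, 2, 4, 6, 5, 3, 1], [0, 3, 1, 2, 5, 6, 4]] (by decide +kernel)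

theorem E_7_7_5 : Emb 7 7 5 41 :=
  Emb_of_chk 7 7 5 (by decide) (by decide) [(1, 5), (4, 11), (1, 6), (2, 10)] (by decide)
    [[0, 11, 4, 8, 3, 7, 1, 6, 5, 9, 2, 10], [0, 7, 3, 10, 5, 4, 2, 11, 6, 8, 1, 9], [0, 6, 10, 3, 11, 2, 9, 1, 7, 4, 5, 8], [0, 10, 3, 9, 4, 11, 1, 8, 5, 6, 7, 2], [0, 9, 3, 5, 11, 1, 10, 2, 8, 4, 7, 6], [0, 2, 4, 10, 1, 11, 3, 8, 6, 9, 5, 7], [0, 8, 2, 7, 5, 3, 10, 4, 9, 6, 1, 11]]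
    [[0, 3, 5, 1, 4, 2, 6], [0, 2, 1, 3, 5, 4, 6], [0, 2, 1, 5, 3, 6, 4], [0, 5, 2, 6, 4, 3, 1], [0, 3, 6, 5, 1, 2, 4], [0, 3, 2, 1, 4, 6, 5], [0, 6, 5, 1, 2, 4, 3], [0, 1, 5, 6, 3, 4, 2], [0, 4, 6, 2, 3, 1, 5], [0, 5, 6, 3, 4, 1, 2], [0, 4, 5, 6, 2, 1, 3], [0, 6, 4, 1, 2, 5, 3]] (by decide +kernel)

theorem E_8_7_1 : EmbQ 8 7 1 32 :=
  EmbQ_of_chk 8 7 1 (by decide) (by decide) [] (by decide)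
    [[0, 5, 7, 1, 6, 3, 4, 2], [0, 2, 4, 3, 1, 6, 7, 5], [0, 2, 4, 7, 6, 1, 3, 5], [0, 6, 1, 5, 3, 7, 4, 2], [0, 5, 1, 4, 2, 7, 3, 6], [0, 7, 2, 6, 3, 4, 1, 5], [0, 6, 2, 5, 1, 4, 3, 7], [0, 5, 2, 4, 1, 7, 3, 6]]
    [[0, 1, 7, 6, 5, 4, 3, 2], [0, 7, 6, 5, 4, 3, 1, 2], [0, 7, 6, 5, 4, 2, 3, 1], [0, 7, 6, 5, 4, 3, 2, 1], [0, 1, 3, 2, 4, 5, 6, 7], [0, 2, 3, 4, 5, 6, 7, 1], [0, 2, 1, 3, 4, 5, 6, 7], [0, 1, 2, 3, 4, 5, 6, 7]] 0 (by decide +kernel)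

theorem E_8_7_6 : Emb 8 7 6 51 :=
  Emb_of_chk 8 7 6 (by decide) (by decide) [(0, 11), (3, 3), (4, 7), (1, 1)] (by decide)
    [[0, 7, 3, 12, 6, 1, 11, 4, 10, 2, 9, 5, 8], [0, 12, 3, 8, 2, 7, 1, 9, 4, 11, 5, 10, 6], [0, 8, 6, 7, 4, 12, 1, 5, 9, 3, 11, 2, 10], [0, 11, 3, 9, 6, 10, 4, 8, 5, 7, 2, 1, 12], [0, 9, 1, 10, 5, 2, 11, 4, 8, 3, 7, 6, 12], [0, 10, 3, 7, 5, 12, 4, 9, 2, 8, 1, 6, 11], [0, 6, 8, 4, 7, 10, 1, 2, 12, 5, 11, 3, 9], [0, 12, 2, 5, 1, 8, 4, 11, 6, 9, 3, 10, 7]]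
    [[0, 2, 5, 3, 1, 6, 4, 7], [0, 5, 7, 2, 3, 6, 4, 1], [0, 2, 4, 7, 6, 3, 1, 5], [0, 5, 7, 6, 2, 3, 4, 1], [0, 1, 5, 2, 6, 4, 7, 3], [0, 2, 7, 4, 1, 6, 5, 3], [0, 4, 2, 6, 1, 3, 7, 5], [0, 7, 6, 2, 4, 1, 3, 5], [0, 3, 7, 5, 1, 4, 6, 2], [0, 5, 1, 4, 6, 7, 3, 2], [0, 3, 1, 4, 6, 7, 5, 2], [0, 3, 5, 7, 4, 2, 6, 1], [0, 1, 3, 2, 5, 6, 7, 4]] (by decide +kernel)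

theorem E_8_8_3 : Emb 8 8 3 43 :=
  Emb_of_chk 8 8 3 (by decide) (by decide) [(1, 1), (2, 10), (4, 7), (7, 0)] (by decide)
    [[0, 8, 6, 7, 1, 5, 10, 2, 9, 3, 4], [0, 1, 3, 10, 5, 7, 4, 6, 9, 2, 8], [0, 3, 9, 1, 10, 2, 6, 8, 4, 7, 5], [0, 9, 7, 4, 3, 2, 10, 6, 1, 8, 5], [0, 10, 7, 8, 1, 2, 6, 4, 9, 5, 3], [0, 4, 7, 6, 10, 3, 5, 8, 2, 1, 9], [0, 5, 1, 6, 2, 3, 8, 7, 9, 4, 10], [0, 5, 9, 6, 2, 10, 4, 8, 3, 1, 7]]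
    [[0, 5, 3, 6, 4, 2, 7, 1], [0, 7, 1, 2, 5, 4, 3, 6], [0, 7, 2, 3, 6, 4, 5, 1], [0, 2, 4, 5, 1, 7, 6, 3], [0, 3, 2, 7, 6, 4, 1, 5], [0, 6, 3, 5, 4, 7, 2, 1], [0, 2, 7, 1, 4, 6, 3, 5], [0, 5, 1, 2, 3, 6, 4, 7], [0, 1, 5, 3, 4, 6, 7, 2], [0, 1, 7, 4, 6, 3, 5, 2], [0, 1, 5, 3, 2, 4, 6, 7]] (by decide +kernel)

theorem E_8_8_7 : Emb 8 8 7 59 :=
  Emb_of_chk 8 8 7 (by decide) (by decide) [(1, 9), (5, 4), (3, 14), (4, 7)] (by decide)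
    [[0, 11, 4, 9, 3, 10, 2, 12, 7, 5, 13, 6, 8, 1, 14], [0, 12, 4, 13, 3, 14, 6, 10, 1, 11, 2, 8, 5, 7, 9], [0, 13, 5, 11, 7, 10, 3, 8, 6, 14, 1, 9, 4, 12, 2], [0, 8, 4, 14, 3, 7, 12, 5, 10, 6, 9, 1, 13, 2, 11], [0, 14, 7, 11, 3, 9, 5, 12, 6, 13, 4, 1, 8, 2, 10], [0, 2, 14, 6, 11, 5, 9, 4, 10, 7, 8, 3, 13, 1, 12], [0, 9, 2, 13, 7, 3, 12, 1, 10, 4, 11, 6, 14, 5, 8], [0, 10, 5, 14, 2, 9, 6, 12, 3, 11, 1, 4, 8, 7, 13]]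
    [[0, 4, 7, 2, 5, 1, 6, 3], [0, 4, 7, 1, 6, 5, 3, 2], [0, 4, 1, 3, 6, 7, 5, 2], [0, 4, 7, 6, 3, 1, 5, 2], [0, 6, 5, 3, 7, 4, 1, 2], [0, 1, 6, 7, 3, 4, 5, 2], [0, 4, 7, 3, 1, 6, 5, 2], [0, 3, 6, 7, 5, 2, 4, 1], [0, 2, 5, 7, 3, 6, 1, 4], [0, 2, 3, 7, 6, 1, 5, 4], [0, 2, 5, 6, 1, 3, 7, 4], [0, 3, 1, 7, 4, 2, 5, 6], [0, 2, 1, 5, 6, 7, 4, 3], [0, 2, 7, 6, 3, 5, 1, 4], [0, 2, 5, 7, 6, 1, 3, 4]] (by decide +kernel)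

theorem E_9_7_4 : Emb 9 7 4 49 :=
  Emb_of_chk 9 7 4 (by decide) (by decide) [(5, 1), (8, 0), (6, 9)] (by decide)
    [[0, 4, 5, 1, 8, 9, 3, 6, 7, 10, 2], [0, 1, 5, 7, 2, 10, 6, 9, 3, 8, 4], [0, 10, 5, 9, 4, 8, 2, 6, 3, 7, 1], [0, 4, 7, 3, 6, 8, 1, 9, 2, 5, 10], [0, 8, 1, 10, 7, 3, 9, 5, 2, 6, 4], [0, 2, 5, 8, 6, 3, 9, 1, 7, 4, 10], [0, 9, 1, 4, 6, 10, 3, 7, 5, 2, 8], [0, 10, 1, 8, 3, 5, 4, 9, 6, 2, 7], [0, 7, 6, 2, 9, 8, 5, 3, 10, 4, 1]]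
    [[0, 5, 2, 1, 3, 7, 8, 6, 4], [0, 1, 2, 5, 8, 6, 3, 7, 4], [0, 1, 7, 2, 6, 3, 8, 4, 5], [0, 4, 2, 3, 6, 8, 7, 1, 5], [0, 4, 6, 8, 5, 3, 1, 2, 7], [0, 7, 8, 5, 4, 2, 3, 6, 1], [0, 5, 3, 2, 7, 1, 6, 4, 8], [0, 8, 7, 1, 6, 3, 5, 2, 4], [0, 4, 6, 2, 1, 7, 3, 5, 8], [0, 8, 3, 6, 5, 1, 7, 2, 4], [0, 4, 7, 3, 2, 5, 8, 6, 1]] (by decide +kernel)

theorem E_9_8_5 : Emb 9 8 5 57 :=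
  Emb_of_chk 9 8 5 (by decide) (by decide) [(1, 0), (5, 4), (3, 11), (4, 6), (5, 1)] (by decide)
    [[0, 6, 5, 2, 9, 8, 4, 11, 3, 7, 12, 10, 1], [0, 12, 6, 9, 3, 8, 2, 5, 10, 4, 7, 11, 1], [0, 8, 9, 5, 12, 1, 2, 10, 3, 6, 11, 4, 7], [0, 10, 12, 3, 9, 7, 4, 11, 5, 2, 1, 8, 6], [0, 7, 4, 3, 11, 6, 12, 2, 8, 1, 10, 5, 9], [0, 4, 9, 2, 3, 10, 6, 1, 12, 7, 8, 5, 11], [0, 11, 7, 3, 12, 4, 10, 2, 5, 1, 9, 6, 8], [0, 9, 1, 11, 2, 12, 5, 6, 3, 4, 8, 7, 10], [0, 1, 5, 8, 3, 2, 11, 6, 10, 7, 9, 4, 12]]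
    [[0, 8, 1, 5, 6, 2, 4, 7, 3], [0, 4, 3, 2, 5, 1, 7, 6, 8], [0, 6, 2, 3, 1, 4, 7, 8, 5], [0, 4, 7, 2, 5, 8, 1, 3, 6], [0, 7, 4, 1, 6, 8, 5, 3, 2], [0, 7, 2, 4, 1, 3, 5, 8, 6], [0, 3, 6, 1, 4, 5, 8, 2, 7], [0, 6, 1, 4, 2, 3, 8, 7, 5], [0, 2, 6, 3, 4, 1, 8, 5, 7], [0, 5, 8, 3, 1, 6, 7, 4, 2], [0, 3, 7, 8, 5, 2, 6, 1, 4], [0, 2, 8, 7, 1, 6, 5, 3, 4], [0, 5, 2, 7, 4, 1, 8, 6, 3]] (by decide +kernel)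

theorem E_10_7_0 : EmbQ 10 7 0 35 :=
  EmbQ_of_chk 10 7 0 (by decide) (by decide) [] (by decide)
    [[0, 1, 5, 2, 6, 3, 4], [0, 3, 4, 5, 6, 1, 2], [0, 4, 5, 3, 2, 6, 1], [0, 1, 6, 5, 2, 3, 4], [0, 3, 5, 4, 6, 2, 1], [0, 4, 1, 6, 3, 2, 5], [0, 5, 2, 1, 6, 4, 3], [0, 1, 2, 3, 6, 5, 4], [0, 2, 5, 6, 1, 4, 3], [0, 4, 3, 6, 2, 5, 1]]
    [[0, 9, 3, 2, 7, 5, 6, 1, 8, 4], [0, 4, 7, 2, 6, 1, 5, 8, 3, 9], [0, 8, 1, 6, 9, 2, 3, 5, 7, 4], [0, 7, 5, 9, 1, 6, 3, 2, 4, 8], [0, 8, 5, 7, 2, 3, 6, 4, 1, 9], [0, 9, 6, 5, 3, 1, 4, 2, 7, 8], [0, 4, 6, 2, 9, 5, 1, 3, 8, 7]] 0 (by decide +kernel)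

theorem E_10_8_1 : EmbQ 10 8 1 45 :=
  EmbQ_of_chk 10 8 1 (by decide) (by decide) [] (by decide)
    [[0, 1, 2, 3, 4, 5, 6, 8, 7], [0, 1, 2, 3, 4, 7, 8, 5, 6], [0, 1, 2, 3, 4, 5, 6, 7, 8], [0, 1, 2, 3, 7, 8, 4, 5, 6], [0, 1, 8, 3, 2, 5, 6, 7, 4], [0, 8, 7, 6, 5, 4, 3, 2, 1], [0, 4, 3, 7, 6, 5, 8, 2, 1], [0, 6, 5, 4, 7, 3, 2, 8, 1], [0, 6, 5, 4, 8, 7, 3, 2, 1], [0, 7, 4, 3, 8, 6, 5, 2, 1]]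
    [[0, 9, 2, 5, 4, 6, 3, 7, 1, 8], [0, 8, 1, 7, 4, 5, 2, 9, 3, 6], [0, 6, 7, 1, 8, 2, 5, 3, 9, 4], [0, 4, 9, 1, 7, 6, 2, 8, 3, 5], [0, 5, 3, 8, 2, 6, 4, 1, 9, 7], [0, 7, 4, 9, 3, 5, 1, 6, 2, 8], [0, 8, 1, 5, 2, 6, 4, 7, 3, 9], [0, 2, 5, 3, 8, 1, 4, 6, 7, 9], [0, 9, 4, 7, 6, 1, 8, 3, 5, 2]] 0 (by decide +kernel)

theorem E_10_9_0 : EmbQ 10 9 0 45 :=
  EmbQ_of_chk 10 9 0 (by decide) (by decide) [] (by decide)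
    [[0, 6, 7, 8, 2, 4, 3, 1, 5], [0, 8, 2, 3, 5, 4, 1, 7, 6], [0, 2, 5, 4, 8, 7, 6, 1, 3], [0, 6, 7, 8, 3, 4, 2, 5, 1], [0, 1, 6, 4, 5, 3, 8, 7, 2], [0, 3, 1, 4, 5, 2, 8, 7, 6], [0, 5, 3, 4, 6, 2, 7, 1, 8], [0, 1, 8, 4, 3, 7, 6, 5, 2], [0, 4, 5, 6, 7, 3, 2, 8, 1], [0, 2, 6, 7, 8, 1, 3, 5, 4]]
    [[0, 6, 1, 3, 7, 9, 8, 4, 2, 5], [0, 2, 4, 8, 6, 1, 5, 9, 7, 3], [0, 8, 1, 5, 2, 4, 6, 9, 7, 3], [0, 6, 1, 8, 7, 3, 4, 9, 5, 2], [0, 3, 7, 2, 8, 9, 5, 1, 4, 6], [0, 3, 7, 8, 2, 5, 9, 4, 1, 6], [0, 5, 9, 6, 4, 2, 3, 1, 8, 7], [0, 7, 8, 1, 6, 4, 9, 5, 3, 2], [0, 2, 7, 9, 4, 3, 5, 1, 6, 8]] 0 (by decide +kernel)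

end Pool.Agent.Helper201_K3
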