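import Pool.Agent.Helper201_K3.Wrap

set_option autoImplicit false

namespace Pool.Agent.Helper201_K3

theorem E_2_2_2 : EmbQ 2 2 2 4 :=
  EmbQ_of_chk 2 2 2 (by decide) (by decide) [] (by decide)
    [[0, 3, 1, 2], [0, 2, 1, 3]]
    [[0, 1], [0, 1], [0, 1], [0, 1]] 0 (by decide +kernel)

theorem E_3_2_2 : Emb 3 2 2 5 :=
  Emb_of_chk 3 2 2 (by decide) (by decide) [(0, 2), (1, 0), (0, 3), (1, 1)] (by decide)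
    [[0, 3, 1, 2], [0, 3, 1, 2], [0, 2, 1, 3]]
    [[0, 2, 1], [0, 2, 1], [0, 1, 2], [0, 1, 2]] (by decide +kernel)

theorem E_3_3_3 : EmbQ 3 3 3 9 :=
  EmbQ_of_chk 3 3 3 (by decide) (by decide) [] (by decide)
    [[0, 5, 2, 3, 1, 4], [0, 3, 2, 4, 1, 5], [0, 4, 2, 5, 1, 3]]
    [[0, 2, 1], [0, 2, 1], [0, 2, 1], [0, 1, 2], [0, 1, 2], [0, 1, 2]] 0 (by decide +kernel)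

theorem E_4_2_2 : EmbQ 4 2 2 8 :=
  EmbQ_of_chk 4 2 2 (by decide) (by decide) [] (by decide)
    [[0, 3, 1, 2], [0, 2, 1, 3], [0, 3, 1, 2], [0, 2, 1, 3]]
    [[0, 3, 2, 1], [0, 3, 2, 1], [0, 1, 2, 3], [0, 1, 2, 3]] 0 (by decide +kernel)

theorem E_4_4_0 : EmbQ 4 4 0 8 :=
  EmbQ_of_chk 4 4 0 (by decide) (by decide) [] (by decide)
    [[0, 3, 1, 2], [0, 2, 1, 3], [0, 3, 1, 2], [0, 2, 1, 3]]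
    [[0, 3, 2, 1], [0, 3, 2, 1], [0, 1, 2, 3], [0, 1, 2, 3]] 0 (by decide +kernel)

theorem E_4_4_4 : EmbQ 4 4 4 16 :=
  EmbQ_of_chk 4 4 4 (by decide) (by decide) [] (by decide)
    [[0, 6, 1, 7, 2, 5, 3, 4], [0, 7, 1, 5, 2, 4, 3, 6], [0, 5, 1, 4, 2, 6, 3, 7], [0, 4, 1, 6, 2, 7, 3, 5]]
    [[0, 3, 2, 1], [0, 3, 2, 1], [0, 3, 2, 1], [0, 3, 2, 1], [0, 1, 2, 3], [0, 1, 2, 3], [0, 1, 2, 3], [0, 1, 2, 3]] 0 (by decide +kernel)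

theorem E_5_2_2 : Emb 5 2 2 9 :=
  Emb_of_chk 5 2 2 (by decide) (by decide) [(1, 0), (2, 2), (1, 3), (2, 1)] (by decide)
    [[0, 3, 1, 2], [0, 2, 3, 1], [0, 2, 3, 1], [0, 2, 1, 3], [0, 1, 3, 2]]
    [[0, 1, 2, 4, 3], [0, 4, 2, 1, 3], [0, 3, 4, 2, 1], [0, 3, 1, 2, 4]] (by decide +kernel)

theorem E_5_4_3 : Emb 5 4 3 17 :=
  Emb_of_chk 5 4 3 (by decide) (by decide) [(0, 1), (4, 4), (2, 6)] (by decide)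
    [[0, 6, 1, 3, 4, 2, 5], [0, 5, 2, 1, 3, 6, 4], [0, 2, 4, 6, 3, 1, 5], [0, 4, 3, 5, 1, 2, 6], [0, 5, 3, 1, 4, 6, 2]]
    [[0, 4, 2, 1, 3], [0, 4, 1, 3, 2], [0, 2, 4, 3, 1], [0, 2, 1, 4, 3], [0, 3, 1, 4, 2], [0, 1, 2, 3, 4], [0, 3, 4, 1, 2]] (by decide +kernel)

theorem E_5_5_3 : Emb 5 5 3 19 :=
  Emb_of_chk 5 5 3 (by decide) (by decide) [(0, 5), (3, 3), (4, 4), (1, 2)] (by decide)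
    [[0, 1, 7, 4, 6, 2, 5, 3], [0, 5, 4, 2, 1, 6, 3, 7], [0, 6, 4, 2, 7, 3, 5, 1], [0, 7, 1, 2, 4, 5, 3, 6], [0, 3, 4, 7, 2, 6, 1, 5]]
    [[0, 4, 1, 3, 2], [0, 2, 4, 1, 3], [0, 4, 2, 3, 1], [0, 2, 1, 3, 4], [0, 4, 1, 3, 2], [0, 3, 1, 4, 2], [0, 2, 3, 1, 4], [0, 3, 1, 2, 4]] (by decide +kernel)

theorem E_6_3_2 : EmbQ 6 3 2 15 :=
  EmbQ_of_chk 6 3 2 (by decide) (by decide) [] (by decide)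
    [[0, 3, 1, 4, 2], [0, 2, 4, 1, 3], [0, 1, 4, 2, 3], [0, 3, 2, 4, 1], [0, 4, 2, 3, 1], [0, 1, 3, 2, 4]]
    [[0, 1, 3, 5, 4, 2], [0, 5, 3, 2, 4, 1], [0, 5, 4, 3, 2, 1], [0, 2, 3, 1, 4, 5], [0, 1, 2, 3, 4, 5]] 0 (by decide +kernel)

theorem E_6_5_2 : EmbQ 6 5 2 21 :=
  EmbQ_of_chk 6 5 2 (by decide) (by decide) [] (by decide)
    [[0, 3, 6, 2, 1, 4, 5], [0, 2, 6, 4, 3, 5, 1], [0, 1, 2, 3, 5, 4, 6], [0, 5, 3, 2, 4, 6, 1], [0, 6, 3, 4, 1, 5, 2], [0, 1, 6, 4, 2, 5, 3]]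
    [[0, 3, 2, 4, 1, 5], [0, 2, 3, 5, 1, 4], [0, 1, 4, 5, 3, 2], [0, 5, 2, 3, 1, 4], [0, 4, 1, 3, 5, 2], [0, 2, 5, 4, 1, 3], [0, 4, 2, 5, 3, 1]] 0 (by decide +kernel)

theorem E_6_6_1 : EmbQ 6 6 1 21 :=
  EmbQ_of_chk 6 6 1 (by decide) (by decide) [] (by decide)
    [[0, 6, 4, 1, 3, 2, 5], [0, 5, 6, 3, 1, 2, 4], [0, 2, 1, 4, 6, 5, 3], [0, 4, 1, 5, 3, 6, 2], [0, 3, 5, 2, 6, 1, 4], [0, 4, 2, 3, 5, 1, 6]]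
    [[0, 1, 3, 2, 4, 5], [0, 4, 5, 3, 2, 1], [0, 5, 1, 2, 3, 4], [0, 1, 3, 4, 2, 5], [0, 2, 3, 1, 5, 4], [0, 4, 3, 5, 2, 1], [0, 5, 4, 3, 1, 2]] 0 (by decide +kernel)

theorem E_6_6_5 : EmbQ 6 6 5 33 :=
  EmbQ_of_chk 6 6 5 (by decide) (by decide) [] (by decide)
    [[0, 10, 5, 7, 3, 9, 4, 8, 2, 1, 6], [0, 8, 5, 3, 10, 4, 6, 2, 7, 1, 9], [0, 4, 7, 5, 9, 1, 10, 2, 6, 3, 8], [0, 6, 4, 9, 5, 8, 1, 2, 10, 3, 7], [0, 7, 2, 9, 3, 6, 5, 10, 1, 8, 4], [0, 9, 2, 8, 3, 5, 6, 1, 7, 4, 10]]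
    [[0, 3, 4, 2, 1, 5], [0, 3, 4, 2, 1, 5], [0, 5, 4, 1, 2, 3], [0, 3, 1, 5, 2, 4], [0, 3, 1, 5, 2, 4], [0, 4, 5, 1, 3, 2], [0, 5, 4, 2, 1, 3], [0, 2, 5, 1, 4, 3], [0, 4, 3, 1, 2, 5], [0, 4, 5, 1, 2, 3], [0, 5, 1, 3, 2, 4]] 0 (by decide +kernel)

theorem E_7_7_2 : Emb 7 7 2 31 :=
  Emb_of_chk 7 7 2 (by decide) (by decide) [(0, 8), (5, 7), (4, 6)] (by decide)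
    [[0, 6, 8, 1, 2, 5, 3, 4, 7], [0, 8, 5, 7, 4, 1, 2, 3, 6], [0, 7, 2, 8, 3, 6, 5, 1, 4], [0, 4, 8, 2, 1, 7, 3, 5, 6], [0, 1, 5, 2, 7, 6, 4, 3, 8], [0, 4, 6, 3, 2, 5, 8, 7, 1], [0, 6, 3, 7, 5, 2, 1, 8, 4]]
    [[0, 2, 3, 6, 5, 4, 1], [0, 6, 1, 2, 4, 5, 3], [0, 3, 2, 4, 5, 1, 6], [0, 3, 6, 1, 5, 2, 4], [0, 4, 5, 6, 3, 2, 1], [0, 6, 1, 5, 4, 2, 3], [0, 1, 6, 3, 2, 5, 4], [0, 1, 6, 3, 5, 4, 2], [0, 5, 1, 4, 2, 3, 6]] (by decide +kernel)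

theorem E_7_7_6 : Emb 7 7 6 45 :=
  Emb_of_chk 7 7 6 (by decide) (by decide) [(1, 2), (3, 11), (4, 12)] (by decide)
    [[0, 6, 8, 5, 7, 2, 9, 3, 10, 4, 11, 1, 12], [0, 7, 3, 9, 4, 8, 1, 11, 5, 12, 2, 10, 6], [0, 12, 5, 9, 1, 2, 7, 6, 11, 3, 8, 4, 10], [0, 10, 1, 7, 4, 9, 6, 12, 3, 5, 8, 2, 11], [0, 9, 5, 10, 3, 11, 12, 4, 2, 1, 8, 6, 7], [0, 8, 3, 12, 1, 10, 2, 4, 7, 5, 11, 6, 9], [0, 11, 4, 12, 6, 10, 5, 3, 7, 1, 9, 2, 8]]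
    [[0, 2, 3, 6, 5, 4, 1], [0, 1, 4, 2, 6, 3, 5], [0, 2, 4, 5, 1, 3, 6], [0, 1, 6, 3, 5, 2, 4], [0, 2, 1, 3, 5, 4, 6], [0, 3, 6, 4, 2, 1, 5], [0, 1, 6, 3, 5, 2, 4], [0, 5, 3, 6, 1, 4, 2], [0, 4, 1, 2, 5, 6, 3], [0, 6, 2, 4, 5, 3, 1], [0, 4, 6, 1, 5, 3, 2], [0, 6, 3, 4, 2, 5, 1], [0, 5, 3, 6, 4, 1, 2]] (by decide +kernel)

theorem E_8_7_2 : Emb 8 7 2 35 :=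
  Emb_of_chk 8 7 2 (by decide) (by decide) [(0, 2), (3, 3), (0, 8), (6, 1)] (by decide)
    [[0, 3, 8, 6, 7, 5, 4, 1, 2], [0, 1, 2, 6, 5, 7, 3, 4, 8], [0, 6, 4, 3, 7, 2, 8, 5, 1], [0, 7, 4, 5, 1, 2, 3, 6, 8], [0, 2, 7, 1, 4, 6, 3, 5, 8], [0, 8, 2, 1, 5, 6, 4, 7, 3], [0, 8, 1, 5, 4, 6, 2, 3, 7], [0, 8, 4, 5, 3, 2, 1, 7, 6]]
    [[0, 4, 7, 2, 1, 6, 3, 5], [0, 4, 7, 3, 5, 1, 2, 6], [0, 3, 7, 6, 1, 5, 2, 4], [0, 5, 2, 1, 6, 7, 4, 3], [0, 7, 1, 2, 6, 3, 5, 4], [0, 1, 5, 3, 6, 2, 4, 7], [0, 3, 4, 5, 1, 6, 2, 7], [0, 7, 4, 2, 5, 3, 6, 1], [0, 6, 1, 7, 4, 2, 5, 3]] (by decide +kernel)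

theorem E_8_8_0 : EmbQ 8 8 0 32 :=
  EmbQ_of_chk 8 8 0 (by decide) (by decide) [] (by decide)
    [[0, 6, 1, 5, 2, 4, 3, 7], [0, 7, 3, 5, 1, 4, 2, 6], [0, 4, 1, 5, 3, 6, 2, 7], [0, 6, 3, 7, 2, 5, 1, 4], [0, 7, 3, 5, 2, 4, 1, 6], [0, 6, 1, 5, 3, 4, 2, 7], [0, 5, 1, 4, 3, 7, 2, 6], [0, 7, 3, 4, 1, 6, 2, 5]]
    [[0, 7, 6, 5, 4, 3, 2, 1], [0, 7, 6, 5, 4, 3, 2, 1], [0, 7, 6, 5, 4, 3, 2, 1], [0, 7, 6, 5, 4, 3, 2, 1], [0, 1, 2, 3, 4, 5, 6, 7], [0, 1, 2, 3, 4, 5, 6, 7], [0, 1, 2, 3, 4, 5, 6, 7], [0, 1, 2, 3, 4, 5, 6, 7]] 0 (by decide +kernel)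

theorem E_8_8_4 : EmbQ 8 8 4 48 :=
  EmbQ_of_chk 8 8 4 (by decide) (by decide) [] (by decide)
    [[0, 10, 6, 11, 5, 8, 7, 3, 1, 9, 4, 2], [0, 7, 6, 9, 5, 11, 1, 3, 10, 2, 4, 8], [0, 4, 11, 2, 9, 1, 8, 5, 6, 10, 7, 3], [0, 8, 1, 10, 5, 6, 7, 11, 3, 9, 2, 4], [0, 9, 7, 8, 3, 11, 6, 4, 2, 1, 5, 10], [0, 2, 8, 4, 10, 3, 7, 9, 6, 5, 1, 11], [0, 3, 8, 6, 5, 1, 2, 11, 7, 10, 4, 9], [0, 11, 4, 6, 8, 2, 10, 1, 5, 9, 3, 7]]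
    [[0, 5, 7, 1, 3, 2, 6, 4], [0, 1, 5, 4, 6, 7, 3, 2], [0, 3, 2, 6, 4, 1, 7, 5], [0, 7, 3, 4, 6, 2, 5, 1], [0, 6, 5, 1, 4, 7, 2, 3], [0, 1, 7, 6, 3, 4, 5, 2], [0, 2, 5, 1, 3, 6, 7, 4], [0, 4, 5, 2, 6, 3, 1, 7], [0, 2, 3, 1, 5, 7, 6, 4], [0, 2, 3, 7, 1, 5, 4, 6], [0, 4, 3, 7, 1, 5, 6, 2], [0, 4, 3, 6, 2, 7, 5, 1]] 0 (by decide +kernel)

theorem E_8_8_8 : EmbQ 8 8 8 64 :=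
  EmbQ_of_chk 8 8 8 (by decide) (by decide) [] (by decide)
    [[0, 9, 7, 10, 2, 11, 4, 15, 5, 14, 1, 12, 3, 13, 6, 8], [0, 15, 7, 12, 2, 10, 6, 11, 5, 8, 4, 13, 3, 9, 1, 14], [0, 11, 2, 14, 6, 12, 1, 13, 7, 8, 3, 10, 4, 9, 5, 15], [0, 10, 7, 14, 2, 8, 6, 15, 3, 12, 5, 13, 4, 11, 1, 9], [0, 14, 3, 11, 7, 15, 6, 9, 4, 8, 2, 13, 1, 10, 5, 12], [0, 13, 2, 15, 4, 12, 6, 10, 1, 8, 5, 9, 3, 14, 7, 11], [0, 8, 7, 9, 2, 12, 4, 14, 5, 10, 3, 15, 1, 11, 6, 13], [0, 12, 7, 13, 5, 11, 3, 8, 1, 15, 2, 9, 6, 14, 4, 10]]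
    [[0, 6, 5, 2, 1, 4, 7, 3], [0, 1, 3, 6, 7, 5, 4, 2], [0, 1, 6, 7, 5, 4, 3, 2], [0, 3, 6, 2, 7, 4, 5, 1], [0, 3, 1, 4, 2, 7, 6, 5], [0, 2, 5, 1, 7, 3, 4, 6], [0, 6, 1, 5, 2, 7, 4, 3], [0, 6, 2, 7, 1, 4, 5, 3], [0, 3, 4, 1, 5, 7, 2, 6], [0, 3, 1, 5, 2, 4, 7, 6], [0, 3, 7, 2, 6, 4, 5, 1], [0, 2, 5, 4, 7, 1, 6, 3], [0, 2, 5, 6, 1, 7, 4, 3], [0, 1, 3, 7, 2, 4, 5, 6], [0, 6, 7, 2, 3, 5, 4, 1], [0, 5, 7, 6, 3, 4, 1, 2]] 0 (by decide +kernel)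

theorem E_9_7_6 : Emb 9 7 6 57 :=
  Emb_of_chk 9 7 6 (by decide) (by decide) [(0, 10), (2, 9), (1, 1), (4, 10), (3, 1)] (by decide)
    [[0, 2, 7, 4, 1, 10, 3, 11, 5, 8, 6, 12, 9], [0, 4, 12, 5, 11, 3, 8, 2, 9, 1, 7, 6, 10], [0, 12, 2, 1, 4, 11, 3, 7, 5, 10, 9, 6, 8], [0, 7, 2, 11, 6, 9, 12, 5, 3, 10, 1, 8, 4], [0, 11, 2, 8, 1, 10, 6, 7, 5, 9, 3, 12, 4], [0, 8, 3, 9, 1, 2, 11, 4, 10, 5, 12, 6, 7], [0, 4, 7, 3, 11, 1, 9, 2, 10, 6, 8, 5, 12], [0, 9, 4, 8, 3, 5, 7, 6, 10, 2, 12, 1, 11], [0, 10, 4, 9, 5, 7, 1, 12, 3, 8, 6, 11, 2]]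
    [[0, 7, 4, 6, 2, 5, 3, 1, 8], [0, 2, 5, 6, 7, 8, 1, 4, 3], [0, 8, 5, 2, 7, 6, 1, 4, 3], [0, 3, 7, 8, 4, 5, 1, 6, 2], [0, 6, 4, 1, 3, 7, 8, 5, 2], [0, 1, 5, 2, 8, 4, 7, 3, 6], [0, 2, 3, 8, 6, 1, 4, 7, 5], [0, 3, 5, 7, 4, 1, 8, 2, 6], [0, 6, 8, 7, 3, 4, 1, 5, 2], [0, 3, 2, 1, 6, 5, 4, 8, 7], [0, 2, 5, 8, 1, 6, 7, 4, 3], [0, 2, 5, 8, 3, 4, 7, 6, 1], [0, 5, 1, 4, 8, 7, 2, 6, 3]] (by decide +kernel)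

theorem E_9_9_0 : Emb 9 9 0 39 :=
  Emb_of_chk 9 9 0 (by decide) (by decide) [(5, 0), (6, 7), (5, 5), (6, 8), (8, 1)] (by decide)
    [[0, 6, 4, 2, 3, 5, 1, 7, 8], [0, 7, 5, 1, 8, 3, 6, 2, 4], [0, 5, 7, 3, 2, 4, 1, 8, 6], [0, 8, 1, 7, 5, 3, 6, 2, 4], [0, 4, 2, 6, 3, 8, 7, 1, 5], [0, 8, 3, 7, 5, 2, 4, 6, 1], [0, 7, 4, 2, 5, 8, 1, 6, 3], [0, 4, 7, 1, 5, 2, 6, 3, 8], [0, 3, 6, 8, 1, 4, 2, 5, 7]]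
    [[0, 3, 7, 5, 6, 8, 1, 4, 2], [0, 4, 3, 2, 8, 5, 6, 1, 7], [0, 1, 7, 6, 5, 8, 3, 4, 2], [0, 2, 5, 4, 1, 7, 8, 6, 3], [0, 5, 6, 7, 3, 8, 2, 4, 1], [0, 3, 8, 5, 6, 7, 1, 2, 4], [0, 2, 8, 7, 1, 4, 3, 6, 5], [0, 7, 6, 5, 2, 1, 8, 3, 4], [0, 4, 5, 7, 1, 6, 8, 2, 3]] (by decide +kernel)

theorem E_10_7_2 : EmbQ 10 7 2 45 :=
  EmbQ_of_chk 10 7 2 (by decide) (by decide) [] (by decide)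
    [[0, 1, 2, 5, 7, 3, 8, 4, 6], [0, 1, 8, 3, 5, 6, 4, 2, 7], [0, 1, 2, 4, 7, 6, 5, 3, 8], [0, 1, 7, 3, 4, 5, 8, 2, 6], [0, 1, 2, 8, 3, 7, 4, 5, 6], [0, 6, 8, 3, 7, 5, 4, 2, 1], [0, 8, 6, 5, 2, 4, 3, 7, 1], [0, 7, 3, 8, 5, 4, 6, 2, 1], [0, 6, 7, 3, 4, 8, 5, 2, 1], [0, 6, 4, 3, 7, 2, 5, 8, 1]]
    [[0, 9, 2, 6, 1, 7, 4, 5, 3, 8], [0, 8, 4, 7, 2, 9, 1, 6, 3, 5], [0, 5, 2, 7, 3, 4, 8, 9, 1, 6], [0, 9, 8, 6, 3, 5, 7, 4, 2, 1], [0, 8, 9, 7, 4, 2, 5, 3, 6, 1], [0, 6, 1, 2, 4, 7, 9, 8, 3, 5], [0, 1, 6, 5, 4, 2, 8, 3, 7, 9], [0, 5, 3, 6, 8, 2, 4, 7, 1, 9], [0, 1, 9, 7, 5, 6, 2, 4, 3, 8]] 0 (by decide +kernel)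

theorem E_10_8_3 : EmbQ 10 8 3 55 :=
  EmbQ_of_chk 10 8 3 (by decide) (by decide) [] (by decide)
    [[0, 8, 7, 6, 9, 2, 3, 1, 4, 10, 5], [0, 8, 5, 2, 3, 9, 7, 1, 10, 4, 6], [0, 5, 2, 7, 8, 6, 10, 3, 1, 9, 4], [0, 2, 5, 4, 10, 6, 7, 9, 8, 1, 3], [0, 9, 1, 3, 10, 7, 6, 4, 5, 2, 8], [0, 3, 1, 7, 10, 5, 4, 6, 8, 2, 9], [0, 6, 1, 8, 4, 9, 3, 7, 2, 5, 10], [0, 10, 2, 5, 9, 7, 6, 4, 1, 3, 8], [0, 4, 5, 8, 9, 6, 7, 3, 2, 10, 1], [0, 1, 6, 7, 9, 5, 10, 4, 8, 3, 2]]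
    [[0, 2, 8, 9, 3, 5, 4, 1, 6, 7], [0, 3, 6, 9, 8, 1, 5, 4, 2, 7], [0, 5, 4, 6, 2, 3, 9, 1, 7, 8], [0, 8, 6, 1, 9, 7, 2, 4, 5, 3], [0, 7, 5, 4, 1, 3, 8, 2, 6, 9], [0, 6, 4, 5, 9, 7, 1, 8, 3, 2], [0, 9, 6, 1, 4, 3, 2, 5, 7, 8], [0, 2, 6, 8, 7, 3, 4, 5, 1, 9], [0, 7, 9, 6, 3, 8, 1, 4, 5, 2], [0, 8, 3, 7, 9, 1, 6, 2, 4, 5], [0, 9, 5, 4, 2, 3, 1, 8, 7, 6]] 0 (by decide +kernel)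

theorem E_10_9_3 : EmbQ 10 9 3 60 :=
  EmbQ_of_chk 10 9 3 (by decide) (by decide) [] (by decide)
    [[0, 3, 11, 8, 5, 9, 4, 10, 7, 1, 6, 2], [0, 2, 4, 9, 1, 7, 10, 8, 6, 5, 11, 3], [0, 3, 1, 11, 9, 2, 4, 7, 10, 5, 8, 6], [0, 6, 1, 10, 2, 4, 5, 3, 8, 9, 7, 11], [0, 9, 11, 6, 10, 4, 2, 5, 8, 3, 1, 7], [0, 3, 10, 1, 4, 11, 5, 2, 6, 8, 7, 9], [0, 10, 7, 8, 11, 1, 4, 2, 5, 6, 9, 3], [0, 7, 8, 10, 3, 5, 2, 11, 4, 1, 9, 6], [0, 11, 2, 9, 5, 10, 6, 8, 7, 4, 1, 3], [0, 6, 11, 7, 1, 3, 9, 8, 5, 4, 2, 10]]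
    [[0, 1, 2, 3, 8, 5, 4, 7, 9, 6], [0, 4, 9, 1, 7, 6, 2, 8, 5, 3], [0, 5, 4, 2, 8, 7, 6, 3, 9, 1], [0, 6, 9, 4, 3, 7, 5, 8, 2, 1], [0, 1, 9, 3, 6, 7, 5, 8, 2, 4], [0, 4, 5, 1, 6, 7, 3, 9, 2, 8], [0, 3, 2, 8, 4, 9, 7, 6, 1, 5], [0, 1, 9, 3, 5, 6, 2, 8, 7, 4], [0, 6, 5, 1, 7, 8, 2, 9, 3, 4], [0, 8, 2, 4, 5, 3, 9, 6, 7, 1], [0, 4, 8, 2, 6, 9, 3, 5, 7, 1], [0, 1, 5, 7, 8, 3, 9, 4, 2, 6]] 0 (by decide +kernel)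

end Pool.Agent.Helper201_K3
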