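import Pool.Agent.Helper201_K3.Pattern

set_option autoImplicit false

namespace Pool.Agent.Helper201_K3

variable {nc : ℕ}



/-
TARGETS ext_loc, ext_conn, family. Write z = p.zone.length, P = p.per.length. p.nth (i + P) = p.nth i for i ≥ z.
ext_loc: chk R A depends only on the values A e, |e| ≤ R. Put m = z + R + P (any m with z + P + R ≤ m and m + R ≤ q works).
For i < m the accessor of (q + P, i) agrees with that of (q, i) for |e| ≤ R: if 0 ≤ i + e it is p.nth (i+e) in both cases (i + e < q); if i + e < 0 it is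
p.nth (q + P + i + e) and p.nth (q + i + e), equal since q + i + e ≥ z. For m ≤ i < q + P it agrees with that of (q, i - P).
ext_conn: let σ = st_j, |σ| ≤ R everywhere on positions < q (from okS in loc: if |st| > R then the data is empty and 0 = -st; contradiction).
mv is a permutation of {0..q-1} (okS), and of {0..q+P-1} (ext_loc). Fix j; write x ~ y if x, y are in the same cycle modulo q+P.
LP: if z ≤ x - R and x + R < q + P (and x + P + ... see reach: all intermediate positions and both ends are in [x-R, x+R], and note x + P ≤ x + R or the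
case is trivial: reach starts and ends there) then x ~ x + P: `lp` gives a path of σ-steps from x' to x'+P (or back) in the two-sided periodic continuation,
x' = (x - z) mod P, staying in [x'-R, x'+R]; translate it by x - x'; all positions of the path are in [z, q+P), where the steps of p.nth agree
with the continuation (p.perst j (y - z) = step at y). [The endpoints x' and x'+P themselves: x' ∈ [x'-R, x'+R]; x'+P is the end of a path inside, or the start of
the reverse path; to be safe assume nothing and use the bound on q: z + 4R + 2P ≤ q.]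
Put m = z + 2R. Lift λ(i) = i for i < m and i + P for m ≤ i < q. For each i < q: λ(i) ~ λ(mv q i): if i and i + σ(i) are on the same side of m
(also when the step wraps around 0 or q) λ(mv q i) = mv (q+P) (λ i) by periodicity (p.nth (i+P) = p.nth i for i ≥ m); if i < m ≤ i + σ(i) =: y then mv (q+P) i = y and
λ(mv q i) = y + P ~ y by LP; if i ≥ m > i + σ(i) =: y ≥ 0, λ(i) = i + P, mv (q+P) (i+P) = y + P, λ(y) = y ~ y + P by LP (y ≥ m - R).
As all i < q are in one cycle modulo q, all λ(i) are equivalent; every x with m ≤ x < m + P satisfies x ~ x + P = λ(x). So everything modulo q+P is one cycle, and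
the orbit list of length q+P starting at 0 contains everything.
family: induction.
-/

private theorem aux_nth_add (p : Pat nc) (i : ℕ) (hi : p.zone.length ≤ i) :
    p.nth (i + p.per.length) = p.nth i := by
  unfold Pat.nth
  rw [if_neg (by omega), if_neg (by omega)]
  have h : i + p.per.length - p.zone.length = (i - p.zone.length) + p.per.length := by omega
  rw [h, Nat.add_mod_right]

private theorem aux_chk_congr (R : ℕ) (A B : ℤ → PD nc)
    (h : ∀ e : ℤ, -(R : ℤ) ≤ e → e ≤ R → A e = B e) : chk R A = chk R B := by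
  have hD : (fun e : ℤ => if -(R : ℤ) ≤ e ∧ e ≤ (R : ℤ) then A e else PD.nil nc) =
      fun e : ℤ => if -(R : ℤ) ≤ e ∧ e ≤ (R : ℤ) then B e else PD.nil nc := by
    funext e
    split_ifs with he
    · exact h e he.1 he.2
    · rfl
  unfold chk
  rw [hD]

private theorem aux_emod_nonneg_lt {a q : ℤ} (h0 : 0 ≤ a) (h1 : a < q) : a % q = a :=
  Int.emod_eq_of_lt h0 h1

private theorem aux_emod_neg {a q : ℤ} (h0 : a < 0) (h1 : -q ≤ a) : a % q = a + q := by
  have h : (a + q) % q = a % q := Int.add_emod_right a q
  rw [← h]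
  exact Int.emod_eq_of_lt (by omega) (by omega)

private theorem aux_emod_ge {a q : ℤ} (h0 : q ≤ a) (h1 : a < 2 * q) : a % q = a - q := by
  have h : (a - q) % q = a % q := by
    rw [Int.sub_emod_right]
  rw [← h]
  exact Int.emod_eq_of_lt (by omega) (by omega)

theorem ext_loc {nc : ℕ} (p : Pat nc) (R q : ℕ) (hP : 0 < p.per.length) (hq : p.zone.length + 2 * R + p.per.length ≤ q)
    (h : p.loc R q = true) : p.loc R (q + p.per.length) = true := by
  unfold Pat.loc at h ⊢
  rw [List.all_eq_true] at h ⊢
  intro i hi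
  rw [List.mem_range] at hi
  set P := p.per.length with hPdef
  set z := p.zone.length with hzdef
  by_cases him : i < z + R + P
  · have h1 := h i (List.mem_range.mpr (by omega))
    rw [← h1]
    apply aux_chk_congr
    intro e he1 he2
    unfold Pat.acc
    by_cases h0 : 0 ≤ (i : ℤ) + e
    · rw [aux_emod_nonneg_lt h0 (by push_cast; omega), aux_emod_nonneg_lt h0 (by omega)]
    · rw [aux_emod_neg (by omega) (by push_cast; omega), aux_emod_neg (by omega) (by omega)]
      have h2 : ((i : ℤ) + e + ((q + P : ℕ) : ℤ)).toNat = ((i : ℤ) + e + (q : ℤ)).toNat + P := by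
        push_cast; omega
      rw [h2]
      exact aux_nth_add p _ (by omega)
  · have h1 := h (i - P) (List.mem_range.mpr (by omega))
    rw [← h1]
    apply aux_chk_congr
    intro e he1 he2
    unfold Pat.acc
    by_cases h0 : (i : ℤ) + e < ((q + P : ℕ) : ℤ)
    · rw [aux_emod_nonneg_lt (by omega) h0,
        aux_emod_nonneg_lt (a := ((i - P : ℕ) : ℤ) + e) (by omega) (by push_cast at h0; omega)]
      have h2 : ((i : ℤ) + e).toNat = (((i - P : ℕ) : ℤ) + e).toNat + P := by
        omega
      rw [h2]
      exact aux_nth_add p _ (by omega)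
    · rw [aux_emod_ge (by omega) (by push_cast at h0 ⊢; omega),
        aux_emod_ge (a := ((i - P : ℕ) : ℤ) + e) (by push_cast at h0; omega)
          (by push_cast at h0; omega)]
      have h2 : (i : ℤ) + e - ((q + P : ℕ) : ℤ) = ((i - P : ℕ) : ℤ) + e - (q : ℤ) := by
        push_cast
        omega
      rw [h2]

private theorem aux_chk_st (R : ℕ) (A : ℤ → PD nc) (h : chk R A = true) (j : Fin nc) :
    (-(R : ℤ) ≤ (A 0).st.getD j.1 0 ∧ (A 0).st.getD j.1 0 ≤ R ∧
      (A ((A 0).st.getD j.1 0)).ps.getD j.1 0 = -(A 0).st.getD j.1 0) ∧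
    (-(R : ℤ) ≤ (A 0).ps.getD j.1 0 ∧ (A 0).ps.getD j.1 0 ≤ R ∧
      (A ((A 0).ps.getD j.1 0)).st.getD j.1 0 = -(A 0).ps.getD j.1 0) := by
  unfold chk at h
  simp only [Bool.and_eq_true] at h
  have h1 := h.1.2
  unfold okS at h1
  rw [List.all_eq_true] at h1
  have h2 := h1 j (List.mem_finRange j)
  have h0 : -(R : ℤ) ≤ 0 ∧ (0 : ℤ) ≤ R := by constructor <;> omega
  beta_reduce at h2
  rw [if_pos h0, Bool.and_eq_true, beq_iff_eq, beq_iff_eq] at h2
  obtain ⟨h3, h4⟩ := h2
  constructor
  · by_cases hc : -(R : ℤ) ≤ (A 0).st.getD j.1 0 ∧ (A 0).st.getD j.1 0 ≤ R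
    · rw [if_pos hc] at h3
      exact ⟨hc.1, hc.2, h3⟩
    · rw [if_neg hc] at h3
      have h5 : (PD.nil nc).ps.getD j.1 0 = 0 := by simp [PD.nil]
      rw [h5] at h3
      exfalso
      apply hc
      constructor <;> omega
  · by_cases hc : -(R : ℤ) ≤ (A 0).ps.getD j.1 0 ∧ (A 0).ps.getD j.1 0 ≤ R
    · rw [if_pos hc] at h4
      exact ⟨hc.1, hc.2, h4⟩
    · rw [if_neg hc] at h4
      have h5 : (PD.nil nc).st.getD j.1 0 = 0 := by simp [PD.nil]
      rw [h5] at h4
      exfalso
      apply hc
      constructor <;> omega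

/-- the inverse step -/
private def aux_vm (p : Pat nc) (q : ℕ) (j : ℕ) (i : ℕ) : ℕ :=
  (((i : ℤ) + (p.nth i).ps.getD j 0) % (q : ℤ)).toNat

private theorem aux_loc_st (p : Pat nc) (R q : ℕ) (h : p.loc R q = true) (i : ℕ) (hi : i < q)
    (j : Fin nc) :
    (-(R : ℤ) ≤ (p.nth i).st.getD j.1 0 ∧ (p.nth i).st.getD j.1 0 ≤ R ∧
      (p.nth (p.mv q j.1 i)).ps.getD j.1 0 = -(p.nth i).st.getD j.1 0) ∧
    (-(R : ℤ) ≤ (p.nth i).ps.getD j.1 0 ∧ (p.nth i).ps.getD j.1 0 ≤ R ∧
      (p.nth (aux_vm p q j.1 i)).st.getD j.1 0 = -(p.nth i).ps.getD j.1 0) := by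
  unfold Pat.loc at h
  rw [List.all_eq_true] at h
  have h1 := aux_chk_st R _ (h i (List.mem_range.mpr hi)) j
  have h0 : p.acc q i 0 = p.nth i := by
    unfold Pat.acc
    rw [add_zero, aux_emod_nonneg_lt (by omega) (by omega), Int.toNat_natCast]
  rw [h0] at h1
  exact h1

private theorem aux_mv_lt (p : Pat nc) (q j i : ℕ) (hq : 0 < q) : p.mv q j i < q := by
  unfold Pat.mv
  have h1 := Int.emod_nonneg ((i : ℤ) + (p.nth i).st.getD j 0) (b := (q : ℤ)) (by omega)
  have h2 := Int.emod_lt_of_pos ((i : ℤ) + (p.nth i).st.getD j 0) (b := (q : ℤ)) (by omega)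
  omega

private theorem aux_vm_lt (p : Pat nc) (q j i : ℕ) (hq : 0 < q) : aux_vm p q j i < q := by
  unfold aux_vm
  have h1 := Int.emod_nonneg ((i : ℤ) + (p.nth i).ps.getD j 0) (b := (q : ℤ)) (by omega)
  have h2 := Int.emod_lt_of_pos ((i : ℤ) + (p.nth i).ps.getD j 0) (b := (q : ℤ)) (by omega)
  omega

private theorem aux_vm_mv (p : Pat nc) (R q : ℕ) (h : p.loc R q = true) (i : ℕ) (hi : i < q)
    (j : Fin nc) : aux_vm p q j.1 (p.mv q j.1 i) = i := by
  have h1 := (aux_loc_st p R q h i hi j).1.2.2
  rw [aux_vm, h1, Pat.mv]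
  have h2 := Int.emod_nonneg ((i : ℤ) + (p.nth i).st.getD j.1 0) (b := (q : ℤ)) (by omega)
  rw [Int.toNat_of_nonneg h2, Int.emod_add_emod]
  have h3 : (i : ℤ) + (p.nth i).st.getD j.1 0 + -(p.nth i).st.getD j.1 0 = i := by ring
  rw [h3, aux_emod_nonneg_lt (by omega) (by omega), Int.toNat_natCast]

private theorem aux_mv_vm (p : Pat nc) (R q : ℕ) (h : p.loc R q = true) (i : ℕ) (hi : i < q)
    (j : Fin nc) : p.mv q j.1 (aux_vm p q j.1 i) = i := by
  have h1 := (aux_loc_st p R q h i hi j).2.2.2
  rw [Pat.mv, h1, aux_vm]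
  have h2 := Int.emod_nonneg ((i : ℤ) + (p.nth i).ps.getD j.1 0) (b := (q : ℤ)) (by omega)
  rw [Int.toNat_of_nonneg h2, Int.emod_add_emod]
  have h3 : (i : ℤ) + (p.nth i).ps.getD j.1 0 + -(p.nth i).ps.getD j.1 0 = i := by ring
  rw [h3, aux_emod_nonneg_lt (by omega) (by omega), Int.toNat_natCast]

/-- the permutation of the positions -/
private def aux_perm (p : Pat nc) (R q : ℕ) (h : p.loc R q = true) (j : Fin nc) :
    Equiv.Perm (Fin q) where
  toFun x := ⟨p.mv q j.1 x.1, aux_mv_lt p q j.1 x.1 (by have := x.2; omega)⟩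
  invFun x := ⟨aux_vm p q j.1 x.1, aux_vm_lt p q j.1 x.1 (by have := x.2; omega)⟩
  left_inv x := Fin.ext (aux_vm_mv p R q h x.1 x.2 j)
  right_inv x := Fin.ext (aux_mv_vm p R q h x.1 x.2 j)

/-- same cycle -/
private def aux_rel (p : Pat nc) (R q : ℕ) (h : p.loc R q = true) (j : Fin nc) (x y : ℕ) : Prop :=
  ∃ (hx : x < q) (hy : y < q), (aux_perm p R q h j).SameCycle ⟨x, hx⟩ ⟨y, hy⟩

private theorem aux_rel_refl (p : Pat nc) (R q : ℕ) (h : p.loc R q = true) (j : Fin nc) (x : ℕ)
    (hx : x < q) : aux_rel p R q h j x x := ⟨hx, hx, Equiv.Perm.SameCycle.refl _ _⟩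

private theorem aux_rel_symm {p : Pat nc} {R q : ℕ} {h : p.loc R q = true} {j : Fin nc} {x y : ℕ}
    (hxy : aux_rel p R q h j x y) : aux_rel p R q h j y x := by
  obtain ⟨hx, hy, hs⟩ := hxy
  exact ⟨hy, hx, hs.symm⟩

private theorem aux_rel_trans {p : Pat nc} {R q : ℕ} {h : p.loc R q = true} {j : Fin nc}
    {x y w : ℕ} (hxy : aux_rel p R q h j x y) (hyw : aux_rel p R q h j y w) :
    aux_rel p R q h j x w := by
  obtain ⟨hx, hy, hs⟩ := hxy
  obtain ⟨_, hw, hs'⟩ := hyw
  exact ⟨hx, hw, hs.trans hs'⟩

private theorem aux_rel_step (p : Pat nc) (R q : ℕ) (h : p.loc R q = true) (j : Fin nc) (x : ℕ)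
    (hx : x < q) : aux_rel p R q h j x (p.mv q j.1 x) := by
  refine ⟨hx, aux_mv_lt p q j.1 x (by omega), ?_⟩
  refine ⟨1, ?_⟩
  rw [zpow_one]
  rfl

private theorem aux_orbit_mem (f : ℕ → ℕ) (n : ℕ) : ∀ x y, y ∈ orbit f n x ↔
    ∃ k < n, f^[k] x = y := by
  induction n with
  | zero => intro x y; simp [orbit]
  | succ n ih =>
    intro x y
    rw [orbit, List.mem_cons, ih]
    constructor
    · rintro (h | ⟨k, hk, h⟩)
      · exact ⟨0, by omega, h.symm⟩
      · exact ⟨k + 1, by omega, by rw [Function.iterate_succ_apply]; exact h⟩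
    · rintro ⟨k, hk, h⟩
      cases k with
      | zero => left; exact h.symm
      | succ k =>
        right
        exact ⟨k, by omega, by rw [Function.iterate_succ_apply] at h; exact h⟩

private theorem aux_conn_iff (p : Pat nc) (q : ℕ) : p.conn q = true ↔
    ∀ (j : Fin nc) (i : ℕ), i < q → ∃ k < q, (p.mv q j.1)^[k] 0 = i := by
  unfold Pat.conn
  rw [List.all_eq_true]
  constructor
  · intro h j i hi
    have h1 := h j (List.mem_finRange j)
    rw [List.all_eq_true] at h1
    have h2 := h1 i (List.mem_range.mpr hi)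
    rw [List.contains_iff_mem] at h2
    exact (aux_orbit_mem _ _ _ _).mp h2
  · intro h j _
    rw [List.all_eq_true]
    intro i hi
    rw [List.contains_iff_mem]
    exact (aux_orbit_mem _ _ _ _).mpr (h j i (List.mem_range.mp hi))

private theorem aux_perm_iter (p : Pat nc) (R q : ℕ) (h : p.loc R q = true) (j : Fin nc)
    (x : Fin q) (k : ℕ) : (((aux_perm p R q h j) ^ k) x).1 = (p.mv q j.1)^[k] x.1 := by
  induction k generalizing x with
  | zero => rfl
  | succ k ih =>
    rw [pow_succ, Equiv.Perm.mul_apply, ih, Function.iterate_succ_apply]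
    rfl

/-- everything equivalent to `0` gives connectedness -/
private theorem aux_conn_of_rel (p : Pat nc) (R q : ℕ) (h : p.loc R q = true)
    (hr : ∀ (j : Fin nc) (i : ℕ), i < q → aux_rel p R q h j 0 i) : p.conn q = true := by
  rw [aux_conn_iff]
  intro j i hi
  obtain ⟨h0, hi', hs⟩ := hr j i hi
  by_cases hx : (⟨0, h0⟩ : Fin q) ∈ (aux_perm p R q h j).support
  · obtain ⟨k, hk, hk2⟩ := hs.exists_pow_eq_of_mem_support hx
    refine ⟨k, ?_, ?_⟩
    · have h1 : ((aux_perm p R q h j).cycleOf ⟨0, h0⟩).support.card ≤ q := by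
        have := Finset.card_le_univ ((aux_perm p R q h j).cycleOf ⟨0, h0⟩).support
        rwa [Fintype.card_fin] at this
      omega
    · rw [← aux_perm_iter p R q h j ⟨0, h0⟩ k, hk2]
  · rw [Equiv.Perm.notMem_support] at hx
    refine ⟨0, h0, ?_⟩
    have h2 : (⟨0, h0⟩ : Fin q) = ⟨i, hi'⟩ := by
      have h3 : Function.IsFixedPt (aux_perm p R q h j) ⟨0, h0⟩ := hx
      exact hs.eq_of_left h3
    have h4 := congrArg Fin.val h2
    exact h4

private theorem aux_st_perst (p : Pat nc) (j : ℕ) (x : ℕ) (hx : p.zone.length ≤ x) (a k : ℤ)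
    (ha : (x : ℤ) = a + p.zone.length + k * p.per.length) :
    (p.nth x).st.getD j 0 = p.perst j a := by
  unfold Pat.nth Pat.perst
  rw [if_neg (by omega)]
  have h1 : (x - p.zone.length) % p.per.length = (a % (p.per.length : ℤ)).toNat := by
    have h2 : ((x - p.zone.length : ℕ) : ℤ) = a + k * p.per.length := by
      rw [Nat.cast_sub hx]; linarith
    have h3 : (((x - p.zone.length) % p.per.length : ℕ) : ℤ) = a % (p.per.length : ℤ) := by
      rw [Int.natCast_mod, h2, Int.add_mul_emod_self_right]
    omega
  rw [h1]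

private theorem aux_reach_rel (p : Pat nc) (R N : ℕ) (h : p.loc R N = true) (j : Fin nc)
    (k lo hi : ℤ) (hlo : 0 ≤ lo + k * p.per.length)
    (hhi : hi + p.zone.length + k * p.per.length < N) : ∀ (n : ℕ) (a b : ℤ),
    reach (p.perst j.1) lo hi n a b = true → 0 ≤ a + k * p.per.length →
    a + p.zone.length + k * p.per.length < N →
    aux_rel p R N h j (a + p.zone.length + k * p.per.length).toNat
      (b + p.zone.length + k * p.per.length).toNat := by
  intro n
  induction n with
  | zero =>
    intro a b hr ha haN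
    rw [reach, beq_iff_eq] at hr
    rw [hr] at haN ⊢
    exact aux_rel_refl p R N h j _ (by omega)
  | succ n ih =>
    intro a b hr ha haN
    rw [reach, Bool.or_eq_true, beq_iff_eq, Bool.and_eq_true, decide_eq_true_eq] at hr
    rcases hr with hr | ⟨hr1, hr2⟩
    · rw [hr] at haN ⊢
      exact aux_rel_refl p R N h j _ (by omega)
    · have h1 := ih (a + p.perst j.1 a) b hr2 (by omega) (by omega)
      refine aux_rel_trans ?_ h1
      have h2 := aux_rel_step p R N h j (a + p.zone.length + k * p.per.length).toNat (by omega)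
      have h3 : p.mv N j.1 (a + p.zone.length + k * p.per.length).toNat =
          (a + p.perst j.1 a + p.zone.length + k * p.per.length).toNat := by
        have h4 := aux_st_perst p j.1 (a + p.zone.length + k * p.per.length).toNat (by omega) a k
          (by omega)
        rw [Pat.mv, h4, Int.toNat_of_nonneg (by omega), aux_emod_nonneg_lt (by omega) (by omega)]
        congr 1
        ring
      rw [h3] at h2
      exact h2

private theorem aux_LP (p : Pat nc) (R N : ℕ) (h : p.loc R N = true) (hP : 0 < p.per.length)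
    (hPR : p.per.length ≤ R) (hlp : p.lp R = true) (j : Fin nc) (x : ℕ)
    (hx1 : p.zone.length + R ≤ x) (hx2 : x + R < N) :
    aux_rel p R N h j x (x + p.per.length) := by
  unfold Pat.lp at hlp
  rw [List.all_eq_true] at hlp
  have h1 := hlp j (List.mem_finRange j)
  rw [List.all_eq_true] at h1
  have hdm := Nat.div_add_mod (x - p.zone.length) p.per.length
  have hml := Nat.mod_lt (x - p.zone.length) hP
  set x' := (x - p.zone.length) % p.per.length with hx'
  set k := (x - p.zone.length) / p.per.length with hk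
  have h2 := h1 x' (List.mem_range.mpr hml)
  have hx : (x : ℤ) = (x' : ℤ) + p.zone.length + (k : ℤ) * p.per.length := by
    have : ((x - p.zone.length : ℕ) : ℤ) = (x : ℤ) - p.zone.length := by
      rw [Nat.cast_sub (by omega)]
    have h3 : ((p.per.length * k + x' : ℕ) : ℤ) = (x : ℤ) - p.zone.length := by
      rw [hdm, this]
    push_cast at h3
    linarith
  have e1 : ((x' : ℤ) + p.zone.length + (k : ℤ) * p.per.length).toNat = x := by omega
  have e2 : ((x' : ℤ) + p.per.length + p.zone.length + (k : ℤ) * p.per.length).toNat =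
      x + p.per.length := by omega
  rw [Bool.or_eq_true] at h2
  rcases h2 with h2 | h2
  · have h3 := aux_reach_rel p R N h j k (x' - R) (x' + R) (by omega) (by omega) 20 x'
      (x' + p.per.length) h2 (by omega) (by omega)
    rw [e1, e2] at h3
    exact h3
  · have h3 := aux_reach_rel p R N h j k (x' - R) (x' + R) (by omega) (by omega) 20
      (x' + p.per.length) x' h2 (by omega) (by omega)
    rw [e1, e2] at h3
    exact aux_rel_symm h3

theorem ext_conn {nc : ℕ} (p : Pat nc) (R q : ℕ) (hP : 0 < p.per.length) (hPR : p.per.length ≤ R)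
    (hq : p.zone.length + 4 * R + 2 * p.per.length ≤ q)
    (h : p.loc R q = true) (hlp : p.lp R = true) (hc : p.conn q = true) : p.conn (q + p.per.length) = true := by
  have hN := ext_loc p R q hP (by omega) h
  apply aux_conn_of_rel p R (q + p.per.length) hN
  intro j
  have LP := aux_LP p R (q + p.per.length) hN hP hPR hlp j
  set P := p.per.length with hPdef
  set z := p.zone.length with hzdef
  -- the lift
  let lam : ℕ → ℕ := fun i => if i < z + 2 * R then i else i + P
  have key : ∀ i, i < q → aux_rel p R (q + P) hN j (lam i) (lam (p.mv q j.1 i)) := by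
    intro i hi
    obtain ⟨hs1, hs2, _⟩ := (aux_loc_st p R q h i hi j).1
    set σ := (p.nth i).st.getD j.1 0 with hσ
    have hmv : p.mv q j.1 i = (((i : ℤ) + σ) % (q : ℤ)).toNat := rfl
    by_cases him : i < z + 2 * R
    · have hl : lam i = i := if_pos him
      have hMV : p.mv (q + P) j.1 i = (((i : ℤ) + σ) % ((q + P : ℕ) : ℤ)).toNat := rfl
      have hstep := aux_rel_step p R (q + P) hN j i (by omega)
      rw [hl]
      by_cases h0 : (i : ℤ) + σ < 0
      · rw [aux_emod_neg h0 (by push_cast; omega)] at hMV
        rw [aux_emod_neg h0 (by omega)] at hmv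
        have h1 : lam (p.mv q j.1 i) = p.mv (q + P) j.1 i := by
          rw [hmv, hMV]
          show (if _ < z + 2 * R then _ else _) = _
          rw [if_neg (by omega)]
          push_cast
          omega
        rw [h1]
        exact hstep
      · rw [aux_emod_nonneg_lt (by omega) (by push_cast; omega)] at hMV
        rw [aux_emod_nonneg_lt (by omega) (by omega)] at hmv
        by_cases h1 : (i : ℤ) + σ < z + 2 * R
        · have h2 : lam (p.mv q j.1 i) = p.mv (q + P) j.1 i := by
            rw [hmv, hMV]
            show (if _ < z + 2 * R then _ else _) = _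
            rw [if_pos (by omega)]
          rw [h2]
          exact hstep
        · have h2 : lam (p.mv q j.1 i) = p.mv (q + P) j.1 i + P := by
            rw [hmv, hMV]
            show (if _ < z + 2 * R then _ else _) = _
            rw [if_neg (by omega)]
          rw [h2]
          exact aux_rel_trans hstep (LP _ (by rw [hMV]; omega) (by rw [hMV]; omega))
    · have hl : lam i = i + P := if_neg him
      have hnth : p.nth (i + P) = p.nth i := aux_nth_add p i (by omega)
      have hMV : p.mv (q + P) j.1 (i + P) =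
          ((((i + P : ℕ) : ℤ) + σ) % ((q + P : ℕ) : ℤ)).toNat := by
        rw [Pat.mv, hnth]
      have hstep := aux_rel_step p R (q + P) hN j (i + P) (by omega)
      rw [hl]
      by_cases h0 : (q : ℤ) ≤ (i : ℤ) + σ
      · rw [aux_emod_ge (by push_cast; omega) (by push_cast; omega)] at hMV
        rw [aux_emod_ge h0 (by omega)] at hmv
        have h1 : lam (p.mv q j.1 i) = p.mv (q + P) j.1 (i + P) := by
          rw [hmv, hMV]
          show (if _ < z + 2 * R then _ else _) = _
          rw [if_pos (by omega)]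
          push_cast
          omega
        rw [h1]
        exact hstep
      · rw [aux_emod_nonneg_lt (by push_cast; omega) (by push_cast; omega)] at hMV
        rw [aux_emod_nonneg_lt (by omega) (by omega)] at hmv
        by_cases h1 : (i : ℤ) + σ < z + 2 * R
        · have h2 : lam (p.mv q j.1 i) = p.mv q j.1 i := by
            show (if _ < z + 2 * R then _ else _) = _
            rw [if_pos (by rw [hmv]; omega)]
          have h3 : p.mv (q + P) j.1 (i + P) = p.mv q j.1 i + P := by
            rw [hmv, hMV]
            push_cast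
            omega
          rw [h2]
          rw [h3] at hstep
          exact aux_rel_trans hstep
            (aux_rel_symm (LP _ (by rw [hmv]; omega) (by rw [hmv]; omega)))
        · have h2 : lam (p.mv q j.1 i) = p.mv (q + P) j.1 (i + P) := by
            rw [hmv, hMV]
            show (if _ < z + 2 * R then _ else _) = _
            rw [if_neg (by omega)]
            push_cast
            omega
          rw [h2]
          exact hstep
  have hiter : ∀ k : ℕ, (p.mv q j.1)^[k] 0 < q ∧
      aux_rel p R (q + P) hN j 0 (lam ((p.mv q j.1)^[k] 0)) := by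
    intro k
    induction k with
    | zero =>
      refine ⟨by show 0 < q; omega, ?_⟩
      have h1 : lam 0 = 0 := if_pos (by omega)
      show aux_rel p R (q + P) hN j 0 (lam 0)
      rw [h1]
      exact aux_rel_refl p R (q + P) hN j 0 (by omega)
    | succ k ih =>
      rw [Function.iterate_succ_apply']
      exact ⟨aux_mv_lt p q j.1 _ (by omega), aux_rel_trans ih.2 (key _ ih.1)⟩
  have hlam : ∀ i, i < q → aux_rel p R (q + P) hN j 0 (lam i) := by
    intro i hi
    obtain ⟨k, _, hk⟩ := (aux_conn_iff p q).mp hc j i hi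
    have h1 := (hiter k).2
    rwa [hk] at h1
  intro x hx
  by_cases h1 : x < z + 2 * R
  · have h2 := hlam x (by omega)
    have h3 : lam x = x := if_pos h1
    rwa [h3] at h2
  · by_cases h2 : x < z + 2 * R + P
    · have h3 := hlam x (by omega)
      have h4 : lam x = x + P := if_neg h1
      rw [h4] at h3
      exact aux_rel_trans h3 (aux_rel_symm (LP x (by omega) (by omega)))
    · have h3 := hlam (x - P) (by omega)
      have h4 : lam (x - P) = x - P + P := if_neg (by omega)
      rw [h4, Nat.sub_add_cancel (by omega)] at h3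
      exact h3

theorem family {nc : ℕ} (p : Pat nc) (R q1 m : ℕ) (hP : 0 < p.per.length) (hPR : p.per.length ≤ R)
    (hm : p.zone.length + 4 * R + 2 * p.per.length ≤ q1 + m * p.per.length) (hlp : p.lp R = true)
    (h : ∀ t ≤ m, p.loc R (q1 + t * p.per.length) = true ∧ p.conn (q1 + t * p.per.length) = true) :
    ∀ t, p.loc R (q1 + t * p.per.length) = true ∧ p.conn (q1 + t * p.per.length) = true := by
  have key : ∀ s : ℕ, p.loc R (q1 + (m + s) * p.per.length) = true ∧
      p.conn (q1 + (m + s) * p.per.length) = true := by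
    intro s
    induction s with
    | zero => exact h m le_rfl
    | succ s ih =>
      have e : q1 + (m + (s + 1)) * p.per.length = q1 + (m + s) * p.per.length + p.per.length := by
        ring
      have hb : p.zone.length + 4 * R + 2 * p.per.length ≤ q1 + (m + s) * p.per.length := by
        refine hm.trans ?_
        have : m * p.per.length ≤ (m + s) * p.per.length := Nat.mul_le_mul_right _ (by omega)
        omega
      rw [e]
      exact ⟨ext_loc p R _ hP (by omega) ih.1, ext_conn p R _ hP hPR hb ih.1 hlp ih.2⟩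
  intro t
  by_cases ht : t ≤ m
  · exact h t ht
  · have h1 := key (t - m)
    rwa [Nat.add_sub_cancel' (by omega)] at h1

end Pool.Agent.Helper201_K3
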