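import Pool.Agent.Helper201_K3.Core

set_option autoImplicit false

namespace Pool.Agent.Helper201_K3


open Equiv.Perm in
theorem ncyc_eq {D : Type*} [Fintype D] [DecidableEq D] (f : Equiv.Perm D) :
    ncyc f = f.cycleFactorsFinset.card + Fintype.card (Function.fixedPoints f) := by
  classical
  let F : D → f.cycleFactorsFinset ⊕ Function.fixedPoints f := fun d =>
    if h : f d = d then Sum.inr ⟨d, h⟩
    else Sum.inl ⟨cycleOf f d, cycleOf_mem_cycleFactorsFinset_iff.2 (mem_support.2 h)⟩
  have hF1 : ∀ d, ∀ h : f d = d, F d = Sum.inr ⟨d, h⟩ := fun d h => dif_pos h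
  have hF2 : ∀ d, ∀ h : f d ≠ d, F d = Sum.inl
      ⟨cycleOf f d, cycleOf_mem_cycleFactorsFinset_iff.2 (mem_support.2 h)⟩ :=
    fun d h => dif_neg h
  have hiff : ∀ d e, F d = F e ↔ f.SameCycle d e := by
    intro d e
    constructor
    · intro h
      by_cases h1 : f d = d <;> by_cases h2 : f e = e
      · rw [hF1 d h1, hF1 e h2] at h
        have : d = e := congrArg Subtype.val (Sum.inr_injective h)
        rw [this]
      · rw [hF1 d h1, hF2 e h2] at h
        exact absurd h (by simp)
      · rw [hF2 d h1, hF1 e h2] at h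
        exact absurd h (by simp)
      · rw [hF2 d h1, hF2 e h2] at h
        have h3 : cycleOf f d = cycleOf f e := congrArg Subtype.val (Sum.inl_injective h)
        exact (sameCycle_iff_cycleOf_eq_of_mem_support (mem_support.2 h1) (mem_support.2 h2)).2 h3
    · intro h
      by_cases h1 : f d = d
      · have h2 : d = e := h.eq_of_left h1
        rw [h2]
      · have h2 : f e ≠ e := fun h2 => h1 (by
          have h3 : d = e := h.eq_of_right h2
          rw [h3]; exact h2)
        rw [hF2 d h1, hF2 e h2]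
        congr 1
        exact Subtype.ext h.cycleOf_eq
  let Q : Quotient (SameCycle.setoid f) → f.cycleFactorsFinset ⊕ Function.fixedPoints f :=
    Quotient.lift F fun d e h => (hiff d e).2 h
  have hQ : Function.Bijective Q := by
    constructor
    · intro x y
      induction x using Quotient.inductionOn with | _ x
      induction y using Quotient.inductionOn with | _ y
      intro h
      exact Quotient.sound ((hiff x y).1 h)
    · rintro (⟨c, hc⟩ | ⟨d, hd⟩)
      · obtain ⟨x, hx⟩ := (mem_cycleFactorsFinset_iff.1 hc).1.nonempty_support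
        have h1 : c = cycleOf f x := cycle_is_cycleOf hx hc
        have h2 : f x ≠ x := by
          rw [← (mem_cycleFactorsFinset_iff.1 hc).2 x hx]
          exact mem_support.1 hx
        refine ⟨Quotient.mk _ x, ?_⟩
        change F x = _
        rw [hF2 x h2]
        congr 1
        exact Subtype.ext h1.symm
      · refine ⟨Quotient.mk _ d, ?_⟩
        change F d = _
        rw [hF1 d hd]
  rw [ncyc, Nat.card_congr (Equiv.ofBijective Q hQ), Nat.card_eq_fintype_card, Fintype.card_sum,
    Fintype.card_coe]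

open Equiv.Perm in
theorem sign_eq {D : Type*} [Fintype D] [DecidableEq D] (f : Equiv.Perm D) :
    sign f = (-1 : ℤˣ) ^ (Fintype.card D + ncyc f) := by
  rw [ncyc_eq, sign_of_cycleType, sum_cycleType, card_fixedPoints, sum_cycleType, cycleType_def,
    Multiset.card_map, Finset.card_val]
  have h : f.support.card ≤ Fintype.card D := Finset.card_le_univ _
  have h2 : Fintype.card D + (f.cycleFactorsFinset.card + (Fintype.card D - f.support.card)) =
    f.support.card + f.cycleFactorsFinset.card + 2 * (Fintype.card D - f.support.card) := by omega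
  rw [h2, pow_add _ _ (2 * _), pow_mul]
  simp

/-- weighted count of cycles -/
theorem mul_ncyc_le {D : Type*} [Fintype D] [DecidableEq D] (f : Equiv.Perm D) (w : D → ℕ) (c : ℕ)
    (h : ∀ d, ∃ s : Finset D, (∀ x ∈ s, f.SameCycle d x) ∧ c ≤ ∑ x ∈ s, w x) :
    c * ncyc f ≤ ∑ x, w x := by
  classical
  have : Fintype (Quotient (Equiv.Perm.SameCycle.setoid f)) := Fintype.ofFinite _
  rw [ncyc, Nat.card_eq_fintype_card,
    ← Finset.sum_fiberwise Finset.univ (fun x => Quotient.mk (Equiv.Perm.SameCycle.setoid f) x) w]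
  calc c * Fintype.card (Quotient (Equiv.Perm.SameCycle.setoid f)) =
      ∑ _q : Quotient (Equiv.Perm.SameCycle.setoid f), c := by
        rw [Finset.sum_const, Finset.card_univ, smul_eq_mul, mul_comm]
    _ ≤ _ := by
        refine Finset.sum_le_sum fun q _ => ?_
        induction q using Quotient.inductionOn with | _ d
        obtain ⟨s, hs1, hs2⟩ := h d
        refine hs2.trans (Finset.sum_le_sum_of_subset ?_)
        intro x hx
        rw [Finset.mem_filter]
        exact ⟨Finset.mem_univ _, Quotient.sound (hs1 x hx).symm⟩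


/-- the reversal of darts -/
def al {V : Type*} (G : SimpleGraph V) : Equiv.Perm G.Dart :=
  Function.Involutive.toPerm SimpleGraph.Dart.symm SimpleGraph.Dart.symm_involutive

theorem al_apply {V : Type*} (G : SimpleGraph V) (d : G.Dart) : al G d = d.symm := rfl

theorem ncyc_sigma {V : Type*} [Finite V] (G : SimpleGraph V) (σ : Equiv.Perm G.Dart)
    (hσ : ∀ d : G.Dart, (σ d).fst = d.fst)
    (ht : ∀ d d' : G.Dart, d.fst = d'.fst → ∃ n : ℕ, (σ ^ n) d = d')
    (hdeg : ∀ v, ∃ w, G.Adj v w) : ncyc σ = Nat.card V := by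
  have hσn : ∀ (n : ℕ) (d : G.Dart), ((σ ^ n) d).fst = d.fst := by
    intro n
    induction n with
    | zero => intro d; simp
    | succ n ih => intro d; rw [pow_succ', Equiv.Perm.mul_apply, hσ, ih]
  have hσz : ∀ (n : ℤ) (d : G.Dart), ((σ ^ n) d).fst = d.fst := by
    intro n d
    rcases n with n | n
    · simpa using hσn n d
    · have := hσn (n + 1) ((σ ^ (Int.negSucc n)) d)
      rw [zpow_negSucc, ← Equiv.Perm.mul_apply, mul_inv_cancel, Equiv.Perm.one_apply] at this
      rw [zpow_negSucc]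
      exact this.symm
  let Q : Quotient (Equiv.Perm.SameCycle.setoid σ) → V :=
    Quotient.lift (fun d : G.Dart => d.fst) fun d e h => by
      obtain ⟨n, hn⟩ := h
      rw [← hn, hσz]
  have hQ : Function.Bijective Q := by
    constructor
    · intro x y
      induction x using Quotient.inductionOn with | _ x
      induction y using Quotient.inductionOn with | _ y
      intro h
      obtain ⟨n, hn⟩ := ht x y h
      exact Quotient.sound ⟨n, by simpa using hn⟩
    · intro v
      obtain ⟨w, hw⟩ := hdeg v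
      exact ⟨Quotient.mk _ ⟨(v, w), hw⟩, rfl⟩
  rw [ncyc, Nat.card_congr (Equiv.ofBijective Q hQ)]

theorem al_pow {V : Type*} (G : SimpleGraph V) (n : ℤ) (d : G.Dart) :
    ((al G ^ n) d).edge = d.edge := by
  have h1 : ∀ (n : ℕ) (d : G.Dart), ((al G ^ n) d).edge = d.edge := by
    intro n
    induction n with
    | zero => intro d; simp
    | succ n ih => intro d; rw [pow_succ', Equiv.Perm.mul_apply, al_apply, SimpleGraph.Dart.edge_symm,
        ih]
  rcases n with n | n
  · simpa using h1 n d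
  · have := h1 (n + 1) ((al G ^ (Int.negSucc n)) d)
    rw [zpow_negSucc, ← Equiv.Perm.mul_apply, mul_inv_cancel, Equiv.Perm.one_apply] at this
    rw [zpow_negSucc]
    exact this.symm

theorem ncyc_al {V : Type*} [Finite V] (G : SimpleGraph V) :
    ncyc (al G) = Nat.card G.edgeSet := by
  let Q : Quotient (Equiv.Perm.SameCycle.setoid (al G)) → G.edgeSet :=
    Quotient.lift (fun d : G.Dart => ⟨d.edge, d.edge_mem⟩) fun d e h => by
      obtain ⟨n, hn⟩ := h
      apply Subtype.ext
      change d.edge = e.edge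
      rw [← hn, al_pow]
  have hQ : Function.Bijective Q := by
    constructor
    · intro x y
      induction x using Quotient.inductionOn with | _ x
      induction y using Quotient.inductionOn with | _ y
      intro h
      have h1 : x.edge = y.edge := congrArg Subtype.val h
      rcases (SimpleGraph.dart_edge_eq_iff x y).1 h1 with h2 | h2
      · rw [h2]
      · refine Quotient.sound ⟨1, ?_⟩
        rw [zpow_one, al_apply, h2, SimpleGraph.Dart.symm_symm]
    · rintro ⟨e, he⟩
      induction e using Sym2.inductionOn with | _ a b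
      exact ⟨Quotient.mk _ ⟨(a, b), he⟩, rfl⟩
  rw [ncyc, Nat.card_congr (Equiv.ofBijective Q hQ)]

theorem card_dart {V : Type*} [Finite V] (G : SimpleGraph V) :
    Nat.card G.Dart = 2 * Nat.card G.edgeSet := by
  classical
  have := Fintype.ofFinite V
  rw [Nat.card_eq_fintype_card, SimpleGraph.dart_card_eq_twice_card_edges,
    Nat.card_eq_fintype_card, SimpleGraph.edgeFinset_card]

theorem even_euler {V : Type*} [Finite V] (G : SimpleGraph V) (σ : Equiv.Perm G.Dart)
    (hσ : ∀ d : G.Dart, (σ d).fst = d.fst)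
    (ht : ∀ d d' : G.Dart, d.fst = d'.fst → ∃ n : ℕ, (σ ^ n) d = d')
    (hdeg : ∀ v, ∃ w, G.Adj v w) :
    Even ((Nat.card V : ℤ) - (Nat.card G.edgeSet : ℤ) + (ncyc (σ * al G) : ℤ)) := by
  classical
  have := Fintype.ofFinite V
  have h1 : Equiv.Perm.sign (σ * al G) = Equiv.Perm.sign σ * Equiv.Perm.sign (al G) :=
    Equiv.Perm.sign_mul _ _
  rw [sign_eq, sign_eq, sign_eq, ← pow_add, ncyc_sigma G σ hσ ht hdeg, ncyc_al,
    ← Nat.card_eq_fintype_card, card_dart] at h1
  have h2 : Even (2 * Nat.card G.edgeSet + ncyc (σ * al G) +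
      (2 * Nat.card G.edgeSet + Nat.card V + (2 * Nat.card G.edgeSet + Nat.card G.edgeSet))) := by
    by_contra hodd
    rw [Nat.not_even_iff_odd] at hodd
    have h3 := congrArg (fun t : ℤˣ => t * (-1 : ℤˣ) ^ (2 * Nat.card G.edgeSet + Nat.card V +
      (2 * Nat.card G.edgeSet + Nat.card G.edgeSet))) h1
    simp only [← pow_add] at h3
    rw [hodd.neg_one_pow, Even.neg_one_pow ⟨_, rfl⟩] at h3
    exact absurd h3 (by decide)
  obtain ⟨k, hk⟩ := h2
  rw [Int.even_iff]
  omega

theorem faces_weight {V : Type*} [Finite V] (G : SimpleGraph V) [Fintype G.Dart]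
    (σ : Equiv.Perm G.Dart)
    (hσ : ∀ d : G.Dart, (σ d).fst = d.fst)
    (ht : ∀ d d' : G.Dart, d.fst = d'.fst → ∃ n : ℕ, (σ ^ n) d = d')
    (hdeg : ∀ v w, ∃ w', w' ≠ w ∧ G.Adj v w') (w : G.Dart → ℕ) (hw : ∀ d, 1 ≤ w d)
    (hw3 : ∀ d₁ d₂ d₃ : G.Dart, d₁.snd = d₂.fst → d₂.snd = d₃.fst → d₃.snd = d₁.fst →
      4 ≤ w d₁ + w d₂ + w d₃) :
    4 * ncyc (σ * al G) ≤ ∑ d, w d := by
  classical
  refine mul_ncyc_le (σ * al G) w 4 fun d => ?_
  set f := σ * al G with hf
  have hfst : ∀ e, (f e).fst = e.snd := by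
    intro e
    rw [hf, Equiv.Perm.mul_apply, al_apply, hσ]
    rfl
  have ha1 : ∀ e, f e ≠ e := by
    intro e he
    have h1 := hfst e
    rw [he] at h1
    exact e.adj.ne h1
  have ha2 : ∀ e, f (f e) ≠ e := by
    intro e he
    have h1 : f e = e.symm := by
      apply SimpleGraph.Dart.ext
      apply Prod.ext
      · exact hfst e
      · have h2 := hfst (f e)
        rw [he] at h2
        exact h2.symm
    have h2 : σ e.symm = e.symm := h1
    obtain ⟨w', hw1, hw2⟩ := hdeg e.snd e.fst
    obtain ⟨n, hn⟩ := ht e.symm ⟨(e.snd, w'), hw2⟩ rfl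
    have h3 : ∀ n : ℕ, (σ ^ n) e.symm = e.symm := by
      intro n
      induction n with
      | zero => simp
      | succ n ih => rw [pow_succ', Equiv.Perm.mul_apply, ih, h2]
    rw [h3] at hn
    have h4 : e.fst = w' := congrArg (fun d : G.Dart => d.snd) hn
    exact hw1 h4.symm
  have hs1 : f.SameCycle d (f d) := ⟨1, by simp⟩
  have hs2 : f.SameCycle d (f (f d)) := ⟨2, by rw [zpow_two]; rfl⟩
  by_cases ha3 : f (f (f d)) = d
  · refine ⟨{d, f d, f (f d)}, ?_, ?_⟩
    · intro x hx
      simp only [Finset.mem_insert, Finset.mem_singleton] at hx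
      rcases hx with rfl | rfl | rfl
      · exact Equiv.Perm.SameCycle.refl _ _
      · exact hs1
      · exact hs2
    · rw [Finset.sum_insert, Finset.sum_insert, Finset.sum_singleton]
      · have h1 := hw3 d (f d) (f (f d)) (hfst _).symm (hfst _).symm (by
          have h2 := hfst (f (f d))
          rw [ha3] at h2
          exact h2.symm)
        omega
      · simp only [Finset.mem_singleton]
        exact (ha1 _).symm
      · simp only [Finset.mem_insert, Finset.mem_singleton, not_or]
        exact ⟨(ha1 _).symm, (ha2 _).symm⟩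
  · refine ⟨{d, f d, f (f d), f (f (f d))}, ?_, ?_⟩
    · intro x hx
      simp only [Finset.mem_insert, Finset.mem_singleton] at hx
      rcases hx with rfl | rfl | rfl | rfl
      · exact Equiv.Perm.SameCycle.refl _ _
      · exact hs1
      · exact hs2
      · exact ⟨3, by
          rw [show (3 : ℤ) = 1 + 1 + 1 by norm_num, zpow_add, zpow_add, zpow_one]
          simp⟩
    · rw [Finset.sum_insert, Finset.sum_insert, Finset.sum_insert, Finset.sum_singleton]
      · have h1 := hw d
        have h2 := hw (f d)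
        have h3 := hw (f (f d))
        have h4 := hw (f (f (f d)))
        omega
      · simp only [Finset.mem_singleton]
        exact (ha1 _).symm
      · simp only [Finset.mem_insert, Finset.mem_singleton, not_or]
        exact ⟨(ha1 _).symm, (ha2 _).symm⟩
      · simp only [Finset.mem_insert, Finset.mem_singleton, not_or]
        exact ⟨(ha1 _).symm, (ha2 _).symm, fun h => ha3 h.symm⟩

theorem sum_dart {V : Type*} [Fintype V] (G : SimpleGraph V) [Fintype G.Dart] [DecidableRel G.Adj]
    (g : V → V → ℕ) :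
    ∑ d : G.Dart, g d.fst d.snd = ∑ u, ∑ v, if G.Adj u v then g u v else 0 := by
  classical
  let e : G.Dart ≃ {p : V × V // G.Adj p.1 p.2} :=
    { toFun := fun d => ⟨d.toProd, d.adj⟩
      invFun := fun p => ⟨p.1, p.2⟩
      left_inv := fun d => rfl
      right_inv := fun p => rfl }
  have h1 : ∑ d : G.Dart, g d.fst d.snd =
      ∑ p : {p : V × V // G.Adj p.1 p.2}, g p.1.1 p.1.2 :=
    Fintype.sum_equiv e _ _ fun d => rfl
  rw [h1, ← Fintype.sum_prod_type' (fun u v => if G.Adj u v then g u v else 0),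
    ← Finset.sum_filter]
  symm
  apply Finset.sum_subtype
  intro p
  simp

open Classical in
theorem faces_le (p q r : ℕ) (hqp : q ≤ p) (hrq : r ≤ q) (hp : 2 ≤ p) (hqr : 2 ≤ q + r)
    (G : SimpleGraph (Σ i : Fin 3, Fin (![p, q, r] i)))
    (hG : G = SimpleGraph.completeMultipartiteGraph (fun i : Fin 3 => Fin (![p, q, r] i)))
    (σ : Equiv.Perm G.Dart) (hσ : ∀ d : G.Dart, (σ d).fst = d.fst)
    (ht : ∀ d d' : G.Dart, d.fst = d'.fst → ∃ n : ℕ, (σ ^ n) d = d') :
    ((Nat.card (Σ i : Fin 3, Fin (![p, q, r] i)) : ℤ) - (Nat.card G.edgeSet : ℤ)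
              + (Nat.card (Quotient (Equiv.Perm.SameCycle.setoid
                  (σ * Function.Involutive.toPerm SimpleGraph.Dart.symm
                    SimpleGraph.Dart.symm_involutive))) : ℤ)
            ≤ 2 - 2 * ⌈((p : ℚ) - 2) * ((q : ℚ) + (r : ℚ) - 2) / 4⌉) := by
  have hadj : ∀ u v, G.Adj u v ↔ u.1 ≠ v.1 := by
    intro u v
    rw [hG]
    rfl
  -- every vertex has two neighbours
  have hdeg : ∀ v w, ∃ w', w' ≠ w ∧ G.Adj v w' := by
    intro v w
    have key : ∀ w₁ w₂ : (Σ i : Fin 3, Fin (![p, q, r] i)), w₁ ≠ w₂ → v.1 ≠ w₁.1 → v.1 ≠ w₂.1 →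
        ∃ w', w' ≠ w ∧ G.Adj v w' := by
      intro w₁ w₂ h12 h1 h2
      by_cases h : w₁ = w
      · exact ⟨w₂, fun h' => h12 (h.trans h'.symm), (hadj _ _).2 h2⟩
      · exact ⟨w₁, h, (hadj _ _).2 h1⟩
    by_cases hv : v.1 = 0
    · by_cases hq : 2 ≤ q
      · refine key ⟨1, ⟨0, by simp; omega⟩⟩ ⟨1, ⟨1, by simp; omega⟩⟩ ?_ ?_ ?_
        · intro h
          have h1 := congrArg (fun u : (Σ i : Fin 3, Fin (![p, q, r] i)) => (u.2 : ℕ)) h
          simp at h1
        · rw [hv]; change (0 : Fin 3) ≠ 1; decide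
        · rw [hv]; change (0 : Fin 3) ≠ 1; decide
      · have h1 : q = 1 := by omega
        have h2 : r = 1 := by omega
        subst h1 h2
        refine key ⟨1, ⟨0, by simp⟩⟩ ⟨2, ⟨0, by simp⟩⟩ ?_ ?_ ?_
        · intro h
          have h1 := congrArg (fun u : (Σ i : Fin 3, Fin (![p, 1, 1] i)) => u.1) h
          change (1 : Fin 3) = 2 at h1
          exact absurd h1 (by decide)
        · rw [hv]; change (0 : Fin 3) ≠ 1; decide
        · rw [hv]; change (0 : Fin 3) ≠ 2; decide
    · refine key ⟨0, ⟨0, by simp; omega⟩⟩ ⟨0, ⟨1, by simp; omega⟩⟩ ?_ hv hv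
      intro h
      have h1 := congrArg (fun u : (Σ i : Fin 3, Fin (![p, q, r] i)) => (u.2 : ℕ)) h
      simp at h1
  have hdeg' : ∀ v, ∃ w, G.Adj v w := fun v => by
    obtain ⟨w, _, hw⟩ := hdeg v v
    exact ⟨w, hw⟩
  have hev := even_euler G σ hσ ht hdeg'
  have hwt := faces_weight G σ hσ ht hdeg
    (fun d => if d.fst.1 ≠ 0 ∧ d.snd.1 ≠ 0 then 2 else 1)
    (fun d => by split_ifs <;> omega)
    (by
      intro d₁ d₂ d₃ h1 h2 h3
      have a1 := (hadj _ _).1 d₁.adj
      have a2 := (hadj _ _).1 d₂.adj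
      have a3 := (hadj _ _).1 d₃.adj
      change d₁.fst.1 ≠ d₁.snd.1 at a1
      change d₂.fst.1 ≠ d₂.snd.1 at a2
      change d₃.fst.1 ≠ d₃.snd.1 at a3
      simp only [h1, h2, h3] at a1 a2 a3 ⊢
      generalize d₁.fst.1 = x at *
      generalize d₂.fst.1 = y at *
      generalize d₃.fst.1 = z at *
      revert a1 a2 a3
      revert x y z
      decide)
  have hsum : ∀ g : Fin 3 → Fin 3 → ℕ, ∑ d : G.Dart, g d.fst.1 d.snd.1 =
      p * (q * g 0 1 + r * g 0 2) + q * (p * g 1 0 + r * g 1 2) + r * (p * g 2 0 + q * g 2 1) := by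
    intro g
    rw [sum_dart G (fun u v => g u.1 v.1), Fintype.sum_sigma]
    simp only [Fintype.sum_sigma, hadj, Fin.sum_univ_three, Finset.sum_const, Finset.card_univ,
      Fintype.card_fin, smul_eq_mul]
    simp
  have hcard : Nat.card G.Dart = 2 * (p * q + p * r + q * r) := by
    have h1 := hsum (fun _ _ => 1)
    simp only [Finset.sum_const, Finset.card_univ, smul_eq_mul, mul_one] at h1
    rw [Nat.card_eq_fintype_card, h1]
    ring
  have hw2 := hsum (fun i j => if i ≠ 0 ∧ j ≠ 0 then 2 else 1)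
  have hE := card_dart G
  rw [hcard] at hE
  have hV : Nat.card (Σ i : Fin 3, Fin (![p, q, r] i)) = p + q + r := by
    rw [Nat.card_eq_fintype_card, Fintype.card_sigma]
    simp [Fin.sum_univ_three]
  have hF : Nat.card (Quotient (Equiv.Perm.SameCycle.setoid
      (σ * Function.Involutive.toPerm SimpleGraph.Dart.symm
        SimpleGraph.Dart.symm_involutive))) = ncyc (σ * al G) := rfl
  rw [hF]
  rw [hV] at hev ⊢
  rw [hw2] at hwt
  have e1 : (if ((0 : Fin 3) ≠ 0 ∧ (1 : Fin 3) ≠ 0) then 2 else 1) = 1 := by decide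
  have e2 : (if ((0 : Fin 3) ≠ 0 ∧ (2 : Fin 3) ≠ 0) then 2 else 1) = 1 := by decide
  have e3 : (if ((1 : Fin 3) ≠ 0 ∧ (0 : Fin 3) ≠ 0) then 2 else 1) = 1 := by decide
  have e4 : (if ((1 : Fin 3) ≠ 0 ∧ (2 : Fin 3) ≠ 0) then 2 else 1) = 2 := by decide
  have e5 : (if ((2 : Fin 3) ≠ 0 ∧ (0 : Fin 3) ≠ 0) then 2 else 1) = 1 := by decide
  have e6 : (if ((2 : Fin 3) ≠ 0 ∧ (1 : Fin 3) ≠ 0) then 2 else 1) = 2 := by decide
  rw [e1, e2, e3, e4, e5, e6] at hwt
  have hE' : (Nat.card G.edgeSet : ℤ) = p * q + p * r + q * r := by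
    have : Nat.card G.edgeSet = p * q + p * r + q * r := by omega
    rw [this]; push_cast; ring
  rw [hE'] at hev ⊢
  obtain ⟨k, hk⟩ := hev
  have hk' := hk
  push_cast at hk'
  have hwt' : (4 : ℤ) * ncyc (σ * al G) ≤
      p * (q * 1 + r * 1) + q * (p * 1 + r * 2) + r * (p * 1 + q * 2) := by
    exact_mod_cast hwt
  have hg : ⌈((p : ℚ) - 2) * ((q : ℚ) + (r : ℚ) - 2) / 4⌉ ≤ 1 - k := by
    rw [Int.ceil_le]
    have h1 : ((p : ℤ) - 2) * (q + r - 2) ≤ 4 * (1 - k) := by
      nlinarith
    have h2 : ((p : ℚ) - 2) * (q + r - 2) ≤ 4 * (1 - k) := by exact_mod_cast h1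
    push_cast
    linarith
  rw [hk]
  linarith

end Pool.Agent.Helper201_K3
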