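import Pool.Agent.Helper201_K3.WantAll
import Pool.Agent.Helper201_K3.Bridge
import Pool.Agent.Helper201_K3.Faces

set_option autoImplicit false

namespace Pool.Agent.Helper201_K3

/-- The embeddings with one vertex in each of the two small parts. -/
theorem all_one (p : ℕ) (hp : 2 ≤ p) : Emb p 1 1 (Ft p (1 + 1)) := by
  have key : ∀ k s, s < 4 → Emb (2 + s + 4 * k) 1 1 (Ft (2 + s + 4 * k) (1 + 1)) := by
    intro k
    induction k with
    | zero =>
      intro s hs
      interval_cases s
      · exact E_2_1_1.emb
      · exact E_3_1_1.emb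
      · exact E_4_1_1.emb
      · exact E_5_1_1.emb
    | succ k ih =>
      intro s hs
      have h1 := Emb_add4 _ 1 1 _ (by omega) (by omega) (ih s hs)
      rw [← Ft_add4 _ _ (by omega) (by omega)] at h1
      have h2 : 2 + s + 4 * (k + 1) = 2 + s + 4 * k + 4 := by ring
      rw [h2]
      exact h1
  have h1 := key ((p - 2) / 4) ((p - 2) % 4) (Nat.mod_lt _ (by norm_num))
  have h2 : 2 + (p - 2) % 4 + 4 * ((p - 2) / 4) = p := by omega
  rw [h2] at h1
  exact h1

/-- For all `p ≥ q ≥ r` with `p ≥ 2` and `q + r ≥ 2` there is a minimum genus embedding of `K_{p,q+r}` in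
which every vertex of the second part is consecutive to every vertex of the third part around some
vertex of the first part. -/
theorem all_emb (p q r : ℕ) (hqp : q ≤ p) (hrq : r ≤ q) (hp : 2 ≤ p) (hqr : 2 ≤ q + r) :
    Emb p q r (Ft p (q + r)) := by
  rcases Nat.lt_or_ge q 2 with h | h
  · have hq : q = 1 := by omega
    have hr : r = 1 := by omega
    subst hq
    subst hr
    exact all_one p hp
  · exact Emb_large q r h (want_all q r h hrq) p hqp

end Pool.Agent.Helper201_K3
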