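import Pool.Agent.Helper201_K3.Core

set_option autoImplicit false

/-!
Frames: `K_{q,q+r}` with `A = ZMod q`, `B = ZMod q`; the rotation at `a_i` is written in terms of *labels*: the label of
`b_k` at `a_i` is `k - i`, represented by an integer of a fixed window of `q` consecutive integers; dually, at `b_k` the
neighbour `a_i` is written by the same label `k - i`. Near label `0` the rotations are given by a finite table (`Dat`), which
may depend on the position `i`; far from `0` they do not depend on the position.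
-/

namespace Pool.Agent.Helper201_K3

/-- Consecutive pairs of a list. -/
def prs {α : Type} (l : List α) : List (α × α) := l.zip l.tail

/-- Local data at a position `i`: two words of tokens (labels `Sum.inl l` or local `c`-vertices `Sum.inr j`) read in the
rotation of `a_i`, and two words of labels read in the rotation of `b_i`; `exc`: the labels `l` such that the dart
`a_{i-l} → b_i` is exceptional; `excc`: the `j` such that the dart `a_i → c_j` is exceptional. -/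
structure Dat (nc : ℕ) where
  wa1 : List (ℤ ⊕ Fin nc)
  wa2 : List (ℤ ⊕ Fin nc)
  wb1 : List ℤ
  wb2 : List ℤ
  exc : List ℤ
  excc : List (Fin nc)

def Dat.pa {nc : ℕ} (d : Dat nc) : List ((ℤ ⊕ Fin nc) × (ℤ ⊕ Fin nc)) := prs d.wa1 ++ prs d.wa2

def Dat.pb {nc : ℕ} (d : Dat nc) : List (ℤ × ℤ) := prs d.wb1 ++ prs d.wb2

/-- The list of integers `lo, lo+1, ..., lo+n-1`. -/
def iv (lo : ℤ) (n : ℕ) : List ℤ := (List.range n).map (fun t => lo + (t : ℤ))

/-- The vertex denoted by a token at `a_i`. -/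
def cv {nc q : ℕ} {E : Type} (i : ZMod q) (t : ℤ ⊕ Fin nc) : ZMod q ⊕ (Fin nc ⊕ E) :=
  Sum.map (fun l : ℤ => i + (l : ZMod q)) Sum.inl t

/-- The local condition on the quadrangle behind the corner `(t, l)` of `a_i` (arrival at `b_{i+l}`), when `l` is followed by
`l'` at `b_{i+l}`. -/
def quadAt {nc q : ℕ} (D : ZMod q → Dat nc) (tc : Fin nc → Equiv.Perm (ZMod q)) (i : ZMod q) (l l' : ℤ) :
    ℤ ⊕ Fin nc → Prop
  | Sum.inl m => (Sum.inl l', Sum.inl (m - l + l')) ∈ (D (i + (l : ZMod q) - (l' : ZMod q))).pa ∧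
      (m - l + l', m) ∈ (D (i + (m : ZMod q))).pb
  | Sum.inr j => (Sum.inl l', Sum.inr j) ∈ (D (i + (l : ZMod q) - (l' : ZMod q))).pa ∧
      tc j (i + (l : ZMod q) - (l' : ZMod q)) = i

/-- The local hypotheses (everything happens inside the local words). -/
structure LocOK (nc q : ℕ) (D : ZMod q → Dat nc) (tc : Fin nc → Equiv.Perm (ZMod q)) : Prop where
  quadB : ∀ (i : ZMod q) (t : ℤ ⊕ Fin nc) (l : ℤ), (t, Sum.inl l) ∈ (D i).pa →
    l ∈ (D (i + (l : ZMod q))).exc ∨ ∃ l' : ℤ, (l, l') ∈ (D (i + (l : ZMod q))).pb ∧ quadAt D tc i l l' t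
  quadC : ∀ (i : ZMod q) (t : ℤ ⊕ Fin nc) (j : Fin nc), (t, Sum.inr j) ∈ (D i).pa →
    j ∈ (D i).excc ∨ ∃ m m' : ℤ, t = Sum.inl m ∧ (Sum.inr j, Sum.inl m') ∈ (D (tc j i)).pa ∧
      tc j i + (m' : ZMod q) = i + (m : ZMod q) ∧ (m', m) ∈ (D (i + (m : ZMod q))).pb
  chord : ∀ (k : ZMod q) (j : Fin nc), ∃ l : ℤ, (Sum.inl l, Sum.inr j) ∈ (D (k - (l : ZMod q))).pa ∨
    (Sum.inr j, Sum.inl l) ∈ (D (k - (l : ZMod q))).pa
  cyc : ∀ (j : Fin nc) (x y : ZMod q), (tc j).SameCycle x y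

/-- What a frame delivers. -/
structure Deliver {nc q : ℕ} {E : Type} (D : ZMod q → Dat nc) (tc : Fin nc → Equiv.Perm (ZMod q))
    (R : BRot (ZMod q) (ZMod q ⊕ (Fin nc ⊕ E))) : Prop where
  trans : R.Trans
  chord : ∀ b c, ∃ a, R.ρ a (Sum.inl b) = Sum.inr c ∨ R.ρ a (Sum.inr c) = Sum.inl b
  rho : ∀ (i : ZMod q) (t t' : ℤ ⊕ Fin nc), (t, t') ∈ (D i).pa → R.ρ i (cv i t) = cv i t'
  tau : ∀ (k : ZMod q) (l l' : ℤ), (l, l') ∈ (D k).pb →
    R.τ (Sum.inl k) (k - (l : ZMod q)) = k - (l' : ZMod q)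
  tauc : ∀ (j : Fin nc) (i : ZMod q), R.τ (Sum.inr (Sum.inl j)) i = tc j i
  quad : ∀ (i : ZMod q) (x : ZMod q ⊕ (Fin nc ⊕ E)),
    (∀ (k : ZMod q) (l : ℤ), l ∈ (D k).exc → ¬ (i = k - (l : ZMod q) ∧ x = Sum.inl k)) →
    (∀ j : Fin nc, x = Sum.inr (Sum.inl j) → j ∉ (D i).excc) →
    R.face (R.face (i, x)) = (i, x)

/-- Shape of the local words for the frame with two runs. Labels `X-L2, ..., L2`; local labels `X-w, ..., w`. -/
structure TwoOK (nc q : ℕ) (X : ℤ) (w T L2 : ℕ) (D : ZMod q → Dat nc) : Prop where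
  hX : X = 0 ∨ X = -1
  hq : (q : ℤ) = 2 * (L2 : ℤ) + 1 - X
  hw : 1 ≤ w
  hwT : w ≤ T
  hTL : T ≤ L2
  a1h : ∀ i, (D i).wa1.head? = some (Sum.inl (X + 1))
  a1l : ∀ i, (D i).wa1.getLast? = some (Sum.inl (w : ℤ))
  a2h : ∀ i, (D i).wa2.head? = some (Sum.inl (-1))
  a2l : ∀ i, (D i).wa2.getLast? = some (Sum.inl (X - (w : ℤ)))
  aP : ∀ i, ((D i).wa1 ++ (D i).wa2).Perm
    ((iv (X - (w : ℤ)) (2 * (w : ℤ) + 1 - X).toNat).map Sum.inl ++ (List.finRange nc).map Sum.inr)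
  b1h : ∀ k, (D k).wb1.head? = some (if Even (T - w) then (w : ℤ) else X - (w : ℤ))
  b1l : ∀ k, (D k).wb1.getLast? = some (-1)
  b2h : ∀ k, (D k).wb2.head? = some (if Even (T - w) then X - (w : ℤ) else (w : ℤ))
  b2l : ∀ k, (D k).wb2.getLast? = some (X + 1)
  bP : ∀ k, ((D k).wb1 ++ (D k).wb2).Perm (iv (X - (w : ℤ)) (2 * (w : ℤ) + 1 - X).toNat)

/-- Shape of the local words for the frame with one run. Labels `0, ..., q-1`; local labels `0, ..., w`. -/
structure OneOK (nc q w : ℕ) (D : ZMod q → Dat nc) : Prop where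
  hw : w < q
  a1h : ∀ i, (D i).wa1.head? = some (Sum.inl 0)
  a1l : ∀ i, (D i).wa1.getLast? = some (Sum.inl (w : ℤ))
  a2 : ∀ i, (D i).wa2 = []
  aP : ∀ i, ((D i).wa1).Perm ((iv 0 (w + 1)).map Sum.inl ++ (List.finRange nc).map Sum.inr)
  b1h : ∀ k, (D k).wb1.head? = some (w : ℤ)
  b1l : ∀ k, (D k).wb1.getLast? = some 0
  b2 : ∀ k, (D k).wb2 = []
  bP : ∀ k, ((D k).wb1).Perm (iv 0 (w + 1))

end Pool.Agent.Helper201_K3
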