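import Pool.Agent.Helper201_K3.Pattern
import Pool.Agent.Helper201_K3.Count
import Pool.Agent.Helper201_K3.Defs2

set_option autoImplicit false

namespace Pool.Agent.Helper201_K3


/-- Number of exceptional darts in the zone. -/
def Pat.nexc {nc : ℕ} (p : Pat nc) : ℕ := (p.zone.map fun e => e.d.exc.length + e.d.excc.length).sum

/-- No exceptional darts in the periodic part. -/
def Pat.perOK {nc : ℕ} (p : Pat nc) : Bool := p.per.all fun e => e.d.exc.isEmpty && e.d.excc.isEmpty

theorem fn_range_map {α β : Type} (l : List α) (d : α) (f : α → β) :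
    (List.range l.length).map (fun n => f (l.getD n d)) = l.map f := by
  apply List.ext_getElem
  · simp
  · intro n h1 h2
    simp at h1
    simp [List.getD_eq_getElem?_getD, h1]

theorem fn_nth_lt {nc : ℕ} (p : Pat nc) {n : ℕ} (h : n < p.zone.length) :
    p.nth n = p.zone.getD n (PD.nil nc) := by
  simp only [Pat.nth, h, if_true]

theorem fn_nth_ge {nc : ℕ} (p : Pat nc) (hp : p.perOK = true) (hP : 0 < p.per.length) {n : ℕ}
    (h : ¬ n < p.zone.length) : (p.nth n).d.exc = [] ∧ (p.nth n).d.excc = [] := by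
  have h1 : (n - p.zone.length) % p.per.length < p.per.length := Nat.mod_lt _ hP
  have h2 : p.nth n = p.per[(n - p.zone.length) % p.per.length] := by
    simp only [Pat.nth, h, if_false]
    rw [List.getD_eq_getElem?_getD, List.getElem?_eq_getElem h1]; rfl
  have h3 : p.nth n ∈ p.per := by rw [h2]; exact List.getElem_mem h1
  have h4 := List.all_eq_true.1 hp _ h3
  simp only [Bool.and_eq_true, List.isEmpty_iff] at h4
  exact h4

theorem fn_exc_set {nc q : ℕ} [NeZero q] {E : Type} [Fintype E] [DecidableEq E] (p : Pat nc)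
    (tc : Fin nc → Equiv.Perm (ZMod q))
    (R : BRot (ZMod q) (ZMod q ⊕ (Fin nc ⊕ E))) (h : Deliver (fun i => (p.nth i.val).d) tc R)
    (hp : p.perOK = true) (hP : 0 < p.per.length) :
    ∃ S : Finset (ZMod q × (ZMod q ⊕ (Fin nc ⊕ E))), S.card ≤ p.nexc ∧
      ∀ d, d ∉ S → R.face (R.face d) = d := by
  let L : ℕ → List (ZMod q × (ZMod q ⊕ (Fin nc ⊕ E))) := fun n =>
    (p.nth n).d.exc.map (fun l : ℤ => (((n : ZMod q)) - (l : ZMod q), Sum.inl (n : ZMod q))) ++
    (p.nth n).d.excc.map (fun j => ((n : ZMod q), Sum.inr (Sum.inl j)))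
  refine ⟨((List.range p.zone.length).flatMap L).toFinset, ?_, ?_⟩
  · refine (List.toFinset_card_le _).trans ?_
    rw [List.length_flatMap]
    unfold Pat.nexc
    rw [← fn_range_map p.zone (PD.nil nc) (fun e => e.d.exc.length + e.d.excc.length)]
    apply le_of_eq
    congr 1
    apply List.map_congr_left
    intro n hn
    rw [List.mem_range] at hn
    simp only [L, List.length_append, List.length_map]
    rw [fn_nth_lt p hn]
  · rintro ⟨i, x⟩ hd
    apply h.quad i x
    · rintro k l hl ⟨hi, hx⟩
      apply hd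
      by_cases hk : k.val < p.zone.length
      · rw [List.mem_toFinset, List.mem_flatMap]
        refine ⟨k.val, List.mem_range.2 hk, ?_⟩
        simp only [L]
        apply List.mem_append_left
        rw [List.mem_map]
        refine ⟨l, hl, ?_⟩
        rw [ZMod.natCast_zmod_val, hi, hx]
      · have := (fn_nth_ge p hp hP hk).1
        simp only [this] at hl
        exact absurd hl (List.not_mem_nil)
    · intro j hx hj
      apply hd
      by_cases hk : i.val < p.zone.length
      · rw [List.mem_toFinset, List.mem_flatMap]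
        refine ⟨i.val, List.mem_range.2 hk, ?_⟩
        simp only [L]
        apply List.mem_append_right
        rw [List.mem_map]
        refine ⟨j, hj, ?_⟩
        rw [ZMod.natCast_zmod_val, hx]
      · have := (fn_nth_ge p hp hP hk).2
        simp only [this] at hj
        exact absurd hj (List.not_mem_nil)

theorem fn_permCongr_zpow {A B : Type} (e : A ≃ B) (f : Equiv.Perm A) (n : ℤ) (x : A) :
    ((e.permCongr f) ^ n) (e x) = e ((f ^ n) x) := by
  have h : (e.permCongrHom f) ^ n = e.permCongrHom (f ^ n) := (map_zpow _ _ _).symm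
  have h2 : (e.permCongr f) ^ n = e.permCongr (f ^ n) := h
  rw [h2]; simp [Equiv.permCongr_apply]

theorem fn_sameCycle {A B : Type} (e : A ≃ B) (f : Equiv.Perm A) (x y : A) :
    (e.permCongr f).SameCycle (e x) (e y) ↔ f.SameCycle x y := by
  constructor
  · rintro ⟨n, hn⟩
    exact ⟨n, e.injective (by rw [← fn_permCongr_zpow, hn])⟩
  · rintro ⟨n, hn⟩
    exact ⟨n, by rw [fn_permCongr_zpow, hn]⟩

theorem fn_ncyc {A B : Type} (e : A ≃ B) (f : Equiv.Perm A) : ncyc (e.permCongr f) = ncyc f := by
  unfold ncyc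
  refine (Nat.card_congr (Quotient.congr e ?_)).symm
  intro x y
  exact (fn_sameCycle e f x y).symm

/-- Transport of a rotation system along equivalences. -/
def fn_tr {A N A' N' : Type} (eA : A ≃ A') (eN : N ≃ N') (R : BRot A N) : BRot A' N' where
  ρ a := eN.permCongr (R.ρ (eA.symm a))
  τ x := eA.permCongr (R.τ (eN.symm x))

theorem fn_tr_face {A N A' N' : Type} (eA : A ≃ A') (eN : N ≃ N') (R : BRot A N) :
    (fn_tr eA eN R).face = (eA.prodCongr eN).permCongr R.face := by
  ext1 ⟨a, x⟩
  simp [fn_tr, BRot.face, Equiv.permCongr_apply]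

theorem fn_tr_trans {A N A' N' : Type} (eA : A ≃ A') (eN : N ≃ N') (R : BRot A N) (h : R.Trans) :
    (fn_tr eA eN R).Trans := by
  refine ⟨fun a x y => ?_, fun x a b => ?_⟩
  · have := (fn_sameCycle eN (R.ρ (eA.symm a)) (eN.symm x) (eN.symm y)).2 (h.1 _ _ _)
    rwa [Equiv.apply_symm_apply, Equiv.apply_symm_apply] at this
  · have := (fn_sameCycle eA (R.τ (eN.symm x)) (eA.symm a) (eA.symm b)).2 (h.2 _ _ _)
    rwa [Equiv.apply_symm_apply, Equiv.apply_symm_apply] at this

/-
TARGET frame_ncyc, frame_embQ: count the faces of a rotation system delivered by a frame.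
The exceptional darts are (k - l, Sum.inl k) for l ∈ (D k).exc and (i, Sum.inr (Sum.inl j)) for j ∈ (D i).excc, with D i = (p.nth i.val).d; the lists are empty
outside the zone; so they form a set S of at most p.nexc darts (image of a list of that length built from the zone; only positions i.val < zone.length matter).
Outside S, face (face d) = d (Deliver.quad). No fixed points: face (a, x) = (a, x) would give τ_x a = a, impossible as q ≥ 2 and R.Trans. ncyc_ge gives frame_ncyc.
frame_embQ: as p.nexc < q there is α with no exceptional dart (α, x); transport to Fin as in Emb_of_types (but keeping the quadrangles at α: redo the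
transport along equivalences ZMod q ≃ Fin q, Fin nc ⊕ E ≃ Fin r).
-/
theorem frame_ncyc {nc q : ℕ} [NeZero q] {E : Type} [Fintype E] [DecidableEq E] (p : Pat nc) (tc : Fin nc → Equiv.Perm (ZMod q))
    (R : BRot (ZMod q) (ZMod q ⊕ (Fin nc ⊕ E))) (h : Deliver (fun i => (p.nth i.val).d) tc R) (hp : p.perOK = true)
    (hk : p.nexc ≠ 1) (hP : 0 < p.per.length) (hq : 2 ≤ q) :
    (q * (q + nc + Fintype.card E) - p.nexc) / 2 + (if p.nexc = 0 then 0 else 1) ≤ ncyc R.face := by
  obtain ⟨S, hS, hS2⟩ := fn_exc_set p tc R h hp hP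
  have : Fact (1 < q) := ⟨hq⟩
  have : Nonempty (ZMod q × (ZMod q ⊕ (Fin nc ⊕ E))) := ⟨(0, Sum.inl 0)⟩
  have hne : ∀ d, R.face d ≠ d := by
    rintro ⟨a, x⟩ hfix
    have h1 : R.τ x a = a := congrArg Prod.fst hfix
    have h2 := h.trans.2 x a (a + 1)
    have h3 : a = a + 1 := h2.eq_of_left h1
    have h4 : (1 : ZMod q) = 0 := by
      have : a + 0 = a + 1 := by rw [add_zero]; exact h3
      exact (add_left_cancel this).symm
    exact one_ne_zero h4
  have key := ncyc_ge R.face S p.nexc hS hk hS2 hne
  have hc : Fintype.card (ZMod q × (ZMod q ⊕ (Fin nc ⊕ E))) = q * (q + nc + Fintype.card E) := by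
    rw [Fintype.card_prod, Fintype.card_sum, Fintype.card_sum, ZMod.card, Fintype.card_fin, add_assoc]
  rw [hc] at key
  exact key

theorem frame_embQ {nc q : ℕ} [NeZero q] {E : Type} [Fintype E] [DecidableEq E] (p : Pat nc) (tc : Fin nc → Equiv.Perm (ZMod q))
    (R : BRot (ZMod q) (ZMod q ⊕ (Fin nc ⊕ E))) (h : Deliver (fun i => (p.nth i.val).d) tc R) (hp : p.perOK = true)
    (hk : p.nexc ≠ 1) (hP : 0 < p.per.length) (hq : 2 ≤ q) (hkq : p.nexc < q) :
    EmbQ q q (nc + Fintype.card E) ((q * (q + nc + Fintype.card E) - p.nexc) / 2 + (if p.nexc = 0 then 0 else 1)) := by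
  have hn := frame_ncyc p tc R h hp hk hP hq
  obtain ⟨S, hS, hS2⟩ := fn_exc_set p tc R h hp hP
  obtain ⟨α, hα⟩ : ∃ α : ZMod q, α ∉ S.image Prod.fst := by
    by_contra hcon
    push Not at hcon
    have h1 : S.image Prod.fst = Finset.univ := Finset.eq_univ_iff_forall.2 hcon
    have h2 : (S.image Prod.fst).card ≤ p.nexc := Finset.card_image_le.trans hS
    rw [h1, Finset.card_univ, ZMod.card] at h2
    omega
  have hα2 : ∀ x, R.face (R.face (α, x)) = (α, x) := by
    intro x
    apply hS2
    intro hx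
    exact hα (Finset.mem_image.2 ⟨_, hx, rfl⟩)
  let e1 : ZMod q ≃ Fin q := Fintype.equivFinOfCardEq (ZMod.card q)
  let e3 : Fin nc ⊕ E ≃ Fin (nc + Fintype.card E) :=
    Fintype.equivFinOfCardEq (by rw [Fintype.card_sum, Fintype.card_fin])
  let eN : ZMod q ⊕ (Fin nc ⊕ E) ≃ Fin q ⊕ Fin (nc + Fintype.card E) := Equiv.sumCongr e1 e3
  refine ⟨fn_tr e1 eN R, fn_tr_trans _ _ _ h.trans, ?_, ?_, e1 α, ?_⟩
  · intro b c
    obtain ⟨a, ha⟩ := h.chord (e1.symm b) (e3.symm c)
    refine ⟨e1 a, ?_⟩
    rcases ha with ha | ha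
    · left
      simp only [fn_tr, Equiv.permCongr_apply, Equiv.symm_apply_apply]
      have : eN.symm (Sum.inl b) = Sum.inl (e1.symm b) := rfl
      rw [this, ha]
      simp [eN]
    · right
      simp only [fn_tr, Equiv.permCongr_apply, Equiv.symm_apply_apply]
      have : eN.symm (Sum.inr c) = Sum.inr (e3.symm c) := rfl
      rw [this, ha]
      simp [eN]
  · rw [fn_tr_face, fn_ncyc]; exact hn
  · intro x
    rw [fn_tr_face]
    have := hα2 (eN.symm x)
    simp only [Equiv.permCongr_apply, Equiv.symm_apply_apply]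
    have h2 : (e1.prodCongr eN).symm (e1 α, x) = (α, eN.symm x) := by
      simp
    rw [h2, this]
    simp


end Pool.Agent.Helper201_K3
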