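import Pool.Agent.Helper201_K3.Core

set_option autoImplicit false

namespace Pool.Agent.Helper201_K3


section k3

open Equiv Equiv.Perm

variable {V : Type*} [Fintype V] [DecidableEq V]

omit [Fintype V] in
theorem k3_swap_apply (σ : Perm V) (a b v : V) :
    (σ * swap a b) v = if v = a then σ b else if v = b then σ a else σ v := by
  rw [Perm.mul_apply, swap_apply_def]
  split_ifs <;> rfl

/-- A set closed under `σ` is closed under `SameCycle`. -/
theorem k3_closed_same {σ : Perm V} {P : V → Prop} (hP : ∀ v, P v → P (σ v)) {u w : V}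
    (h : SameCycle σ u w) (hu : P u) : P w := by
  obtain ⟨k, -, rfl⟩ := h.exists_pow_eq'
  induction k with
  | zero => simpa using hu
  | succ k ih =>
    rw [pow_succ', Perm.mul_apply]
    exact hP _ (ih ⟨k, by rw [zpow_natCast]⟩)

theorem k3_same_next (σ : Perm V) (v : V) : SameCycle σ v (σ v) :=
  sameCycle_apply_right.2 (SameCycle.refl _ _)

theorem k3_fixed_same {σ : Perm V} {v w : V} (hv : σ v = v) (h : SameCycle σ v w) : v = w := by
  refine k3_closed_same (P := fun x => v = x) ?_ h rfl
  rintro x rfl
  exact hv.symm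

section merge

variable {σ : Perm V} {a b : V}

/-- The relation of being in the same cycle after merging the cycles of `a` and `b`. -/
def k3R (σ : Perm V) (a b u w : V) : Prop :=
  SameCycle σ u w ∨ (SameCycle σ a u ∧ SameCycle σ b w) ∨ (SameCycle σ b u ∧ SameCycle σ a w)

theorem k3_R_closed (u : V) (w : V) (h : k3R σ a b u w) : k3R σ a b u ((σ * swap a b) w) := by
  rw [k3_swap_apply]
  unfold k3R at *
  by_cases hwa : w = a
  · subst hwa
    rw [if_pos rfl]
    rcases h with h | ⟨h1, h2⟩ | ⟨h1, h2⟩
    · right; left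
      exact ⟨h.symm, k3_same_next σ b⟩
    · -- u ~ w = a, b ~ w
      left
      exact (h1.symm.trans h2.symm).trans (k3_same_next σ b)
    · left
      exact h1.symm.trans (k3_same_next σ b)
  · rw [if_neg hwa]
    by_cases hwb : w = b
    · subst hwb
      rw [if_pos rfl]
      rcases h with h | ⟨h1, h2⟩ | ⟨h1, h2⟩
      · right; right
        exact ⟨h.symm, k3_same_next σ a⟩
      · left
        exact h1.symm.trans (k3_same_next σ a)
      · left
        exact (h1.symm.trans h2.symm).trans (k3_same_next σ a)
    · rw [if_neg hwb]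
      rcases h with h | ⟨h1, h2⟩ | ⟨h1, h2⟩
      · left; exact h.trans (k3_same_next σ w)
      · right; left; exact ⟨h1, h2.trans (k3_same_next σ w)⟩
      · right; right; exact ⟨h1, h2.trans (k3_same_next σ w)⟩

theorem k3_same_imp_R {u w : V} (h : SameCycle (σ * swap a b) u w) : k3R σ a b u w :=
  k3_closed_same (P := fun w => k3R σ a b u w) (k3_R_closed u) h (Or.inl (SameCycle.refl _ _))

theorem k3_mul_swap_swap (σ : Perm V) (a b : V) : σ * swap a b * swap a b = σ := by
  rw [mul_assoc, swap_mul_self, mul_one]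

/-- splitting -/
theorem k3_split_not_same (h : SameCycle σ a b) (hne : a ≠ b) :
    ¬ SameCycle (σ * swap a b) a b := by
  classical
  have hex : ∃ k : ℕ, 0 < k ∧ (σ ^ k) a = b := by
    obtain ⟨i, h1, -, h2⟩ := h.exists_pow_eq''
    exact ⟨i, h1, h2⟩
  set k := Nat.find hex with hk
  have hk1 : 0 < k ∧ (σ ^ k) a = b := Nat.find_spec hex
  have hmin : ∀ m, m < k → ¬ (0 < m ∧ (σ ^ m) a = b) := fun m hm => Nat.find_min hex hm
  intro hs
  have hcl : ∀ v, (∃ j, 1 ≤ j ∧ j ≤ k ∧ (σ ^ j) a = v) →
      (∃ j, 1 ≤ j ∧ j ≤ k ∧ (σ ^ j) a = (σ * swap a b) v) := by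
    rintro v ⟨j, hj1, hj2, rfl⟩
    have hja : (σ ^ j) a ≠ a := by
      intro he
      rcases Nat.lt_or_ge j k with hjk | hjk
      · apply hmin (k - j) (by omega)
        refine ⟨by omega, ?_⟩
        have : (σ ^ k) a = (σ ^ (k - j)) ((σ ^ j) a) := by
          rw [← Perm.mul_apply, ← pow_add]
          congr 2
          omega
        rw [he] at this
        rw [← this, hk1.2]
      · have : j = k := by omega
        rw [this, hk1.2] at he
        exact hne he.symm
    rw [k3_swap_apply, if_neg hja]
    by_cases hjb : (σ ^ j) a = b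
    · rw [if_pos hjb]
      exact ⟨1, le_rfl, hk1.1, by rw [pow_one]⟩
    · rw [if_neg hjb]
      have hjk : j ≠ k := by
        rintro rfl
        exact hjb hk1.2
      exact ⟨j + 1, by omega, by omega, by rw [pow_succ', Perm.mul_apply]⟩
  obtain ⟨j, hj1, hj2, hj3⟩ := k3_closed_same (P := fun v => ∃ j, 1 ≤ j ∧ j ≤ k ∧ (σ ^ j) a = v) hcl
    hs.symm ⟨k, hk1.1, le_rfl, hk1.2⟩
  rcases Nat.lt_or_ge j k with hjk | hjk
  · apply hmin (k - j) (by omega)
    refine ⟨by omega, ?_⟩
    have : (σ ^ k) a = (σ ^ (k - j)) ((σ ^ j) a) := by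
      rw [← Perm.mul_apply, ← pow_add]
      congr 2
      omega
    rw [hj3] at this
    rw [← this, hk1.2]
  · have : j = k := by omega
    rw [this, hk1.2] at hj3
    exact hne hj3.symm

/-- merging -/
theorem k3_merge_same (h : ¬ SameCycle σ a b) : SameCycle (σ * swap a b) a b := by
  by_contra hn
  have hne : a ≠ b := fun h' => h (h' ▸ SameCycle.refl _ _)
  -- σ = (σ * swap a b) * swap a b
  have h1 : ∀ v, SameCycle (σ * swap a b) a v → v ≠ b := by
    rintro v hv rfl
    exact hn hv
  -- the cycle of `a` under `σ * swap a b` misses `b`; follow it backwards to `σ b`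
  have h2 : SameCycle (σ * swap a b) a (σ b) := by
    have := k3_same_next (σ * swap a b) a
    rwa [k3_swap_apply, if_pos rfl] at this
  -- the `σ`-cycle of `σ b` is closed
  have h3 : ∀ k : ℕ, SameCycle (σ * swap a b) a ((σ ^ (k + 1)) b) := by
    intro k
    induction k with
    | zero => simpa using h2
    | succ k ih =>
      rw [pow_succ', Perm.mul_apply]
      set y := (σ ^ (k + 1)) b with hy
      have hyb : y ≠ b := h1 y ih
      have hya : y ≠ a := by
        intro e
        apply h
        refine SameCycle.symm ⟨((k + 1 : ℕ) : ℤ), ?_⟩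
        rw [zpow_natCast, ← hy, e]
      have := k3_same_next (σ * swap a b) y
      rw [k3_swap_apply, if_neg hya, if_neg hyb] at this
      exact ih.trans this
  have h4 := h3 (orderOf σ - 1)
  have h5 : orderOf σ - 1 + 1 = orderOf σ := Nat.sub_add_cancel (orderOf_pos σ)
  rw [h5, pow_orderOf_eq_one] at h4
  exact hn h4

theorem k3_merge_mono (h : ¬ SameCycle σ a b) {u w : V} (huw : SameCycle σ u w) :
    SameCycle (σ * swap a b) u w := by
  have hab := k3_merge_same h
  have hne : a ≠ b := fun h' => h (h' ▸ SameCycle.refl _ _)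
  have h1 : SameCycle (σ * swap a b * swap a b) u w := by rwa [k3_mul_swap_swap]
  rcases k3_same_imp_R h1 with h2 | ⟨h2, h3⟩ | ⟨h2, h3⟩
  · exact h2
  · exact h2.symm.trans (hab.trans h3)
  · exact h2.symm.trans (hab.symm.trans h3)

theorem k3_merge_iff (h : ¬ SameCycle σ a b) {u w : V} :
    SameCycle (σ * swap a b) u w ↔ k3R σ a b u w := by
  constructor
  · exact k3_same_imp_R
  · have hab := k3_merge_same h
    rintro (h1 | ⟨h1, h2⟩ | ⟨h1, h2⟩)
    · exact k3_merge_mono h h1
    · exact (k3_merge_mono h h1).symm.trans (hab.trans (k3_merge_mono h h2))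
    · exact (k3_merge_mono h h1).symm.trans (hab.symm.trans (k3_merge_mono h h2))

theorem k3_split_mono (h : SameCycle σ a b) (hne : a ≠ b) {u w : V}
    (huw : SameCycle (σ * swap a b) u w) : SameCycle σ u w := by
  have := k3_merge_mono (k3_split_not_same h hne) huw
  rwa [k3_mul_swap_swap] at this

theorem k3_nc_merge (h : ¬ SameCycle σ a b) : ncyc (σ * swap a b) + 1 = ncyc σ := by
  classical
  unfold ncyc
  let f : {q : Quotient (SameCycle.setoid σ) // q ≠ Quotient.mk _ b} →
      Quotient (SameCycle.setoid (σ * swap a b)) := fun q =>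
    Quotient.map' (s₁ := SameCycle.setoid σ) (s₂ := SameCycle.setoid (σ * swap a b)) id
      (fun x y hxy => k3_merge_mono h hxy) q.1
  have hf : Function.Bijective f := by
    constructor
    · rintro ⟨q1, h1⟩ ⟨q2, h2⟩ hq
      induction q1 using Quotient.inductionOn with
      | h u =>
        induction q2 using Quotient.inductionOn with
        | h w =>
          have h3 : SameCycle (σ * swap a b) u w := Quotient.exact hq
          apply Subtype.ext
          apply Quotient.sound
          show SameCycle σ u w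
          rcases (k3_merge_iff h).1 h3 with h4 | ⟨-, h4⟩ | ⟨h4, -⟩
          · exact h4
          · exact absurd (Quotient.sound (s := SameCycle.setoid σ) h4.symm) h2
          · exact absurd (Quotient.sound (s := SameCycle.setoid σ) h4.symm) h1
    · intro q
      induction q using Quotient.inductionOn with
      | h w =>
        by_cases hw : SameCycle σ b w
        · refine ⟨⟨Quotient.mk _ a, fun he => h (Quotient.exact he)⟩, ?_⟩
          exact Quotient.sound (s := SameCycle.setoid (σ * swap a b))
            ((k3_merge_same h).trans (k3_merge_mono h hw))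
        · exact ⟨⟨Quotient.mk _ w, fun he => hw (Quotient.exact he).symm⟩, rfl⟩
  rw [← Nat.card_congr (Equiv.ofBijective f hf), Nat.card_eq_fintype_card,
    Nat.card_eq_fintype_card, Fintype.card_subtype_compl, Fintype.card_subtype_eq]
  have : 0 < Fintype.card (Quotient (SameCycle.setoid σ)) := Fintype.card_pos_iff.2 ⟨Quotient.mk _ a⟩
  omega

theorem k3_nc_split (h : SameCycle σ a b) (hne : a ≠ b) : ncyc (σ * swap a b) = ncyc σ + 1 := by
  have := k3_nc_merge (k3_split_not_same h hne)
  rw [k3_mul_swap_swap] at this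
  exact this.symm

end merge


end k3

theorem ncyc_mul_swap_same {D : Type*} [Fintype D] [DecidableEq D] (f : Equiv.Perm D) (x y : D)
    (hxy : x ≠ y) (h : f.SameCycle x y) : ncyc (f * Equiv.swap x y) = ncyc f + 1 :=
  k3_nc_split h hxy

theorem ncyc_mul_swap_diff {D : Type*} [Fintype D] [DecidableEq D] (f : Equiv.Perm D) (x y : D)
    (h : ¬ f.SameCycle x y) : ncyc (f * Equiv.swap x y) + 1 = ncyc f :=
  k3_nc_merge h

/-- inserting a fixed point in a cycle -/
theorem k3_insert {V : Type} [Fintype V] [DecidableEq V] (f : Equiv.Perm V) (P : V → Prop) (x y : V)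
    (hx : f x = x) (hxy : x ≠ y) (hy : P y) (hP : ∀ u w, P u → P w → f.SameCycle u w) (u w : V)
    (hu : P u ∨ u = x) (hw : P w ∨ w = x) : (f * Equiv.swap x y).SameCycle u w := by
  have h : ¬ f.SameCycle x y := fun h => hxy (k3_fixed_same hx h)
  have h1 : ∀ u, (P u ∨ u = x) → (f * Equiv.swap x y).SameCycle x u := by
    rintro u (hu | rfl)
    · exact (k3_merge_same h).trans (k3_merge_mono h (hP _ _ hy hu))
    · exact Equiv.Perm.SameCycle.refl _ _
  exact (h1 u hu).symm.trans (h1 w hw)

theorem insert_edge {A N : Type} [Fintype A] [Fintype N] [DecidableEq A] [DecidableEq N]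
    (R : BRot A N) (E : A → N → Prop) (hR : R.PTrans E) (a : A) (x : N) (hne : ¬ E a x)
    (a1 : A) (y : N) (hy : E a y) (ha1 : E a1 x)
    (hsame : R.face.SameCycle (a, R.ρ a y) (a1, x)) :
    ∃ R' : BRot A N, R'.PTrans (fun a' x' => E a' x' ∨ (a' = a ∧ x' = x)) ∧
      R'.ρ a = R.ρ a * Equiv.swap x y ∧ (∀ a', a' ≠ a → R'.ρ a' = R.ρ a') ∧
      R'.τ x = R.τ x * Equiv.swap a a1 ∧ (∀ x', x' ≠ x → R'.τ x' = R.τ x') ∧
      ncyc R'.face = ncyc R.face := by
  obtain ⟨h1, h2, h3⟩ := hR
  have hρx : R.ρ a x = x := (h1 a x hne).1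
  have hτa : R.τ x a = a := (h1 a x hne).2
  have hxy : x ≠ y := by rintro rfl; exact hne hy
  have haa : a ≠ a1 := by rintro rfl; exact hne ha1
  let R' : BRot A N := ⟨Function.update R.ρ a (R.ρ a * Equiv.swap x y),
    Function.update R.τ x (R.τ x * Equiv.swap a a1)⟩
  have hρ1 : R'.ρ a = R.ρ a * Equiv.swap x y := Function.update_self ..
  have hρ2 : ∀ a', a' ≠ a → R'.ρ a' = R.ρ a' := fun a' h => Function.update_of_ne h ..
  have hτ1 : R'.τ x = R.τ x * Equiv.swap a a1 := Function.update_self ..
  have hτ2 : ∀ x', x' ≠ x → R'.τ x' = R.τ x' := fun a' h => Function.update_of_ne h ..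
  refine ⟨R', ⟨?_, ?_, ?_⟩, hρ1, hρ2, hτ1, hτ2, ?_⟩
  · intro a' x' hn
    rw [not_or, not_and] at hn
    constructor
    · by_cases ha : a' = a
      · subst ha
        rw [hρ1, Equiv.Perm.mul_apply, Equiv.swap_apply_of_ne_of_ne (hn.2 rfl)
          (fun h => hn.1 (h ▸ hy))]
        exact (h1 _ _ hn.1).1
      · rw [hρ2 a' ha]
        exact (h1 _ _ hn.1).1
    · by_cases hx : x' = x
      · subst hx
        rw [hτ1, Equiv.Perm.mul_apply, Equiv.swap_apply_of_ne_of_ne (fun h => hn.2 h rfl)
          (fun h => hn.1 (h ▸ ha1))]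
        exact (h1 _ _ hn.1).2
      · rw [hτ2 x' hx]
        exact (h1 _ _ hn.1).2
  · intro a' u w hu hw
    by_cases ha : a' = a
    · subst ha
      rw [hρ1]
      exact k3_insert _ (fun u => E a' u) x y hρx hxy hy (h2 a') u w (hu.imp_right And.right)
        (hw.imp_right And.right)
    · rw [hρ2 a' ha]
      exact h2 a' u w (hu.resolve_right fun h => ha h.1) (hw.resolve_right fun h => ha h.1)
  · intro x' u w hu hw
    by_cases hx : x' = x
    · subst hx
      rw [hτ1]
      exact k3_insert _ (fun u => E u x') a a1 hτa haa ha1 (h3 x') u w (hu.imp_right And.left)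
        (hw.imp_right And.left)
    · rw [hτ2 x' hx]
      exact h3 x' u w (hu.resolve_right fun h => hx h.2) (hw.resolve_right fun h => hx h.2)
  · -- the faces
    set v : A × N := (a, x) with hv
    set u : A × N := ((R.τ y).symm a, y) with hu
    have hvu : v ≠ u := fun h => hxy (congrArg Prod.snd h)
    have hva : v ≠ (a1, x) := fun h => haa (congrArg Prod.fst h)
    have hfix : R.face v = v := by
      show (R.τ x a, R.ρ (R.τ x a) x) = (a, x)
      rw [hτa, hρx]
    have hfu : R.face u = (a, R.ρ a y) := by
      show (R.τ y ((R.τ y).symm a), R.ρ (R.τ y ((R.τ y).symm a)) y) = _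
      rw [Equiv.apply_symm_apply]
    have hns : ¬ R.face.SameCycle v u := fun h => hvu (k3_fixed_same hfix h)
    have hface : R'.face = R.face * Equiv.swap v u * Equiv.swap v (a1, x) := by
      apply Equiv.ext
      rintro ⟨b, z⟩
      rw [Equiv.Perm.mul_apply, Equiv.Perm.mul_apply]
      show (R'.τ z b, R'.ρ (R'.τ z b) z) = _
      have hT : ∀ b z, (R'.τ z b, z) = (fun p : A × N => (R.τ p.2 p.1, p.2))
          (Equiv.swap v (a1, x) (b, z)) := by
        intro b z
        by_cases hz : z = x
        · subst hz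
          rw [hτ1, Equiv.Perm.mul_apply]
          by_cases hb : b = a
          · subst hb
            rw [Equiv.swap_apply_left, Equiv.swap_apply_left]
          · by_cases hb1 : b = a1
            · subst hb1
              rw [Equiv.swap_apply_right, Equiv.swap_apply_right]
            · rw [Equiv.swap_apply_of_ne_of_ne hb hb1, Equiv.swap_apply_of_ne_of_ne
                (fun h => hb (congrArg Prod.fst h)) (fun h => hb1 (congrArg Prod.fst h))]
        · rw [hτ2 z hz, Equiv.swap_apply_of_ne_of_ne
            (fun h => hz (congrArg Prod.snd h)) (fun h => hz (congrArg Prod.snd h))]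
      have hP : ∀ b z, (R'.ρ b z) = R.ρ b (if b = a then Equiv.swap x y z else z) := by
        intro b z
        by_cases hb : b = a
        · subst hb
          rw [hρ1, if_pos rfl, Equiv.Perm.mul_apply]
        · rw [hρ2 b hb, if_neg hb]
      obtain ⟨q1, q2⟩ : (Equiv.swap v (a1, x) (b, z)).2 = z ∧
          R.τ z (Equiv.swap v (a1, x) (b, z)).1 = R'.τ z b := by
        have := hT b z
        have e1 := congrArg Prod.snd this
        have e2 := congrArg Prod.fst this
        simp only at e1 e2
        exact ⟨e1.symm, by rw [e2, ← e1]⟩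
      rcases hq : Equiv.swap v (a1, x) (b, z) with ⟨b', z'⟩
      rw [hq] at q1 q2
      simp only at q1 q2
      subst q1
      rw [hP, ← q2]
      by_cases hb' : R.τ z' b' = a
      · rw [hb', if_pos rfl]
        by_cases hzx : z' = x
        · have hb2 : b' = a := (R.τ x).injective (by rw [hτa, ← hb', hzx])
          rw [hb2, hzx, Equiv.swap_apply_left, Equiv.swap_apply_left, hfu]
        · by_cases hzy : z' = y
          · have hb2 : b' = (R.τ y).symm a := by rw [← hb', hzy, Equiv.symm_apply_apply]
            rw [hb2, hzy, Equiv.swap_apply_right, Equiv.swap_apply_right, hfix, hρx]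
          · rw [Equiv.swap_apply_of_ne_of_ne hzx hzy, Equiv.swap_apply_of_ne_of_ne
              (fun h => hzx (congrArg Prod.snd h)) (fun h => hzy (congrArg Prod.snd h))]
            show _ = (R.τ z' b', R.ρ (R.τ z' b') z')
            rw [hb']
      · rw [if_neg hb', Equiv.swap_apply_of_ne_of_ne]
        · rfl
        · intro h
          have e1 := congrArg Prod.fst h
          have e2 := congrArg Prod.snd h
          simp only [hv] at e1 e2
          exact hb' (by rw [e1, e2, hτa])
        · intro h
          have e1 := congrArg Prod.fst h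
          have e2 := congrArg Prod.snd h
          simp only [hu] at e1 e2
          exact hb' (by rw [e1, e2, Equiv.apply_symm_apply])
    have e1 := ncyc_mul_swap_diff R.face v u hns
    have hs : (R.face * Equiv.swap v u).SameCycle v (a1, x) := by
      have e3 : (R.face * Equiv.swap v u) v = (a, R.ρ a y) := by
        rw [Equiv.Perm.mul_apply, Equiv.swap_apply_left, hfu]
      have e4 := k3_same_next (R.face * Equiv.swap v u) v
      rw [e3] at e4
      exact e4.trans (k3_merge_mono hns hsame)
    have e2 := ncyc_mul_swap_same (R.face * Equiv.swap v u) v (a1, x) hva hs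
    rw [hface, e2, e1]

end Pool.Agent.Helper201_K3
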