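import Pool.Agent.Helper201_K3.Sum
import Pool.Agent.Helper201_K3.Count
import Pool.Agent.Helper201_K3.Defs2

set_option autoImplicit false

namespace Pool.Agent.Helper201_K3


theorem sc_congr {D D' : Type*} (e : D ≃ D') (f : Equiv.Perm D) (x y : D) :
    (e.permCongr f).SameCycle (e x) (e y) ↔ f.SameCycle x y := by
  have hz : ∀ i : ℤ, (e.permCongr f) ^ i = e.permCongr (f ^ i) := by
    intro i
    exact (map_zpow (Equiv.permCongrHom e) f i).symm
  constructor
  · rintro ⟨i, hi⟩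
    refine ⟨i, ?_⟩
    rw [hz, Equiv.permCongr_apply, Equiv.symm_apply_apply] at hi
    exact e.injective hi
  · rintro ⟨i, hi⟩
    refine ⟨i, ?_⟩
    rw [hz, Equiv.permCongr_apply, Equiv.symm_apply_apply, hi]

theorem ncyc_conj {D D' : Type*} (e : D ≃ D') (f : Equiv.Perm D) (g : Equiv.Perm D')
    (h : ∀ d, e (f d) = g (e d)) : ncyc g = ncyc f := by
  have hg : g = e.permCongr f := by
    ext x
    rw [Equiv.permCongr_apply, h, Equiv.apply_symm_apply]
  subst hg
  unfold ncyc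
  exact (Nat.card_congr (Quotient.congr e (fun a b => (sc_congr e f a b).symm))).symm

/-- relabelling -/
def BRot.map {A N A' N' : Type} (R : BRot A N) (e : A ≃ A') (f : N ≃ N') : BRot A' N' where
  ρ a := f.permCongr (R.ρ (e.symm a))
  τ x := e.permCongr (R.τ (f.symm x))

theorem map_trans {A N A' N' : Type} (R : BRot A N) (e : A ≃ A') (f : N ≃ N') (h : R.Trans) :
    (R.map e f).Trans := by
  refine ⟨?_, ?_⟩
  · intro a x y
    have := (sc_congr f (R.ρ (e.symm a)) (f.symm x) (f.symm y)).2 (h.1 _ _ _)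
    rw [Equiv.apply_symm_apply, Equiv.apply_symm_apply] at this
    exact this
  · intro x a b
    have := (sc_congr e (R.τ (f.symm x)) (e.symm a) (e.symm b)).2 (h.2 _ _ _)
    rw [Equiv.apply_symm_apply, Equiv.apply_symm_apply] at this
    exact this

theorem map_face {A N A' N' : Type} (R : BRot A N) (e : A ≃ A') (f : N ≃ N') (d : A × N) :
    (e.prodCongr f) (R.face d) = (R.map e f).face ((e.prodCongr f) d) := by
  obtain ⟨a, x⟩ := d
  simp [BRot.face, BRot.map, Equiv.permCongr_apply]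

theorem ncyc_map {A N A' N' : Type} (R : BRot A N) (e : A ≃ A') (f : N ≃ N') :
    ncyc (R.map e f).face = ncyc R.face :=
  ncyc_conj (e.prodCongr f) _ _ (map_face R e f)

theorem flip_trans {A N : Type} (R : BRot A N) (h : R.Trans) : R.flip.Trans := ⟨h.2, h.1⟩

/-- `(a, x) ↦ (x, τ x a)` -/
def flipEquiv {A N : Type} (R : BRot A N) : A × N ≃ N × A where
  toFun p := (p.2, R.τ p.2 p.1)
  invFun q := ((R.τ q.1).symm q.2, q.1)
  left_inv p := by simp
  right_inv p := by simp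

theorem flip_face {A N : Type} (R : BRot A N) (d : A × N) :
    flipEquiv R (R.face d) = R.flip.face (flipEquiv R d) := by
  obtain ⟨a, x⟩ := d
  simp [BRot.face, BRot.flip, flipEquiv]

theorem ncyc_flip {A N : Type} (R : BRot A N) : ncyc R.flip.face = ncyc R.face :=
  ncyc_conj (flipEquiv R) _ _ (flip_face R)

theorem REmb.flip {p n F : ℕ} (h : REmb p n F) : REmb n p F := by
  obtain ⟨R, h1, h2⟩ := h
  exact ⟨R.flip, flip_trans R h1, by rw [ncyc_flip]; exact h2⟩

theorem QEmb.flip {p n : ℕ} (h : QEmb p n) : QEmb n p := by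
  obtain ⟨R, h1, h2⟩ := h
  refine ⟨R.flip, flip_trans R h1, ?_⟩
  intro d
  obtain ⟨c, rfl⟩ := (flipEquiv R).surjective d
  rw [← flip_face, ← flip_face, h2]

theorem trans_ne {A N : Type} [Nontrivial A] (R : BRot A N) (h : R.Trans) (x : N) (a : A) :
    R.τ x a ≠ a := by
  intro hc
  obtain ⟨b, hb⟩ := exists_ne a
  obtain ⟨i, hi⟩ := h.2 x a b
  have : ((R.τ x) ^ i) a = a := by
    have := Equiv.Perm.zpow_apply_eq_self_of_apply_eq_self hc i
    exact this
  exact hb (hi.symm.trans this)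

theorem face_ne {A N : Type} [Nontrivial A] (R : BRot A N) (h : R.Trans) (d : A × N) :
    R.face d ≠ d := by
  intro hc
  have := congrArg Prod.fst hc
  exact trans_ne R h d.2 d.1 this

/-- A permutation without fixed points with at least `|D|/2` cycles is an involution. -/
theorem invol_of_count {D : Type} [Fintype D] (f : Equiv.Perm D) (hne : ∀ d, f d ≠ d)
    (h : Fintype.card D ≤ 2 * ncyc f) : ∀ d, f (f d) = d := by
  classical
  let s := Equiv.Perm.SameCycle.setoid f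
  let π : D → Quotient s := Quotient.mk s
  have hfin : Fintype (Quotient s) := Fintype.ofFinite _
  have hcard : ncyc f = Fintype.card (Quotient s) := by
    unfold ncyc
    exact Nat.card_eq_fintype_card
  have hsum : Fintype.card D = ∑ q : Quotient s, (Finset.univ.filter (fun d => π d = q)).card := by
    rw [← Finset.card_univ]
    exact Finset.card_eq_sum_card_fiberwise (fun _ _ => Finset.mem_coe.2 (Finset.mem_univ _))
  have hmem : ∀ d, π (f d) = π d := by
    intro d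
    apply Quotient.sound
    change f.SameCycle (f d) d
    exact (Equiv.Perm.SameCycle.refl f d).apply_left
  have hge : ∀ q : Quotient s, 2 ≤ (Finset.univ.filter (fun d => π d = q)).card := by
    intro q
    obtain ⟨d, rfl⟩ := Quotient.exists_rep q
    have : ({d, f d} : Finset D) ⊆ Finset.univ.filter (fun e => π e = π d) := by
      intro e he
      simp only [Finset.mem_insert, Finset.mem_singleton] at he
      rcases he with rfl | rfl
      · simp
      · simp [hmem]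
    have h2 := Finset.card_le_card this
    rw [Finset.card_pair (hne d).symm] at h2
    exact h2
  have heq : ∀ q : Quotient s, (Finset.univ.filter (fun d => π d = q)).card = 2 := by
    by_contra hcon
    push Not at hcon
    obtain ⟨q, hq⟩ := hcon
    have hlt : ∑ q : Quotient s, 2 < ∑ q : Quotient s, (Finset.univ.filter (fun d => π d = q)).card := by
      apply Finset.sum_lt_sum (fun q _ => hge q)
      exact ⟨q, Finset.mem_univ _, lt_of_le_of_ne (hge q) (Ne.symm hq)⟩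
    rw [← hsum, Finset.sum_const, Finset.card_univ, smul_eq_mul] at hlt
    omega
  intro d
  by_contra hc
  have hsub : ({d, f d, f (f d)} : Finset D) ⊆ Finset.univ.filter (fun e => π e = π d) := by
    intro e he
    simp only [Finset.mem_insert, Finset.mem_singleton] at he
    rcases he with rfl | rfl | rfl
    · simp
    · simp [hmem]
    · simp [hmem]
  have h3 := Finset.card_le_card hsub
  rw [heq] at h3
  have h4 : ({d, f d, f (f d)} : Finset D).card = 3 := by
    rw [Finset.card_eq_three]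
    exact ⟨d, f d, f (f d), (hne d).symm, fun h => hc h.symm, fun h => hne (f d) h.symm, rfl⟩
  omega

theorem QEmb.toREmb {p n : ℕ} (hp : 2 ≤ p) (hn : 2 ≤ n) (h : QEmb p n) : REmb p n (p * n / 2) := by
  obtain ⟨R, h1, h2⟩ := h
  refine ⟨R, h1, ?_⟩
  have : Nontrivial (Fin p) := Fin.nontrivial_iff_two_le.2 hp
  have : Nonempty (Fin p × Fin n) := ⟨(⟨0, by omega⟩, ⟨0, by omega⟩)⟩
  have := ncyc_ge R.face ∅ 0 (by simp) (by norm_num) (fun d _ => h2 d) (face_ne R h1)
  simpa using this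

theorem QEmb.of_count {p n : ℕ} (hp : 2 ≤ p) (h : REmb p n ((p * n + 1) / 2)) : QEmb p n := by
  obtain ⟨R, h1, h2⟩ := h
  have : Nontrivial (Fin p) := Fin.nontrivial_iff_two_le.2 hp
  refine ⟨R, h1, invol_of_count R.face (face_ne R h1) ?_⟩
  simp only [Fintype.card_prod, Fintype.card_fin]
  omega

theorem trans_cycle {N : Type} [Fintype N] [DecidableEq N] [Nontrivial N] (c : Equiv.Perm N)
    (h : ∀ x y, c.SameCycle x y) : c.IsCycle ∧ c.support = Finset.univ := by
  have hfix : ∀ x, c x ≠ x := by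
    intro x hc
    obtain ⟨y, hy⟩ := exists_ne x
    obtain ⟨i, hi⟩ := h x y
    exact hy (hi.symm.trans (Equiv.Perm.zpow_apply_eq_self_of_apply_eq_self hc i))
  obtain ⟨x, -⟩ := exists_pair_ne N
  refine ⟨⟨x, hfix x, fun y _ => h x y⟩, ?_⟩
  ext y
  simp [hfix y]

theorem exists_conj {N : Type} [Fintype N] [DecidableEq N] [Nontrivial N] (c d : Equiv.Perm N)
    (hc : ∀ x y, c.SameCycle x y) (hd : ∀ x y, d.SameCycle x y) :
    ∃ f : Equiv.Perm N, ∀ x, d (f.permCongr c x) = x := by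
  obtain ⟨c1, c2⟩ := trans_cycle c hc
  obtain ⟨d1, d2⟩ := trans_cycle d hd
  have hd1 : (d⁻¹).IsCycle := d1.inv
  have := c1.isConj hd1 (by rw [Equiv.Perm.support_inv, c2, d2])
  obtain ⟨f, hf⟩ := isConj_iff.1 this
  refine ⟨f, fun x => ?_⟩
  have h2 : f.permCongr c = d⁻¹ := by
    rw [← hf]
    ext y
    simp [Equiv.Perm.mul_apply, Equiv.Perm.inv_def]
  rw [h2]
  simp

theorem qsum {a b n F : ℕ} (ha : 1 ≤ a) (hb : 1 ≤ b) (hn : 2 ≤ n) (h1 : QEmb (a + 1) n)
    (h2 : REmb (b + 1) n F) : REmb (a + b) n (F + (a + 1) * n / 2 - n) := by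
  classical
  have : Nontrivial (Fin n) := Fin.nontrivial_iff_two_le.2 hn
  have : Nontrivial (Fin (a + 1)) := Fin.nontrivial_iff_two_le.2 (by omega)
  have : Nontrivial (Fin (b + 1)) := Fin.nontrivial_iff_two_le.2 (by omega)
  have : Nonempty (Fin (a + 1) × Fin n) := ⟨(⟨0, by omega⟩, ⟨0, by omega⟩)⟩
  obtain ⟨R1, t1, q1⟩ := h1
  obtain ⟨R2, t2, f2⟩ := h2
  have c1 := ncyc_ge R1.face ∅ 0 (by simp) (by norm_num) (fun d _ => q1 d) (face_ne R1 t1)
  simp only [Fintype.card_prod, Fintype.card_fin, Nat.sub_zero, if_true, add_zero] at c1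
  let eA : Fin (a + 1) ≃ Option (Fin a) := finSuccEquiv a
  let eB : Fin (b + 1) ≃ Option (Fin b) := finSuccEquiv b
  obtain ⟨f, hf⟩ := exists_conj (R1.ρ (eA.symm none)) (R2.ρ (eB.symm none)) (t1.1 _) (t2.1 _)
  let S1 : BRot (Option (Fin a)) (Fin n) := R1.map eA f
  let S2 : BRot (Option (Fin b)) (Fin n) := R2.map eB (Equiv.refl _)
  have s1 : S1.Trans := map_trans R1 eA f t1
  have s2 : S2.Trans := map_trans R2 eB _ t2
  have : Nontrivial (Option (Fin a)) := eA.symm.nontrivial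
  have : Nontrivial (Option (Fin b)) := eB.symm.nontrivial
  obtain ⟨R, hR, -, -, -, -, -, -, hc⟩ := sum_exists S1 S2 (fun _ _ => True) (fun _ _ => True)
    ⟨fun _ _ h => absurd trivial h, fun _ _ _ _ _ => s1.1 _ _ _, fun _ _ _ _ _ => s1.2 _ _ _⟩
    ⟨fun _ _ h => absurd trivial h, fun _ _ _ _ _ => s2.1 _ _ _, fun _ _ _ _ _ => s2.2 _ _ _⟩
    (fun _ => trivial) (fun _ => trivial)
    (fun x => trans_ne S1 s1 x none) (fun x => trans_ne S2 s2 x none)
    (by
      intro x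
      have : S2.ρ none = R2.ρ (eB.symm none) := by
        ext y
        simp [S2, BRot.map]
      rw [this]
      exact hf x)
    (by
      intro x
      obtain ⟨c, hc⟩ := (eA.prodCongr f).surjective (none, x)
      have hm := map_face R1 eA f
      rw [← hc]
      change (R1.map eA f).face ((R1.map eA f).face _) = _
      rw [← hm, ← hm, q1])
  have hT : R.Trans := by
    refine ⟨fun a x y => hR.2.1 a x y ?_ ?_, fun x a b => hR.2.2 x a b ?_ ?_⟩
    · cases a <;> trivial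
    · cases a <;> trivial
    · cases a <;> trivial
    · cases b <;> trivial
  refine ⟨R.map finSumFinEquiv (Equiv.refl _), map_trans R _ _ hT, ?_⟩
  rw [ncyc_map]
  rw [ncyc_map, ncyc_map, Fintype.card_fin] at hc
  omega

/-- rotation system given by lists -/
def lR {s t : ℕ} (rho : Fin s → List (Fin t)) (tau : Fin t → List (Fin s)) :
    BRot (Fin s) (Fin t) :=
  ⟨fun a => (rho a).formPerm, fun x => (tau x).formPerm⟩

theorem lR_trans {s t : ℕ} (rho : Fin s → List (Fin t)) (tau : Fin t → List (Fin s))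
    (h1 : ∀ a, (rho a).Nodup ∧ ∀ x, x ∈ rho a) (h2 : ∀ x, (tau x).Nodup ∧ ∀ a, a ∈ tau x) :
    (lR rho tau).Trans := by
  refine ⟨fun a x y => ?_, fun x a b => ?_⟩
  · exact (List.Nodup.isCycleOn_formPerm (h1 a).1).2 ((h1 a).2 x) ((h1 a).2 y)
  · exact (List.Nodup.isCycleOn_formPerm (h2 x).1).2 ((h2 x).2 a) ((h2 x).2 b)

theorem base {s t : ℕ} (k F : ℕ) (rho : Fin s → List (Fin t)) (tau : Fin t → List (Fin s))
    (S : Finset (Fin s × Fin t)) (hs : 2 ≤ s) (ht : 2 ≤ t)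
    (h1 : ∀ a, (rho a).Nodup ∧ ∀ x, x ∈ rho a) (h2 : ∀ x, (tau x).Nodup ∧ ∀ a, a ∈ tau x)
    (hS : S.card ≤ k) (hk : k ≠ 1) (h : ∀ d, d ∉ S → (lR rho tau).face ((lR rho tau).face d) = d)
    (hF : F ≤ (s * t - k) / 2 + (if k = 0 then 0 else 1)) : REmb s t F := by
  have : Nontrivial (Fin s) := Fin.nontrivial_iff_two_le.2 hs
  have : Nonempty (Fin s × Fin t) := ⟨(⟨0, by omega⟩, ⟨0, by omega⟩)⟩
  have hT := lR_trans rho tau h1 h2
  refine ⟨lR rho tau, hT, hF.trans ?_⟩
  have := ncyc_ge (lR rho tau).face S k hS hk h (face_ne _ hT)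
  simpa using this

theorem qbase {s t : ℕ} (rho : Fin s → List (Fin t)) (tau : Fin t → List (Fin s))
    (h1 : ∀ a, (rho a).Nodup ∧ ∀ x, x ∈ rho a) (h2 : ∀ x, (tau x).Nodup ∧ ∀ a, a ∈ tau x)
    (h : ∀ d, (lR rho tau).face ((lR rho tau).face d) = d) : QEmb s t :=
  ⟨lR rho tau, lR_trans rho tau h1 h2, h⟩

theorem b22 : REmb 2 2 2 :=
  base 0 2 ![[0, 1], [0, 1]]
    ![[0, 1], [0, 1]] ∅
    (by norm_num) (by norm_num) (by decide +kernel) (by decide +kernel) (by decide +kernel) (by norm_num) (by decide +kernel) (by norm_num)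

theorem b23 : REmb 2 3 3 :=
  base 0 3 ![[0, 1, 2], [0, 2, 1]]
    ![[0, 1], [0, 1], [0, 1]] ∅
    (by norm_num) (by norm_num) (by decide +kernel) (by decide +kernel) (by decide +kernel) (by norm_num) (by decide +kernel) (by norm_num)

theorem b24 : REmb 2 4 4 :=
  base 0 4 ![[0, 1, 2, 3], [0, 3, 2, 1]]
    ![[0, 1], [0, 1], [0, 1], [0, 1]] ∅
    (by norm_num) (by norm_num) (by decide +kernel) (by decide +kernel) (by decide +kernel) (by norm_num) (by decide +kernel) (by norm_num)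

theorem b25 : REmb 2 5 5 :=
  base 0 5 ![[0, 4, 2, 1, 3], [0, 3, 1, 2, 4]]
    ![[0, 1], [0, 1], [0, 1], [0, 1], [0, 1]] ∅
    (by norm_num) (by norm_num) (by decide +kernel) (by decide +kernel) (by decide +kernel) (by norm_num) (by decide +kernel) (by norm_num)

theorem b26 : REmb 2 6 6 :=
  base 0 6 ![[0, 5, 2, 3, 1, 4], [0, 4, 1, 3, 2, 5]]
    ![[0, 1], [0, 1], [0, 1], [0, 1], [0, 1], [0, 1]] ∅
    (by norm_num) (by norm_num) (by decide +kernel) (by decide +kernel) (by decide +kernel) (by norm_num) (by decide +kernel) (by norm_num)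

theorem q26 : QEmb 2 6 :=
  qbase ![[0, 5, 2, 3, 1, 4], [0, 4, 1, 3, 2, 5]]
    ![[0, 1], [0, 1], [0, 1], [0, 1], [0, 1], [0, 1]]
    (by decide +kernel) (by decide +kernel) (by decide +kernel)

theorem b33 : REmb 3 3 3 :=
  base 5 3 ![[0, 2, 1], [0, 2, 1], [0, 1, 2]]
    ![[0, 2, 1], [0, 1, 2], [0, 2, 1]] {(0, 1), (1, 0), (0, 2), (2, 0), (1, 2)}
    (by norm_num) (by norm_num) (by decide +kernel) (by decide +kernel) (by decide +kernel) (by norm_num) (by decide +kernel) (by norm_num)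

theorem b34 : REmb 3 4 5 :=
  base 4 5 ![[0, 2, 1, 3], [0, 2, 1, 3], [0, 3, 1, 2]]
    ![[0, 2, 1], [0, 2, 1], [0, 1, 2], [0, 1, 2]] {(0, 2), (1, 1), (0, 3), (1, 0)}
    (by norm_num) (by norm_num) (by decide +kernel) (by decide +kernel) (by decide +kernel) (by norm_num) (by decide +kernel) (by norm_num)

theorem b35 : REmb 3 5 7 :=
  base 3 7 ![[0, 4, 3, 1, 2], [0, 3, 2, 1, 4], [0, 2, 3, 4, 1]]
    ![[0, 2, 1], [0, 2, 1], [0, 1, 2], [0, 2, 1], [0, 1, 2]] {(0, 1), (2, 0), (1, 3)}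
    (by norm_num) (by norm_num) (by decide +kernel) (by decide +kernel) (by decide +kernel) (by norm_num) (by decide +kernel) (by norm_num)

theorem b36 : REmb 3 6 9 :=
  base 0 9 ![[0, 4, 1, 5, 2, 3], [0, 5, 1, 3, 2, 4], [0, 3, 1, 4, 2, 5]]
    ![[0, 2, 1], [0, 2, 1], [0, 2, 1], [0, 1, 2], [0, 1, 2], [0, 1, 2]] ∅
    (by norm_num) (by norm_num) (by decide +kernel) (by decide +kernel) (by decide +kernel) (by norm_num) (by decide +kernel) (by norm_num)

theorem q36 : QEmb 3 6 :=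
  qbase ![[0, 4, 1, 5, 2, 3], [0, 5, 1, 3, 2, 4], [0, 3, 1, 4, 2, 5]]
    ![[0, 2, 1], [0, 2, 1], [0, 2, 1], [0, 1, 2], [0, 1, 2], [0, 1, 2]]
    (by decide +kernel) (by decide +kernel) (by decide +kernel)

theorem b44 : REmb 4 4 8 :=
  base 0 8 ![[0, 3, 1, 2], [0, 2, 1, 3], [0, 3, 1, 2], [0, 2, 1, 3]]
    ![[0, 3, 2, 1], [0, 3, 2, 1], [0, 1, 2, 3], [0, 1, 2, 3]] ∅
    (by norm_num) (by norm_num) (by decide +kernel) (by decide +kernel) (by decide +kernel) (by norm_num) (by decide +kernel) (by norm_num)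

theorem b45 : REmb 4 5 9 :=
  base 4 9 ![[0, 4, 1, 2, 3], [0, 3, 2, 4, 1], [0, 1, 4, 2, 3], [0, 3, 2, 1, 4]]
    ![[0, 1, 2, 3], [0, 2, 1, 3], [0, 2, 1, 3], [0, 3, 2, 1], [0, 3, 1, 2]] {(0, 2), (2, 3), (1, 2), (3, 1)}
    (by norm_num) (by norm_num) (by decide +kernel) (by decide +kernel) (by decide +kernel) (by norm_num) (by decide +kernel) (by norm_num)

theorem b46 : REmb 4 6 12 :=
  base 0 12 ![[0, 5, 1, 4, 2, 3], [0, 3, 2, 4, 1, 5], [0, 5, 1, 4, 2, 3], [0, 3, 2, 4, 1, 5]]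
    ![[0, 3, 2, 1], [0, 3, 2, 1], [0, 3, 2, 1], [0, 1, 2, 3], [0, 1, 2, 3], [0, 1, 2, 3]] ∅
    (by norm_num) (by norm_num) (by decide +kernel) (by decide +kernel) (by decide +kernel) (by norm_num) (by decide +kernel) (by norm_num)

theorem q46 : QEmb 4 6 :=
  qbase ![[0, 5, 1, 4, 2, 3], [0, 3, 2, 4, 1, 5], [0, 5, 1, 4, 2, 3], [0, 3, 2, 4, 1, 5]]
    ![[0, 3, 2, 1], [0, 3, 2, 1], [0, 3, 2, 1], [0, 1, 2, 3], [0, 1, 2, 3], [0, 1, 2, 3]]
    (by decide +kernel) (by decide +kernel) (by decide +kernel)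

theorem b55 : REmb 5 5 11 :=
  base 5 11 ![[0, 3, 2, 1, 4], [0, 4, 1, 2, 3], [0, 2, 1, 4, 3], [0, 3, 2, 1, 4], [0, 4, 1, 2, 3]]
    ![[0, 4, 3, 1, 2], [0, 1, 2, 4, 3], [0, 4, 2, 3, 1], [0, 2, 1, 3, 4], [0, 2, 1, 3, 4]] {(0, 4), (2, 3), (1, 0), (2, 2), (3, 1)}
    (by norm_num) (by norm_num) (by decide +kernel) (by decide +kernel) (by decide +kernel) (by norm_num) (by decide +kernel) (by norm_num)

theorem b56 : REmb 5 6 15 :=
  base 0 15 ![[0, 3, 2, 4, 1, 5], [0, 4, 2, 5, 1, 3], [0, 5, 2, 3, 1, 4], [0, 4, 1, 3, 2, 5], [0, 5, 2, 3, 1, 4]]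
    ![[0, 4, 3, 2, 1], [0, 4, 3, 2, 1], [0, 4, 3, 2, 1], [0, 1, 2, 3, 4], [0, 1, 2, 3, 4], [0, 1, 2, 3, 4]] ∅
    (by norm_num) (by norm_num) (by decide +kernel) (by decide +kernel) (by decide +kernel) (by norm_num) (by decide +kernel) (by norm_num)

theorem q56 : QEmb 5 6 :=
  qbase ![[0, 3, 2, 4, 1, 5], [0, 4, 2, 5, 1, 3], [0, 5, 2, 3, 1, 4], [0, 4, 1, 3, 2, 5], [0, 5, 2, 3, 1, 4]]
    ![[0, 4, 3, 2, 1], [0, 4, 3, 2, 1], [0, 4, 3, 2, 1], [0, 1, 2, 3, 4], [0, 1, 2, 3, 4], [0, 1, 2, 3, 4]]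
    (by decide +kernel) (by decide +kernel) (by decide +kernel)

theorem b66 : REmb 6 6 18 :=
  base 0 18 ![[0, 4, 1, 3, 2, 5], [0, 5, 2, 3, 1, 4], [0, 3, 2, 4, 1, 5], [0, 5, 1, 4, 2, 3], [0, 4, 1, 3, 2, 5], [0, 5, 2, 3, 1, 4]]
    ![[0, 5, 4, 3, 2, 1], [0, 5, 4, 3, 2, 1], [0, 5, 4, 3, 2, 1], [0, 1, 2, 3, 4, 5], [0, 1, 2, 3, 4, 5], [0, 1, 2, 3, 4, 5]] ∅
    (by norm_num) (by norm_num) (by decide +kernel) (by decide +kernel) (by decide +kernel) (by norm_num) (by decide +kernel) (by norm_num)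

theorem q66 : QEmb 6 6 :=
  qbase ![[0, 4, 1, 3, 2, 5], [0, 5, 2, 3, 1, 4], [0, 3, 2, 4, 1, 5], [0, 5, 1, 4, 2, 3], [0, 4, 1, 3, 2, 5], [0, 5, 2, 3, 1, 4]]
    ![[0, 5, 4, 3, 2, 1], [0, 5, 4, 3, 2, 1], [0, 5, 4, 3, 2, 1], [0, 1, 2, 3, 4, 5], [0, 1, 2, 3, 4, 5], [0, 1, 2, 3, 4, 5]]
    (by decide +kernel) (by decide +kernel) (by decide +kernel)

theorem quad6 (n : ℕ) (hn : 2 ≤ n) : QEmb 6 n := by
  induction n using Nat.strong_induction_on with
  | _ n ih =>
    by_cases h : n < 6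
    · interval_cases n
      · exact q26.flip
      · exact q36.flip
      · exact q46.flip
      · exact q56.flip
    · obtain ⟨m, rfl⟩ : ∃ m, n = m + 4 := ⟨n - 4, by omega⟩
      have h1 := (ih m (by omega) (by omega)).flip
      obtain ⟨c, rfl⟩ : ∃ c, m = c + 1 := ⟨m - 1, by omega⟩
      have h2 := qsum (a := c) (b := 5) (n := 6) (F := 18) (by omega) (by norm_num) (by norm_num) h1 b66
      refine (QEmb.of_count (by omega) ?_).flip
      have e : c + 1 + 4 = c + 5 := by omega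
      rw [e]
      obtain ⟨R, t, hR⟩ := h2
      exact ⟨R, t, by omega⟩

theorem Ft_comm (p n : ℕ) : Ft p n = Ft n p := by
  unfold Ft gen
  rw [Nat.mul_comm (p - 2), Nat.mul_comm p n]
  omega

theorem Ft_step (p n : ℕ) (hp : 2 ≤ p) (hn : 2 ≤ n) : Ft (p + 4) n = Ft p n + 2 * n := by
  obtain ⟨a, rfl⟩ : ∃ a, p = a + 2 := ⟨p - 2, by omega⟩
  obtain ⟨b, rfl⟩ : ∃ b, n = b + 2 := ⟨n - 2, by omega⟩
  unfold Ft gen
  have e1 : a + 2 + 4 - 2 = a + 4 := by omega
  have e2 : b + 2 - 2 = b := by omega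
  have e3 : a + 2 - 2 = a := by omega
  rw [e1, e2, e3]
  have e4 : (a + 2 + 4) * (b + 2) = a * b + 2 * a + 6 * b + 12 := by ring
  have e5 : (a + 2) * (b + 2) = a * b + 2 * a + 2 * b + 4 := by ring
  have e6 : (a + 4) * b = a * b + 4 * b := by ring
  rw [e4, e5, e6]
  generalize a * b = m
  omega

theorem step4 (p n : ℕ) (hp : 2 ≤ p) (hn : 2 ≤ n) (h : REmb p n (Ft p n)) :
    REmb (p + 4) n (Ft (p + 4) n) := by
  obtain ⟨c, rfl⟩ : ∃ c, p = c + 1 := ⟨p - 1, by omega⟩
  have h1 := qsum (a := 5) (b := c) (n := n) (by norm_num) (by omega) hn (quad6 n hn) h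
  have e : 5 + c = c + 1 + 4 := by omega
  rw [e] at h1
  have e2 : Ft (c + 1) n + (5 + 1) * n / 2 - n = Ft (c + 1 + 4) n := by
    rw [Ft_step _ _ hp hn]
    omega
  rw [e2] at h1
  exact h1

theorem flipF {p n : ℕ} (h : REmb p n (Ft p n)) : REmb n p (Ft n p) := by
  rw [Ft_comm]; exact h.flip

theorem small (s n : ℕ) (h1 : 2 ≤ s) (h2 : s < 6) (h3 : 2 ≤ n) : REmb s n (Ft s n) := by
  induction n using Nat.strong_induction_on with
  | _ n ih =>
    by_cases h : n < 6
    · interval_cases s <;> interval_cases n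
      · exact b22
      · exact b23
      · exact b24
      · exact b25
      · exact b23.flip
      · exact b33
      · exact b34
      · exact b35
      · exact b24.flip
      · exact b34.flip
      · exact b44
      · exact b45
      · exact b25.flip
      · exact b35.flip
      · exact b45.flip
      · exact b55
    · obtain ⟨m, rfl⟩ : ∃ m, n = m + 4 := ⟨n - 4, by omega⟩
      exact flipF (step4 m s (by omega) h1 (flipF (ih m (by omega) (by omega))))

theorem ringel (p n : ℕ) (hp : 2 ≤ p) (hn : 2 ≤ n) : REmb p n (Ft p n) := by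
  induction p using Nat.strong_induction_on with
  | _ p ih =>
    by_cases h : p < 6
    · exact small p n hp h hn
    · obtain ⟨m, rfl⟩ : ∃ m, p = m + 4 := ⟨p - 4, by omega⟩
      exact step4 m n (by omega) hn (ih m (by omega) (by omega))


end Pool.Agent.Helper201_K3
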