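import Pool.Agent.Helper201_K3.Sum
import Pool.Agent.Helper201_K3.Insert

set_option autoImplicit false

namespace Pool.Agent.Helper201_K3


/-- the invariant of the insertion procedure -/
structure special_sum_Inv {A1 A2 N : Type} (R0 R : BRot (A1 ⊕ A2) N) (a0 : A1) (s : ℕ) (γ : ℕ → A2)
    (u : ℕ → N) (M : Finset ℕ) (k : ℕ) : Prop where
  tr : R.PTrans (fun a v => ¬ (a = Sum.inl a0 ∧ ∃ m ∈ M, k ≤ m ∧ v = u m))
  rho : ∀ b, b ≠ Sum.inl a0 → R.ρ b = R0.ρ b
  tau : ∀ v, (∀ m ∈ M, m < k → v ≠ u m) → R.τ v = R0.τ v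
  rho0 : ∀ v, v ≠ u s → (∀ m ∈ M, v ≠ u m) → R.ρ (Sum.inl a0) v = R0.ρ (Sum.inl a0) v
  same : R.face.SameCycle (Sum.inl a0, R.ρ (Sum.inl a0) (u s)) (Sum.inr (γ k), u k)
  cyc : ncyc R.face = ncyc R0.face

theorem special_sum_face {A N : Type} (R : BRot A N) (a : A) (x : N) :
    R.face (a, x) = (R.τ x a, R.ρ (R.τ x a) x) := rfl

theorem special_sum_step {A1 A2 N : Type} [Fintype A1] [Fintype A2] [Fintype N]
    (R0 R : BRot (A1 ⊕ A2) N) (a0 : A1) (s : ℕ) (γ : ℕ → A2) (u : ℕ → N) (M : Finset ℕ) (k : ℕ)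
    (hM : ∀ m ∈ M, m < s) (hk : k < s) (hinj : ∀ m ≤ s, ∀ m' ≤ s, u m = u m' → m = m')
    (ht : ∀ m < s, R0.τ (u m) (Sum.inr (γ m)) = Sum.inr (γ (m + 1)))
    (hr : ∀ m < s, R0.ρ (Sum.inr (γ (m + 1))) (u m) = u (m + 1))
    (h : special_sum_Inv R0 R a0 s γ u M k) :
    ∃ R' : BRot (A1 ⊕ A2) N, special_sum_Inv R0 R' a0 s γ u M (k + 1) := by
  classical
  have htk : R.τ (u k) = R0.τ (u k) := by
    apply h.tau
    intro m hm hmk he
    have := hinj k hk.le m (hM m hm).le he
    omega
  have hne : ∀ b : A2, (Sum.inr b : A1 ⊕ A2) ≠ Sum.inl a0 := fun b => by simp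
  by_cases hkM : k ∈ M
  · have hfix := (h.tr.1 (Sum.inl a0) (u k) (by
      rw [not_not]; exact ⟨rfl, k, hkM, le_rfl, rfl⟩)).1
    have hfixt := (h.tr.1 (Sum.inl a0) (u k) (by
      rw [not_not]; exact ⟨rfl, k, hkM, le_rfl, rfl⟩)).2
    obtain ⟨R', h1, h2, h3, h4, h5, h6⟩ := insert_edge R _ h.tr (Sum.inl a0) (u k)
      (by rw [not_not]; exact ⟨rfl, k, hkM, le_rfl, rfl⟩) (Sum.inr (γ k)) (u s)
      (by
        rintro ⟨-, m, hm, -, he⟩
        have := hinj s le_rfl m (hM m hm).le he
        have := hM m hm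
        omega)
      (by rintro ⟨he, -⟩; exact hne _ he) h.same
    have hrs : R'.ρ (Sum.inl a0) (u s) = u k := by
      rw [h2, Equiv.Perm.mul_apply, Equiv.swap_apply_right, hfix]
    refine ⟨R', ⟨?_, ?_, ?_, ?_, ?_, ?_⟩⟩
    · have hE : (fun a' x' => (¬ (a' = (Sum.inl a0 : A1 ⊕ A2) ∧ ∃ m ∈ M, k ≤ m ∧ x' = u m)) ∨
          (a' = Sum.inl a0 ∧ x' = u k)) =
          (fun a' x' => ¬ (a' = (Sum.inl a0 : A1 ⊕ A2) ∧ ∃ m ∈ M, k + 1 ≤ m ∧ x' = u m)) := by
        funext a' x'
        apply propext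
        constructor
        · rintro (h7 | ⟨h7, h8⟩) ⟨h9, m, hm, hkm, hx⟩
          · exact h7 ⟨h9, m, hm, by omega, hx⟩
          · have := hinj k hk.le m (hM m hm).le (h8.symm.trans hx)
            omega
        · intro h7
          by_cases h8 : a' = Sum.inl a0 ∧ ∃ m ∈ M, k ≤ m ∧ x' = u m
          · obtain ⟨h9, m, hm, hkm, hx⟩ := h8
            rcases Nat.eq_or_lt_of_le hkm with h10 | h10
            · subst h10
              exact Or.inr ⟨h9, hx⟩
            · exact absurd ⟨h9, m, hm, h10, hx⟩ h7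
          · exact Or.inl h8
      rw [hE] at h1
      exact h1
    · intro b hb
      rw [h3 b hb, h.rho b hb]
    · intro v hv
      have hvk : v ≠ u k := hv k hkM (Nat.lt_succ_self k)
      rw [h5 v hvk]
      exact h.tau v fun m hm hmk => hv m hm (by omega)
    · intro v hvs hvM
      rw [h2, Equiv.Perm.mul_apply, Equiv.swap_apply_of_ne_of_ne (hvM k hkM) hvs]
      exact h.rho0 v hvs hvM
    · rw [hrs]
      have e1 : R'.τ (u k) (Sum.inl a0) = Sum.inr (γ (k + 1)) := by
        rw [h4, Equiv.Perm.mul_apply, Equiv.swap_apply_left, htk, ht k hk]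
      have e2 : R'.ρ (Sum.inr (γ (k + 1))) (u k) = u (k + 1) := by
        rw [h3 _ (hne _), h.rho _ (hne _), hr k hk]
      refine ⟨1, ?_⟩
      rw [zpow_one, special_sum_face, e1, e2]
    · rw [h6, h.cyc]
  · refine ⟨R, ⟨?_, h.rho, ?_, h.rho0, ?_, h.cyc⟩⟩
    · have hE : (fun a' x' => ¬ (a' = (Sum.inl a0 : A1 ⊕ A2) ∧ ∃ m ∈ M, k ≤ m ∧ x' = u m)) =
          (fun a' x' => ¬ (a' = (Sum.inl a0 : A1 ⊕ A2) ∧ ∃ m ∈ M, k + 1 ≤ m ∧ x' = u m)) := by
        funext a' x'
        apply propext
        constructor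
        · rintro h7 ⟨h9, m, hm, hkm, hx⟩
          exact h7 ⟨h9, m, hm, by omega, hx⟩
        · rintro h7 ⟨h9, m, hm, hkm, hx⟩
          rcases Nat.eq_or_lt_of_le hkm with h10 | h10
          · subst h10; exact hkM hm
          · exact h7 ⟨h9, m, hm, h10, hx⟩
      rw [← hE]
      exact h.tr
    · intro v hv
      exact h.tau v fun m hm hmk => hv m hm (by omega)
    · refine h.same.trans ⟨1, ?_⟩
      have e1 : R.τ (u k) (Sum.inr (γ k)) = Sum.inr (γ (k + 1)) := by rw [htk, ht k hk]
      have e2 : R.ρ (Sum.inr (γ (k + 1))) (u k) = u (k + 1) := by rw [h.rho _ (hne _), hr k hk]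
      rw [zpow_one, special_sum_face, e1, e2]

/-
TARGET special_sum: diamond sum at `none` in which the second embedding E has ONE face at `none` that need not be a quadrangle, and the
first one (R1, the block) is complete bipartite MINUS the edges from one vertex `some a0` to some of the N-vertices of that face; after the sum
these edges are inserted inside that face, which costs no cycles.

The face of E through the dart none → x is  none x γ0 u0 γ1 u1 ... γs us=y (back to none), i.e.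
  E.face^[m+1] (none, x) = (some (γ m), u m) for m ≤ s,  E.τ (u s) (some (γ s)) = none, E.ρ none (u s) = x.
The block contains the quadrangle none x a0 y: R1.τ x (some a0) = none, R1.τ y none = some a0, R1.ρ (some a0) y = x, (R1.ρ none x = y by hopp),
and its missing edges are a0 -- u m, m ∈ M, M ⊆ {0..s-1}; u is injective on {m ≤ s}, and u m ≠ x for m ≤ s.

PROOF. sum_exists R1 E (all faces of R1 have length 4, so hq) gives R on A1 ⊕ A2. In R the face of the dart (inl a0, x) is
(inl a0, x), (inr γ0, u0), (inr γ1, u1), ..., (inr γs, us = y), back to (inl a0, x)  [at x: R1.τ x (some a0) = none and E.τ x none = some γ0;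
at us: E.τ us (some γs) = none and R1.τ y none = some a0].
Then insert the edges a0 -- u m for m ∈ M in increasing order of m, each time right after y at inl a0 (insert_edge with a := inl a0, x := u m,
a1 := inr (γ m), y := y). Invariant (after having inserted all m ∈ M with m < m0): R.ρ (inl a0) y = u m1 for the last inserted m1 (or = x at the
start), the corner after y at inl a0 is in the same face as (inr (γ m), u m) for all m ≥ m0, m ≤ s: this face is
(inl a0, u m1), (inr γ(m1+1), u (m1+1)), ..., (inr γs, y), (inl a0, u m1); rotations other than that of inl a0 and those of the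
inserted u m's are those of the sum; τ at u m' for the not yet treated m' is unchanged.
At the end the rotation system is complete (R.Trans), and ncyc is at least ncyc R1.face + ncyc E.face - |N|.
CHORDS: a pair b, c consecutive around some vertex of E other than none is still consecutive there (the rotations R.ρ (inr a) = E.ρ (some a)
never change). A pair consecutive around none in E, other than (y, x): if E.ρ none v = v', then R1.ρ none v' = v and the quadrangle of R1 at
that corner shows that v, v' are consecutive around some `some a` of R1; if a = a0 this corner is not the corner (y, x) of a0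
[the corner of a0 after y is in the quadrangle none x a0 y]; corners of a0 other than the one after y are never changed by the insertions.
The pair (y, x): hypothesis hyx says that it is not needed or also consecutive around another vertex of E.
-/
theorem special_sum {A1 A2 B C : Type} [Fintype A1] [Fintype A2] [Fintype B] [Fintype C]
    (R1 : BRot (Option A1) (B ⊕ C)) (E : BRot (Option A2) (B ⊕ C)) (hE : E.Trans)
    (a0 : A1) (x : B ⊕ C) (s : ℕ) (γ : ℕ → A2) (u : ℕ → B ⊕ C) (M : Finset ℕ) (hM : ∀ m ∈ M, m < s)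
    (hinj : ∀ m ≤ s, ∀ m' ≤ s, u m = u m' → m = m') (hux : ∀ m ≤ s, u m ≠ x)
    (hpath : ∀ m ≤ s, (E.face^[m+1]) (none, x) = (some (γ m), u m))
    (hend : E.τ (u s) (some (γ s)) = none) (hendr : E.ρ none (u s) = x)
    (h1 : R1.PTrans (fun a v => ¬ (a = some a0 ∧ ∃ m ∈ M, v = u m)))
    (hopp : ∀ v, E.ρ none (R1.ρ none v) = v)
    (hquad : ∀ d, R1.face (R1.face d) = d)
    (hc1 : R1.τ x (some a0) = none) (hc2 : R1.τ (u s) none = some a0) (hc3 : R1.ρ (some a0) (u s) = x)
    (ne1 : ∀ v, R1.τ v none ≠ none) (ne2 : ∀ v, E.τ v none ≠ none)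
    (hch : ∀ b c, ∃ a, E.ρ a (Sum.inl b) = Sum.inr c ∨ E.ρ a (Sum.inr c) = Sum.inl b)
    (hyx : ∀ b c, (u s = Sum.inl b ∧ x = Sum.inr c) ∨ (u s = Sum.inr c ∧ x = Sum.inl b) →
      ∃ a, a ≠ none ∧ (E.ρ a (Sum.inl b) = Sum.inr c ∨ E.ρ a (Sum.inr c) = Sum.inl b)) :
    ∃ R : BRot (A1 ⊕ A2) (B ⊕ C), R.Trans ∧
      (∀ b c, ∃ a, R.ρ a (Sum.inl b) = Sum.inr c ∨ R.ρ a (Sum.inr c) = Sum.inl b) ∧
      ncyc R1.face + ncyc E.face ≤ ncyc R.face + Fintype.card (B ⊕ C) := by
  classical
  have hEt : E.PTrans (fun _ _ => True) :=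
    ⟨fun a x h => absurd trivial h, fun a x y _ _ => hE.1 a x y, fun x a b _ _ => hE.2 x a b⟩
  obtain ⟨R0, hR0, hl, hr, t1, t2, t3, t4, hcyc⟩ := sum_exists R1 E _ _ h1 hEt
    (by intro v; rintro ⟨h, -⟩; exact absurd h (by simp)) (fun _ => trivial) ne1 ne2 hopp
    (fun v => hquad _)
  -- the path in `E`
  have hstep : ∀ m < s, E.face (some (γ m), u m) = (some (γ (m + 1)), u (m + 1)) := by
    intro m hm
    have e1 := hpath m hm.le
    have e2 := hpath (m + 1) hm
    rw [Function.iterate_succ_apply', e1] at e2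
    exact e2
  have hzero : E.face (none, x) = (some (γ 0), u 0) := by
    have := hpath 0 (Nat.zero_le _)
    simpa using this
  have hz1 : E.τ x none = some (γ 0) := congrArg Prod.fst hzero
  have hz2 : E.ρ (some (γ 0)) x = u 0 := by
    have := congrArg Prod.snd hzero
    rw [special_sum_face] at this
    rw [hz1] at this
    exact this
  have hs1 : ∀ m < s, E.τ (u m) (some (γ m)) = some (γ (m + 1)) :=
    fun m hm => congrArg Prod.fst (hstep m hm)
  have hs2 : ∀ m < s, E.ρ (some (γ (m + 1))) (u m) = u (m + 1) := by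
    intro m hm
    have := congrArg Prod.snd (hstep m hm)
    rw [special_sum_face] at this
    rw [hs1 m hm] at this
    exact this
  have ht : ∀ m < s, R0.τ (u m) (Sum.inr (γ m)) = Sum.inr (γ (m + 1)) :=
    fun m hm => t3 _ _ _ (hs1 m hm)
  have hrr : ∀ m < s, R0.ρ (Sum.inr (γ (m + 1))) (u m) = u (m + 1) := by
    intro m hm
    rw [hr]
    exact hs2 m hm
  -- the start
  have hinv0 : special_sum_Inv R0 R0 a0 s γ u M 0 := by
    refine ⟨?_, fun _ _ => rfl, fun _ _ => rfl, fun _ _ _ => rfl, ?_, rfl⟩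
    · have hE' : (Sum.elim (fun (a : A1) (v : B ⊕ C) => ¬ ((some a : Option A1) = some a0 ∧
          ∃ m ∈ M, v = u m)) (fun (_ : A2) (_ : B ⊕ C) => True)) =
          (fun a v => ¬ (a = (Sum.inl a0 : A1 ⊕ A2) ∧ ∃ m ∈ M, 0 ≤ m ∧ v = u m)) := by
        funext a v
        rcases a with a | a
        · simp
        · simp
      rw [← hE']
      exact hR0
    · have e0 : R0.ρ (Sum.inl a0) (u s) = x := by rw [hl]; exact hc3
      rw [e0]
      have e1 : R0.τ x (Sum.inl a0) = Sum.inr (γ 0) := t2 x a0 (γ 0) hc1 hz1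
      have e2 : R0.ρ (Sum.inr (γ 0)) x = u 0 := by rw [hr]; exact hz2
      refine ⟨1, ?_⟩
      rw [zpow_one, special_sum_face, e1, e2]
  -- the insertions
  have hall : ∀ k, k ≤ s → ∃ R, special_sum_Inv R0 R a0 s γ u M k := by
    intro k
    induction k with
    | zero => intro _; exact ⟨R0, hinv0⟩
    | succ k ih =>
      intro hk
      obtain ⟨R, hR⟩ := ih (by omega)
      exact special_sum_step R0 R a0 s γ u M k hM hk hinj ht hrr hR
  obtain ⟨R, hR⟩ := hall s le_rfl
  have htriv : ∀ a v, ¬ (a = (Sum.inl a0 : A1 ⊕ A2) ∧ ∃ m ∈ M, s ≤ m ∧ v = u m) := by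
    rintro a v ⟨-, m, hm, hsm, -⟩
    have := hM m hm
    omega
  refine ⟨R, ⟨fun a v w => hR.tr.2.1 a v w (htriv a v) (htriv a w),
    fun v a b => hR.tr.2.2 v a b (htriv a v) (htriv b v)⟩, ?_, by rw [hR.cyc]; exact hcyc⟩
  have hsome : ∀ a' : A2, R.ρ (Sum.inr a') = E.ρ (some a') := fun a' => by
    rw [hR.rho _ (by simp), hr]
  -- consecutive pairs around `none`
  have hnone : ∀ v v' : B ⊕ C, v ≠ v' → v ≠ u s → E.ρ none v = v' → ∃ a, R.ρ a v = v' := by
    intro v v' hvv hvs he
    have e1 : R1.ρ none v' = v := by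
      apply (E.ρ none).injective
      rw [hopp, he]
    have e2 := hquad (none, v)
    rw [special_sum_face] at e2
    set a1 := R1.τ v none with ha1
    rw [special_sum_face] at e2
    have e3 : R1.τ (R1.ρ a1 v) a1 = none := congrArg Prod.fst e2
    have e4 : R1.ρ none (R1.ρ a1 v) = v := by
      have := congrArg Prod.snd e2
      rw [e3] at this
      exact this
    have e5 : R1.ρ a1 v = v' := by
      apply (R1.ρ none).injective
      rw [e4, e1]
    obtain ⟨a1', ha1'⟩ := Option.ne_none_iff_exists'.1 (ne1 v)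
    have e6 : R1.ρ (some a1') v = v' := by
      rw [← e5, ha1, ha1']
    refine ⟨Sum.inl a1', ?_⟩
    by_cases h0 : a1' = a0
    · subst h0
      rw [hR.rho0 v hvs, hl, e6]
      intro m hm hvm
      have := (h1.1 (some a1') v (by rw [not_not]; exact ⟨rfl, m, hm, hvm⟩)).1
      exact hvv (this.symm.trans e6)
    · rw [hR.rho _ (by simpa using h0), hl, e6]
  have hfin : ∀ b c, (∃ a : Option A2, a ≠ none ∧
      (E.ρ a (Sum.inl b) = Sum.inr c ∨ E.ρ a (Sum.inr c) = Sum.inl b)) →
      ∃ a, R.ρ a (Sum.inl b) = Sum.inr c ∨ R.ρ a (Sum.inr c) = Sum.inl b := by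
    rintro b c ⟨a, ha, h⟩
    obtain ⟨a', rfl⟩ := Option.ne_none_iff_exists'.1 ha
    exact ⟨Sum.inr a', by rw [hsome]; exact h⟩
  intro b c
  obtain ⟨a, ha⟩ := hch b c
  rcases a with _ | a
  · rcases ha with ha | ha
    · by_cases hv : (Sum.inl b : B ⊕ C) = u s
      · have hx : x = Sum.inr c := by rw [← hendr, ← hv, ha]
        exact hfin b c (hyx b c (Or.inl ⟨hv.symm, hx⟩))
      · obtain ⟨a, h⟩ := hnone _ _ (by simp) hv ha
        exact ⟨a, Or.inl h⟩
    · by_cases hv : (Sum.inr c : B ⊕ C) = u s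
      · have hx : x = Sum.inl b := by rw [← hendr, ← hv, ha]
        exact hfin b c (hyx b c (Or.inr ⟨hv.symm, hx⟩))
      · obtain ⟨a, h⟩ := hnone _ _ (by simp) hv ha
        exact ⟨a, Or.inr h⟩
  · exact hfin b c ⟨some a, by simp, ha⟩


end Pool.Agent.Helper201_K3
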