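import Pool.Agent.Helper201_K3.TabBlocks
import Pool.Agent.Helper201_K3.Wrap2

set_option autoImplicit false

namespace Pool.Agent.Helper201_K3

def P_Fd_d5_even_3_3_C_4_20_8_4_231_242 : Pat 3 :=
  ⟨[⟨⟨[.inl 0, .inl (-2), .inr 0, .inl 1, .inr 2, .inl 3], [.inl (-1), .inl 2, .inl (-3), .inr 1, .inl (-4)], [3, -2, 1, -1], [-4, -3, 2, 0], [], []⟩, [1, 1, -2], [-1, -1, 2]⟩,
    ⟨⟨[.inl 0, .inl 2, .inl 3], [.inl (-1), .inr 2, .inl 1, .inl (-2), .inr 0, .inl (-3), .inr 1, .inl (-4)], [3, 1, 2, -1], [-4, -3, -2, 0], [], []⟩, [-3, 1, -2], [-1, -1, 3]⟩,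
    ⟨⟨[.inl 0, .inr 0, .inl 2, .inl 1, .inr 2, .inl 3], [.inl (-1), .inl (-2), .inl (-3), .inr 1, .inl (-4)], [3, 2, 1, -2, -1], [-4, -3, 0], [], []⟩, [3, 1, -2], [1, -1, 1]⟩,
    ⟨⟨[.inl 0, .inl (-2), .inl 3], [.inl (-1), .inl 2, .inr 2, .inl 1, .inr 0, .inl (-3), .inr 1, .inl (-4)], [3, 1, -2, -1], [-4, -3, 2, 0], [1], []⟩, [-1, 1, -1], [-5, -1, 2]⟩,
    ⟨⟨[.inl 0, .inr 0, .inl 1, .inl (-2), .inr 2, .inl 3], [.inl (-1), .inl 2, .inl (-3), .inr 1, .inl (-4)], [3, -2, 2, 1, -1], [-4, -3, 0], [-2], []⟩, [3, 1, -3], [1, -1, 2]⟩,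
    ⟨⟨[.inl 0, .inl 2, .inl 3], [.inl (-1), .inr 2, .inl 1, .inl (-2), .inr 0, .inl (-3), .inr 1, .inl (-4)], [3, 2, 1, -1], [-4, -3, -2, 0], [1], [0]⟩, [-1, 1, -2], [-3, -1, 2]⟩,
    ⟨⟨[.inl 0, .inl 2, .inr 0, .inl 1, .inr 2, .inl 3], [.inl (-1), .inl (-2), .inl (-3), .inr 1, .inl (-4)], [3, 2, 1, -1], [-4, -3, -2, 0], [], []⟩, [5, 1, -2], [3, -1, 2]⟩,
    ⟨⟨[.inl 0, .inl (-2), .inl 3], [.inl (-1), .inr 2, .inl 1, .inl 2, .inr 0, .inl (-3), .inr 1, .inl (-4)], [3, 1, -2, -1], [-4, -3, 2, 0], [], []⟩, [1, 1, -2], [-3, -1, 2]⟩],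
   [⟨⟨[.inl 0, .inl (-2), .inr 0, .inl 1, .inr 2, .inl 3], [.inl (-1), .inl 2, .inl (-3), .inr 1, .inl (-4)], [3, -2, 1, -1], [-4, -3, 2, 0], [], []⟩, [1, 1, -2], [-1, -1, 2]⟩,
    ⟨⟨[.inl 0, .inl 2, .inl 3], [.inl (-1), .inr 2, .inl 1, .inl (-2), .inr 0, .inl (-3), .inr 1, .inl (-4)], [3, 1, 2, -1], [-4, -3, -2, 0], [], []⟩, [-3, 1, -2], [-1, -1, 2]⟩,
    ⟨⟨[.inl 0, .inl 2, .inr 0, .inl 1, .inr 2, .inl 3], [.inl (-1), .inl (-2), .inl (-3), .inr 1, .inl (-4)], [3, 2, 1, -1], [-4, -3, -2, 0], [], []⟩, [5, 1, -2], [3, -1, 2]⟩,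
    ⟨⟨[.inl 0, .inl (-2), .inl 3], [.inl (-1), .inr 2, .inl 1, .inl 2, .inr 0, .inl (-3), .inr 1, .inl (-4)], [3, 1, -2, -1], [-4, -3, 2, 0], [], []⟩, [1, 1, -2], [-5, -1, 2]⟩]⟩

theorem P_Fd_d5_even_3_3_C_4_20_8_4_231_242_l0 : P_Fd_d5_even_3_3_C_4_20_8_4_231_242.locC [-3, 1, -2, 2] 7 (20 + 0 * 4) = true := by decide +kernel

theorem P_Fd_d5_even_3_3_C_4_20_8_4_231_242_l1 : P_Fd_d5_even_3_3_C_4_20_8_4_231_242.locC [-3, 1, -2, 2] 7 (20 + 1 * 4) = true := by decide +kernel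

theorem P_Fd_d5_even_3_3_C_4_20_8_4_231_242_l2 : P_Fd_d5_even_3_3_C_4_20_8_4_231_242.locC [-3, 1, -2, 2] 7 (20 + 2 * 4) = true := by decide +kernel

theorem P_Fd_d5_even_3_3_C_4_20_8_4_231_242_fam : ∀ t : ℕ, P_Fd_d5_even_3_3_C_4_20_8_4_231_242.loc 7 (20 + t * 4) = true ∧ P_Fd_d5_even_3_3_C_4_20_8_4_231_242.conn (20 + t * 4) = true :=
  fam_ext2 P_Fd_d5_even_3_3_C_4_20_8_4_231_242 [-3, 1, -2, 2] 7 20 2 6 4 (by decide) (by decide) (by decide) (by decide) (by decide) (by decide +kernel) (by decide)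
    (by
      intro t ht
      interval_cases t
      · exact P_Fd_d5_even_3_3_C_4_20_8_4_231_242_l0
      · exact P_Fd_d5_even_3_3_C_4_20_8_4_231_242_l1
      · exact P_Fd_d5_even_3_3_C_4_20_8_4_231_242_l2)
    (by decide +kernel)

theorem P_Fd_d5_even_3_3_C_4_20_8_4_231_242_sh : P_Fd_d5_even_3_3_C_4_20_8_4_231_242.all (shTwo (-1) 3 true) = true := by decide +kernel

def S_Fd_d5_even_3_3_C_4_20_8_4_231_242_0 : SpD 3 := ⟨2, .inl 1, [(3, .inr 0), (2, .inl 3), (4, .inl 2)], [(0, -2)]⟩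

theorem S_Fd_d5_even_3_3_C_4_20_8_4_231_242_0_fam : ∀ t : ℕ, S_Fd_d5_even_3_3_C_4_20_8_4_231_242_0.chk 4 (20 + t * 4) (P_Fd_d5_even_3_3_C_4_20_8_4_231_242.acc (20 + t * 4) S_Fd_d5_even_3_3_C_4_20_8_4_231_242_0.i0) = true :=
  sp_fam P_Fd_d5_even_3_3_C_4_20_8_4_231_242 S_Fd_d5_even_3_3_C_4_20_8_4_231_242_0 4 20 1 4 (by decide) (by decide) (by decide) (by decide) (by decide +kernel)

def S_Fd_d5_even_3_3_C_4_20_8_4_231_242_1 : SpD 3 := ⟨2, .inl 1, [(3, .inr 0), (2, .inl 3), (4, .inl 2)], [(0, -2), (1, 2)]⟩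

theorem S_Fd_d5_even_3_3_C_4_20_8_4_231_242_1_fam : ∀ t : ℕ, S_Fd_d5_even_3_3_C_4_20_8_4_231_242_1.chk 4 (20 + t * 4) (P_Fd_d5_even_3_3_C_4_20_8_4_231_242.acc (20 + t * 4) S_Fd_d5_even_3_3_C_4_20_8_4_231_242_1.i0) = true :=
  sp_fam P_Fd_d5_even_3_3_C_4_20_8_4_231_242 S_Fd_d5_even_3_3_C_4_20_8_4_231_242_1 4 20 1 4 (by decide) (by decide) (by decide) (by decide) (by decide +kernel)

theorem W_Fd_d5_even_3_3_C_4_20_8_4_231_242 (q r : ℕ) (h1 : 20 ≤ q) (h2 : q % 4 = 0) (h3 : (q + r) % 4 = 3) (h4 : 3 ≤ r) (h5 : r + 5 ≤ q) : Want q r := by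
  obtain ⟨t, rfl⟩ : ∃ t : ℕ, q = 20 + t * 4 := ⟨(q - 20) / 4, by omega⟩
  obtain ⟨hl, hc⟩ := P_Fd_d5_even_3_3_C_4_20_8_4_231_242_fam t
  have hev : decide (Even (((((20 + t * 4) - 2) / 2) - (r - 3) / 2) - 3)) = true := by
    simp only [Nat.even_iff, decide_eq_true_eq]
    omega
  have hI := inst_two P_Fd_d5_even_3_3_C_4_20_8_4_231_242 7 (20 + t * 4) (-1) 3 ((((20 + t * 4) - 2) / 2) - (r - 3) / 2) (((20 + t * 4) - 2) / 2) r 4 (by decide) (by omega) (by decide) (by omega) (by omega) (by omega) (by omega) (by decide +kernel) (by decide) (by omega) (by decide +kernel) (by rw [hev]; exact P_Fd_d5_even_3_3_C_4_20_8_4_231_242_sh) hl hc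
  exact class_d _ _ (by omega) (by omega) (by omega) hI.1 (hI.2 S_Fd_d5_even_3_3_C_4_20_8_4_231_242_0 4 2 (by decide) (by show (2 : ℕ) < _; omega) (S_Fd_d5_even_3_3_C_4_20_8_4_231_242_0_fam t) (blk_2_3_m2 _ (by omega) (by omega))) (hI.2 S_Fd_d5_even_3_3_C_4_20_8_4_231_242_1 4 3 (by decide) (by show (2 : ℕ) < _; omega) (S_Fd_d5_even_3_3_C_4_20_8_4_231_242_1_fam t) (blk_3_3_m2_2 _ (by omega) (by omega)))

def P_S_15_run_5_3_S_4_332 : Pat 3 :=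
  ⟨[⟨⟨[.inl 0, .inl 1, .inr 1, .inl 2, .inl 4, .inr 0, .inl 3, .inr 2, .inl 5], [], [5, 4, 2, 3, 1, 0], [], [], []⟩, [-1, -3, 1], [2, 2, 2]⟩,
    ⟨⟨[.inl 0, .inr 2, .inl 2, .inr 1, .inl 3, .inl 1, .inr 0, .inl 4, .inl 5], [], [5, 3, 4, 1, 2, 0], [], [], []⟩, [-3, -2, -2], [2, 5, -1]⟩,
    ⟨⟨[.inl 0, .inr 1, .inl 4, .inl 3, .inr 2, .inl 2, .inl 1, .inr 0, .inl 5], [], [5, 3, 4, 1, 2, 0], [], [], []⟩, [-2, -2, -2], [2, 1, 1]⟩,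
    ⟨⟨[.inl 0, .inl 4, .inl 1, .inr 2, .inl 3, .inr 1, .inl 2, .inr 0, .inl 5], [], [5, 4, 2, 3, 1, 0], [], [1], []⟩, [-2, -1, -1], [4, 1, 1]⟩,
    ⟨⟨[.inl 0, .inl 3, .inr 0, .inl 2, .inr 2, .inl 4, .inl 1, .inr 1, .inl 5], [], [5, 4, 3, 2, 1, 0], [], [3], []⟩, [-2, -1, -1], [1, 4, 4]⟩,
    ⟨⟨[.inl 0, .inl 3, .inr 1, .inl 4, .inr 2, .inl 2, .inl 1, .inr 0, .inl 5], [], [5, 3, 4, 2, 1, 0], [], [], []⟩, [-1, 1, 1], [3, 4, 2]⟩,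
    ⟨⟨[.inl 0, .inl 1, .inr 1, .inl 2, .inl 4, .inr 2, .inl 3, .inr 0, .inl 5], [], [5, 4, 3, 2, 1, 0], [], [], [1]⟩, [1, -5, 3], [4, -1, -1]⟩,
    ⟨⟨[.inl 0, .inr 2, .inl 4, .inr 1, .inl 3, .inl 1, .inr 0, .inl 2, .inl 5], [], [5, 3, 4, 1, 2, 0], [], [4], []⟩, [-4, 1, -2], [-1, 3, 4]⟩,
    ⟨⟨[.inl 0, .inr 2, .inl 4, .inl 1, .inr 1, .inl 3, .inl 2, .inr 0, .inl 5], [], [5, 1, 2, 3, 4, 0], [], [], []⟩, [-3, -4, -4], [1, -1, 1]⟩,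
    ⟨⟨[.inl 0, .inr 1, .inl 3, .inr 2, .inl 1, .inl 2, .inl 4, .inr 0, .inl 5], [], [5, 1, 2, 3, 4, 0], [], [], []⟩, [-1, -4, -1], [2, 2, -3]⟩,
    ⟨⟨[.inl 0, .inr 1, .inl 4, .inr 2, .inl 3, .inl 1, .inr 0, .inl 2, .inl 5], [], [5, 2, 1, 4, 3, 0], [], [], []⟩, [-4, -3, 3], [2, 4, 2]⟩,
    ⟨⟨[.inl 0, .inr 2, .inl 4, .inl 1, .inr 1, .inl 2, .inl 3, .inr 0, .inl 5], [], [5, 1, 2, 3, 4, 0], [], [], []⟩, [-2, -2, -4], [2, 2, 2]⟩,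
    ⟨⟨[.inl 0, .inr 0, .inl 3, .inr 1, .inl 4, .inl 2, .inl 1, .inr 2, .inl 5], [], [5, 4, 3, 1, 2, 0], [], [], []⟩, [-2, 1, -2], [2, 3, 2]⟩,
    ⟨⟨[.inl 0, .inr 1, .inl 2, .inr 2, .inl 1, .inl 3, .inr 0, .inl 4, .inl 5], [], [5, 4, 3, 1, 2, 0], [], [], []⟩, [-2, -2, -2], [3, -1, -3]⟩,
    ⟨⟨[.inl 0, .inr 1, .inl 4, .inl 3, .inr 2, .inl 2, .inl 1, .inr 0, .inl 5], [], [5, 3, 2, 1, 4, 0], [], [], []⟩, [-2, -4, -2], [1, 2, 2]⟩],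
   [⟨⟨[.inl 0, .inr 1, .inl 4, .inl 3, .inr 2, .inl 2, .inl 1, .inr 0, .inl 5], [], [5, 3, 2, 1, 4, 0], [], [], []⟩, [-2, -4, -2], [1, 2, 2]⟩]⟩

theorem P_S_15_run_5_3_S_4_332_fam : P_S_15_run_5_3_S_4_332.loc 5 15 = true ∧ P_S_15_run_5_3_S_4_332.conn 15 = true :=
  one_fam P_S_15_run_5_3_S_4_332 [3, 4, 2, 1] 5 15 (by decide) (by decide +kernel) (by decide +kernel)

theorem P_S_15_run_5_3_S_4_332_sh : P_S_15_run_5_3_S_4_332.all (shOne 5) = true := by decide +kernel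

def S_S_15_run_5_3_S_4_332_0 : SpD 3 := ⟨3, .inl 4, [(3, .inr 1), (-2, .inl 1), (-1, .inl 0)], [(0, 4), (1, 1)]⟩

theorem S_S_15_run_5_3_S_4_332_0_fam : S_S_15_run_5_3_S_4_332_0.chk 4 15 (P_S_15_run_5_3_S_4_332.acc 15 S_S_15_run_5_3_S_4_332_0.i0) = true := by decide +kernel

theorem W_S_15_run_5_3_S_4_332 (q r : ℕ) (h1 : q = 15) (h5 : r + 2 = q) : Want q r := by
  subst h1
  obtain ⟨hl, hc⟩ := P_S_15_run_5_3_S_4_332_fam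
  have hI := inst_one P_S_15_run_5_3_S_4_332 5 15 5 r 4 (by omega) (by omega) (by omega) (by decide +kernel) (by decide) (by omega) (by decide +kernel) P_S_15_run_5_3_S_4_332_sh hl hc
  exact class_a _ _ (by omega) (by omega) (by omega) hI.1 (hI.2 S_S_15_run_5_3_S_4_332_0 4 2 (by decide) (by show (3 : ℕ) < _; omega) S_S_15_run_5_3_S_4_332_0_fam (blk_2_0_4_1 _ (by omega) (by omega)))

def P_S_13_odd_2_3_S_0 : Pat 3 :=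
  ⟨[⟨⟨[.inl 1, .inr 0, .inl 2], [.inl (-1), .inr 2, .inl 0, .inr 1, .inl (-2)], [-2, 0, -1], [2, 1], [], []⟩, [-1, 2, -1], [1, -2, 1]⟩,
    ⟨⟨[.inl 1, .inr 0, .inl 2], [.inl (-1), .inr 2, .inl 0, .inr 1, .inl (-2)], [-2, 0, -1], [2, 1], [], []⟩, [-1, 2, -1], [1, -2, 1]⟩,
    ⟨⟨[.inl 1, .inr 0, .inl 2], [.inl (-1), .inr 2, .inl 0, .inr 1, .inl (-2)], [-2, 0, -1], [2, 1], [], []⟩, [-1, 2, -1], [1, -2, 1]⟩,
    ⟨⟨[.inl 1, .inr 0, .inl 2], [.inl (-1), .inr 2, .inl 0, .inr 1, .inl (-2)], [-2, 0, -1], [2, 1], [], []⟩, [-1, 2, -1], [1, -2, 1]⟩,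
    ⟨⟨[.inl 1, .inr 0, .inl 2], [.inl (-1), .inr 2, .inl 0, .inr 1, .inl (-2)], [-2, 0, -1], [2, 1], [], []⟩, [-1, 2, -1], [1, -2, 1]⟩,
    ⟨⟨[.inl 1, .inr 0, .inl 2], [.inl (-1), .inr 2, .inl 0, .inr 1, .inl (-2)], [-2, 0, -1], [2, 1], [], []⟩, [-1, 2, -1], [1, -2, 1]⟩,
    ⟨⟨[.inl 1, .inr 0, .inl 2], [.inl (-1), .inr 2, .inl 0, .inr 1, .inl (-2)], [-2, 0, -1], [2, 1], [], []⟩, [-1, 2, -1], [1, -2, 1]⟩,
    ⟨⟨[.inl 1, .inr 0, .inl 2], [.inl (-1), .inr 2, .inl 0, .inr 1, .inl (-2)], [-2, 0, -1], [2, 1], [], []⟩, [-1, 2, -1], [1, -2, 1]⟩,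
    ⟨⟨[.inl 1, .inr 0, .inl 2], [.inl (-1), .inr 2, .inl 0, .inr 1, .inl (-2)], [-2, 0, -1], [2, 1], [], []⟩, [-1, 2, -1], [1, -2, 1]⟩,
    ⟨⟨[.inl 1, .inr 0, .inl 2], [.inl (-1), .inr 2, .inl 0, .inr 1, .inl (-2)], [-2, 0, -1], [2, 1], [], []⟩, [-1, 2, -1], [1, -2, 1]⟩,
    ⟨⟨[.inl 1, .inr 0, .inl 2], [.inl (-1), .inr 2, .inl 0, .inr 1, .inl (-2)], [-2, 0, -1], [2, 1], [], []⟩, [-1, 2, -1], [1, -2, 1]⟩,
    ⟨⟨[.inl 1, .inr 0, .inl 2], [.inl (-1), .inr 2, .inl 0, .inr 1, .inl (-2)], [-2, 0, -1], [2, 1], [], []⟩, [-1, 2, -1], [1, -2, 1]⟩,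
    ⟨⟨[.inl 1, .inr 0, .inl 2], [.inl (-1), .inr 2, .inl 0, .inr 1, .inl (-2)], [-2, 0, -1], [2, 1], [], []⟩, [-1, 2, -1], [1, -2, 1]⟩],
   [⟨⟨[.inl 1, .inr 0, .inl 2], [.inl (-1), .inr 2, .inl 0, .inr 1, .inl (-2)], [-2, 0, -1], [2, 1], [], []⟩, [-1, 2, -1], [1, -2, 1]⟩]⟩

theorem P_S_13_odd_2_3_S_0_fam : P_S_13_odd_2_3_S_0.loc 2 13 = true ∧ P_S_13_odd_2_3_S_0.conn 13 = true :=
  one_fam P_S_13_odd_2_3_S_0 [0, 1] 2 13 (by decide) (by decide +kernel) (by decide +kernel)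

theorem P_S_13_odd_2_3_S_0_sh : P_S_13_odd_2_3_S_0.all (shTwo (0) 2 false) = true := by decide +kernel

theorem W_S_13_odd_2_3_S_0 (q r : ℕ) (h1 : q = 13) (h3 : (q + r) % 4 = 2) (h4 : 3 ≤ r) (h5 : r + 4 ≤ q) : Want q r := by
  subst h1
  obtain ⟨hl, hc⟩ := P_S_13_odd_2_3_S_0_fam
  have hev : decide (Even ((((13 - 1) / 2) - (r - 3) / 2) - 2)) = false := by
    simp only [Nat.even_iff, decide_eq_false_iff_not]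
    omega
  have hI := inst_two P_S_13_odd_2_3_S_0 2 13 (0) 2 (((13 - 1) / 2) - (r - 3) / 2) ((13 - 1) / 2) r 0 (by decide) (by omega) (by decide) (by omega) (by omega) (by omega) (by omega) (by decide +kernel) (by decide) (by omega) (by decide +kernel) (by rw [hev]; exact P_S_13_odd_2_3_S_0_sh) hl hc
  exact class_t _ _ (by omega) (tmod _ _ (by omega) (by omega)) hI.1 

def P_S_14_even_3_1_C_0 : Pat 1 :=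
  ⟨[⟨⟨[.inl 0, .inl 1, .inl 3], [.inl (-1), .inr 0, .inl 2, .inl (-2), .inl (-3), .inl (-4)], [3, -2, -3, 1, 2, -1], [-4, 0], [], []⟩, [-2], [3]⟩,
    ⟨⟨[.inl 0, .inr 0, .inl 2, .inl 3], [.inl (-1), .inl (-3), .inl 1, .inl (-2), .inl (-4)], [3, 2, -2, -1], [-4, 1, -3, 0], [], []⟩, [3], [1]⟩,
    ⟨⟨[.inl 0, .inl 2, .inl (-2), .inl (-3), .inl 3], [.inl (-1), .inl 1, .inr 0, .inl (-4)], [3, 1, 2, -1], [-4, -3, -2, 0], [], []⟩, [-1], [-5]⟩,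
    ⟨⟨[.inl 0, .inl (-2), .inl (-3), .inl 1, .inl 3], [.inl (-1), .inr 0, .inl 2, .inl (-4)], [3, -2, -3, -1], [-4, 2, 1, 0], [], []⟩, [-3], [4]⟩,
    ⟨⟨[.inl 0, .inl (-2), .inl 1, .inl 3], [.inl (-1), .inl 2, .inr 0, .inl (-3), .inl (-4)], [3, -3, -2, -1], [-4, 1, 2, 0], [], []⟩, [1], [-3]⟩,
    ⟨⟨[.inl 0, .inl (-3), .inl 2, .inr 0, .inl 1, .inl 3], [.inl (-1), .inl (-2), .inl (-4)], [3, 2, -2, -3, -1], [-4, 1, 0], [], []⟩, [5], [-1]⟩,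
    ⟨⟨[.inl 0, .inl (-3), .inl (-2), .inr 0, .inl 2, .inl 3], [.inl (-1), .inl 1, .inl (-4)], [3, -2, -1], [-4, -3, 1, 2, 0], [], []⟩, [1], [4]⟩,
    ⟨⟨[.inl 0, .inl 2, .inl 1, .inl 3], [.inl (-1), .inl (-2), .inr 0, .inl (-3), .inl (-4)], [3, -2, -3, 2, 1, -1], [-4, 0], [], []⟩, [-4], [-1]⟩,
    ⟨⟨[.inl 0, .inl 1, .inl 2, .inr 0, .inl 3], [.inl (-1), .inl (-3), .inl (-2), .inl (-4)], [3, -1], [-4, 2, -2, -3, 1, 0], [], []⟩, [1], [5]⟩,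
    ⟨⟨[.inl 0, .inr 0, .inl 1, .inl 2, .inl 3], [.inl (-1), .inl (-3), .inl (-2), .inl (-4)], [3, -3, -1], [-4, 1, 2, -2, 0], [], []⟩, [2], [-1]⟩,
    ⟨⟨[.inl 0, .inl 3], [.inl (-1), .inl 1, .inl 2, .inl (-2), .inr 0, .inl (-3), .inl (-4)], [3, -1], [-4, 1, 2, -3, -2, 0], [], []⟩, [-4], [-5]⟩,
    ⟨⟨[.inl 0, .inl 2, .inl 3], [.inl (-1), .inl (-3), .inl 1, .inr 0, .inl (-2), .inl (-4)], [3, -2, 2, -3, 1, -1], [-4, 0], [], []⟩, [5], [-2]⟩,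
    ⟨⟨[.inl 0, .inl 2, .inr 0, .inl 1, .inl (-2), .inl 3], [.inl (-1), .inl (-3), .inl (-4)], [3, -1], [-4, 1, 2, -2, -3, 0], [], []⟩, [1], [2]⟩,
    ⟨⟨[.inl 0, .inl 3], [.inl (-1), .inl (-2), .inr 0, .inl 1, .inl 2, .inl (-3), .inl (-4)], [3, 1, -1], [-4, -3, 2, -2, 0], [], []⟩, [-5], [-1]⟩],
   [⟨⟨[.inl 0, .inl 3], [.inl (-1), .inl (-2), .inr 0, .inl 1, .inl 2, .inl (-3), .inl (-4)], [3, 1, -1], [-4, -3, 2, -2, 0], [], []⟩, [-5], [-1]⟩]⟩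

theorem P_S_14_even_3_1_C_0_fam : P_S_14_even_3_1_C_0.loc 6 14 = true ∧ P_S_14_even_3_1_C_0.conn 14 = true :=
  one_fam P_S_14_even_3_1_C_0 [2, -2, 1, 0] 6 14 (by decide) (by decide +kernel) (by decide +kernel)

theorem P_S_14_even_3_1_C_0_sh : P_S_14_even_3_1_C_0.all (shTwo (-1) 3 true) = true := by decide +kernel

theorem W_S_14_even_3_1_C_0 (q r : ℕ) (h1 : q = 14) (h3 : (q + r) % 4 = 1) (h4 : 1 ≤ r) (h5 : r + 7 ≤ q) : Want q r := by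
  subst h1
  obtain ⟨hl, hc⟩ := P_S_14_even_3_1_C_0_fam
  have hev : decide (Even ((((14 - 2) / 2) - (r - 1) / 2) - 3)) = true := by
    simp only [Nat.even_iff, decide_eq_true_eq]
    omega
  have hI := inst_two P_S_14_even_3_1_C_0 6 14 (-1) 3 (((14 - 2) / 2) - (r - 1) / 2) ((14 - 2) / 2) r 0 (by decide) (by omega) (by decide) (by omega) (by omega) (by omega) (by omega) (by decide +kernel) (by decide) (by omega) (by decide +kernel) (by rw [hev]; exact P_S_14_even_3_1_C_0_sh) hl hc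
  exact class_t _ _ (by omega) (tmod _ _ (by omega) (by omega)) hI.1 

def P_S_11_odd_3_1_C_4_232 : Pat 1 :=
  ⟨[⟨⟨[.inl 1, .inl 2, .inr 0, .inl 3], [.inl (-1), .inl 0, .inl (-2), .inl (-3)], [3, 2, 0, -1], [-3, -2, 1], [-3], []⟩, [-1], [3]⟩,
    ⟨⟨[.inl 1, .inl 2, .inl 0, .inr 0, .inl 3], [.inl (-1), .inl (-2), .inl (-3)], [3, 2, -1], [-3, 0, -2, 1], [], []⟩, [3], [5]⟩,
    ⟨⟨[.inl 1, .inl 2, .inl 0, .inr 0, .inl (-2), .inl 3], [.inl (-1), .inl (-3)], [3, 2, -1], [-3, 0, -2, 1], [], []⟩, [3], [-3]⟩,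
    ⟨⟨[.inl 1, .inl 2, .inr 0, .inl 3], [.inl (-1), .inl (-2), .inl 0, .inl (-3)], [3, 0, 2, -1], [-3, -2, 1], [3], [0]⟩, [-3], [1]⟩,
    ⟨⟨[.inl 1, .inl 3], [.inl (-1), .inl (-2), .inl 0, .inl 2, .inr 0, .inl (-3)], [3, -2, 0, 2, -1], [-3, 1], [], []⟩, [-1], [-3]⟩,
    ⟨⟨[.inl 1, .inl 3], [.inl (-1), .inl (-2), .inl 0, .inl 2, .inr 0, .inl (-3)], [3, 2, -2, 0, -1], [-3, 1], [3], []⟩, [4], [-3]⟩,
    ⟨⟨[.inl 1, .inl 0, .inl (-2), .inr 0, .inl 2, .inl 3], [.inl (-1), .inl (-3)], [3, 2, 0, -1], [-3, -2, 1], [], []⟩, [-5], [1]⟩,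
    ⟨⟨[.inl 1, .inr 0, .inl 2, .inl 3], [.inl (-1), .inl 0, .inl (-2), .inl (-3)], [3, -1], [-3, -2, 2, 0, 1], [], []⟩, [-1], [1]⟩,
    ⟨⟨[.inl 1, .inr 0, .inl 2, .inl 0, .inl (-2), .inl 3], [.inl (-1), .inl (-3)], [3, 0, -2, -1], [-3, 2, 1], [], []⟩, [-1], [1]⟩,
    ⟨⟨[.inl 1, .inr 0, .inl (-2), .inl 3], [.inl (-1), .inl 0, .inl 2, .inl (-3)], [3, -2, 0, -1], [-3, 2, 1], [], []⟩, [-1], [-4]⟩,
    ⟨⟨[.inl 1, .inr 0, .inl 3], [.inl (-1), .inl (-2), .inl 0, .inl 2, .inl (-3)], [3, -2, -1], [-3, 0, 2, 1], [], []⟩, [3], [1]⟩],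
   [⟨⟨[.inl 1, .inr 0, .inl 3], [.inl (-1), .inl (-2), .inl 0, .inl 2, .inl (-3)], [3, -2, -1], [-3, 0, 2, 1], [], []⟩, [3], [1]⟩]⟩

theorem P_S_11_odd_3_1_C_4_232_fam : P_S_11_odd_3_1_C_4_232.loc 5 11 = true ∧ P_S_11_odd_3_1_C_4_232.conn 11 = true :=
  one_fam P_S_11_odd_3_1_C_4_232 [2, -2, 0, 3] 5 11 (by decide) (by decide +kernel) (by decide +kernel)

theorem P_S_11_odd_3_1_C_4_232_sh : P_S_11_odd_3_1_C_4_232.all (shTwo (0) 3 true) = true := by decide +kernel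

def S_S_11_odd_3_1_C_4_232_0 : SpD 1 := ⟨2, .inl 3, [(1, .inr 0), (-2, .inl 1), (1, .inl (-2))], [(0, -2), (1, -5)]⟩

theorem S_S_11_odd_3_1_C_4_232_0_fam : S_S_11_odd_3_1_C_4_232_0.chk 3 11 (P_S_11_odd_3_1_C_4_232.acc 11 S_S_11_odd_3_1_C_4_232_0.i0) = true := by decide +kernel

theorem W_S_11_odd_3_1_C_4_232 (q r : ℕ) (h1 : q = 11) (h3 : (q + r) % 4 = 0) (h4 : 1 ≤ r) (h5 : r + 6 ≤ q) : Want q r := by
  subst h1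
  obtain ⟨hl, hc⟩ := P_S_11_odd_3_1_C_4_232_fam
  have hev : decide (Even ((((11 - 1) / 2) - (r - 1) / 2) - 3)) = true := by
    simp only [Nat.even_iff, decide_eq_true_eq]
    omega
  have hI := inst_two P_S_11_odd_3_1_C_4_232 5 11 (0) 3 (((11 - 1) / 2) - (r - 1) / 2) ((11 - 1) / 2) r 4 (by decide) (by omega) (by decide) (by omega) (by omega) (by omega) (by omega) (by decide +kernel) (by decide) (by omega) (by decide +kernel) (by rw [hev]; exact P_S_11_odd_3_1_C_4_232_sh) hl hc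
  exact class_a _ _ (by omega) (by omega) (by omega) hI.1 (hI.2 S_S_11_odd_3_1_C_4_232_0 3 2 (by decide) (by show (2 : ℕ) < _; omega) S_S_11_odd_3_1_C_4_232_0_fam (blk_2_0_m2_m5 _ (by omega) (by omega)))

end Pool.Agent.Helper201_K3
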