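import Pool.Agent.Helper201_K3.TabBlocks
import Pool.Agent.Helper201_K3.Wrap2
import Pool.Agent.Helper201_K3.Tab00

set_option autoImplicit false

namespace Pool.Agent.Helper201_K3

def P_Feo2_d3_even_3_5_C_0_18_6_4 : Pat 5 :=
  ⟨[⟨⟨[.inl 0, .inr 0, .inl 3], [.inl (-1), .inr 3, .inl 2, .inl (-3), .inr 2, .inl (-2), .inr 4, .inl 1, .inr 1, .inl (-4)], [3, 2, 1, -2, -1], [-4, -3, 0], [], []⟩, [3, 3, 1, -3, -3], [1, -1, -1, 1, 1]⟩,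
    ⟨⟨[.inl 0, .inr 4, .inl 1, .inr 3, .inl 2, .inr 0, .inl (-3), .inr 1, .inl (-2), .inl 3], [.inl (-1), .inr 2, .inl (-4)], [3, 2, -1], [-4, -3, -2, 1, 0], [], []⟩, [-1, 1, 1, -1, -1], [-3, -3, -1, 3, 3]⟩,
    ⟨⟨[.inl 0, .inr 0, .inl 3], [.inl (-1), .inr 3, .inl 2, .inl (-3), .inr 2, .inl (-2), .inr 4, .inl 1, .inr 1, .inl (-4)], [3, 2, 1, -2, -1], [-4, -3, 0], [], []⟩, [3, 3, 1, -3, -3], [1, -1, -1, 1, 1]⟩,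
    ⟨⟨[.inl 0, .inr 4, .inl 1, .inr 3, .inl 2, .inr 0, .inl (-3), .inr 1, .inl (-2), .inl 3], [.inl (-1), .inr 2, .inl (-4)], [3, 2, -1], [-4, -3, -2, 1, 0], [], []⟩, [-1, 1, 1, -1, -1], [-3, -3, -1, 3, 3]⟩,
    ⟨⟨[.inl 0, .inr 0, .inl 3], [.inl (-1), .inr 3, .inl 2, .inl (-3), .inr 2, .inl (-2), .inr 4, .inl 1, .inr 1, .inl (-4)], [3, 2, 1, -2, -1], [-4, -3, 0], [], []⟩, [3, 3, 1, -3, -3], [1, -1, -1, 1, 1]⟩,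
    ⟨⟨[.inl 0, .inr 4, .inl 1, .inr 3, .inl 2, .inr 0, .inl (-3), .inr 1, .inl (-2), .inl 3], [.inl (-1), .inr 2, .inl (-4)], [3, 2, -1], [-4, -3, -2, 1, 0], [], []⟩, [-1, 1, 1, -1, -1], [-3, -3, -1, 3, 3]⟩],
   [⟨⟨[.inl 0, .inr 0, .inl 3], [.inl (-1), .inr 3, .inl 2, .inl (-3), .inr 2, .inl (-2), .inr 4, .inl 1, .inr 1, .inl (-4)], [3, 2, 1, -2, -1], [-4, -3, 0], [], []⟩, [3, 3, 1, -3, -3], [1, -1, -1, 1, 1]⟩,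
    ⟨⟨[.inl 0, .inr 4, .inl 1, .inr 3, .inl 2, .inr 0, .inl (-3), .inr 1, .inl (-2), .inl 3], [.inl (-1), .inr 2, .inl (-4)], [3, 2, -1], [-4, -3, -2, 1, 0], [], []⟩, [-1, 1, 1, -1, -1], [-3, -3, -1, 3, 3]⟩,
    ⟨⟨[.inl 0, .inr 0, .inl 3], [.inl (-1), .inr 3, .inl 2, .inl (-3), .inr 2, .inl (-2), .inr 4, .inl 1, .inr 1, .inl (-4)], [3, 2, 1, -2, -1], [-4, -3, 0], [], []⟩, [3, 3, 1, -3, -3], [1, -1, -1, 1, 1]⟩,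
    ⟨⟨[.inl 0, .inr 4, .inl 1, .inr 3, .inl 2, .inr 0, .inl (-3), .inr 1, .inl (-2), .inl 3], [.inl (-1), .inr 2, .inl (-4)], [3, 2, -1], [-4, -3, -2, 1, 0], [], []⟩, [-1, 1, 1, -1, -1], [-3, -3, -1, 3, 3]⟩]⟩

theorem P_Feo2_d3_even_3_5_C_0_18_6_4_l0 : P_Feo2_d3_even_3_5_C_0_18_6_4.locC [1, -3, -1, 2] 5 (18 + 0 * 4) = true := by decide +kernel

theorem P_Feo2_d3_even_3_5_C_0_18_6_4_l1 : P_Feo2_d3_even_3_5_C_0_18_6_4.locC [1, -3, -1, 2] 5 (18 + 1 * 4) = true := by decide +kernel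

theorem P_Feo2_d3_even_3_5_C_0_18_6_4_fam : ∀ t : ℕ, P_Feo2_d3_even_3_5_C_0_18_6_4.loc 5 (18 + t * 4) = true ∧ P_Feo2_d3_even_3_5_C_0_18_6_4.conn (18 + t * 4) = true :=
  fam_ext2 P_Feo2_d3_even_3_5_C_0_18_6_4 [1, -3, -1, 2] 5 18 1 4 4 (by decide) (by decide) (by decide) (by decide) (by decide) (by decide +kernel) (by decide)
    (by
      intro t ht
      interval_cases t
      · exact P_Feo2_d3_even_3_5_C_0_18_6_4_l0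
      · exact P_Feo2_d3_even_3_5_C_0_18_6_4_l1)
    (by decide +kernel)

theorem P_Feo2_d3_even_3_5_C_0_18_6_4_sh : P_Feo2_d3_even_3_5_C_0_18_6_4.all (shTwo (-1) 3 true) = true := by decide +kernel

theorem W_Feo2_d3_even_3_5_C_0_18_6_4 (q r : ℕ) (h1 : 18 ≤ q) (h2 : q % 4 = 2) (h3 : (q + r) % 4 = 1) (h4 : 5 ≤ r) (h5 : r + 3 ≤ q) : Want q r := by
  obtain ⟨t, rfl⟩ : ∃ t : ℕ, q = 18 + t * 4 := ⟨(q - 18) / 4, by omega⟩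
  obtain ⟨hl, hc⟩ := P_Feo2_d3_even_3_5_C_0_18_6_4_fam t
  have hev : decide (Even (((((18 + t * 4) - 2) / 2) - (r - 5) / 2) - 3)) = true := by
    simp only [Nat.even_iff, decide_eq_true_eq]
    omega
  have hI := inst_two P_Feo2_d3_even_3_5_C_0_18_6_4 5 (18 + t * 4) (-1) 3 ((((18 + t * 4) - 2) / 2) - (r - 5) / 2) (((18 + t * 4) - 2) / 2) r 0 (by decide) (by omega) (by decide) (by omega) (by omega) (by omega) (by omega) (by decide +kernel) (by decide) (by omega) (by decide +kernel) (by rw [hev]; exact P_Feo2_d3_even_3_5_C_0_18_6_4_sh) hl hc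
  exact class_t _ _ (by omega) (tmod _ _ (by omega) (by omega)) hI.1 

def P_S_19_run_7_2_S_3_351 : Pat 2 :=
  ⟨[⟨⟨[.inl 0, .inl 2, .inl 5, .inl 1, .inl 4, .inl 3, .inr 0, .inl 6, .inr 1, .inl 7], [], [7, 1, 3, 5, 4, 6, 2, 0], [], [], []⟩, [-2, -1], [3, 6]⟩,
    ⟨⟨[.inl 0, .inl 2, .inr 1, .inl 4, .inl 1, .inr 0, .inl 6, .inl 3, .inl 5, .inl 7], [], [7, 6, 4, 5, 2, 1, 3, 0], [], [], []⟩, [-6, 1], [4, 2]⟩,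
    ⟨⟨[.inl 0, .inr 1, .inl 1, .inl 3, .inl 6, .inl 5, .inl 4, .inl 2, .inr 0, .inl 7], [], [7, 1, 2, 4, 3, 5, 6, 0], [], [], []⟩, [-5, -6], [6, -1]⟩,
    ⟨⟨[.inl 0, .inl 1, .inl 4, .inl 6, .inl 3, .inr 0, .inl 5, .inl 2, .inr 1, .inl 7], [], [7, 6, 4, 1, 2, 5, 3, 0], [], [], []⟩, [-3, -2], [3, 6]⟩,
    ⟨⟨[.inl 0, .inr 1, .inl 6, .inl 3, .inl 2, .inl 5, .inl 4, .inl 1, .inr 0, .inl 7], [], [7, 2, 3, 1, 4, 5, 6, 0], [], [], []⟩, [-5, -6], [6, 6]⟩,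
    ⟨⟨[.inl 0, .inl 3, .inl 1, .inl 2, .inr 0, .inl 5, .inl 4, .inl 6, .inr 1, .inl 7], [], [7, 5, 4, 2, 3, 6, 1, 0], [], [], []⟩, [-4, 4], [2, 2]⟩,
    ⟨⟨[.inl 0, .inl 1, .inl 4, .inl 5, .inl 3, .inr 1, .inl 2, .inr 0, .inl 6, .inl 7], [], [7, 6, 3, 2, 1, 5, 4, 0], [], [], [1]⟩, [-3, -6], [6, 2]⟩,
    ⟨⟨[.inl 0, .inl 1, .inl 2, .inl 3, .inr 0, .inl 6, .inl 4, .inl 5, .inr 1, .inl 7], [], [7, 4, 6, 2, 3, 1, 5, 0], [], [7], []⟩, [-2, -2], [4, 5]⟩,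
    ⟨⟨[.inl 0, .inr 1, .inl 5, .inl 6, .inl 4, .inl 3, .inl 2, .inl 1, .inr 0, .inl 7], [], [7, 3, 4, 1, 6, 5, 2, 0], [], [], []⟩, [-6, -2], [1, 5]⟩,
    ⟨⟨[.inl 0, .inl 1, .inr 1, .inl 2, .inl 4, .inl 3, .inl 5, .inl 6, .inr 0, .inl 7], [], [7, 1, 2, 5, 6, 3, 4, 0], [], [6], []⟩, [-1, -6], [6, -4]⟩,
    ⟨⟨[.inl 0, .inr 1, .inl 5, .inl 2, .inl 1, .inr 0, .inl 4, .inl 3, .inl 6, .inl 7], [], [7, 1, 5, 3, 2, 4, 6, 0], [], [], []⟩, [-6, -6], [3, 4]⟩,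
    ⟨⟨[.inl 0, .inl 1, .inl 4, .inl 3, .inl 2, .inr 0, .inl 6, .inl 5, .inr 1, .inl 7], [], [7, 1, 4, 2, 6, 5, 3, 0], [], [], []⟩, [-4, 2], [5, 6]⟩,
    ⟨⟨[.inl 0, .inr 0, .inl 6, .inl 5, .inl 3, .inl 4, .inl 1, .inl 2, .inr 1, .inl 7], [], [7, 5, 2, 1, 4, 3, 6, 0], [], [], []⟩, [-6, -5], [2, 6]⟩,
    ⟨⟨[.inl 0, .inr 1, .inl 3, .inl 2, .inl 4, .inl 1, .inr 0, .inl 6, .inl 5, .inl 7], [], [7, 4, 6, 2, 1, 3, 5, 0], [], [], []⟩, [-3, -5], [4, -2]⟩,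
    ⟨⟨[.inl 0, .inl 3, .inl 5, .inl 2, .inl 1, .inr 1, .inl 6, .inl 4, .inr 0, .inl 7], [], [7, 2, 3, 5, 6, 4, 1, 0], [], [], []⟩, [-2, -4], [6, 2]⟩,
    ⟨⟨[.inl 0, .inl 1, .inr 0, .inl 5, .inl 3, .inl 4, .inl 2, .inr 1, .inl 6, .inl 7], [], [7, 6, 4, 5, 1, 3, 2, 0], [], [], []⟩, [-6, 1], [3, 6]⟩,
    ⟨⟨[.inl 0, .inl 3, .inl 6, .inl 5, .inl 2, .inl 4, .inr 1, .inl 1, .inr 0, .inl 7], [], [7, 1, 3, 5, 6, 4, 2, 0], [], [], []⟩, [-5, -2], [5, -1]⟩,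
    ⟨⟨[.inl 0, .inl 1, .inr 1, .inl 6, .inl 4, .inl 2, .inr 0, .inl 5, .inl 3, .inl 7], [], [7, 6, 1, 2, 3, 4, 5, 0], [], [], []⟩, [-4, -6], [2, 6]⟩,
    ⟨⟨[.inl 0, .inl 3, .inl 5, .inl 2, .inr 0, .inl 6, .inl 4, .inl 1, .inr 1, .inl 7], [], [7, 1, 6, 4, 5, 3, 2, 0], [], [], []⟩, [-3, -6], [5, 1]⟩],
   [⟨⟨[.inl 0, .inl 3, .inl 5, .inl 2, .inr 0, .inl 6, .inl 4, .inl 1, .inr 1, .inl 7], [], [7, 1, 6, 4, 5, 3, 2, 0], [], [], []⟩, [-3, -6], [5, 1]⟩]⟩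

theorem P_S_19_run_7_2_S_3_351_fam : P_S_19_run_7_2_S_3_351.loc 7 19 = true ∧ P_S_19_run_7_2_S_3_351.conn 19 = true :=
  one_fam P_S_19_run_7_2_S_3_351 [6, 1, 5, 2, 3, 7] 7 19 (by decide) (by decide +kernel) (by decide +kernel)

theorem P_S_19_run_7_2_S_3_351_sh : P_S_19_run_7_2_S_3_351.all (shOne 7) = true := by decide +kernel

def S_S_19_run_7_2_S_3_351_0 : SpD 2 := ⟨3, .inl 6, [(3, .inr 1), (-3, .inl 4)], [(0, 5)]⟩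

theorem S_S_19_run_7_2_S_3_351_0_fam : S_S_19_run_7_2_S_3_351_0.chk 6 19 (P_S_19_run_7_2_S_3_351.acc 19 S_S_19_run_7_2_S_3_351_0.i0) = true := by decide +kernel

theorem W_S_19_run_7_2_S_3_351 (q r : ℕ) (h1 : q = 19) (h5 : r + 5 = q) : Want q r := by
  subst h1
  obtain ⟨hl, hc⟩ := P_S_19_run_7_2_S_3_351_fam
  have hI := inst_one P_S_19_run_7_2_S_3_351 7 19 7 r 3 (by omega) (by omega) (by omega) (by decide +kernel) (by decide) (by omega) (by decide +kernel) P_S_19_run_7_2_S_3_351_sh hl hc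
  exact class_g _ _ (by omega) (by omega) (by omega) hI.1 (hI.2 S_S_19_run_7_2_S_3_351_0 6 4 (by decide) (by show (3 : ℕ) < _; omega) S_S_19_run_7_2_S_3_351_0_fam (blk_4_1_5 _ (by omega) (by omega)))

def P_S_11_run_5_4_S_3_251 : Pat 4 :=
  ⟨[⟨⟨[.inl 0, .inl 1, .inr 1, .inl 3, .inr 0, .inl 4, .inr 2, .inl 2, .inr 3, .inl 5], [], [5, 2, 4, 1, 3, 0], [], [], []⟩, [-1, -1, -1, 1], [3, 2, 2, 3]⟩,
    ⟨⟨[.inl 0, .inr 2, .inl 2, .inr 3, .inl 1, .inr 0, .inl 4, .inl 3, .inr 1, .inl 5], [], [5, 2, 1, 4, 3, 0], [], [], []⟩, [-3, 1, -3, -3], [1, 2, -2, -1]⟩,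
    ⟨⟨[.inl 0, .inr 2, .inl 3, .inr 0, .inl 4, .inl 1, .inr 1, .inl 2, .inr 3, .inl 5], [], [5, 3, 4, 1, 2, 0], [], [], []⟩, [-1, -2, -2, 1], [3, -1, 3, 2]⟩,
    ⟨⟨[.inl 0, .inr 1, .inl 2, .inr 3, .inl 1, .inr 0, .inl 4, .inr 2, .inl 3, .inl 5], [], [5, 2, 4, 3, 1, 0], [], [1], [1]⟩, [-3, -2, 2, -3], [3, 1, 1, -1]⟩,
    ⟨⟨[.inl 0, .inl 1, .inr 1, .inl 3, .inr 3, .inl 2, .inr 2, .inl 4, .inr 0, .inl 5], [], [5, 4, 1, 2, 3, 0], [], [], []⟩, [2, -1, -1, -2], [4, 1, 4, 2]⟩,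
    ⟨⟨[.inl 0, .inr 2, .inl 2, .inr 1, .inl 4, .inr 3, .inl 3, .inl 1, .inr 0, .inl 5], [], [5, 2, 1, 4, 3, 0], [], [], []⟩, [-3, -1, -3, 1], [2, 4, -2, 2]⟩,
    ⟨⟨[.inl 0, .inr 3, .inl 3, .inl 1, .inr 0, .inl 2, .inr 1, .inl 4, .inr 2, .inl 5], [], [5, 4, 1, 3, 2, 0], [], [5], []⟩, [-3, 1, 1, -2], [-2, 2, 3, -1]⟩,
    ⟨⟨[.inl 0, .inl 2, .inr 2, .inl 3, .inr 0, .inl 4, .inr 1, .inl 1, .inr 3, .inl 5], [], [5, 3, 2, 4, 1, 0], [], [], []⟩, [-2, 2, 1, -2], [3, -1, -1, 3]⟩,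
    ⟨⟨[.inl 0, .inr 2, .inl 1, .inr 0, .inl 4, .inl 3, .inr 3, .inl 2, .inr 1, .inl 5], [], [5, 3, 1, 2, 4, 0], [], [], []⟩, [-4, -2, -4, 2], [1, 2, -1, 1]⟩,
    ⟨⟨[.inl 0, .inr 1, .inl 2, .inr 2, .inl 3, .inr 0, .inl 4, .inl 1, .inr 3, .inl 5], [], [5, 1, 2, 3, 4, 0], [], [], []⟩, [-1, -4, -3, -1], [3, -2, 3, 3]⟩,
    ⟨⟨[.inl 0, .inl 3, .inr 1, .inl 2, .inr 3, .inl 1, .inr 0, .inl 4, .inr 2, .inl 5], [], [5, 3, 4, 2, 1, 0], [], [], []⟩, [-3, -2, 2, -3], [1, 1, 1, -2]⟩],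
   [⟨⟨[.inl 0, .inl 3, .inr 1, .inl 2, .inr 3, .inl 1, .inr 0, .inl 4, .inr 2, .inl 5], [], [5, 3, 4, 2, 1, 0], [], [], []⟩, [-3, -2, 2, -3], [1, 1, 1, -2]⟩]⟩

theorem P_S_11_run_5_4_S_3_251_fam : P_S_11_run_5_4_S_3_251.loc 5 11 = true ∧ P_S_11_run_5_4_S_3_251.conn 11 = true :=
  one_fam P_S_11_run_5_4_S_3_251 [2, 3, 4, 5] 5 11 (by decide) (by decide +kernel) (by decide +kernel)

theorem P_S_11_run_5_4_S_3_251_sh : P_S_11_run_5_4_S_3_251.all (shOne 5) = true := by decide +kernel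

def S_S_11_run_5_4_S_3_251_0 : SpD 4 := ⟨2, .inl 1, [(1, .inr 1), (-1, .inl 4)], [(0, 1)]⟩

theorem S_S_11_run_5_4_S_3_251_0_fam : S_S_11_run_5_4_S_3_251_0.chk 4 11 (P_S_11_run_5_4_S_3_251.acc 11 S_S_11_run_5_4_S_3_251_0.i0) = true := by decide +kernel

theorem W_S_11_run_5_4_S_3_251 (q r : ℕ) (h1 : q = 11) (h5 : r + 1 = q) : Want q r := by
  subst h1
  obtain ⟨hl, hc⟩ := P_S_11_run_5_4_S_3_251_fam
  have hI := inst_one P_S_11_run_5_4_S_3_251 5 11 5 r 3 (by omega) (by omega) (by omega) (by decide +kernel) (by decide) (by omega) (by decide +kernel) P_S_11_run_5_4_S_3_251_sh hl hc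
  exact class_g _ _ (by omega) (by omega) (by omega) hI.1 (hI.2 S_S_11_run_5_4_S_3_251_0 4 4 (by decide) (by show (2 : ℕ) < _; omega) S_S_11_run_5_4_S_3_251_0_fam (blk_4_1_1 _ (by omega) (by omega)))

def P_S_13_odd_3_2_C_5_233 : Pat 2 :=
  ⟨[⟨⟨[.inl 1, .inl 2, .inr 1, .inl 0, .inl (-2), .inr 0, .inl 3], [.inl (-1), .inl (-3)], [3, 0, -1], [-3, 2, -2, 1], [-3], []⟩, [-4, -1], [3, 1]⟩,
    ⟨⟨[.inl 1, .inl 2, .inl 0, .inr 0, .inl 3], [.inl (-1), .inr 1, .inl (-2), .inl (-3)], [3, 0, -2, 2, -1], [-3, 1], [2], []⟩, [-3, -1], [3, -4]⟩,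
    ⟨⟨[.inl 1, .inl 2, .inr 1, .inl 3], [.inl (-1), .inl 0, .inr 0, .inl (-2), .inl (-3)], [3, 2, -2, 0, -1], [-3, 1], [0], []⟩, [2, 2], [-3, 1]⟩,
    ⟨⟨[.inl 1, .inl 2, .inr 1, .inl (-2), .inl 0, .inr 0, .inl 3], [.inl (-1), .inl (-3)], [3, 0, 2, -2, -1], [-3, 1], [], []⟩, [-3, -1], [3, -4]⟩,
    ⟨⟨[.inl 1, .inl 2, .inl 3], [.inl (-1), .inr 1, .inl 0, .inr 0, .inl (-2), .inl (-3)], [3, 0, 2, -2, -1], [-3, 1], [], []⟩, [-3, 1], [-2, -2]⟩,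
    ⟨⟨[.inl 1, .inl 3], [.inl (-1), .inl 0, .inr 0, .inl 2, .inr 1, .inl (-2), .inl (-3)], [3, 2, -2, 0, -1], [-3, 1], [], []⟩, [2, 4], [3, -1]⟩,
    ⟨⟨[.inl 1, .inl 2, .inr 1, .inl 0, .inr 0, .inl 3], [.inl (-1), .inl (-2), .inl (-3)], [3, 0, -1], [-3, 2, -2, 1], [], []⟩, [-3, 5], [1, 1]⟩,
    ⟨⟨[.inl 1, .inl 0, .inl 3], [.inl (-1), .inr 1, .inl 2, .inr 0, .inl (-2), .inl (-3)], [3, -2, 2, -1], [-3, 0, 1], [], []⟩, [-1, -1], [-2, 2]⟩,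
    ⟨⟨[.inl 1, .inl 2, .inr 1, .inl 3], [.inl (-1), .inr 0, .inl 0, .inl (-2), .inl (-3)], [3, 0, -2, -1], [-3, 2, 1], [], []⟩, [-3, 2], [2, 3]⟩,
    ⟨⟨[.inl 1, .inr 0, .inl 2, .inl 3], [.inl (-1), .inl 0, .inr 1, .inl (-2), .inl (-3)], [3, 2, 0, -1], [-3, -2, 1], [], []⟩, [3, -2], [4, -4]⟩,
    ⟨⟨[.inl 1, .inl 3], [.inl (-1), .inl (-2), .inr 0, .inl 2, .inr 1, .inl 0, .inl (-3)], [3, 0, 2, -1], [-3, -2, 1], [], []⟩, [-2, 4], [1, -2]⟩,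
    ⟨⟨[.inl 1, .inl 2, .inr 0, .inl 3], [.inl (-1), .inl (-2), .inl 0, .inr 1, .inl (-3)], [3, 0, -1], [-3, 2, -2, 1], [], [0]⟩, [-1, -3], [3, -5]⟩,
    ⟨⟨[.inl 1, .inr 0, .inl (-2), .inl 0, .inl 2, .inr 1, .inl 3], [.inl (-1), .inl (-3)], [3, -2, 2, 0, -1], [-3, 1], [2], []⟩, [3, 4], [-3, 1]⟩],
   [⟨⟨[.inl 1, .inr 0, .inl (-2), .inl 0, .inl 2, .inr 1, .inl 3], [.inl (-1), .inl (-3)], [3, -2, 2, 0, -1], [-3, 1], [], []⟩, [3, 4], [-3, 1]⟩]⟩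

theorem P_S_13_odd_3_2_C_5_233_fam : P_S_13_odd_3_2_C_5_233.loc 5 13 = true ∧ P_S_13_odd_3_2_C_5_233.conn 13 = true :=
  one_fam P_S_13_odd_3_2_C_5_233 [2, 0, -2] 5 13 (by decide) (by decide +kernel) (by decide +kernel)

theorem P_S_13_odd_3_2_C_5_233_sh : P_S_13_odd_3_2_C_5_233.all (shTwo (0) 3 true) = true := by decide +kernel

def S_S_13_odd_3_2_C_5_233_0 : SpD 2 := ⟨2, .inl 0, [(1, .inl (-2)), (-4, .inr 0), (-5, .inl (-3)), (-3, .inl (-1))], [(0, 2), (1, 1), (2, 3)]⟩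

theorem S_S_13_odd_3_2_C_5_233_0_fam : S_S_13_odd_3_2_C_5_233_0.chk 5 13 (P_S_13_odd_3_2_C_5_233.acc 13 S_S_13_odd_3_2_C_5_233_0.i0) = true := by decide +kernel

theorem W_S_13_odd_3_2_C_5_233 (q r : ℕ) (h1 : q = 13) (h3 : (q + r) % 4 = 1) (h4 : 2 ≤ r) (h5 : r + 5 ≤ q) : Want q r := by
  subst h1
  obtain ⟨hl, hc⟩ := P_S_13_odd_3_2_C_5_233_fam
  have hev : decide (Even ((((13 - 1) / 2) - (r - 2) / 2) - 3)) = true := by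
    simp only [Nat.even_iff, decide_eq_true_eq]
    omega
  have hI := inst_two P_S_13_odd_3_2_C_5_233 5 13 (0) 3 (((13 - 1) / 2) - (r - 2) / 2) ((13 - 1) / 2) r 5 (by decide) (by omega) (by decide) (by omega) (by omega) (by omega) (by omega) (by decide +kernel) (by decide) (by omega) (by decide +kernel) (by rw [hev]; exact P_S_13_odd_3_2_C_5_233_sh) hl hc
  exact class_c _ _ (by omega) (by omega) (by omega) hI.1 (hI.2 S_S_13_odd_3_2_C_5_233_0 5 2 (by decide) (by show (2 : ℕ) < _; omega) S_S_13_odd_3_2_C_5_233_0_fam (blk_2_1_2_1_3 _ (by omega) (by omega)))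

def P_S_12_even_3_1_C_4_242 : Pat 1 :=
  ⟨[⟨⟨[.inl 0, .inl 3], [.inl (-1), .inr 0, .inl (-3), .inl (-2), .inl 1, .inl 2, .inl (-4)], [3, -3, 1, 2, -2, -1], [-4, 0], [], []⟩, [1], [-1]⟩,
    ⟨⟨[.inl 0, .inl 3], [.inl (-1), .inl 2, .inl 1, .inr 0, .inl (-2), .inl (-3), .inl (-4)], [3, 2, -2, -3, 1, -1], [-4, 0], [], []⟩, [5], [-1]⟩,
    ⟨⟨[.inl 0, .inl 2, .inl 1, .inl (-2), .inl (-3), .inr 0, .inl 3], [.inl (-1), .inl (-4)], [3, 2, -2, -3, -1], [-4, 1, 0], [1], []⟩, [-5], [5]⟩,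
    ⟨⟨[.inl 0, .inl 3], [.inl (-1), .inl 2, .inl 1, .inr 0, .inl (-2), .inl (-3), .inl (-4)], [3, -1], [-4, 2, 1, -3, -2, 0], [-4], [0]⟩, [4], [1]⟩,
    ⟨⟨[.inl 0, .inl 1, .inl 2, .inl (-2), .inl (-3), .inr 0, .inl 3], [.inl (-1), .inl (-4)], [3, -1], [-4, -3, -2, 2, 1, 0], [2], []⟩, [-1], [1]⟩,
    ⟨⟨[.inl 0, .inl (-3), .inl 1, .inl (-2), .inl 2, .inr 0, .inl 3], [.inl (-1), .inl (-4)], [3, -2, -3, -1], [-4, 1, 2, 0], [], []⟩, [-1], [1]⟩,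
    ⟨⟨[.inl 0, .inl 3], [.inl (-1), .inl 1, .inl (-3), .inl (-2), .inl 2, .inr 0, .inl (-4)], [3, 1, 2, -3, -1], [-4, -2, 0], [], []⟩, [-1], [-5]⟩,
    ⟨⟨[.inl 0, .inl 2, .inl 3], [.inl (-1), .inl 1, .inl (-3), .inl (-2), .inr 0, .inl (-4)], [3, 2, 1, -1], [-4, -3, -2, 0], [], []⟩, [-5], [-4]⟩,
    ⟨⟨[.inl 0, .inl 1, .inl (-2), .inr 0, .inl 2, .inl 3], [.inl (-1), .inl (-3), .inl (-4)], [3, 2, 1, -1], [-4, -3, -2, 0], [], []⟩, [2], [1]⟩,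
    ⟨⟨[.inl 0, .inl (-2), .inl 1, .inr 0, .inl 2, .inl 3], [.inl (-1), .inl (-3), .inl (-4)], [3, 1, -1], [-4, -3, -2, 2, 0], [], []⟩, [-1], [5]⟩,
    ⟨⟨[.inl 0, .inl (-3), .inl 3], [.inl (-1), .inl (-2), .inl 1, .inl 2, .inr 0, .inl (-4)], [3, -1], [-4, -2, -3, 2, 1, 0], [], []⟩, [1], [-2]⟩,
    ⟨⟨[.inl 0, .inl (-3), .inl 3], [.inl (-1), .inl (-2), .inr 0, .inl 1, .inl 2, .inl (-4)], [3, -2, -1], [-4, 2, -3, 1, 0], [], []⟩, [1], [-1]⟩],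
   [⟨⟨[.inl 0, .inl (-3), .inl 3], [.inl (-1), .inl (-2), .inr 0, .inl 1, .inl 2, .inl (-4)], [3, -2, -1], [-4, 2, -3, 1, 0], [], []⟩, [1], [-1]⟩]⟩

theorem P_S_12_even_3_1_C_4_242_fam : P_S_12_even_3_1_C_4_242.loc 6 12 = true ∧ P_S_12_even_3_1_C_4_242.conn 12 = true :=
  one_fam P_S_12_even_3_1_C_4_242 [2, -2, 1, -4] 6 12 (by decide) (by decide +kernel) (by decide +kernel)

theorem P_S_12_even_3_1_C_4_242_sh : P_S_12_even_3_1_C_4_242.all (shTwo (-1) 3 true) = true := by decide +kernel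

def S_S_12_even_3_1_C_4_242_0 : SpD 1 := ⟨2, .inl 2, [(1, .inr 0), (5, .inl 1), (-1, .inl 0)], [(0, 4), (1, 1)]⟩

theorem S_S_12_even_3_1_C_4_242_0_fam : S_S_12_even_3_1_C_4_242_0.chk 5 12 (P_S_12_even_3_1_C_4_242.acc 12 S_S_12_even_3_1_C_4_242_0.i0) = true := by decide +kernel

theorem W_S_12_even_3_1_C_4_242 (q r : ℕ) (h1 : q = 12) (h3 : (q + r) % 4 = 1) (h4 : 1 ≤ r) (h5 : r + 7 ≤ q) : Want q r := by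
  subst h1
  obtain ⟨hl, hc⟩ := P_S_12_even_3_1_C_4_242_fam
  have hev : decide (Even ((((12 - 2) / 2) - (r - 1) / 2) - 3)) = true := by
    simp only [Nat.even_iff, decide_eq_true_eq]
    omega
  have hI := inst_two P_S_12_even_3_1_C_4_242 6 12 (-1) 3 (((12 - 2) / 2) - (r - 1) / 2) ((12 - 2) / 2) r 4 (by decide) (by omega) (by decide) (by omega) (by omega) (by omega) (by omega) (by decide +kernel) (by decide) (by omega) (by decide +kernel) (by rw [hev]; exact P_S_12_even_3_1_C_4_242_sh) hl hc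
  exact class_e _ _ (by omega) (by omega) (by omega) hI.1 (hI.2 S_S_12_even_3_1_C_4_242_0 5 3 (by decide) (by show (2 : ℕ) < _; omega) S_S_12_even_3_1_C_4_242_0_fam (blk_3_1_4_1 _ (by omega) (by omega)))

def P_S_9_odd_4_0_C_5_233 : Pat 0 :=
  ⟨[⟨⟨[.inl 1, .inl 3, .inl 2, .inl 4], [.inl (-1), .inl 0, .inl (-3), .inl (-2), .inl (-4)], [4, 2, 3, 0, -1], [-4, -2, -3, 1], [-4], []⟩, [], []⟩,
    ⟨⟨[.inl 1, .inl 2, .inl 0, .inl 3, .inl 4], [.inl (-1), .inl (-2), .inl (-3), .inl (-4)], [4, 2, -2, 3, -1], [-4, -3, 0, 1], [], []⟩, [], []⟩,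
    ⟨⟨[.inl 1, .inl (-2), .inl 3, .inl 2, .inl 0, .inl (-3), .inl 4], [.inl (-1), .inl (-4)], [4, -1], [-4, 3, 0, 2, -2, -3, 1], [2], []⟩, [], []⟩,
    ⟨⟨[.inl 1, .inl 2, .inl 4], [.inl (-1), .inl (-2), .inl (-3), .inl 0, .inl 3, .inl (-4)], [4, -3, 3, 2, -2, -1], [-4, 0, 1], [-3], []⟩, [], []⟩,
    ⟨⟨[.inl 1, .inl 2, .inl 3, .inl 4], [.inl (-1), .inl 0, .inl (-3), .inl (-2), .inl (-4)], [4, 2, 3, 0, -1], [-4, -2, -3, 1], [-4], []⟩, [], []⟩,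
    ⟨⟨[.inl 1, .inl 0, .inl 3, .inl 2, .inl 4], [.inl (-1), .inl (-2), .inl (-3), .inl (-4)], [4, 3, -3, -1], [-4, 2, -2, 0, 1], [3], []⟩, [], []⟩,
    ⟨⟨[.inl 1, .inl 2, .inl 4], [.inl (-1), .inl 0, .inl 3, .inl (-2), .inl (-3), .inl (-4)], [4, 3, -1], [-4, -3, 0, -2, 2, 1], [], []⟩, [], []⟩,
    ⟨⟨[.inl 1, .inl (-2), .inl (-3), .inl 2, .inl 0, .inl 3, .inl 4], [.inl (-1), .inl (-4)], [4, -2, -3, 3, -1], [-4, 0, 2, 1], [], []⟩, [], []⟩,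
    ⟨⟨[.inl 1, .inl 2, .inl 0, .inl 3, .inl 4], [.inl (-1), .inl (-2), .inl (-3), .inl (-4)], [4, -2, -1], [-4, -3, 0, 2, 3, 1], [], []⟩, [], []⟩],
   [⟨⟨[.inl 1, .inl 2, .inl 0, .inl 3, .inl 4], [.inl (-1), .inl (-2), .inl (-3), .inl (-4)], [4, -2, -1], [-4, -3, 0, 2, 3, 1], [], []⟩, [], []⟩]⟩

theorem P_S_9_odd_4_0_C_5_233_fam : P_S_9_odd_4_0_C_5_233.loc 7 9 = true ∧ P_S_9_odd_4_0_C_5_233.conn 9 = true :=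
  one_fam P_S_9_odd_4_0_C_5_233 [] 7 9 (by decide) (by decide +kernel) (by decide +kernel)

theorem P_S_9_odd_4_0_C_5_233_sh : P_S_9_odd_4_0_C_5_233.all (shTwo (0) 4 true) = true := by decide +kernel

def S_S_9_odd_4_0_C_5_233_0 : SpD 0 := ⟨2, .inl 3, [(6, .inl 2), (4, .inl 1), (-2, .inl 0), (2, .inl (-2))], [(0, 1), (1, -2), (2, 2)]⟩

theorem S_S_9_odd_4_0_C_5_233_0_fam : S_S_9_odd_4_0_C_5_233_0.chk 6 9 (P_S_9_odd_4_0_C_5_233.acc 9 S_S_9_odd_4_0_C_5_233_0.i0) = true := by decide +kernel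

theorem W_S_9_odd_4_0_C_5_233 (q r : ℕ) (h1 : q = 9) (h3 : (q + r) % 4 = 1) (h4 : 0 ≤ r) (h5 : r + 9 ≤ q) : Want q r := by
  subst h1
  obtain ⟨hl, hc⟩ := P_S_9_odd_4_0_C_5_233_fam
  have hev : decide (Even ((((9 - 1) / 2) - (r - 0) / 2) - 4)) = true := by
    simp only [Nat.even_iff, decide_eq_true_eq]
    omega
  have hI := inst_two P_S_9_odd_4_0_C_5_233 7 9 (0) 4 (((9 - 1) / 2) - (r - 0) / 2) ((9 - 1) / 2) r 5 (by decide) (by omega) (by decide) (by omega) (by omega) (by omega) (by omega) (by decide +kernel) (by decide) (by omega) (by decide +kernel) (by rw [hev]; exact P_S_9_odd_4_0_C_5_233_sh) hl hc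
  exact class_c _ _ (by omega) (by omega) (by omega) hI.1 (hI.2 S_S_9_odd_4_0_C_5_233_0 6 2 (by decide) (by show (2 : ℕ) < _; omega) S_S_9_odd_4_0_C_5_233_0_fam (blk_2_1_1_m2_2 _ (by omega) (by omega)))

end Pool.Agent.Helper201_K3
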