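import Pool.Agent.Helper201_K3.TabBlocks
import Pool.Agent.Helper201_K3.Wrap2
import Pool.Agent.Helper201_K3.Tab02

set_option autoImplicit false

namespace Pool.Agent.Helper201_K3

def P_Feo2_C_even_3_1_C_0_22_14_4 : Pat 1 :=
  ⟨[⟨⟨[.inl 0, .inl (-2), .inl (-3), .inr 0, .inl 2, .inl 1, .inl 3], [.inl (-1), .inl (-4)], [3, -1], [-4, -2, -3, 2, 1, 0], [], []⟩, [-1], [2]⟩,
    ⟨⟨[.inl 0, .inl 1, .inl 3], [.inl (-1), .inl (-3), .inl 2, .inr 0, .inl (-2), .inl (-4)], [3, -2, -3, 2, -1], [-4, 1, 0], [], []⟩, [5], [-4]⟩,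
    ⟨⟨[.inl 0, .inr 0, .inl 2, .inl 3], [.inl (-1), .inl (-3), .inl (-2), .inl 1, .inl (-4)], [3, -2, -1], [-4, -3, 1, 2, 0], [], []⟩, [-2], [4]⟩,
    ⟨⟨[.inl 0, .inl 3], [.inl (-1), .inl 1, .inl 2, .inr 0, .inl (-2), .inl (-3), .inl (-4)], [3, -2, -3, 2, 1, -1], [-4, 0], [], []⟩, [4], [1]⟩,
    ⟨⟨[.inl 0, .inl (-2), .inl (-3), .inr 0, .inl 2, .inl 1, .inl 3], [.inl (-1), .inl (-4)], [3, -1], [-4, -3, 2, -2, 1, 0], [], []⟩, [-1], [4]⟩,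
    ⟨⟨[.inl 0, .inl 1, .inl 2, .inr 0, .inl 3], [.inl (-1), .inl (-3), .inl (-2), .inl (-4)], [3, -2, 2, -1], [-4, -3, 1, 0], [], []⟩, [6], [2]⟩,
    ⟨⟨[.inl 0, .inl 1, .inl 2, .inl 3], [.inl (-1), .inl (-2), .inr 0, .inl (-3), .inl (-4)], [3, -1], [-4, 1, 2, -2, -3, 0], [], []⟩, [-4], [-5]⟩,
    ⟨⟨[.inl 0, .inl 1, .inr 0, .inl (-2), .inl (-3), .inl 2, .inl 3], [.inl (-1), .inl (-4)], [3, -1], [-4, 2, -3, 1, -2, 0], [], []⟩, [-2], [-4]⟩,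
    ⟨⟨[.inl 0, .inl 2, .inl 3], [.inl (-1), .inl (-3), .inl (-2), .inr 0, .inl 1, .inl (-4)], [3, 1, -1], [-4, 2, -2, -3, 0], [], []⟩, [-4], [1]⟩,
    ⟨⟨[.inl 0, .inr 0, .inl 1, .inl 2, .inl 3], [.inl (-1), .inl (-2), .inl (-3), .inl (-4)], [3, -3, -2, -1], [-4, 2, 1, 0], [], []⟩, [-1], [1]⟩,
    ⟨⟨[.inl 0, .inr 0, .inl 2, .inl 1, .inl 3], [.inl (-1), .inl (-2), .inl (-3), .inl (-4)], [3, -3, 2, -1], [-4, -2, 1, 0], [], []⟩, [-1], [2]⟩,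
    ⟨⟨[.inl 0, .inl 1, .inl 3], [.inl (-1), .inl (-3), .inl (-2), .inl 2, .inr 0, .inl (-4)], [3, -2, -3, 2, -1], [-4, 1, 0], [], []⟩, [4], [-6]⟩,
    ⟨⟨[.inl 0, .inr 0, .inl 2, .inl 3], [.inl (-1), .inl (-2), .inl 1, .inl (-3), .inl (-4)], [3, -2, -1], [-4, -3, 1, 2, 0], [], []⟩, [-2], [1]⟩,
    ⟨⟨[.inl 0, .inl 2, .inl 3], [.inl (-1), .inl 1, .inr 0, .inl (-2), .inl (-3), .inl (-4)], [3, -2, 2, 1, -1], [-4, -3, 0], [], []⟩, [-1], [1]⟩],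
   [⟨⟨[.inl 0, .inl (-2), .inl (-3), .inr 0, .inl 2, .inl 1, .inl 3], [.inl (-1), .inl (-4)], [3, -1], [-4, -2, -3, 2, 1, 0], [], []⟩, [-1], [2]⟩,
    ⟨⟨[.inl 0, .inl 1, .inl 3], [.inl (-1), .inl (-3), .inl 2, .inr 0, .inl (-2), .inl (-4)], [3, -2, -3, 2, -1], [-4, 1, 0], [], []⟩, [4], [-4]⟩,
    ⟨⟨[.inl 0, .inr 0, .inl 2, .inl 3], [.inl (-1), .inl (-3), .inl (-2), .inl 1, .inl (-4)], [3, -2, -1], [-4, -3, 1, 2, 0], [], []⟩, [-2], [1]⟩,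
    ⟨⟨[.inl 0, .inl 2, .inl 3], [.inl (-1), .inl 1, .inr 0, .inl (-2), .inl (-3), .inl (-4)], [3, -2, 2, 1, -1], [-4, -3, 0], [], []⟩, [-1], [1]⟩]⟩

theorem P_Feo2_C_even_3_1_C_0_22_14_4_l0 : P_Feo2_C_even_3_1_C_0_22_14_4.locC [2, -2, 1] 6 (22 + 0 * 4) = true := by decide +kernel

theorem P_Feo2_C_even_3_1_C_0_22_14_4_l1 : P_Feo2_C_even_3_1_C_0_22_14_4.locC [2, -2, 1] 6 (22 + 1 * 4) = true := by decide +kernel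

theorem P_Feo2_C_even_3_1_C_0_22_14_4_l2 : P_Feo2_C_even_3_1_C_0_22_14_4.locC [2, -2, 1] 6 (22 + 2 * 4) = true := by decide +kernel

theorem P_Feo2_C_even_3_1_C_0_22_14_4_fam : ∀ t : ℕ, P_Feo2_C_even_3_1_C_0_22_14_4.loc 6 (22 + t * 4) = true ∧ P_Feo2_C_even_3_1_C_0_22_14_4.conn (22 + t * 4) = true :=
  fam_ext2 P_Feo2_C_even_3_1_C_0_22_14_4 [2, -2, 1] 6 22 2 6 4 (by decide) (by decide) (by decide) (by decide) (by decide) (by decide +kernel) (by decide)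
    (by
      intro t ht
      interval_cases t
      · exact P_Feo2_C_even_3_1_C_0_22_14_4_l0
      · exact P_Feo2_C_even_3_1_C_0_22_14_4_l1
      · exact P_Feo2_C_even_3_1_C_0_22_14_4_l2)
    (by decide +kernel)

theorem P_Feo2_C_even_3_1_C_0_22_14_4_sh : P_Feo2_C_even_3_1_C_0_22_14_4.all (shTwo (-1) 3 true) = true := by decide +kernel

theorem W_Feo2_C_even_3_1_C_0_22_14_4 (q r : ℕ) (h1 : 22 ≤ q) (h2 : q % 4 = 2) (h3 : (q + r) % 4 = 1) (h4 : 1 ≤ r) (h5 : r + 7 ≤ q) : Want q r := by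
  obtain ⟨t, rfl⟩ : ∃ t : ℕ, q = 22 + t * 4 := ⟨(q - 22) / 4, by omega⟩
  obtain ⟨hl, hc⟩ := P_Feo2_C_even_3_1_C_0_22_14_4_fam t
  have hev : decide (Even (((((22 + t * 4) - 2) / 2) - (r - 1) / 2) - 3)) = true := by
    simp only [Nat.even_iff, decide_eq_true_eq]
    omega
  have hI := inst_two P_Feo2_C_even_3_1_C_0_22_14_4 6 (22 + t * 4) (-1) 3 ((((22 + t * 4) - 2) / 2) - (r - 1) / 2) (((22 + t * 4) - 2) / 2) r 0 (by decide) (by omega) (by decide) (by omega) (by omega) (by omega) (by omega) (by decide +kernel) (by decide) (by omega) (by decide +kernel) (by rw [hev]; exact P_Feo2_C_even_3_1_C_0_22_14_4_sh) hl hc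
  exact class_t _ _ (by omega) (tmod _ _ (by omega) (by omega)) hI.1 

def P_Fg_odd_3_0_S_3_15_3_4_251 : Pat 0 :=
  ⟨[⟨⟨[.inl 1, .inl 2, .inl 3], [.inl (-1), .inl 0, .inl (-2), .inl (-3)], [-3, 2, 0, -1], [3, -2, 1], [-2], []⟩, [], []⟩,
    ⟨⟨[.inl 1, .inl 0, .inl 2, .inl 3], [.inl (-1), .inl (-2), .inl (-3)], [-3, -1], [3, -2, 0, 2, 1], [2], []⟩, [], []⟩,
    ⟨⟨[.inl 1, .inl 2, .inl 3], [.inl (-1), .inl 0, .inl (-2), .inl (-3)], [-3, 2, 0, -2, -1], [3, 1], [2], []⟩, [], []⟩],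
   [⟨⟨[.inl 1, .inl 2, .inl 3], [.inl (-1), .inl 0, .inl (-2), .inl (-3)], [-3, 2, 0, -1], [3, -2, 1], [], []⟩, [], []⟩,
    ⟨⟨[.inl 1, .inl 0, .inl 2, .inl 3], [.inl (-1), .inl (-2), .inl (-3)], [-3, 2, -1], [3, -2, 0, 1], [], []⟩, [], []⟩,
    ⟨⟨[.inl 1, .inl 0, .inl 2, .inl 3], [.inl (-1), .inl (-2), .inl (-3)], [-3, -1], [3, -2, 0, 2, 1], [], []⟩, [], []⟩,
    ⟨⟨[.inl 1, .inl 2, .inl 3], [.inl (-1), .inl 0, .inl (-2), .inl (-3)], [-3, 2, 0, -2, -1], [3, 1], [], []⟩, [], []⟩]⟩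

theorem P_Fg_odd_3_0_S_3_15_3_4_251_l0 : P_Fg_odd_3_0_S_3_15_3_4_251.locC [] 5 (15 + 0 * 4) = true := by decide +kernel

theorem P_Fg_odd_3_0_S_3_15_3_4_251_l1 : P_Fg_odd_3_0_S_3_15_3_4_251.locC [] 5 (15 + 1 * 4) = true := by decide +kernel

theorem P_Fg_odd_3_0_S_3_15_3_4_251_fam : ∀ t : ℕ, P_Fg_odd_3_0_S_3_15_3_4_251.loc 5 (15 + t * 4) = true ∧ P_Fg_odd_3_0_S_3_15_3_4_251.conn (15 + t * 4) = true :=
  fam_ext2 P_Fg_odd_3_0_S_3_15_3_4_251 [] 5 15 1 4 4 (by decide) (by decide) (by decide) (by decide) (by decide) (by decide +kernel) (by decide)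
    (by
      intro t ht
      interval_cases t
      · exact P_Fg_odd_3_0_S_3_15_3_4_251_l0
      · exact P_Fg_odd_3_0_S_3_15_3_4_251_l1)
    (by decide +kernel)

theorem P_Fg_odd_3_0_S_3_15_3_4_251_sh : P_Fg_odd_3_0_S_3_15_3_4_251.all (shTwo (0) 3 false) = true := by decide +kernel

def S_Fg_odd_3_0_S_3_15_3_4_251_0 : SpD 0 := ⟨2, .inl (-2), [(-3, .inl (-1)), (-2, .inl 0)], [(0, -2)]⟩

theorem S_Fg_odd_3_0_S_3_15_3_4_251_0_fam : ∀ t : ℕ, S_Fg_odd_3_0_S_3_15_3_4_251_0.chk 3 (15 + t * 4) (P_Fg_odd_3_0_S_3_15_3_4_251.acc (15 + t * 4) S_Fg_odd_3_0_S_3_15_3_4_251_0.i0) = true :=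
  sp_fam P_Fg_odd_3_0_S_3_15_3_4_251 S_Fg_odd_3_0_S_3_15_3_4_251_0 3 15 1 4 (by decide) (by decide) (by decide) (by decide) (by decide +kernel)

theorem W_Fg_odd_3_0_S_3_15_3_4_251 (q r : ℕ) (h1 : 15 ≤ q) (h2 : q % 4 = 3) (h3 : (q + r) % 4 = 1) (h4 : 0 ≤ r) (h5 : r + 9 ≤ q) : Want q r := by
  obtain ⟨t, rfl⟩ : ∃ t : ℕ, q = 15 + t * 4 := ⟨(q - 15) / 4, by omega⟩
  obtain ⟨hl, hc⟩ := P_Fg_odd_3_0_S_3_15_3_4_251_fam t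
  have hev : decide (Even (((((15 + t * 4) - 1) / 2) - (r - 0) / 2) - 3)) = false := by
    simp only [Nat.even_iff, decide_eq_false_iff_not]
    omega
  have hI := inst_two P_Fg_odd_3_0_S_3_15_3_4_251 5 (15 + t * 4) (0) 3 ((((15 + t * 4) - 1) / 2) - (r - 0) / 2) (((15 + t * 4) - 1) / 2) r 3 (by decide) (by omega) (by decide) (by omega) (by omega) (by omega) (by omega) (by decide +kernel) (by decide) (by omega) (by decide +kernel) (by rw [hev]; exact P_Fg_odd_3_0_S_3_15_3_4_251_sh) hl hc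
  exact class_g _ _ (by omega) (by omega) (by omega) hI.1 (hI.2 S_Fg_odd_3_0_S_3_15_3_4_251_0 3 4 (by decide) (by show (2 : ℕ) < _; omega) (S_Fg_odd_3_0_S_3_15_3_4_251_0_fam t) (blk_4_1_m2 _ (by omega) (by omega)))

def P_S_17_run_5_2_S_3_231 : Pat 2 :=
  ⟨[⟨⟨[.inl 0, .inl 1, .inr 1, .inl 3, .inl 4, .inl 2, .inr 0, .inl 5], [], [5, 4, 2, 3, 1, 0], [], [], []⟩, [-1, -4], [3, 2]⟩,
    ⟨⟨[.inl 0, .inr 0, .inl 3, .inl 2, .inl 1, .inr 1, .inl 4, .inl 5], [], [5, 1, 2, 3, 4, 0], [], [], []⟩, [-4, -3], [3, 3]⟩,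
    ⟨⟨[.inl 0, .inl 2, .inl 3, .inl 1, .inr 1, .inl 4, .inr 0, .inl 5], [], [5, 4, 1, 3, 2, 0], [], [], []⟩, [1, -2], [3, 3]⟩,
    ⟨⟨[.inl 0, .inr 0, .inl 3, .inl 2, .inl 1, .inr 1, .inl 4, .inl 5], [], [5, 4, 2, 3, 1, 0], [], [1], [0]⟩, [-3, -4], [-1, 4]⟩,
    ⟨⟨[.inl 0, .inr 0, .inl 4, .inl 3, .inl 2, .inl 1, .inr 1, .inl 5], [], [5, 1, 2, 4, 3, 0], [], [], []⟩, [-3, -3], [3, 2]⟩,
    ⟨⟨[.inl 0, .inl 1, .inr 1, .inl 3, .inl 2, .inr 0, .inl 4, .inl 5], [], [5, 3, 2, 4, 1, 0], [], [5], []⟩, [-3, -3], [3, 3]⟩,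
    ⟨⟨[.inl 0, .inl 1, .inl 2, .inl 3, .inr 1, .inl 4, .inr 0, .inl 5], [], [5, 3, 4, 1, 2, 0], [], [], []⟩, [2, -2], [3, 3]⟩,
    ⟨⟨[.inl 0, .inr 1, .inl 4, .inl 3, .inl 2, .inl 1, .inr 0, .inl 5], [], [5, 2, 1, 3, 4, 0], [], [], []⟩, [-3, -4], [3, 3]⟩,
    ⟨⟨[.inl 0, .inr 1, .inl 4, .inl 1, .inr 0, .inl 2, .inl 3, .inl 5], [], [5, 4, 1, 2, 3, 0], [], [], []⟩, [-3, -3], [-2, 3]⟩,
    ⟨⟨[.inl 0, .inl 3, .inl 1, .inr 1, .inl 4, .inl 2, .inr 0, .inl 5], [], [5, 3, 2, 4, 1, 0], [], [], []⟩, [-3, -3], [2, 3]⟩,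
    ⟨⟨[.inl 0, .inl 2, .inr 0, .inl 3, .inl 1, .inr 1, .inl 4, .inl 5], [], [5, 3, 2, 4, 1, 0], [], [], []⟩, [-3, -3], [3, 3]⟩,
    ⟨⟨[.inl 0, .inl 2, .inl 3, .inr 0, .inl 1, .inr 1, .inl 4, .inl 5], [], [5, 2, 3, 4, 1, 0], [], [], []⟩, [-2, -3], [1, 4]⟩,
    ⟨⟨[.inl 0, .inr 0, .inl 3, .inl 2, .inl 1, .inr 1, .inl 4, .inl 5], [], [5, 2, 3, 4, 1, 0], [], [], []⟩, [-1, -3], [2, 2]⟩,
    ⟨⟨[.inl 0, .inr 0, .inl 4, .inl 3, .inl 2, .inl 1, .inr 1, .inl 5], [], [5, 4, 1, 2, 3, 0], [], [], []⟩, [-3, -3], [2, 4]⟩,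
    ⟨⟨[.inl 0, .inl 1, .inr 0, .inl 4, .inl 2, .inr 1, .inl 3, .inl 5], [], [5, 3, 2, 4, 1, 0], [], [], []⟩, [-2, -2], [4, 2]⟩,
    ⟨⟨[.inl 0, .inr 1, .inl 4, .inl 2, .inr 0, .inl 1, .inl 3, .inl 5], [], [5, 3, 1, 2, 4, 0], [], [], []⟩, [-2, -4], [1, 3]⟩,
    ⟨⟨[.inl 0, .inr 0, .inl 3, .inl 4, .inl 2, .inl 1, .inr 1, .inl 5], [], [5, 3, 4, 2, 1, 0], [], [], []⟩, [-1, -2], [1, 4]⟩],
   [⟨⟨[.inl 0, .inr 0, .inl 3, .inl 4, .inl 2, .inl 1, .inr 1, .inl 5], [], [5, 3, 4, 2, 1, 0], [], [], []⟩, [-1, -2], [1, 4]⟩]⟩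

theorem P_S_17_run_5_2_S_3_231_fam : P_S_17_run_5_2_S_3_231.loc 5 17 = true ∧ P_S_17_run_5_2_S_3_231.conn 17 = true :=
  one_fam P_S_17_run_5_2_S_3_231 [1, 0, 2, 3, 5] 5 17 (by decide) (by decide +kernel) (by decide +kernel)

theorem P_S_17_run_5_2_S_3_231_sh : P_S_17_run_5_2_S_3_231.all (shOne 5) = true := by decide +kernel

def S_S_17_run_5_2_S_3_231_0 : SpD 2 := ⟨2, .inl 1, [(1, .inr 0), (-2, .inl 3)], [(0, 3)]⟩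

theorem S_S_17_run_5_2_S_3_231_0_fam : S_S_17_run_5_2_S_3_231_0.chk 3 17 (P_S_17_run_5_2_S_3_231.acc 17 S_S_17_run_5_2_S_3_231_0.i0) = true := by decide +kernel

theorem W_S_17_run_5_2_S_3_231 (q r : ℕ) (h1 : q = 17) (h5 : r + 3 = q) : Want q r := by
  subst h1
  obtain ⟨hl, hc⟩ := P_S_17_run_5_2_S_3_231_fam
  have hI := inst_one P_S_17_run_5_2_S_3_231 5 17 5 r 3 (by omega) (by omega) (by omega) (by decide +kernel) (by decide) (by omega) (by decide +kernel) P_S_17_run_5_2_S_3_231_sh hl hc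
  exact class_b _ _ (by omega) (by omega) (by omega) hI.1 (hI.2 S_S_17_run_5_2_S_3_231_0 3 2 (by decide) (by show (2 : ℕ) < _; omega) S_S_17_run_5_2_S_3_231_0_fam (blk_2_3_3 _ (by omega) (by omega)))

def P_S_16_even_3_1_S_4_231_242 : Pat 1 :=
  ⟨[⟨⟨[.inl 0, .inl (-2), .inl 3], [.inl (-1), .inl 1, .inl 2, .inr 0, .inl (-3), .inl (-4)], [-4, -1], [3, 2, -2, -3, 1, 0], [2], []⟩, [5], [-3]⟩,
    ⟨⟨[.inl 0, .inl (-2), .inr 0, .inl 2, .inl (-3), .inl 3], [.inl (-1), .inl 1, .inl (-4)], [-4, -3, -1], [3, 2, -2, 1, 0], [], []⟩, [1], [5]⟩,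
    ⟨⟨[.inl 0, .inl 1, .inl 3], [.inl (-1), .inr 0, .inl (-3), .inl (-2), .inl 2, .inl (-4)], [-4, -3, 2, -1], [3, 1, -2, 0], [], []⟩, [2], [-1]⟩,
    ⟨⟨[.inl 0, .inl 2, .inl 1, .inr 0, .inl 3], [.inl (-1), .inl (-2), .inl (-3), .inl (-4)], [-4, -2, 1, -1], [3, 2, -3, 0], [], [0]⟩, [-7], [2]⟩,
    ⟨⟨[.inl 0, .inl 2, .inl 1, .inr 0, .inl (-3), .inl 3], [.inl (-1), .inl (-2), .inl (-4)], [-4, -2, -1], [3, 2, 1, -3, 0], [2], []⟩, [5], [-2]⟩,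
    ⟨⟨[.inl 0, .inl (-2), .inl 3], [.inl (-1), .inl 1, .inr 0, .inl (-3), .inl 2, .inl (-4)], [-4, 1, -3, -2, 2, -1], [3, 0], [], []⟩, [-2], [-5]⟩,
    ⟨⟨[.inl 0, .inl (-2), .inl 3], [.inl (-1), .inl (-3), .inr 0, .inl 2, .inl 1, .inl (-4)], [-4, -3, -2, 2, -1], [3, 1, 0], [], []⟩, [-5], [5]⟩,
    ⟨⟨[.inl 0, .inl 2, .inr 0, .inl 3], [.inl (-1), .inl (-3), .inl (-2), .inl 1, .inl (-4)], [-4, -1], [3, 2, 1, -3, -2, 0], [], []⟩, [1], [3]⟩,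
    ⟨⟨[.inl 0, .inl (-3), .inl (-2), .inl 2, .inl 3], [.inl (-1), .inr 0, .inl 1, .inl (-4)], [-4, -2, 2, -3, -1], [3, 1, 0], [], []⟩, [3], [-1]⟩,
    ⟨⟨[.inl 0, .inl (-2), .inl 3], [.inl (-1), .inl 1, .inl (-3), .inl 2, .inr 0, .inl (-4)], [-4, -2, -3, -1], [3, 1, 2, 0], [], []⟩, [6], [-5]⟩,
    ⟨⟨[.inl 0, .inr 0, .inl 2, .inl (-3), .inl (-2), .inl 3], [.inl (-1), .inl 1, .inl (-4)], [-4, -2, -3, 2, 1, -1], [3, 0], [], []⟩, [-3], [2]⟩,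
    ⟨⟨[.inl 0, .inl 1, .inl 2, .inl (-2), .inl 3], [.inl (-1), .inl (-3), .inr 0, .inl (-4)], [-4, 2, 1, -1], [3, -2, -3, 0], [], []⟩, [-5], [-3]⟩,
    ⟨⟨[.inl 0, .inr 0, .inl 2, .inl (-2), .inl 3], [.inl (-1), .inl (-3), .inl 1, .inl (-4)], [-4, 1, -2, -3, -1], [3, 2, 0], [], []⟩, [-2], [7]⟩,
    ⟨⟨[.inl 0, .inr 0, .inl 3], [.inl (-1), .inl 2, .inl (-2), .inl (-3), .inl 1, .inl (-4)], [-4, -2, -1], [3, 1, 2, -3, 0], [], []⟩, [3], [1]⟩,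
    ⟨⟨[.inl 0, .inl 2, .inr 0, .inl 3], [.inl (-1), .inl (-2), .inl (-3), .inl 1, .inl (-4)], [-4, -3, -2, -1], [3, 1, 2, 0], [2], []⟩, [-1], [1]⟩,
    ⟨⟨[.inl 0, .inl (-3), .inl (-2), .inl 3], [.inl (-1), .inl 1, .inl 2, .inr 0, .inl (-4)], [-4, -3, -2, -1], [3, 1, 2, 0], [], []⟩, [-1], [-6]⟩],
   [⟨⟨[.inl 0, .inl (-3), .inl (-2), .inl 3], [.inl (-1), .inl 1, .inl 2, .inr 0, .inl (-4)], [-4, -3, -2, -1], [3, 1, 2, 0], [], []⟩, [-1], [-6]⟩]⟩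

theorem P_S_16_even_3_1_S_4_231_242_fam : P_S_16_even_3_1_S_4_231_242.loc 7 16 = true ∧ P_S_16_even_3_1_S_4_231_242.conn 16 = true :=
  one_fam P_S_16_even_3_1_S_4_231_242 [2, 1, 0, -1, -2] 7 16 (by decide) (by decide +kernel) (by decide +kernel)

theorem P_S_16_even_3_1_S_4_231_242_sh : P_S_16_even_3_1_S_4_231_242.all (shTwo (-1) 3 false) = true := by decide +kernel

def S_S_16_even_3_1_S_4_231_242_0 : SpD 1 := ⟨2, .inl 2, [(1, .inr 0), (-6, .inl (-4)), (-4, .inl (-2))], [(1, 1)]⟩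

theorem S_S_16_even_3_1_S_4_231_242_0_fam : S_S_16_even_3_1_S_4_231_242_0.chk 6 16 (P_S_16_even_3_1_S_4_231_242.acc 16 S_S_16_even_3_1_S_4_231_242_0.i0) = true := by decide +kernel

def S_S_16_even_3_1_S_4_231_242_1 : SpD 1 := ⟨2, .inl 2, [(1, .inr 0), (-6, .inl (-4)), (-4, .inl (-2))], [(0, -3), (1, 1)]⟩

theorem S_S_16_even_3_1_S_4_231_242_1_fam : S_S_16_even_3_1_S_4_231_242_1.chk 6 16 (P_S_16_even_3_1_S_4_231_242.acc 16 S_S_16_even_3_1_S_4_231_242_1.i0) = true := by decide +kernel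

theorem W_S_16_even_3_1_S_4_231_242 (q r : ℕ) (h1 : q = 16) (h3 : (q + r) % 4 = 3) (h4 : 1 ≤ r) (h5 : r + 9 ≤ q) : Want q r := by
  subst h1
  obtain ⟨hl, hc⟩ := P_S_16_even_3_1_S_4_231_242_fam
  have hev : decide (Even ((((16 - 2) / 2) - (r - 1) / 2) - 3)) = false := by
    simp only [Nat.even_iff, decide_eq_false_iff_not]
    omega
  have hI := inst_two P_S_16_even_3_1_S_4_231_242 7 16 (-1) 3 (((16 - 2) / 2) - (r - 1) / 2) ((16 - 2) / 2) r 4 (by decide) (by omega) (by decide) (by omega) (by omega) (by omega) (by omega) (by decide +kernel) (by decide) (by omega) (by decide +kernel) (by rw [hev]; exact P_S_16_even_3_1_S_4_231_242_sh) hl hc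
  exact class_d _ _ (by omega) (by omega) (by omega) hI.1 (hI.2 S_S_16_even_3_1_S_4_231_242_0 6 2 (by decide) (by show (2 : ℕ) < _; omega) S_S_16_even_3_1_S_4_231_242_0_fam (blk_2_3_1 _ (by omega) (by omega))) (hI.2 S_S_16_even_3_1_S_4_231_242_1 6 3 (by decide) (by show (2 : ℕ) < _; omega) S_S_16_even_3_1_S_4_231_242_1_fam (blk_3_3_m3_1 _ (by omega) (by omega)))

def P_S_9_run_4_3_S_5_233 : Pat 3 :=
  ⟨[⟨⟨[.inl 0, .inr 0, .inl 2, .inl 1, .inr 2, .inl 3, .inr 1, .inl 4], [], [4, 2, 1, 3, 0], [], [], []⟩, [-3, 2, -1], [-1, 4, 1]⟩,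
    ⟨⟨[.inl 0, .inr 0, .inl 3, .inl 2, .inr 2, .inl 1, .inr 1, .inl 4], [], [4, 2, 1, 3, 0], [], [], []⟩, [-3, -2, -1], [3, 1, 1]⟩,
    ⟨⟨[.inl 0, .inr 2, .inl 2, .inl 3, .inr 1, .inl 1, .inr 0, .inl 4], [], [4, 2, 3, 1, 0], [], [], []⟩, [-3, -1, -1], [1, -2, 1]⟩,
    ⟨⟨[.inl 0, .inl 1, .inr 2, .inl 3, .inr 0, .inl 2, .inr 1, .inl 4], [], [4, 1, 3, 2, 0], [], [], []⟩, [-1, 1, -1], [2, 2, 1]⟩,
    ⟨⟨[.inl 0, .inr 0, .inl 3, .inl 2, .inr 1, .inl 1, .inr 2, .inl 4], [], [4, 2, 1, 3, 0], [], [4], [2, 1]⟩, [-3, -4, -1], [2, -1, 1]⟩,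
    ⟨⟨[.inl 0, .inr 0, .inl 3, .inr 2, .inl 1, .inl 2, .inr 1, .inl 4], [], [4, 3, 1, 2, 0], [], [3], []⟩, [-2, -2, -1], [2, 2, 1]⟩,
    ⟨⟨[.inl 0, .inr 2, .inl 1, .inr 0, .inl 3, .inl 2, .inr 1, .inl 4], [], [4, 3, 2, 1, 0], [], [3], []⟩, [-2, 1, -1], [3, 2, 1]⟩,
    ⟨⟨[.inl 0, .inr 2, .inl 2, .inr 1, .inl 1, .inr 0, .inl 3, .inl 4], [], [4, 2, 3, 1, 0], [], [], []⟩, [-2, -2, -1], [3, -1, 1]⟩,
    ⟨⟨[.inl 0, .inl 1, .inr 2, .inl 2, .inr 1, .inl 3, .inr 0, .inl 4], [], [4, 3, 1, 2, 0], [], [], []⟩, [1, -2, -1], [3, 2, 1]⟩],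
   [⟨⟨[.inl 0, .inl 1, .inr 2, .inl 2, .inr 1, .inl 3, .inr 0, .inl 4], [], [4, 3, 1, 2, 0], [], [], []⟩, [1, -2, -1], [3, 2, 1]⟩]⟩

theorem P_S_9_run_4_3_S_5_233_fam : P_S_9_run_4_3_S_5_233.loc 4 9 = true ∧ P_S_9_run_4_3_S_5_233.conn 9 = true :=
  one_fam P_S_9_run_4_3_S_5_233 [1, 2, 3, 4] 4 9 (by decide) (by decide +kernel) (by decide +kernel)

theorem P_S_9_run_4_3_S_5_233_sh : P_S_9_run_4_3_S_5_233.all (shOne 4) = true := by decide +kernel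

def S_S_9_run_4_3_S_5_233_0 : SpD 3 := ⟨2, .inl 3, [(2, .inr 2), (1, .inl 4), (2, .inr 1), (-2, .inl 2)], [(0, -2), (1, 4), (2, 1)]⟩

theorem S_S_9_run_4_3_S_5_233_0_fam : S_S_9_run_4_3_S_5_233_0.chk 4 9 (P_S_9_run_4_3_S_5_233.acc 9 S_S_9_run_4_3_S_5_233_0.i0) = true := by decide +kernel

theorem W_S_9_run_4_3_S_5_233 (q r : ℕ) (h1 : q = 9) (h5 : r + 1 = q) : Want q r := by
  subst h1
  obtain ⟨hl, hc⟩ := P_S_9_run_4_3_S_5_233_fam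
  have hI := inst_one P_S_9_run_4_3_S_5_233 4 9 4 r 5 (by omega) (by omega) (by omega) (by decide +kernel) (by decide) (by omega) (by decide +kernel) P_S_9_run_4_3_S_5_233_sh hl hc
  exact class_c _ _ (by omega) (by omega) (by omega) hI.1 (hI.2 S_S_9_run_4_3_S_5_233_0 4 2 (by decide) (by show (2 : ℕ) < _; omega) S_S_9_run_4_3_S_5_233_0_fam (blk_2_1_m2_4_1 _ (by omega) (by omega)))

def P_S_13_odd_3_0_C_3_231 : Pat 0 :=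
  ⟨[⟨⟨[.inl 1, .inl 3], [.inl (-1), .inl (-2), .inl 0, .inl 2, .inl (-3)], [3, -1], [-3, 0, 2, -2, 1], [], []⟩, [], []⟩,
    ⟨⟨[.inl 1, .inl 2, .inl 3], [.inl (-1), .inl (-2), .inl 0, .inl (-3)], [3, 0, 2, -1], [-3, -2, 1], [], []⟩, [], []⟩,
    ⟨⟨[.inl 1, .inl 0, .inl 2, .inl 3], [.inl (-1), .inl (-2), .inl (-3)], [3, 2, -1], [-3, -2, 0, 1], [-2], []⟩, [], []⟩,
    ⟨⟨[.inl 1, .inl 2, .inl 0, .inl (-2), .inl 3], [.inl (-1), .inl (-3)], [3, 0, -2, -1], [-3, 2, 1], [], []⟩, [], []⟩,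
    ⟨⟨[.inl 1, .inl (-2), .inl 3], [.inl (-1), .inl 0, .inl 2, .inl (-3)], [3, -2, 0, -1], [-3, 2, 1], [2], []⟩, [], []⟩,
    ⟨⟨[.inl 1, .inl 3], [.inl (-1), .inl (-2), .inl 0, .inl 2, .inl (-3)], [3, -2, -1], [-3, 0, 2, 1], [2], []⟩, [], []⟩,
    ⟨⟨[.inl 1, .inl 2, .inl 3], [.inl (-1), .inl 0, .inl (-2), .inl (-3)], [3, 2, 0, -1], [-3, -2, 1], [], []⟩, [], []⟩,
    ⟨⟨[.inl 1, .inl 2, .inl 0, .inl 3], [.inl (-1), .inl (-2), .inl (-3)], [3, 2, -1], [-3, 0, -2, 1], [], []⟩, [], []⟩,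
    ⟨⟨[.inl 1, .inl 2, .inl 0, .inl (-2), .inl 3], [.inl (-1), .inl (-3)], [3, 0, -2, 2, -1], [-3, 1], [], []⟩, [], []⟩,
    ⟨⟨[.inl 1, .inl 3], [.inl (-1), .inl (-2), .inl 0, .inl 2, .inl (-3)], [3, -1], [-3, 0, 2, -2, 1], [], []⟩, [], []⟩,
    ⟨⟨[.inl 1, .inl 2, .inl 3], [.inl (-1), .inl (-2), .inl 0, .inl (-3)], [3, 0, 2, -1], [-3, -2, 1], [], []⟩, [], []⟩,
    ⟨⟨[.inl 1, .inl 2, .inl 0, .inl 3], [.inl (-1), .inl (-2), .inl (-3)], [3, 2, -1], [-3, 0, -2, 1], [], []⟩, [], []⟩,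
    ⟨⟨[.inl 1, .inl 2, .inl 0, .inl (-2), .inl 3], [.inl (-1), .inl (-3)], [3, 0, -2, 2, -1], [-3, 1], [], []⟩, [], []⟩],
   [⟨⟨[.inl 1, .inl 2, .inl 0, .inl (-2), .inl 3], [.inl (-1), .inl (-3)], [3, 0, -2, 2, -1], [-3, 1], [], []⟩, [], []⟩]⟩

theorem P_S_13_odd_3_0_C_3_231_fam : P_S_13_odd_3_0_C_3_231.loc 5 13 = true ∧ P_S_13_odd_3_0_C_3_231.conn 13 = true :=
  one_fam P_S_13_odd_3_0_C_3_231 [] 5 13 (by decide) (by decide +kernel) (by decide +kernel)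

theorem P_S_13_odd_3_0_C_3_231_sh : P_S_13_odd_3_0_C_3_231.all (shTwo (0) 3 true) = true := by decide +kernel

def S_S_13_odd_3_0_C_3_231_0 : SpD 0 := ⟨2, .inl 2, [(1, .inl 3), (2, .inl 0)], [(0, 1)]⟩

theorem S_S_13_odd_3_0_C_3_231_0_fam : S_S_13_odd_3_0_C_3_231_0.chk 3 13 (P_S_13_odd_3_0_C_3_231.acc 13 S_S_13_odd_3_0_C_3_231_0.i0) = true := by decide +kernel

theorem W_S_13_odd_3_0_C_3_231 (q r : ℕ) (h1 : q = 13) (h3 : (q + r) % 4 = 3) (h4 : 0 ≤ r) (h5 : r + 7 ≤ q) : Want q r := by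
  subst h1
  obtain ⟨hl, hc⟩ := P_S_13_odd_3_0_C_3_231_fam
  have hev : decide (Even ((((13 - 1) / 2) - (r - 0) / 2) - 3)) = true := by
    simp only [Nat.even_iff, decide_eq_true_eq]
    omega
  have hI := inst_two P_S_13_odd_3_0_C_3_231 5 13 (0) 3 (((13 - 1) / 2) - (r - 0) / 2) ((13 - 1) / 2) r 3 (by decide) (by omega) (by decide) (by omega) (by omega) (by omega) (by omega) (by decide +kernel) (by decide) (by omega) (by decide +kernel) (by rw [hev]; exact P_S_13_odd_3_0_C_3_231_sh) hl hc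
  exact class_b _ _ (by omega) (by omega) (by omega) hI.1 (hI.2 S_S_13_odd_3_0_C_3_231_0 3 2 (by decide) (by show (2 : ℕ) < _; omega) S_S_13_odd_3_0_C_3_231_0_fam (blk_2_3_1 _ (by omega) (by omega)))

end Pool.Agent.Helper201_K3
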