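import Pool.Agent.Helper201_K3.TabBlocks
import Pool.Agent.Helper201_K3.Wrap2
import Pool.Agent.Helper201_K3.Tab06

set_option autoImplicit false

namespace Pool.Agent.Helper201_K3

def P_Fe_d3_run_6_3_S_4_20_8_4_242 : Pat 3 :=
  ⟨[⟨⟨[.inl 0, .inl 1, .inr 0, .inl 3, .inl 4, .inr 2, .inl 5, .inl 2, .inr 1, .inl 6], [], [6, 5, 4, 3, 1, 2, 0], [], [], []⟩, [-1, -4, -1], [2, 3, 1]⟩,
    ⟨⟨[.inl 0, .inl 1, .inr 0, .inl 4, .inr 2, .inl 5, .inl 3, .inl 2, .inr 1, .inl 6], [], [6, 5, 4, 2, 1, 3, 0], [], [], []⟩, [-4, -3, -1], [2, 1, 5]⟩,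
    ⟨⟨[.inl 0, .inr 2, .inl 5, .inr 1, .inl 3, .inl 1, .inr 0, .inl 2, .inl 4, .inl 6], [], [6, 2, 3, 5, 1, 4, 0], [], [], []⟩, [-2, -1, -4], [3, 2, 1]⟩,
    ⟨⟨[.inl 0, .inl 2, .inr 0, .inl 5, .inl 3, .inl 1, .inr 1, .inl 4, .inr 2, .inl 6], [], [6, 4, 5, 2, 3, 1, 0], [], [], [1]⟩, [-2, -3, -1], [1, 2, 1]⟩,
    ⟨⟨[.inl 0, .inl 2, .inl 5, .inr 2, .inl 4, .inr 0, .inl 3, .inl 1, .inr 1, .inl 6], [], [6, 5, 4, 3, 2, 1, 0], [], [2], []⟩, [-1, -2, -1], [2, 4, 1]⟩,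
    ⟨⟨[.inl 0, .inl 2, .inr 1, .inl 4, .inl 1, .inr 0, .inl 5, .inl 3, .inr 2, .inl 6], [], [6, 5, 4, 2, 3, 1, 0], [], [], [0]⟩, [-3, -2, -1], [4, 2, 2]⟩,
    ⟨⟨[.inl 0, .inr 2, .inl 4, .inl 3, .inl 2, .inr 1, .inl 5, .inl 1, .inr 0, .inl 6], [], [6, 1, 2, 3, 4, 5, 0], [], [6], []⟩, [-2, 1, -5], [1, 3, 4]⟩,
    ⟨⟨[.inl 0, .inl 4, .inr 2, .inl 5, .inr 0, .inl 2, .inr 1, .inl 1, .inl 3, .inl 6], [], [6, 5, 4, 2, 3, 1, 0], [], [], []⟩, [-1, -2, -2], [1, -1, 1]⟩],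
   [⟨⟨[.inl 0, .inl 1, .inr 0, .inl 3, .inl 4, .inr 2, .inl 5, .inl 2, .inr 1, .inl 6], [], [6, 5, 4, 3, 1, 2, 0], [], [], []⟩, [-1, -4, -1], [2, 4, 1]⟩,
    ⟨⟨[.inl 0, .inl 1, .inr 0, .inl 5, .inl 3, .inl 2, .inr 1, .inl 4, .inr 2, .inl 6], [], [6, 5, 4, 2, 1, 3, 0], [], [], []⟩, [-4, -3, -1], [4, 2, 2]⟩,
    ⟨⟨[.inl 0, .inr 2, .inl 4, .inl 3, .inl 2, .inr 1, .inl 5, .inl 1, .inr 0, .inl 6], [], [6, 2, 3, 5, 1, 4, 0], [], [], []⟩, [-2, 1, -4], [1, 3, 4]⟩,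
    ⟨⟨[.inl 0, .inl 4, .inr 2, .inl 5, .inr 0, .inl 2, .inr 1, .inl 1, .inl 3, .inl 6], [], [6, 4, 5, 2, 3, 1, 0], [], [], []⟩, [-1, -2, -2], [1, -1, 1]⟩]⟩

theorem P_Fe_d3_run_6_3_S_4_20_8_4_242_l0 : P_Fe_d3_run_6_3_S_4_20_8_4_242.locC [4, 1, 5, 6] 6 (20 + 0 * 4) = true := by decide +kernel

theorem P_Fe_d3_run_6_3_S_4_20_8_4_242_l1 : P_Fe_d3_run_6_3_S_4_20_8_4_242.locC [4, 1, 5, 6] 6 (20 + 1 * 4) = true := by decide +kernel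

theorem P_Fe_d3_run_6_3_S_4_20_8_4_242_fam : ∀ t : ℕ, P_Fe_d3_run_6_3_S_4_20_8_4_242.loc 6 (20 + t * 4) = true ∧ P_Fe_d3_run_6_3_S_4_20_8_4_242.conn (20 + t * 4) = true :=
  fam_ext2 P_Fe_d3_run_6_3_S_4_20_8_4_242 [4, 1, 5, 6] 6 20 1 5 4 (by decide) (by decide) (by decide) (by decide) (by decide) (by decide +kernel) (by decide)
    (by
      intro t ht
      interval_cases t
      · exact P_Fe_d3_run_6_3_S_4_20_8_4_242_l0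
      · exact P_Fe_d3_run_6_3_S_4_20_8_4_242_l1)
    (by decide +kernel)

theorem P_Fe_d3_run_6_3_S_4_20_8_4_242_sh : P_Fe_d3_run_6_3_S_4_20_8_4_242.all (shOne 6) = true := by decide +kernel

def S_Fe_d3_run_6_3_S_4_20_8_4_242_0 : SpD 3 := ⟨2, .inl 2, [(1, .inr 1), (-2, .inl 4), (3, .inr 0)], [(0, -4), (1, 1)]⟩

theorem S_Fe_d3_run_6_3_S_4_20_8_4_242_0_fam : ∀ t : ℕ, S_Fe_d3_run_6_3_S_4_20_8_4_242_0.chk 4 (20 + t * 4) (P_Fe_d3_run_6_3_S_4_20_8_4_242.acc (20 + t * 4) S_Fe_d3_run_6_3_S_4_20_8_4_242_0.i0) = true :=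
  sp_fam P_Fe_d3_run_6_3_S_4_20_8_4_242 S_Fe_d3_run_6_3_S_4_20_8_4_242_0 4 20 1 4 (by decide) (by decide) (by decide) (by decide) (by decide +kernel)

theorem W_Fe_d3_run_6_3_S_4_20_8_4_242 (q r : ℕ) (h1 : 20 ≤ q) (h2 : q % 4 = 0) (h5 : r + 3 = q) : Want q r := by
  obtain ⟨t, rfl⟩ : ∃ t : ℕ, q = 20 + t * 4 := ⟨(q - 20) / 4, by omega⟩
  obtain ⟨hl, hc⟩ := P_Fe_d3_run_6_3_S_4_20_8_4_242_fam t
  have hI := inst_one P_Fe_d3_run_6_3_S_4_20_8_4_242 6 (20 + t * 4) 6 r 4 (by omega) (by omega) (by omega) (by decide +kernel) (by decide) (by omega) (by decide +kernel) P_Fe_d3_run_6_3_S_4_20_8_4_242_sh hl hc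
  exact class_e _ _ (by omega) (by omega) (by omega) hI.1 (hI.2 S_Fe_d3_run_6_3_S_4_20_8_4_242_0 4 3 (by decide) (by show (2 : ℕ) < _; omega) (S_Fe_d3_run_6_3_S_4_20_8_4_242_0_fam t) (blk_3_1_m4_1 _ (by omega) (by omega)))

def P_Ff_odd_4_0_S_5_19_7_4_331_342_353 : Pat 0 :=
  ⟨[⟨⟨[.inl 1, .inl 0, .inl (-3), .inl 2, .inl (-2), .inl 3, .inl 4], [.inl (-1), .inl (-4)], [-4, -1], [4, -2, -3, 2, 3, 0, 1], [0], []⟩, [], []⟩,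
    ⟨⟨[.inl 1, .inl 4], [.inl (-1), .inl 0, .inl 3, .inl (-2), .inl 2, .inl (-3), .inl (-4)], [-4, 0, -3, 2, -1], [4, 3, -2, 1], [-2], []⟩, [], []⟩,
    ⟨⟨[.inl 1, .inl (-2), .inl (-3), .inl 2, .inl 3, .inl 0, .inl 4], [.inl (-1), .inl (-4)], [-4, 0, -1], [4, 2, 3, -2, -3, 1], [-3], []⟩, [], []⟩,
    ⟨⟨[.inl 1, .inl 3, .inl 4], [.inl (-1), .inl 2, .inl (-2), .inl (-3), .inl 0, .inl (-4)], [-4, -1], [4, -2, -3, 3, 2, 0, 1], [4], []⟩, [], []⟩,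
    ⟨⟨[.inl 1, .inl 4], [.inl (-1), .inl 2, .inl 0, .inl 3, .inl (-2), .inl (-3), .inl (-4)], [-4, 2, 3, -1], [4, -2, -3, 0, 1], [], []⟩, [], []⟩,
    ⟨⟨[.inl 1, .inl (-2), .inl (-3), .inl 2, .inl 3, .inl 0, .inl 4], [.inl (-1), .inl (-4)], [-4, -1], [4, 2, 3, -3, -2, 0, 1], [4], []⟩, [], []⟩,
    ⟨⟨[.inl 1, .inl 4], [.inl (-1), .inl 2, .inl 3, .inl (-2), .inl (-3), .inl 0, .inl (-4)], [-4, -2, -3, 3, 2, -1], [4, 0, 1], [], []⟩, [], []⟩],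
   [⟨⟨[.inl 1, .inl 0, .inl (-3), .inl 2, .inl (-2), .inl 3, .inl 4], [.inl (-1), .inl (-4)], [-4, -3, 2, 3, 0, -1], [4, -2, 1], [], []⟩, [], []⟩,
    ⟨⟨[.inl 1, .inl 4], [.inl (-1), .inl 0, .inl 3, .inl (-2), .inl 2, .inl (-3), .inl (-4)], [-4, 2, -1], [4, 3, -2, -3, 0, 1], [], []⟩, [], []⟩,
    ⟨⟨[.inl 1, .inl (-2), .inl (-3), .inl 2, .inl 3, .inl 0, .inl 4], [.inl (-1), .inl (-4)], [-4, -1], [4, 2, 3, -3, -2, 0, 1], [], []⟩, [], []⟩,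
    ⟨⟨[.inl 1, .inl 4], [.inl (-1), .inl 2, .inl 3, .inl (-2), .inl (-3), .inl 0, .inl (-4)], [-4, -2, -3, 3, 2, 0, -1], [4, 1], [], []⟩, [], []⟩]⟩

theorem P_Ff_odd_4_0_S_5_19_7_4_331_342_353_l0 : P_Ff_odd_4_0_S_5_19_7_4_331_342_353.locC [] 6 (19 + 0 * 4) = true := by decide +kernel

theorem P_Ff_odd_4_0_S_5_19_7_4_331_342_353_l1 : P_Ff_odd_4_0_S_5_19_7_4_331_342_353.locC [] 6 (19 + 1 * 4) = true := by decide +kernel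

theorem P_Ff_odd_4_0_S_5_19_7_4_331_342_353_fam : ∀ t : ℕ, P_Ff_odd_4_0_S_5_19_7_4_331_342_353.loc 6 (19 + t * 4) = true ∧ P_Ff_odd_4_0_S_5_19_7_4_331_342_353.conn (19 + t * 4) = true :=
  fam_ext2 P_Ff_odd_4_0_S_5_19_7_4_331_342_353 [] 6 19 1 5 4 (by decide) (by decide) (by decide) (by decide) (by decide) (by decide +kernel) (by decide)
    (by
      intro t ht
      interval_cases t
      · exact P_Ff_odd_4_0_S_5_19_7_4_331_342_353_l0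
      · exact P_Ff_odd_4_0_S_5_19_7_4_331_342_353_l1)
    (by decide +kernel)

theorem P_Ff_odd_4_0_S_5_19_7_4_331_342_353_sh : P_Ff_odd_4_0_S_5_19_7_4_331_342_353.all (shTwo (0) 4 false) = true := by decide +kernel

def S_Ff_odd_4_0_S_5_19_7_4_331_342_353_0 : SpD 0 := ⟨3, .inl (-2), [(-3, .inl (-3)), (-4, .inl 0), (2, .inl (-1)), (-2, .inl 2)], [(0, 1)]⟩

theorem S_Ff_odd_4_0_S_5_19_7_4_331_342_353_0_fam : ∀ t : ℕ, S_Ff_odd_4_0_S_5_19_7_4_331_342_353_0.chk 4 (19 + t * 4) (P_Ff_odd_4_0_S_5_19_7_4_331_342_353.acc (19 + t * 4) S_Ff_odd_4_0_S_5_19_7_4_331_342_353_0.i0) = true :=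
  sp_fam P_Ff_odd_4_0_S_5_19_7_4_331_342_353 S_Ff_odd_4_0_S_5_19_7_4_331_342_353_0 4 19 1 4 (by decide) (by decide) (by decide) (by decide) (by decide +kernel)

def S_Ff_odd_4_0_S_5_19_7_4_331_342_353_1 : SpD 0 := ⟨3, .inl (-2), [(-3, .inl (-3)), (-4, .inl 0), (2, .inl (-1)), (-2, .inl 2)], [(0, 1), (2, -2)]⟩

theorem S_Ff_odd_4_0_S_5_19_7_4_331_342_353_1_fam : ∀ t : ℕ, S_Ff_odd_4_0_S_5_19_7_4_331_342_353_1.chk 4 (19 + t * 4) (P_Ff_odd_4_0_S_5_19_7_4_331_342_353.acc (19 + t * 4) S_Ff_odd_4_0_S_5_19_7_4_331_342_353_1.i0) = true :=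
  sp_fam P_Ff_odd_4_0_S_5_19_7_4_331_342_353 S_Ff_odd_4_0_S_5_19_7_4_331_342_353_1 4 19 1 4 (by decide) (by decide) (by decide) (by decide) (by decide +kernel)

def S_Ff_odd_4_0_S_5_19_7_4_331_342_353_2 : SpD 0 := ⟨3, .inl (-2), [(-3, .inl (-3)), (-4, .inl 0), (2, .inl (-1)), (-2, .inl 2)], [(0, 1), (1, 2), (2, -2)]⟩

theorem S_Ff_odd_4_0_S_5_19_7_4_331_342_353_2_fam : ∀ t : ℕ, S_Ff_odd_4_0_S_5_19_7_4_331_342_353_2.chk 4 (19 + t * 4) (P_Ff_odd_4_0_S_5_19_7_4_331_342_353.acc (19 + t * 4) S_Ff_odd_4_0_S_5_19_7_4_331_342_353_2.i0) = true :=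
  sp_fam P_Ff_odd_4_0_S_5_19_7_4_331_342_353 S_Ff_odd_4_0_S_5_19_7_4_331_342_353_2 4 19 1 4 (by decide) (by decide) (by decide) (by decide) (by decide +kernel)

theorem W_Ff_odd_4_0_S_5_19_7_4_331_342_353 (q r : ℕ) (h1 : 19 ≤ q) (h2 : q % 4 = 3) (h3 : (q + r) % 4 = 3) (h4 : 0 ≤ r) (h5 : r + 11 ≤ q) : Want q r := by
  obtain ⟨t, rfl⟩ : ∃ t : ℕ, q = 19 + t * 4 := ⟨(q - 19) / 4, by omega⟩
  obtain ⟨hl, hc⟩ := P_Ff_odd_4_0_S_5_19_7_4_331_342_353_fam t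
  have hev : decide (Even (((((19 + t * 4) - 1) / 2) - (r - 0) / 2) - 4)) = false := by
    simp only [Nat.even_iff, decide_eq_false_iff_not]
    omega
  have hI := inst_two P_Ff_odd_4_0_S_5_19_7_4_331_342_353 6 (19 + t * 4) (0) 4 ((((19 + t * 4) - 1) / 2) - (r - 0) / 2) (((19 + t * 4) - 1) / 2) r 5 (by decide) (by omega) (by decide) (by omega) (by omega) (by omega) (by omega) (by decide +kernel) (by decide) (by omega) (by decide +kernel) (by rw [hev]; exact P_Ff_odd_4_0_S_5_19_7_4_331_342_353_sh) hl hc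
  exact class_f _ _ (by omega) (by omega) (by omega) hI.1 (hI.2 S_Ff_odd_4_0_S_5_19_7_4_331_342_353_0 4 2 (by decide) (by show (3 : ℕ) < _; omega) (S_Ff_odd_4_0_S_5_19_7_4_331_342_353_0_fam t) (blk_2_3_1 _ (by omega) (by omega))) (hI.2 S_Ff_odd_4_0_S_5_19_7_4_331_342_353_1 4 3 (by decide) (by show (3 : ℕ) < _; omega) (S_Ff_odd_4_0_S_5_19_7_4_331_342_353_1_fam t) (blk_3_3_1_m2 _ (by omega) (by omega))) (hI.2 S_Ff_odd_4_0_S_5_19_7_4_331_342_353_2 4 4 (by decide) (by show (3 : ℕ) < _; omega) (S_Ff_odd_4_0_S_5_19_7_4_331_342_353_2_fam t) (blk_4_3_1_2_m2 _ (by omega) (by omega)))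

def P_S_16_run_5_3_S_0 : Pat 3 :=
  ⟨[⟨⟨[.inl 0, .inl 3, .inr 0, .inl 4, .inr 2, .inl 1, .inl 2, .inr 1, .inl 5], [], [5, 2, 3, 4, 1, 0], [], [], []⟩, [2, -3, 1], [4, 2, -3]⟩,
    ⟨⟨[.inl 0, .inl 1, .inr 0, .inl 4, .inr 2, .inl 3, .inl 2, .inr 1, .inl 5], [], [5, 2, 1, 4, 3, 0], [], [], []⟩, [-2, -3, 3], [4, 3, -1]⟩,
    ⟨⟨[.inl 0, .inr 2, .inl 4, .inr 0, .inl 1, .inl 2, .inl 3, .inr 1, .inl 5], [], [5, 2, 3, 1, 4, 0], [], [], []⟩, [1, -2, -4], [-2, 3, 3]⟩,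
    ⟨⟨[.inl 0, .inr 2, .inl 4, .inr 0, .inl 3, .inl 2, .inl 1, .inr 1, .inl 5], [], [5, 2, 1, 3, 4, 0], [], [], []⟩, [3, -4, -4], [-1, 3, 1]⟩,
    ⟨⟨[.inl 0, .inr 0, .inl 4, .inl 3, .inr 2, .inl 1, .inl 2, .inr 1, .inl 5], [], [5, 1, 2, 3, 4, 0], [], [], []⟩, [-4, -3, -1], [4, 3, -3]⟩,
    ⟨⟨[.inl 0, .inr 0, .inl 4, .inl 1, .inr 2, .inl 3, .inl 2, .inr 1, .inl 5], [], [5, 3, 2, 1, 4, 0], [], [], []⟩, [-4, -3, -3], [4, 3, 2]⟩,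
    ⟨⟨[.inl 0, .inl 3, .inr 2, .inl 4, .inr 0, .inl 1, .inl 2, .inr 1, .inl 5], [], [5, 2, 3, 4, 1, 0], [], [], []⟩, [1, -3, 2], [-3, 3, 3]⟩,
    ⟨⟨[.inl 0, .inl 1, .inr 2, .inl 4, .inr 0, .inl 3, .inl 2, .inr 1, .inl 5], [], [5, 2, 1, 4, 3, 0], [], [], []⟩, [3, -3, -2], [-1, 3, 1]⟩,
    ⟨⟨[.inl 0, .inr 0, .inl 4, .inl 3, .inr 2, .inl 1, .inl 2, .inr 1, .inl 5], [], [5, 2, 3, 1, 4, 0], [], [], []⟩, [-4, -3, -1], [4, 3, -2]⟩,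
    ⟨⟨[.inl 0, .inr 0, .inl 4, .inl 1, .inr 2, .inl 3, .inl 2, .inr 1, .inl 5], [], [5, 2, 1, 3, 4, 0], [], [], []⟩, [-4, -3, -3], [4, 4, 2]⟩,
    ⟨⟨[.inl 0, .inl 3, .inr 2, .inl 4, .inr 0, .inl 1, .inl 2, .inr 1, .inl 5], [], [5, 2, 3, 4, 1, 0], [], [], []⟩, [1, -3, 2], [-3, 2, 4]⟩,
    ⟨⟨[.inl 0, .inl 1, .inr 2, .inl 4, .inr 0, .inl 3, .inl 2, .inr 1, .inl 5], [], [5, 2, 1, 4, 3, 0], [], [], []⟩, [3, -3, -2], [-1, 3, 4]⟩,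
    ⟨⟨[.inl 0, .inr 0, .inl 4, .inr 2, .inl 1, .inl 2, .inl 3, .inr 1, .inl 5], [], [5, 2, 3, 1, 4, 0], [], [], []⟩, [-4, -2, 1], [3, 3, -2]⟩,
    ⟨⟨[.inl 0, .inr 0, .inl 4, .inr 2, .inl 3, .inl 2, .inl 1, .inr 1, .inl 5], [], [5, 2, 1, 3, 4, 0], [], [], []⟩, [-4, -4, 3], [1, 3, -1]⟩,
    ⟨⟨[.inl 0, .inr 2, .inl 4, .inl 3, .inr 0, .inl 1, .inl 2, .inr 1, .inl 5], [], [5, 1, 2, 3, 4, 0], [], [], []⟩, [-1, -3, -4], [-3, 3, 4]⟩,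
    ⟨⟨[.inl 0, .inr 2, .inl 4, .inl 1, .inr 0, .inl 3, .inl 2, .inr 1, .inl 5], [], [5, 3, 2, 1, 4, 0], [], [], []⟩, [-3, -3, -4], [2, 4, 4]⟩],
   [⟨⟨[.inl 0, .inr 2, .inl 4, .inl 1, .inr 0, .inl 3, .inl 2, .inr 1, .inl 5], [], [5, 3, 2, 1, 4, 0], [], [], []⟩, [-3, -3, -4], [2, 4, 4]⟩]⟩

theorem P_S_16_run_5_3_S_0_fam : P_S_16_run_5_3_S_0.loc 5 16 = true ∧ P_S_16_run_5_3_S_0.conn 16 = true :=
  one_fam P_S_16_run_5_3_S_0 [4, 5, 1] 5 16 (by decide) (by decide +kernel) (by decide +kernel)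

theorem P_S_16_run_5_3_S_0_sh : P_S_16_run_5_3_S_0.all (shOne 5) = true := by decide +kernel

theorem W_S_16_run_5_3_S_0 (q r : ℕ) (h1 : q = 16) (h5 : r + 2 = q) : Want q r := by
  subst h1
  obtain ⟨hl, hc⟩ := P_S_16_run_5_3_S_0_fam
  have hI := inst_one P_S_16_run_5_3_S_0 5 16 5 r 0 (by omega) (by omega) (by omega) (by decide +kernel) (by decide) (by omega) (by decide +kernel) P_S_16_run_5_3_S_0_sh hl hc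
  exact class_t _ _ (by omega) (tmod _ _ (by omega) (by omega)) hI.1 

def P_S_12_run_7_2_S_4_231_242 : Pat 2 :=
  ⟨[⟨⟨[.inl 0, .inr 0, .inl 6, .inl 4, .inl 1, .inr 1, .inl 3, .inl 5, .inl 2, .inl 7], [], [7, 5, 6, 2, 1, 4, 3, 0], [], [], []⟩, [-3, -5], [5, 4]⟩,
    ⟨⟨[.inl 0, .inl 3, .inl 2, .inl 5, .inl 4, .inr 1, .inl 6, .inl 1, .inr 0, .inl 7], [], [7, 2, 3, 4, 5, 6, 1, 0], [], [], []⟩, [-5, -2], [5, 2]⟩,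
    ⟨⟨[.inl 0, .inl 3, .inr 0, .inl 5, .inl 6, .inl 4, .inl 1, .inl 2, .inr 1, .inl 7], [], [7, 5, 3, 4, 6, 1, 2, 0], [], [], []⟩, [1, -4], [5, 3]⟩,
    ⟨⟨[.inl 0, .inr 0, .inl 2, .inl 1, .inl 3, .inl 5, .inl 6, .inl 4, .inr 1, .inl 7], [], [7, 4, 3, 1, 2, 6, 5, 0], [], [3], []⟩, [-5, -2], [-1, 3]⟩,
    ⟨⟨[.inl 0, .inr 0, .inl 6, .inl 1, .inl 2, .inr 1, .inl 4, .inl 3, .inl 5, .inl 7], [], [7, 3, 4, 1, 6, 2, 5, 0], [], [2], [1]⟩, [-5, -4], [5, 4]⟩,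
    ⟨⟨[.inl 0, .inl 5, .inl 1, .inr 0, .inl 6, .inl 3, .inl 2, .inl 4, .inr 1, .inl 7], [], [7, 2, 3, 5, 6, 4, 1, 0], [], [], []⟩, [-5, -3], [5, 2]⟩,
    ⟨⟨[.inl 0, .inl 4, .inr 1, .inl 6, .inl 5, .inl 3, .inl 1, .inl 2, .inr 0, .inl 7], [], [7, 2, 5, 4, 3, 6, 1, 0], [], [7], []⟩, [-5, -3], [5, 4]⟩,
    ⟨⟨[.inl 0, .inr 0, .inl 2, .inl 1, .inl 4, .inl 5, .inr 1, .inl 6, .inl 3, .inl 7], [], [7, 6, 4, 2, 1, 3, 5, 0], [], [], []⟩, [-5, -2], [1, 5]⟩,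
    ⟨⟨[.inl 0, .inr 1, .inl 3, .inl 1, .inr 0, .inl 6, .inl 2, .inl 5, .inl 4, .inl 7], [], [7, 2, 3, 1, 5, 6, 4, 0], [], [], []⟩, [-1, -4], [5, 1]⟩,
    ⟨⟨[.inl 0, .inl 2, .inr 1, .inl 5, .inl 1, .inr 0, .inl 3, .inl 4, .inl 6, .inl 7], [], [7, 4, 6, 2, 1, 5, 3, 0], [], [], []⟩, [-5, -1], [3, 2]⟩,
    ⟨⟨[.inl 0, .inl 4, .inl 1, .inr 0, .inl 5, .inl 3, .inl 2, .inr 1, .inl 6, .inl 7], [], [7, 4, 5, 6, 1, 3, 2, 0], [], [], []⟩, [-5, -4], [5, 4]⟩,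
    ⟨⟨[.inl 0, .inl 3, .inr 1, .inl 6, .inl 4, .inl 1, .inl 2, .inr 0, .inl 5, .inl 7], [], [7, 3, 2, 5, 4, 6, 1, 0], [], [], []⟩, [-5, -2], [5, 2]⟩],
   [⟨⟨[.inl 0, .inl 3, .inr 1, .inl 6, .inl 4, .inl 1, .inl 2, .inr 0, .inl 5, .inl 7], [], [7, 3, 2, 5, 4, 6, 1, 0], [], [], []⟩, [-5, -2], [5, 2]⟩]⟩

theorem P_S_12_run_7_2_S_4_231_242_fam : P_S_12_run_7_2_S_4_231_242.loc 7 12 = true ∧ P_S_12_run_7_2_S_4_231_242.conn 12 = true :=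
  one_fam P_S_12_run_7_2_S_4_231_242 [6, 2, 0, 3, 4] 7 12 (by decide) (by decide +kernel) (by decide +kernel)

theorem P_S_12_run_7_2_S_4_231_242_sh : P_S_12_run_7_2_S_4_231_242.all (shOne 7) = true := by decide +kernel

def S_S_12_run_7_2_S_4_231_242_0 : SpD 2 := ⟨2, .inl 2, [(-3, .inl 4), (2, .inr 1), (-2, .inl 1)], [(0, -2)]⟩

theorem S_S_12_run_7_2_S_4_231_242_0_fam : S_S_12_run_7_2_S_4_231_242_0.chk 4 12 (P_S_12_run_7_2_S_4_231_242.acc 12 S_S_12_run_7_2_S_4_231_242_0.i0) = true := by decide +kernel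

def S_S_12_run_7_2_S_4_231_242_1 : SpD 2 := ⟨2, .inl 2, [(-3, .inl 4), (2, .inr 1), (-2, .inl 1)], [(0, -2), (1, 1)]⟩

theorem S_S_12_run_7_2_S_4_231_242_1_fam : S_S_12_run_7_2_S_4_231_242_1.chk 4 12 (P_S_12_run_7_2_S_4_231_242.acc 12 S_S_12_run_7_2_S_4_231_242_1.i0) = true := by decide +kernel

theorem W_S_12_run_7_2_S_4_231_242 (q r : ℕ) (h1 : q = 12) (h5 : r + 5 = q) : Want q r := by
  subst h1
  obtain ⟨hl, hc⟩ := P_S_12_run_7_2_S_4_231_242_fam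
  have hI := inst_one P_S_12_run_7_2_S_4_231_242 7 12 7 r 4 (by omega) (by omega) (by omega) (by decide +kernel) (by decide) (by omega) (by decide +kernel) P_S_12_run_7_2_S_4_231_242_sh hl hc
  exact class_d _ _ (by omega) (by omega) (by omega) hI.1 (hI.2 S_S_12_run_7_2_S_4_231_242_0 4 2 (by decide) (by show (2 : ℕ) < _; omega) S_S_12_run_7_2_S_4_231_242_0_fam (blk_2_3_m2 _ (by omega) (by omega))) (hI.2 S_S_12_run_7_2_S_4_231_242_1 4 3 (by decide) (by show (2 : ℕ) < _; omega) S_S_12_run_7_2_S_4_231_242_1_fam (blk_3_3_m2_1 _ (by omega) (by omega)))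

def P_S_11_odd_3_2_S_5_231_242_253 : Pat 2 :=
  ⟨[⟨⟨[.inl 1, .inr 0, .inl 2, .inl 3], [.inl (-1), .inr 1, .inl (-2), .inl 0, .inl (-3)], [-3, -2, 2, 0, -1], [3, 1], [], []⟩, [-1, -3], [1, -4]⟩,
    ⟨⟨[.inl 1, .inr 0, .inl (-2), .inl 0, .inr 1, .inl 2, .inl 3], [.inl (-1), .inl (-3)], [-3, -2, 0, -1], [3, 2, 1], [], []⟩, [-1, 2], [-4, 4]⟩,
    ⟨⟨[.inl 1, .inl 0, .inr 1, .inl (-2), .inr 0, .inl 2, .inl 3], [.inl (-1), .inl (-3)], [-3, -2, -1], [3, 0, 2, 1], [], []⟩, [1, -3], [2, -4]⟩,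
    ⟨⟨[.inl 1, .inl 0, .inr 1, .inl (-2), .inl 3], [.inl (-1), .inl 2, .inr 0, .inl (-3)], [-3, 0, 2, -2, -1], [3, 1], [-2], []⟩, [2, 3], [-1, -2]⟩,
    ⟨⟨[.inl 1, .inl (-2), .inl 3], [.inl (-1), .inr 0, .inl 0, .inr 1, .inl 2, .inl (-3)], [-3, 2, 0, -2, -1], [3, 1], [2], [1, 0]⟩, [-2, 3], [2, 2]⟩,
    ⟨⟨[.inl 1, .inr 0, .inl 0, .inl (-2), .inr 1, .inl 3], [.inl (-1), .inl 2, .inl (-3)], [-3, -1], [3, -2, 0, 2, 1], [-2], []⟩, [3, -4], [-2, 5]⟩,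
    ⟨⟨[.inl 1, .inl (-2), .inr 0, .inl 2, .inl 3], [.inl (-1), .inl 0, .inr 1, .inl (-3)], [-3, -1], [3, 2, 0, -2, 1], [], []⟩, [-2, -2], [1, -3]⟩,
    ⟨⟨[.inl 1, .inr 0, .inl 0, .inl 3], [.inl (-1), .inl 2, .inr 1, .inl (-2), .inl (-3)], [-3, 0, -2, -1], [3, 2, 1], [], []⟩, [-1, 4], [2, -3]⟩,
    ⟨⟨[.inl 1, .inl 0, .inl 3], [.inl (-1), .inr 1, .inl 2, .inr 0, .inl (-2), .inl (-3)], [-3, -1], [3, -2, 0, 2, 1], [], []⟩, [4, 1], [-3, 3]⟩,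
    ⟨⟨[.inl 1, .inl 3], [.inl (-1), .inl 2, .inr 1, .inl (-2), .inr 0, .inl 0, .inl (-3)], [-3, -2, 2, 0, -1], [3, 1], [], []⟩, [-2, 4], [1, -1]⟩,
    ⟨⟨[.inl 1, .inl (-2), .inr 1, .inl 3], [.inl (-1), .inr 0, .inl 2, .inl 0, .inl (-3)], [-3, -2, 2, -1], [3, 0, 1], [], []⟩, [-1, -5], [1, 3]⟩],
   [⟨⟨[.inl 1, .inl (-2), .inr 1, .inl 3], [.inl (-1), .inr 0, .inl 2, .inl 0, .inl (-3)], [-3, -2, 2, -1], [3, 0, 1], [], []⟩, [-1, -5], [1, 3]⟩]⟩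

theorem P_S_11_odd_3_2_S_5_231_242_253_fam : P_S_11_odd_3_2_S_5_231_242_253.loc 5 11 = true ∧ P_S_11_odd_3_2_S_5_231_242_253.conn 11 = true :=
  one_fam P_S_11_odd_3_2_S_5_231_242_253 [-2, 2, 0, -1] 5 11 (by decide) (by decide +kernel) (by decide +kernel)

theorem P_S_11_odd_3_2_S_5_231_242_253_sh : P_S_11_odd_3_2_S_5_231_242_253.all (shTwo (0) 3 false) = true := by decide +kernel

def S_S_11_odd_3_2_S_5_231_242_253_0 : SpD 2 := ⟨2, .inl 2, [(2, .inr 1), (5, .inl 3), (3, .inl 1), (2, .inr 0)], [(1, 1)]⟩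

theorem S_S_11_odd_3_2_S_5_231_242_253_0_fam : S_S_11_odd_3_2_S_5_231_242_253_0.chk 5 11 (P_S_11_odd_3_2_S_5_231_242_253.acc 11 S_S_11_odd_3_2_S_5_231_242_253_0.i0) = true := by decide +kernel

def S_S_11_odd_3_2_S_5_231_242_253_1 : SpD 2 := ⟨5, .inl (-2), [(-1, .inr 0), (-3, .inl (-1)), (-1, .inr 1), (2, .inl 0)], [(0, -2), (2, 1)]⟩

theorem S_S_11_odd_3_2_S_5_231_242_253_1_fam : S_S_11_odd_3_2_S_5_231_242_253_1.chk 3 11 (P_S_11_odd_3_2_S_5_231_242_253.acc 11 S_S_11_odd_3_2_S_5_231_242_253_1.i0) = true := by decide +kernel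

def S_S_11_odd_3_2_S_5_231_242_253_2 : SpD 2 := ⟨2, .inl 2, [(2, .inr 1), (5, .inl 3), (3, .inl 1), (2, .inr 0)], [(0, -3), (1, 1), (2, -5)]⟩

theorem S_S_11_odd_3_2_S_5_231_242_253_2_fam : S_S_11_odd_3_2_S_5_231_242_253_2.chk 5 11 (P_S_11_odd_3_2_S_5_231_242_253.acc 11 S_S_11_odd_3_2_S_5_231_242_253_2.i0) = true := by decide +kernel

theorem W_S_11_odd_3_2_S_5_231_242_253 (q r : ℕ) (h1 : q = 11) (h3 : (q + r) % 4 = 3) (h4 : 2 ≤ r) (h5 : r + 7 ≤ q) : Want q r := by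
  subst h1
  obtain ⟨hl, hc⟩ := P_S_11_odd_3_2_S_5_231_242_253_fam
  have hev : decide (Even ((((11 - 1) / 2) - (r - 2) / 2) - 3)) = false := by
    simp only [Nat.even_iff, decide_eq_false_iff_not]
    omega
  have hI := inst_two P_S_11_odd_3_2_S_5_231_242_253 5 11 (0) 3 (((11 - 1) / 2) - (r - 2) / 2) ((11 - 1) / 2) r 5 (by decide) (by omega) (by decide) (by omega) (by omega) (by omega) (by omega) (by decide +kernel) (by decide) (by omega) (by decide +kernel) (by rw [hev]; exact P_S_11_odd_3_2_S_5_231_242_253_sh) hl hc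
  exact class_f _ _ (by omega) (by omega) (by omega) hI.1 (hI.2 S_S_11_odd_3_2_S_5_231_242_253_0 5 2 (by decide) (by show (2 : ℕ) < _; omega) S_S_11_odd_3_2_S_5_231_242_253_0_fam (blk_2_3_1 _ (by omega) (by omega))) (hI.2 S_S_11_odd_3_2_S_5_231_242_253_1 3 3 (by decide) (by show (5 : ℕ) < _; omega) S_S_11_odd_3_2_S_5_231_242_253_1_fam (blk_3_3_m2_1 _ (by omega) (by omega))) (hI.2 S_S_11_odd_3_2_S_5_231_242_253_2 5 4 (by decide) (by show (2 : ℕ) < _; omega) S_S_11_odd_3_2_S_5_231_242_253_2_fam (blk_4_3_m3_1_m5 _ (by omega) (by omega)))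

def P_S_9_run_4_2_S_4_232 : Pat 2 :=
  ⟨[⟨⟨[.inl 0, .inr 1, .inl 3, .inl 2, .inl 1, .inr 0, .inl 4], [], [4, 1, 2, 3, 0], [], [], []⟩, [-1, -3], [2, 1]⟩,
    ⟨⟨[.inl 0, .inl 1, .inr 0, .inl 2, .inr 1, .inl 3, .inl 4], [], [4, 3, 2, 1, 0], [], [], []⟩, [-3, -1], [3, 2]⟩,
    ⟨⟨[.inl 0, .inr 1, .inl 3, .inl 1, .inl 2, .inr 0, .inl 4], [], [4, 1, 2, 3, 0], [], [], []⟩, [-2, -3], [1, 3]⟩,
    ⟨⟨[.inl 0, .inl 2, .inl 1, .inr 1, .inl 3, .inr 0, .inl 4], [], [4, 3, 2, 1, 0], [], [2], []⟩, [-1, -2], [3, 1]⟩,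
    ⟨⟨[.inl 0, .inl 1, .inr 0, .inl 2, .inr 1, .inl 3, .inl 4], [], [4, 2, 3, 1, 0], [], [2], [0]⟩, [-3, -1], [1, 3]⟩,
    ⟨⟨[.inl 0, .inr 1, .inl 3, .inl 2, .inl 1, .inr 0, .inl 4], [], [4, 1, 2, 3, 0], [], [4], []⟩, [-1, -3], [3, 1]⟩,
    ⟨⟨[.inl 0, .inl 1, .inr 0, .inl 2, .inr 1, .inl 3, .inl 4], [], [4, 3, 2, 1, 0], [], [], []⟩, [-3, -1], [1, 3]⟩,
    ⟨⟨[.inl 0, .inr 1, .inl 3, .inl 2, .inl 1, .inr 0, .inl 4], [], [4, 1, 2, 3, 0], [], [], []⟩, [-1, -3], [3, 1]⟩,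
    ⟨⟨[.inl 0, .inl 1, .inr 0, .inl 2, .inr 1, .inl 3, .inl 4], [], [4, 3, 2, 1, 0], [], [], []⟩, [-3, -1], [1, 3]⟩],
   [⟨⟨[.inl 0, .inl 1, .inr 0, .inl 2, .inr 1, .inl 3, .inl 4], [], [4, 3, 2, 1, 0], [], [], []⟩, [-3, -1], [1, 3]⟩]⟩

theorem P_S_9_run_4_2_S_4_232_fam : P_S_9_run_4_2_S_4_232.loc 4 9 = true ∧ P_S_9_run_4_2_S_4_232.conn 9 = true :=
  one_fam P_S_9_run_4_2_S_4_232 [3, 1, 2] 4 9 (by decide) (by decide +kernel) (by decide +kernel)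

theorem P_S_9_run_4_2_S_4_232_sh : P_S_9_run_4_2_S_4_232.all (shOne 4) = true := by decide +kernel

def S_S_9_run_4_2_S_4_232_0 : SpD 2 := ⟨2, .inl 2, [(-1, .inl 3), (2, .inr 0), (-1, .inl 1)], [(0, -2), (1, 1)]⟩

theorem S_S_9_run_4_2_S_4_232_0_fam : S_S_9_run_4_2_S_4_232_0.chk 3 9 (P_S_9_run_4_2_S_4_232.acc 9 S_S_9_run_4_2_S_4_232_0.i0) = true := by decide +kernel

theorem W_S_9_run_4_2_S_4_232 (q r : ℕ) (h1 : q = 9) (h5 : r + 2 = q) : Want q r := by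
  subst h1
  obtain ⟨hl, hc⟩ := P_S_9_run_4_2_S_4_232_fam
  have hI := inst_one P_S_9_run_4_2_S_4_232 4 9 4 r 4 (by omega) (by omega) (by omega) (by decide +kernel) (by decide) (by omega) (by decide +kernel) P_S_9_run_4_2_S_4_232_sh hl hc
  exact class_a _ _ (by omega) (by omega) (by omega) hI.1 (hI.2 S_S_9_run_4_2_S_4_232_0 3 2 (by decide) (by show (2 : ℕ) < _; omega) S_S_9_run_4_2_S_4_232_0_fam (blk_2_0_m2_1 _ (by omega) (by omega)))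

end Pool.Agent.Helper201_K3
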