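import Pool.Agent.Helper201_K3.TabBlocks
import Pool.Agent.Helper201_K3.Wrap2
import Pool.Agent.Helper201_K3.Tab09

set_option autoImplicit false

namespace Pool.Agent.Helper201_K3

def P_Fc_d5_odd_3_4_S_5_17_9_4_333 : Pat 4 :=
  ⟨[⟨⟨[.inl 1, .inl 0, .inr 2, .inl (-2), .inr 1, .inl 2, .inr 0, .inl 3], [.inl (-1), .inr 3, .inl (-3)], [-3, -1], [3, 2, -2, 0, 1], [], []⟩, [-1, -4, 2, 2], [3, 4, -2, -2]⟩,
    ⟨⟨[.inl 1, .inl 2, .inr 2, .inl (-2), .inr 1, .inl 0, .inr 0, .inl 3], [.inl (-1), .inr 3, .inl (-3)], [-3, -1], [3, 0, -2, 2, 1], [], []⟩, [-3, -2, 4, 2], [1, 2, -4, -2]⟩,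
    ⟨⟨[.inl 1, .inl 0, .inr 2, .inl (-2), .inr 1, .inl 2, .inr 0, .inl 3], [.inl (-1), .inr 3, .inl (-3)], [-3, -1], [3, 2, -2, 0, 1], [], []⟩, [-1, -4, 2, 2], [2, 3, -2, -2]⟩,
    ⟨⟨[.inl 1, .inr 2, .inl (-2), .inr 1, .inl 2, .inl 0, .inr 0, .inl 3], [.inl (-1), .inr 3, .inl (-3)], [-3, -1], [3, 0, -2, 2, 1], [0], []⟩, [-3, -2, 3, 2], [3, 4, -4, -2]⟩,
    ⟨⟨[.inl 1, .inl 2, .inr 2, .inl (-2), .inr 1, .inl 0, .inr 0, .inl 3], [.inl (-1), .inr 3, .inl (-3)], [-3, -1], [3, 2, 0, -2, 1], [2], [0]⟩, [-2, -4, 4, 2], [1, 2, -2, -2]⟩,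
    ⟨⟨[.inl 1, .inl 0, .inr 2, .inl (-2), .inr 1, .inl 2, .inr 0, .inl 3], [.inl (-1), .inr 3, .inl (-3)], [-3, -1], [3, 2, -2, 0, 1], [3], [1]⟩, [-1, -3, 2, 2], [3, 4, -4, -2]⟩,
    ⟨⟨[.inl 1, .inl 2, .inr 2, .inl (-2), .inr 1, .inl 0, .inr 0, .inl 3], [.inl (-1), .inr 3, .inl (-3)], [-3, -1], [3, 0, -2, 2, 1], [], []⟩, [-3, -2, 4, 2], [1, 2, -3, -2]⟩,
    ⟨⟨[.inl 1, .inl 0, .inr 2, .inl (-2), .inr 1, .inl 2, .inr 0, .inl 3], [.inl (-1), .inr 3, .inl (-3)], [-3, -1], [3, 2, -2, 0, 1], [], []⟩, [-1, -4, 2, 2], [3, 4, -2, -2]⟩,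
    ⟨⟨[.inl 1, .inl 2, .inr 2, .inl (-2), .inr 1, .inl 0, .inr 0, .inl 3], [.inl (-1), .inr 3, .inl (-3)], [-3, -1], [3, 0, -2, 2, 1], [], []⟩, [-3, -2, 4, 2], [1, 2, -4, -2]⟩],
   [⟨⟨[.inl 1, .inl 0, .inr 2, .inl (-2), .inr 1, .inl 2, .inr 0, .inl 3], [.inl (-1), .inr 3, .inl (-3)], [-3, -1], [3, 2, -2, 0, 1], [], []⟩, [-1, -4, 2, 2], [3, 4, -2, -2]⟩,
    ⟨⟨[.inl 1, .inl 2, .inr 2, .inl (-2), .inr 1, .inl 0, .inr 0, .inl 3], [.inl (-1), .inr 3, .inl (-3)], [-3, -1], [3, 0, -2, 2, 1], [], []⟩, [-3, -2, 4, 2], [1, 2, -4, -2]⟩,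
    ⟨⟨[.inl 1, .inl 0, .inr 2, .inl (-2), .inr 1, .inl 2, .inr 0, .inl 3], [.inl (-1), .inr 3, .inl (-3)], [-3, -1], [3, 2, -2, 0, 1], [], []⟩, [-1, -4, 2, 2], [3, 4, -2, -2]⟩,
    ⟨⟨[.inl 1, .inl 2, .inr 2, .inl (-2), .inr 1, .inl 0, .inr 0, .inl 3], [.inl (-1), .inr 3, .inl (-3)], [-3, -1], [3, 0, -2, 2, 1], [], []⟩, [-3, -2, 4, 2], [1, 2, -4, -2]⟩]⟩

theorem P_Fc_d5_odd_3_4_S_5_17_9_4_333_l0 : P_Fc_d5_odd_3_4_S_5_17_9_4_333.locC [-2, -1, 3] 4 (17 + 0 * 4) = true := by decide +kernel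

theorem P_Fc_d5_odd_3_4_S_5_17_9_4_333_l1 : P_Fc_d5_odd_3_4_S_5_17_9_4_333.locC [-2, -1, 3] 4 (17 + 1 * 4) = true := by decide +kernel

theorem P_Fc_d5_odd_3_4_S_5_17_9_4_333_fam : ∀ t : ℕ, P_Fc_d5_odd_3_4_S_5_17_9_4_333.loc 4 (17 + t * 4) = true ∧ P_Fc_d5_odd_3_4_S_5_17_9_4_333.conn (17 + t * 4) = true :=
  fam_ext2 P_Fc_d5_odd_3_4_S_5_17_9_4_333 [-2, -1, 3] 4 17 1 4 4 (by decide) (by decide) (by decide) (by decide) (by decide) (by decide +kernel) (by decide)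
    (by
      intro t ht
      interval_cases t
      · exact P_Fc_d5_odd_3_4_S_5_17_9_4_333_l0
      · exact P_Fc_d5_odd_3_4_S_5_17_9_4_333_l1)
    (by decide +kernel)

theorem P_Fc_d5_odd_3_4_S_5_17_9_4_333_sh : P_Fc_d5_odd_3_4_S_5_17_9_4_333.all (shTwo (0) 3 false) = true := by decide +kernel

def S_Fc_d5_odd_3_4_S_5_17_9_4_333_0 : SpD 4 := ⟨3, .inl 0, [(2, .inr 1), (-1, .inl 1), (1, .inr 0), (-1, .inl 2)], [(0, -2), (1, -5), (2, 1)]⟩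

theorem S_Fc_d5_odd_3_4_S_5_17_9_4_333_0_fam : ∀ t : ℕ, S_Fc_d5_odd_3_4_S_5_17_9_4_333_0.chk 2 (17 + t * 4) (P_Fc_d5_odd_3_4_S_5_17_9_4_333.acc (17 + t * 4) S_Fc_d5_odd_3_4_S_5_17_9_4_333_0.i0) = true :=
  sp_fam P_Fc_d5_odd_3_4_S_5_17_9_4_333 S_Fc_d5_odd_3_4_S_5_17_9_4_333_0 2 17 1 4 (by decide) (by decide) (by decide) (by decide) (by decide +kernel)

theorem W_Fc_d5_odd_3_4_S_5_17_9_4_333 (q r : ℕ) (h1 : 17 ≤ q) (h2 : q % 4 = 1) (h3 : (q + r) % 4 = 1) (h4 : 4 ≤ r) (h5 : r + 5 ≤ q) : Want q r := by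
  obtain ⟨t, rfl⟩ : ∃ t : ℕ, q = 17 + t * 4 := ⟨(q - 17) / 4, by omega⟩
  obtain ⟨hl, hc⟩ := P_Fc_d5_odd_3_4_S_5_17_9_4_333_fam t
  have hev : decide (Even (((((17 + t * 4) - 1) / 2) - (r - 4) / 2) - 3)) = false := by
    simp only [Nat.even_iff, decide_eq_false_iff_not]
    omega
  have hI := inst_two P_Fc_d5_odd_3_4_S_5_17_9_4_333 4 (17 + t * 4) (0) 3 ((((17 + t * 4) - 1) / 2) - (r - 4) / 2) (((17 + t * 4) - 1) / 2) r 5 (by decide) (by omega) (by decide) (by omega) (by omega) (by omega) (by omega) (by decide +kernel) (by decide) (by omega) (by decide +kernel) (by rw [hev]; exact P_Fc_d5_odd_3_4_S_5_17_9_4_333_sh) hl hc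
  exact class_c _ _ (by omega) (by omega) (by omega) hI.1 (hI.2 S_Fc_d5_odd_3_4_S_5_17_9_4_333_0 2 2 (by decide) (by show (3 : ℕ) < _; omega) (S_Fc_d5_odd_3_4_S_5_17_9_4_333_0_fam t) (blk_2_1_m2_m5_1 _ (by omega) (by omega)))

def P_Ff_d3_run_5_2_S_5_19_7_4_231_242_253 : Pat 2 :=
  ⟨[⟨⟨[.inl 0, .inr 0, .inl 2, .inl 3, .inl 4, .inl 1, .inr 1, .inl 5], [], [5, 4, 3, 2, 1, 0], [], [], []⟩, [-1, -4], [4, 4]⟩,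
    ⟨⟨[.inl 0, .inr 0, .inl 4, .inl 3, .inl 2, .inl 1, .inr 1, .inl 5], [], [5, 1, 2, 3, 4, 0], [], [], []⟩, [-4, -4], [4, 4]⟩,
    ⟨⟨[.inl 0, .inl 4, .inr 0, .inl 1, .inr 1, .inl 2, .inl 3, .inl 5], [], [5, 1, 4, 3, 2, 0], [], [2], []⟩, [3, -3], [1, 1]⟩,
    ⟨⟨[.inl 0, .inr 0, .inl 3, .inl 4, .inl 2, .inl 1, .inr 1, .inl 5], [], [5, 2, 3, 4, 1, 0], [], [], []⟩, [-1, -1], [3, 4]⟩,
    ⟨⟨[.inl 0, .inr 0, .inl 4, .inl 3, .inl 2, .inl 1, .inr 1, .inl 5], [], [5, 4, 3, 2, 1, 0], [], [1], [0]⟩, [-4, -4], [4, 4]⟩,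
    ⟨⟨[.inl 0, .inr 0, .inl 1, .inr 1, .inl 2, .inl 3, .inl 4, .inl 5], [], [5, 1, 2, 3, 4, 0], [], [1], []⟩, [-4, -4], [-3, 1]⟩,
    ⟨⟨[.inl 0, .inr 0, .inl 1, .inr 1, .inl 4, .inl 3, .inl 2, .inl 5], [], [5, 1, 4, 2, 3, 0], [], [4], []⟩, [-3, -1], [1, 3]⟩],
   [⟨⟨[.inl 0, .inr 0, .inl 2, .inl 3, .inl 4, .inl 1, .inr 1, .inl 5], [], [5, 4, 3, 2, 1, 0], [], [], []⟩, [-1, -4], [2, 4]⟩,
    ⟨⟨[.inl 0, .inr 0, .inl 4, .inl 3, .inl 2, .inl 1, .inr 1, .inl 5], [], [5, 1, 2, 3, 4, 0], [], [], []⟩, [-4, -4], [4, 4]⟩,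
    ⟨⟨[.inl 0, .inr 0, .inl 1, .inr 1, .inl 2, .inl 3, .inl 4, .inl 5], [], [5, 1, 4, 3, 2, 0], [], [], []⟩, [-2, -3], [1, 1]⟩,
    ⟨⟨[.inl 0, .inr 0, .inl 1, .inr 1, .inl 4, .inl 3, .inl 2, .inl 5], [], [5, 2, 3, 4, 1, 0], [], [], []⟩, [-1, -1], [1, 3]⟩]⟩

theorem P_Ff_d3_run_5_2_S_5_19_7_4_231_242_253_l0 : P_Ff_d3_run_5_2_S_5_19_7_4_231_242_253.locC [1, 0, 2] 5 (19 + 0 * 4) = true := by decide +kernel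

theorem P_Ff_d3_run_5_2_S_5_19_7_4_231_242_253_l1 : P_Ff_d3_run_5_2_S_5_19_7_4_231_242_253.locC [1, 0, 2] 5 (19 + 1 * 4) = true := by decide +kernel

theorem P_Ff_d3_run_5_2_S_5_19_7_4_231_242_253_fam : ∀ t : ℕ, P_Ff_d3_run_5_2_S_5_19_7_4_231_242_253.loc 5 (19 + t * 4) = true ∧ P_Ff_d3_run_5_2_S_5_19_7_4_231_242_253.conn (19 + t * 4) = true :=
  fam_ext2 P_Ff_d3_run_5_2_S_5_19_7_4_231_242_253 [1, 0, 2] 5 19 1 4 4 (by decide) (by decide) (by decide) (by decide) (by decide) (by decide +kernel) (by decide)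
    (by
      intro t ht
      interval_cases t
      · exact P_Ff_d3_run_5_2_S_5_19_7_4_231_242_253_l0
      · exact P_Ff_d3_run_5_2_S_5_19_7_4_231_242_253_l1)
    (by decide +kernel)

theorem P_Ff_d3_run_5_2_S_5_19_7_4_231_242_253_sh : P_Ff_d3_run_5_2_S_5_19_7_4_231_242_253.all (shOne 5) = true := by decide +kernel

def S_Ff_d3_run_5_2_S_5_19_7_4_231_242_253_0 : SpD 2 := ⟨2, .inl 4, [(2, .inl 3), (1, .inl 2), (2, .inr 0), (-2, .inl 0)], [(2, 1)]⟩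

theorem S_Ff_d3_run_5_2_S_5_19_7_4_231_242_253_0_fam : ∀ t : ℕ, S_Ff_d3_run_5_2_S_5_19_7_4_231_242_253_0.chk 4 (19 + t * 4) (P_Ff_d3_run_5_2_S_5_19_7_4_231_242_253.acc (19 + t * 4) S_Ff_d3_run_5_2_S_5_19_7_4_231_242_253_0.i0) = true :=
  sp_fam P_Ff_d3_run_5_2_S_5_19_7_4_231_242_253 S_Ff_d3_run_5_2_S_5_19_7_4_231_242_253_0 4 19 1 4 (by decide) (by decide) (by decide) (by decide) (by decide +kernel)

def S_Ff_d3_run_5_2_S_5_19_7_4_231_242_253_1 : SpD 2 := ⟨2, .inl 4, [(2, .inl 3), (1, .inl 2), (2, .inr 0), (-2, .inl 0)], [(1, 4), (2, 1)]⟩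

theorem S_Ff_d3_run_5_2_S_5_19_7_4_231_242_253_1_fam : ∀ t : ℕ, S_Ff_d3_run_5_2_S_5_19_7_4_231_242_253_1.chk 4 (19 + t * 4) (P_Ff_d3_run_5_2_S_5_19_7_4_231_242_253.acc (19 + t * 4) S_Ff_d3_run_5_2_S_5_19_7_4_231_242_253_1.i0) = true :=
  sp_fam P_Ff_d3_run_5_2_S_5_19_7_4_231_242_253 S_Ff_d3_run_5_2_S_5_19_7_4_231_242_253_1 4 19 1 4 (by decide) (by decide) (by decide) (by decide) (by decide +kernel)

def S_Ff_d3_run_5_2_S_5_19_7_4_231_242_253_2 : SpD 2 := ⟨2, .inl 4, [(2, .inl 3), (1, .inl 2), (2, .inr 0), (-2, .inl 0)], [(0, 5), (1, 4), (2, 1)]⟩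

theorem S_Ff_d3_run_5_2_S_5_19_7_4_231_242_253_2_fam : ∀ t : ℕ, S_Ff_d3_run_5_2_S_5_19_7_4_231_242_253_2.chk 4 (19 + t * 4) (P_Ff_d3_run_5_2_S_5_19_7_4_231_242_253.acc (19 + t * 4) S_Ff_d3_run_5_2_S_5_19_7_4_231_242_253_2.i0) = true :=
  sp_fam P_Ff_d3_run_5_2_S_5_19_7_4_231_242_253 S_Ff_d3_run_5_2_S_5_19_7_4_231_242_253_2 4 19 1 4 (by decide) (by decide) (by decide) (by decide) (by decide +kernel)

theorem W_Ff_d3_run_5_2_S_5_19_7_4_231_242_253 (q r : ℕ) (h1 : 19 ≤ q) (h2 : q % 4 = 3) (h5 : r + 3 = q) : Want q r := by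
  obtain ⟨t, rfl⟩ : ∃ t : ℕ, q = 19 + t * 4 := ⟨(q - 19) / 4, by omega⟩
  obtain ⟨hl, hc⟩ := P_Ff_d3_run_5_2_S_5_19_7_4_231_242_253_fam t
  have hI := inst_one P_Ff_d3_run_5_2_S_5_19_7_4_231_242_253 5 (19 + t * 4) 5 r 5 (by omega) (by omega) (by omega) (by decide +kernel) (by decide) (by omega) (by decide +kernel) P_Ff_d3_run_5_2_S_5_19_7_4_231_242_253_sh hl hc
  exact class_f _ _ (by omega) (by omega) (by omega) hI.1 (hI.2 S_Ff_d3_run_5_2_S_5_19_7_4_231_242_253_0 4 2 (by decide) (by show (2 : ℕ) < _; omega) (S_Ff_d3_run_5_2_S_5_19_7_4_231_242_253_0_fam t) (blk_2_3_1 _ (by omega) (by omega))) (hI.2 S_Ff_d3_run_5_2_S_5_19_7_4_231_242_253_1 4 3 (by decide) (by show (2 : ℕ) < _; omega) (S_Ff_d3_run_5_2_S_5_19_7_4_231_242_253_1_fam t) (blk_3_3_4_1 _ (by omega) (by omega))) (hI.2 S_Ff_d3_run_5_2_S_5_19_7_4_231_242_253_2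 4 4 (by decide) (by show (2 : ℕ) < _; omega) (S_Ff_d3_run_5_2_S_5_19_7_4_231_242_253_2_fam t) (blk_4_3_5_4_1 _ (by omega) (by omega)))

def P_S_13_run_4_3_S_5_233 : Pat 3 :=
  ⟨[⟨⟨[.inl 0, .inr 1, .inl 1, .inr 2, .inl 3, .inl 2, .inr 0, .inl 4], [], [4, 2, 1, 3, 0], [], [], []⟩, [-1, -3, -2], [2, 1, 3]⟩,
    ⟨⟨[.inl 0, .inr 1, .inl 3, .inr 2, .inl 1, .inl 2, .inr 0, .inl 4], [], [4, 2, 3, 1, 0], [], [], [0]⟩, [2, -1, 1], [3, 2, 3]⟩,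
    ⟨⟨[.inl 0, .inl 1, .inr 1, .inl 3, .inr 2, .inl 2, .inr 0, .inl 4], [], [4, 3, 2, 1, 0], [], [1], []⟩, [-2, -3, 1], [1, 3, -1]⟩,
    ⟨⟨[.inl 0, .inr 2, .inl 2, .inl 3, .inr 0, .inl 1, .inr 1, .inl 4], [], [4, 1, 2, 3, 0], [], [1], []⟩, [-1, -2, -3], [-2, 1, -1]⟩,
    ⟨⟨[.inl 0, .inr 2, .inl 2, .inl 1, .inr 0, .inl 3, .inr 1, .inl 4], [], [4, 2, 3, 1, 0], [], [1], [2]⟩, [-3, -1, -3], [1, 3, 1]⟩,
    ⟨⟨[.inl 0, .inr 1, .inl 1, .inr 2, .inl 3, .inl 2, .inr 0, .inl 4], [], [4, 1, 2, 3, 0], [], [], []⟩, [-1, -3, -1], [2, 1, 3]⟩,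
    ⟨⟨[.inl 0, .inr 1, .inl 3, .inr 2, .inl 1, .inl 2, .inr 0, .inl 4], [], [4, 3, 2, 1, 0], [], [], []⟩, [1, -1, 2], [2, 3, 1]⟩,
    ⟨⟨[.inl 0, .inr 2, .inl 3, .inl 2, .inr 0, .inl 1, .inr 1, .inl 4], [], [4, 3, 2, 1, 0], [], [], []⟩, [-2, -3, -1], [-1, 1, 2]⟩,
    ⟨⟨[.inl 0, .inr 2, .inl 1, .inl 2, .inr 0, .inl 3, .inr 1, .inl 4], [], [4, 1, 2, 3, 0], [], [], []⟩, [-2, -1, -3], [1, 3, -2]⟩,
    ⟨⟨[.inl 0, .inr 1, .inl 1, .inr 2, .inl 3, .inl 2, .inr 0, .inl 4], [], [4, 2, 1, 3, 0], [], [], []⟩, [-1, -3, -2], [2, 1, 3]⟩,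
    ⟨⟨[.inl 0, .inr 1, .inl 3, .inr 2, .inl 1, .inl 2, .inr 0, .inl 4], [], [4, 2, 3, 1, 0], [], [], []⟩, [1, -1, 2], [2, 3, 1]⟩,
    ⟨⟨[.inl 0, .inr 2, .inl 3, .inl 2, .inr 0, .inl 1, .inr 1, .inl 4], [], [4, 3, 2, 1, 0], [], [], []⟩, [-2, -3, -1], [-1, 1, 2]⟩,
    ⟨⟨[.inl 0, .inr 2, .inl 1, .inl 2, .inr 0, .inl 3, .inr 1, .inl 4], [], [4, 1, 2, 3, 0], [], [], []⟩, [-2, -1, -3], [1, 3, -2]⟩],
   [⟨⟨[.inl 0, .inr 2, .inl 1, .inl 2, .inr 0, .inl 3, .inr 1, .inl 4], [], [4, 1, 2, 3, 0], [], [], []⟩, [-2, -1, -3], [1, 3, -2]⟩]⟩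

theorem P_S_13_run_4_3_S_5_233_fam : P_S_13_run_4_3_S_5_233.loc 4 13 = true ∧ P_S_13_run_4_3_S_5_233.conn 13 = true :=
  one_fam P_S_13_run_4_3_S_5_233 [3, 1, 2] 4 13 (by decide) (by decide +kernel) (by decide +kernel)

theorem P_S_13_run_4_3_S_5_233_sh : P_S_13_run_4_3_S_5_233.all (shOne 4) = true := by decide +kernel

def S_S_13_run_4_3_S_5_233_0 : SpD 3 := ⟨2, .inl 1, [(-1, .inr 0), (1, .inl 2), (2, .inr 2), (-1, .inl 0)], [(0, 5), (1, 4), (2, 3)]⟩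

theorem S_S_13_run_4_3_S_5_233_0_fam : S_S_13_run_4_3_S_5_233_0.chk 2 13 (P_S_13_run_4_3_S_5_233.acc 13 S_S_13_run_4_3_S_5_233_0.i0) = true := by decide +kernel

theorem W_S_13_run_4_3_S_5_233 (q r : ℕ) (h1 : q = 13) (h5 : r + 1 = q) : Want q r := by
  subst h1
  obtain ⟨hl, hc⟩ := P_S_13_run_4_3_S_5_233_fam
  have hI := inst_one P_S_13_run_4_3_S_5_233 4 13 4 r 5 (by omega) (by omega) (by omega) (by decide +kernel) (by decide) (by omega) (by decide +kernel) P_S_13_run_4_3_S_5_233_sh hl hc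
  exact class_c _ _ (by omega) (by omega) (by omega) hI.1 (hI.2 S_S_13_run_4_3_S_5_233_0 2 2 (by decide) (by show (2 : ℕ) < _; omega) S_S_13_run_4_3_S_5_233_0_fam (blk_2_1_5_4_3 _ (by omega) (by omega)))

def P_S_10_run_4_3_S_0 : Pat 3 :=
  ⟨[⟨⟨[.inl 0, .inr 1, .inl 1, .inr 0, .inl 3, .inl 2, .inr 2, .inl 4], [], [4, 2, 1, 3, 0], [], [], []⟩, [-2, -3, -2], [2, 1, 2]⟩,
    ⟨⟨[.inl 0, .inr 1, .inl 3, .inr 0, .inl 1, .inl 2, .inr 2, .inl 4], [], [4, 2, 3, 1, 0], [], [], []⟩, [2, -1, -2], [-2, 3, 2]⟩,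
    ⟨⟨[.inl 0, .inr 1, .inl 1, .inr 0, .inl 3, .inl 2, .inr 2, .inl 4], [], [4, 2, 1, 3, 0], [], [], []⟩, [-2, -3, -2], [2, 1, 2]⟩,
    ⟨⟨[.inl 0, .inr 1, .inl 3, .inr 0, .inl 1, .inl 2, .inr 2, .inl 4], [], [4, 2, 3, 1, 0], [], [], []⟩, [2, -1, -2], [-2, 3, 2]⟩,
    ⟨⟨[.inl 0, .inr 1, .inl 1, .inr 0, .inl 3, .inl 2, .inr 2, .inl 4], [], [4, 2, 1, 3, 0], [], [], []⟩, [-2, -3, -2], [2, 1, 3]⟩,
    ⟨⟨[.inl 0, .inr 1, .inl 3, .inr 0, .inl 1, .inl 2, .inr 2, .inl 4], [], [4, 2, 3, 1, 0], [], [], []⟩, [1, -1, -2], [-2, 3, 1]⟩,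
    ⟨⟨[.inl 0, .inr 1, .inl 1, .inr 0, .inl 2, .inl 3, .inr 2, .inl 4], [], [4, 2, 1, 3, 0], [], [], []⟩, [-2, -3, -1], [-1, 1, 2]⟩,
    ⟨⟨[.inl 0, .inr 1, .inl 3, .inr 0, .inl 2, .inl 1, .inr 2, .inl 4], [], [4, 2, 3, 1, 0], [], [], []⟩, [2, -1, -3], [1, 3, 2]⟩,
    ⟨⟨[.inl 0, .inr 1, .inl 1, .inr 0, .inl 3, .inl 2, .inr 2, .inl 4], [], [4, 1, 2, 3, 0], [], [], []⟩, [-1, -3, -2], [2, 1, 2]⟩,
    ⟨⟨[.inl 0, .inr 1, .inl 3, .inr 0, .inl 1, .inl 2, .inr 2, .inl 4], [], [4, 3, 2, 1, 0], [], [], []⟩, [2, -1, -2], [-2, 3, 2]⟩],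
   [⟨⟨[.inl 0, .inr 1, .inl 3, .inr 0, .inl 1, .inl 2, .inr 2, .inl 4], [], [4, 3, 2, 1, 0], [], [], []⟩, [2, -1, -2], [-2, 3, 2]⟩]⟩

theorem P_S_10_run_4_3_S_0_fam : P_S_10_run_4_3_S_0.loc 4 10 = true ∧ P_S_10_run_4_3_S_0.conn 10 = true :=
  one_fam P_S_10_run_4_3_S_0 [1, 2, 3] 4 10 (by decide) (by decide +kernel) (by decide +kernel)

theorem P_S_10_run_4_3_S_0_sh : P_S_10_run_4_3_S_0.all (shOne 4) = true := by decide +kernel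

theorem W_S_10_run_4_3_S_0 (q r : ℕ) (h1 : q = 10) (h5 : r + 1 = q) : Want q r := by
  subst h1
  obtain ⟨hl, hc⟩ := P_S_10_run_4_3_S_0_fam
  have hI := inst_one P_S_10_run_4_3_S_0 4 10 4 r 0 (by omega) (by omega) (by omega) (by decide +kernel) (by decide) (by omega) (by decide +kernel) P_S_10_run_4_3_S_0_sh hl hc
  exact class_t _ _ (by omega) (tmod _ _ (by omega) (by omega)) hI.1 

def P_S_10_run_4_2_S_0 : Pat 2 :=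
  ⟨[⟨⟨[.inl 0, .inr 0, .inl 3, .inl 2, .inl 1, .inr 1, .inl 4], [], [4, 3, 2, 1, 0], [], [], []⟩, [-1, -3], [3, 1]⟩,
    ⟨⟨[.inl 0, .inr 0, .inl 1, .inl 2, .inl 3, .inr 1, .inl 4], [], [4, 1, 2, 3, 0], [], [], []⟩, [-3, -1], [1, 3]⟩,
    ⟨⟨[.inl 0, .inr 0, .inl 3, .inl 2, .inl 1, .inr 1, .inl 4], [], [4, 3, 2, 1, 0], [], [], []⟩, [-1, -3], [3, 1]⟩,
    ⟨⟨[.inl 0, .inr 0, .inl 1, .inl 2, .inl 3, .inr 1, .inl 4], [], [4, 1, 2, 3, 0], [], [], []⟩, [-3, -1], [1, 3]⟩,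
    ⟨⟨[.inl 0, .inr 0, .inl 3, .inl 2, .inl 1, .inr 1, .inl 4], [], [4, 3, 2, 1, 0], [], [], []⟩, [-1, -3], [3, 1]⟩,
    ⟨⟨[.inl 0, .inr 0, .inl 1, .inl 2, .inl 3, .inr 1, .inl 4], [], [4, 1, 2, 3, 0], [], [], []⟩, [-3, -1], [1, 3]⟩,
    ⟨⟨[.inl 0, .inr 0, .inl 3, .inl 2, .inl 1, .inr 1, .inl 4], [], [4, 3, 2, 1, 0], [], [], []⟩, [-1, -3], [3, 1]⟩,
    ⟨⟨[.inl 0, .inr 0, .inl 1, .inl 2, .inl 3, .inr 1, .inl 4], [], [4, 1, 2, 3, 0], [], [], []⟩, [-3, -1], [1, 3]⟩,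
    ⟨⟨[.inl 0, .inr 0, .inl 3, .inl 2, .inl 1, .inr 1, .inl 4], [], [4, 3, 2, 1, 0], [], [], []⟩, [-1, -3], [3, 1]⟩,
    ⟨⟨[.inl 0, .inr 0, .inl 1, .inl 2, .inl 3, .inr 1, .inl 4], [], [4, 1, 2, 3, 0], [], [], []⟩, [-3, -1], [1, 3]⟩],
   [⟨⟨[.inl 0, .inr 0, .inl 1, .inl 2, .inl 3, .inr 1, .inl 4], [], [4, 1, 2, 3, 0], [], [], []⟩, [-3, -1], [1, 3]⟩]⟩

theorem P_S_10_run_4_2_S_0_fam : P_S_10_run_4_2_S_0.loc 4 10 = true ∧ P_S_10_run_4_2_S_0.conn 10 = true :=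
  one_fam P_S_10_run_4_2_S_0 [0, 4] 4 10 (by decide) (by decide +kernel) (by decide +kernel)

theorem P_S_10_run_4_2_S_0_sh : P_S_10_run_4_2_S_0.all (shOne 4) = true := by decide +kernel

theorem W_S_10_run_4_2_S_0 (q r : ℕ) (h1 : q = 10) (h5 : r + 2 = q) : Want q r := by
  subst h1
  obtain ⟨hl, hc⟩ := P_S_10_run_4_2_S_0_fam
  have hI := inst_one P_S_10_run_4_2_S_0 4 10 4 r 0 (by omega) (by omega) (by omega) (by decide +kernel) (by decide) (by omega) (by decide +kernel) P_S_10_run_4_2_S_0_sh hl hc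
  exact class_t _ _ (by omega) (tmod _ _ (by omega) (by omega)) hI.1 

def P_S_10_even_2_0_C_0 : Pat 0 :=
  ⟨[⟨⟨[.inl 0, .inl 1, .inl 2], [.inl (-1), .inl (-2), .inl (-3)], [2, -2, 1, -1], [-3, 0], [], []⟩, [], []⟩,
    ⟨⟨[.inl 0, .inl 1, .inl 2], [.inl (-1), .inl (-2), .inl (-3)], [2, -1], [-3, 1, -2, 0], [], []⟩, [], []⟩,
    ⟨⟨[.inl 0, .inl 1, .inl 2], [.inl (-1), .inl (-2), .inl (-3)], [2, -2, 1, -1], [-3, 0], [], []⟩, [], []⟩,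
    ⟨⟨[.inl 0, .inl 1, .inl 2], [.inl (-1), .inl (-2), .inl (-3)], [2, -1], [-3, 1, -2, 0], [], []⟩, [], []⟩,
    ⟨⟨[.inl 0, .inl 1, .inl 2], [.inl (-1), .inl (-2), .inl (-3)], [2, -2, 1, -1], [-3, 0], [], []⟩, [], []⟩,
    ⟨⟨[.inl 0, .inl 1, .inl 2], [.inl (-1), .inl (-2), .inl (-3)], [2, -1], [-3, 1, -2, 0], [], []⟩, [], []⟩,
    ⟨⟨[.inl 0, .inl 1, .inl 2], [.inl (-1), .inl (-2), .inl (-3)], [2, -2, 1, -1], [-3, 0], [], []⟩, [], []⟩,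
    ⟨⟨[.inl 0, .inl 1, .inl 2], [.inl (-1), .inl (-2), .inl (-3)], [2, -1], [-3, 1, -2, 0], [], []⟩, [], []⟩,
    ⟨⟨[.inl 0, .inl 1, .inl 2], [.inl (-1), .inl (-2), .inl (-3)], [2, -2, 1, -1], [-3, 0], [], []⟩, [], []⟩,
    ⟨⟨[.inl 0, .inl 1, .inl 2], [.inl (-1), .inl (-2), .inl (-3)], [2, -1], [-3, 1, -2, 0], [], []⟩, [], []⟩],
   [⟨⟨[.inl 0, .inl 1, .inl 2], [.inl (-1), .inl (-2), .inl (-3)], [2, -1], [-3, 1, -2, 0], [], []⟩, [], []⟩]⟩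

theorem P_S_10_even_2_0_C_0_fam : P_S_10_even_2_0_C_0.loc 4 10 = true ∧ P_S_10_even_2_0_C_0.conn 10 = true :=
  one_fam P_S_10_even_2_0_C_0 [] 4 10 (by decide) (by decide +kernel) (by decide +kernel)

theorem P_S_10_even_2_0_C_0_sh : P_S_10_even_2_0_C_0.all (shTwo (-1) 2 true) = true := by decide +kernel

theorem W_S_10_even_2_0_C_0 (q r : ℕ) (h1 : q = 10) (h3 : (q + r) % 4 = 2) (h4 : 0 ≤ r) (h5 : r + 6 ≤ q) : Want q r := by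
  subst h1
  obtain ⟨hl, hc⟩ := P_S_10_even_2_0_C_0_fam
  have hev : decide (Even ((((10 - 2) / 2) - (r - 0) / 2) - 2)) = true := by
    simp only [Nat.even_iff, decide_eq_true_eq]
    omega
  have hI := inst_two P_S_10_even_2_0_C_0 4 10 (-1) 2 (((10 - 2) / 2) - (r - 0) / 2) ((10 - 2) / 2) r 0 (by decide) (by omega) (by decide) (by omega) (by omega) (by omega) (by omega) (by decide +kernel) (by decide) (by omega) (by decide +kernel) (by rw [hev]; exact P_S_10_even_2_0_C_0_sh) hl hc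
  exact class_t _ _ (by omega) (tmod _ _ (by omega) (by omega)) hI.1 

end Pool.Agent.Helper201_K3
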